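import Pool.Agent.H15.HB.Kap

/-!
# HB-18  the amplitude  (project HB, MP_be4568)

`-(G+it)(κr + iκi) = (-Gκr + tκi) + i(-tκr - Gκi)`.  Derivative in `X`: `kap_deriv` (and `d/dX re = re d/dX`), `amp' = amp (-kap'/2 - 2/(2ψ-1))`.
Bounds for `Y ≤ X ≤ 2Y`, `η = 4Y²/T`, `40 Y ≤ T` (so `10 η ≤ Y`): `|Am| ≤ e^{11} · 13/X` (`exponent_le`, `kap_re_ge`, `amp_le`; `η T = 4Y² ≤ 4X²`);
`|re kap'| ≤ |kap'| ≤ 4/X²`, `|im kap'| ≤ 4η/X³` (`kap' = -(a + ib)/(a²+b²)`, `b = 2Xη`, `a² + b² ≥ X⁴/2`),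
so `t |im kap'| ≤ 2T · 4 · (4Y²/T)/Y³ = 32/Y`, `G |kap'| ≤ 4 K Y/Y²`, `|kap'|/2 + 2/|2ψ-1| ≤ C/Y`.
-/

set_option autoImplicit false

open Complex Filter Topology MeasureTheory Set
open scoped ComplexConjugate

namespace Pool.Agent.H15.HB

/-- amplitude: `Psi = Am · e^{-i t re kap}` -/
noncomputable def Am (G t η X : ℝ) : ℂ :=
  ((Real.exp (-(G * (kap (pt X η)).re) + t * (kap (pt X η)).im) : ℝ) : ℂ) *
    cexp (-(I * G * ((kap (pt X η)).im : ℂ))) * amp (pt X η)

/-- its derivative in `X` -/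
noncomputable def Am' (G t η X : ℝ) : ℂ :=
  Am G t η X * (((-(G * (kap' (pt X η)).re) + t * (kap' (pt X η)).im : ℝ) : ℂ) - I * G * ((kap' (pt X η)).im : ℂ)
    - kap' (pt X η) / 2 - 2 / (2 * pt X η - 1))

theorem Psi_eq (G t η X : ℝ) : Psi G t η X = Am G t η X * cexp (I * ((-(t * (kap (pt X η)).re) : ℝ) : ℂ)) := by
  unfold Psi Am
  rw [Complex.ofReal_exp]
  have e : cexp (-(((G : ℂ) + I * t) * kap (pt X η)))
      = cexp (((-(G * (kap (pt X η)).re) + t * (kap (pt X η)).im : ℝ) : ℂ))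
        * cexp (-(I * G * ((kap (pt X η)).im : ℂ)))
        * cexp (I * ((-(t * (kap (pt X η)).re) : ℝ) : ℂ)) := by
    rw [← Complex.exp_add, ← Complex.exp_add]
    congr 1
    generalize kap (pt X η) = z
    apply Complex.ext <;> simp [Complex.add_re, Complex.mul_re, Complex.add_im, Complex.mul_im] <;> ring
  rw [e]; ring

theorem am_pt_re (X η : ℝ) : (pt X η).re = X := by simp [pt]
theorem am_pt_im (X η : ℝ) : (pt X η).im = -η := by simp [pt]

theorem am_ne1 {X η : ℝ} (hX : 1 ≤ X) : 2 * pt X η - 1 ≠ 0 := by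
  intro h
  have := congrArg Complex.re h
  simp [pt] at this
  linarith

theorem am_ne2 {X η : ℝ} (hX : 1 ≤ X) : 2 * pt X η + 1 ≠ 0 := by
  intro h
  have := congrArg Complex.re h
  simp [pt] at this
  linarith

theorem am_ne3 {X η : ℝ} (hX : 1 ≤ X) : 4 * pt X η ^ 2 - 1 ≠ 0 := by
  have h := mul_ne_zero (am_ne1 (η := η) hX) (am_ne2 (η := η) hX)
  intro h'
  apply h
  rw [← h']; ring

theorem am_pt_deriv (X η : ℝ) : HasDerivAt (fun x : ℝ => pt x η) 1 X := by
  unfold pt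
  simpa using (Complex.ofRealCLM.hasDerivAt (x := X)).sub_const (I * (η : ℂ))

theorem am_kap_deriv {X η : ℝ} (hX : 1 ≤ X) :
    HasDerivAt (fun x : ℝ => kap (pt x η)) (kap' (pt X η)) X := by
  have h := (kap_deriv (η := η) hX).scomp X (am_pt_deriv X η)
  rw [one_smul] at h
  exact h

theorem am_re_deriv {X η : ℝ} (hX : 1 ≤ X) :
    HasDerivAt (fun x : ℝ => (kap (pt x η)).re) (kap' (pt X η)).re X :=
  Complex.reCLM.hasFDerivAt.comp_hasDerivAt X (am_kap_deriv hX)

theorem am_im_deriv {X η : ℝ} (hX : 1 ≤ X) :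
    HasDerivAt (fun x : ℝ => (kap (pt x η)).im) (kap' (pt X η)).im X :=
  Complex.imCLM.hasFDerivAt.comp_hasDerivAt X (am_kap_deriv hX)

theorem am_amp_deriv {X η : ℝ} (hX : 1 ≤ X) :
    HasDerivAt (fun x : ℝ => amp (pt x η)) (amp (pt X η) * (-(kap' (pt X η)) / 2 - 2 / (2 * pt X η - 1))) X := by
  have h1 : HasDerivAt (fun x : ℝ => cexp (-(kap (pt x η)) / 2))
      (cexp (-(kap (pt X η)) / 2) * (-(kap' (pt X η)) / 2)) X :=
    ((am_kap_deriv hX).neg.div_const 2).cexp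
  have h2 : HasDerivAt (fun x : ℝ => 2 * pt x η - 1) (2 * 1) X :=
    ((am_pt_deriv X η).const_mul 2).sub_const 1
  have h3 := ((h1.const_mul (-(4 * (Real.pi : ℂ)))).div h2 (am_ne1 hX))
  refine h3.congr_deriv ?_
  have hne := am_ne1 (η := η) hX
  unfold amp
  field_simp
  ring

theorem Am_deriv {G t η X : ℝ} (hX : 1 ≤ X) : HasDerivAt (Am G t η) (Am' G t η X) X := by
  have h1 : HasDerivAt (fun x : ℝ => -(G * (kap (pt x η)).re) + t * (kap (pt x η)).im)
      (-(G * (kap' (pt X η)).re) + t * (kap' (pt X η)).im) X :=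
    ((am_re_deriv hX).const_mul G).neg.add ((am_im_deriv hX).const_mul t)
  have h2 := h1.exp.ofReal_comp
  have h3 : HasDerivAt (fun x : ℝ => cexp (-(I * G * ((kap (pt x η)).im : ℂ))))
      (cexp (-(I * G * ((kap (pt X η)).im : ℂ))) * (-(I * G * ((kap' (pt X η)).im : ℂ)))) X :=
    (((am_im_deriv hX).ofReal_comp.const_mul (I * G)).neg).cexp
  have h4 := (h2.mul h3).mul (am_amp_deriv (η := η) hX)
  refine h4.congr_deriv ?_
  simp only [Pi.mul_apply]
  unfold Am' Am
  push_cast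
  ring

theorem am_kap'_cont {η : ℝ} : ContinuousOn (fun x : ℝ => kap' (pt x η)) (Ici 1) := by
  intro x hx
  have hc : ContinuousAt (fun x : ℝ => pt x η) x := (am_pt_deriv x η).continuousAt
  unfold kap'
  exact (continuousAt_const.div ((continuousAt_const.mul (hc.pow 2)).sub continuousAt_const)
    (am_ne3 hx)).continuousWithinAt

theorem Am'_cont {G t η : ℝ} : ContinuousOn (Am' G t η) (Ici 1) := by
  unfold Am'
  have hA : ContinuousOn (Am G t η) (Ici 1) := fun x hx => (Am_deriv hx).continuousAt.continuousWithinAt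
  have hk := am_kap'_cont (η := η)
  have hkr : ContinuousOn (fun x : ℝ => (kap' (pt x η)).re) (Ici 1) := Complex.continuous_re.comp_continuousOn hk
  have hki : ContinuousOn (fun x : ℝ => (kap' (pt x η)).im) (Ici 1) := Complex.continuous_im.comp_continuousOn hk
  have hpt : ContinuousOn (fun x : ℝ => pt x η) (Ici 1) := fun x _ =>
    (am_pt_deriv x η).continuousAt.continuousWithinAt
  have hq : ContinuousOn (fun x : ℝ => 2 / (2 * pt x η - 1)) (Ici 1) :=
    continuousOn_const.div ((continuousOn_const.mul hpt).sub continuousOn_const) (fun x hx => am_ne1 hx)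
  refine hA.mul ((((Complex.continuous_ofReal.comp_continuousOn
    (((continuousOn_const.mul hkr).neg).add (continuousOn_const.mul hki))).sub
    (continuousOn_const.mul (Complex.continuous_ofReal.comp_continuousOn hki))).sub (hk.div_const 2)).sub hq)

/-- the imaginary part of `kap'` -/
theorem am_im_kap' {X η : ℝ} (hX : 10 ≤ X) (hη : 0 ≤ η) (h : 10 * η ≤ X) :
    |(kap' (pt X η)).im| ≤ 4 * η / X ^ 3 := by
  have hX0 : 0 < X := by linarith
  have hre : (4 * pt X η ^ 2 - 1).re = 4 * X ^ 2 - 4 * η ^ 2 - 1 := by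
    simp [pt, pow_two, Complex.mul_re]; ring
  have him : (4 * pt X η ^ 2 - 1).im = -(8 * X * η) := by
    simp [pt, pow_two, Complex.mul_im]; ring
  have hk : (kap' (pt X η)).im = -(4 * (8 * X * η)) / ((4 * X ^ 2 - 4 * η ^ 2 - 1) ^ 2 + (8 * X * η) ^ 2) := by
    unfold kap'
    rw [Complex.div_im]
    rw [Complex.normSq_apply, hre, him]
    have : (-4 : ℂ).re = -4 := by simp
    have h2 : (-4 : ℂ).im = 0 := by simp
    rw [this, h2]
    ring
  have hA : 3 * X ^ 2 ≤ 4 * X ^ 2 - 4 * η ^ 2 - 1 := by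
    have : η ^ 2 ≤ (X / 10) ^ 2 := by
      apply pow_le_pow_left₀ hη; linarith
    nlinarith
  have hden : 8 * X ^ 4 ≤ (4 * X ^ 2 - 4 * η ^ 2 - 1) ^ 2 + (8 * X * η) ^ 2 := by
    have h1 : (3 * X ^ 2) ^ 2 ≤ (4 * X ^ 2 - 4 * η ^ 2 - 1) ^ 2 := by
      apply pow_le_pow_left₀ (by positivity) hA
    nlinarith [sq_nonneg (8 * X * η), pow_pos hX0 4]
  rw [hk, abs_div, abs_neg, abs_of_nonneg (by positivity : (0:ℝ) ≤ 4 * (8 * X * η)),
    abs_of_nonneg (by positivity : (0:ℝ) ≤ (4 * X ^ 2 - 4 * η ^ 2 - 1) ^ 2 + (8 * X * η) ^ 2)]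
  have hpos : 0 < 8 * X ^ 4 := by positivity
  calc 4 * (8 * X * η) / ((4 * X ^ 2 - 4 * η ^ 2 - 1) ^ 2 + (8 * X * η) ^ 2)
      ≤ 4 * (8 * X * η) / (8 * X ^ 4) := by
        apply div_le_div_of_nonneg_left (by positivity) hpos hden
    _ = 4 * η / X ^ 3 := by
        field_simp

theorem Am_bounds : ∃ C : ℝ, 0 ≤ C ∧ ∀ T Y G K t X : ℝ, 10 ≤ Y → 40 * Y ≤ T → 1 ≤ K → 0 ≤ G → G ≤ K * Y → 0 ≤ t →
    t ≤ 2 * T → Y ≤ X → X ≤ 2 * Y →
    ‖Am G t (4 * Y ^ 2 / T) X‖ ≤ C / Y ∧ ‖Am' G t (4 * Y ^ 2 / T) X‖ ≤ C * K / Y ^ 2 := by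
  refine ⟨13 * Real.exp 11 * 44, by positivity, ?_⟩
  intro T Y G K t X hY hT hK hG0 hG ht0 ht hXY hX2
  have hY0 : 0 < Y := by linarith
  have hT0 : 0 < T := by linarith
  have hX0 : 0 < X := by linarith
  have hX1 : 1 ≤ X := by linarith
  set η : ℝ := 4 * Y ^ 2 / T with hηd
  have hη : 0 < η := by positivity
  have hηT : η * T = 4 * Y ^ 2 := by rw [hηd]; field_simp
  have hηY : 10 * η ≤ Y := by
    rw [hηd, ← mul_div_assoc, div_le_iff₀ hT0]
    nlinarith
  have hexp : t * (kap (pt X η)).im ≤ 11 := by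
    apply exponent_le hX1 hη ht0 ht
    rw [hηT]; nlinarith
  have hre : 0 ≤ (kap (pt X η)).re := le_trans (by positivity) (kap_re_ge (η := η) hX1 hη)
  have hAm : ‖Am G t η X‖ ≤ 13 * Real.exp 11 / Y := by
    unfold Am
    rw [norm_mul, norm_mul, Complex.norm_real, Complex.norm_exp]
    have h0 : (-(I * (G : ℂ) * (((kap (pt X η)).im : ℝ) : ℂ))).re = 0 := by simp
    rw [h0, Real.exp_zero, mul_one, Real.norm_of_nonneg (Real.exp_pos _).le]
    have h1 : Real.exp (-(G * (kap (pt X η)).re) + t * (kap (pt X η)).im) ≤ Real.exp 11 := by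
      apply Real.exp_le_exp.mpr
      have : 0 ≤ G * (kap (pt X η)).re := mul_nonneg hG0 hre
      linarith
    have h2 : ‖amp (pt X η)‖ ≤ 13 / Y := by
      refine (amp_le hX1 hη).trans ?_
      apply div_le_div_of_nonneg_left (by norm_num) hY0 hXY
    calc Real.exp (-(G * (kap (pt X η)).re) + t * (kap (pt X η)).im) * ‖amp (pt X η)‖
        ≤ Real.exp 11 * (13 / Y) := by
          apply mul_le_mul h1 h2 (norm_nonneg _) (Real.exp_pos _).le
      _ = 13 * Real.exp 11 / Y := by ring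
  constructor
  · refine hAm.trans ?_
    apply div_le_div_of_nonneg_right _ hY0.le
    nlinarith [Real.exp_pos 11]
  · have hkn : ‖kap' (pt X η)‖ ≤ 4 / Y ^ 2 := by
      refine (kap'_le hX1).trans ?_
      apply div_le_div_of_nonneg_left (by norm_num) (by positivity)
      exact pow_le_pow_left₀ hY0.le hXY 2
    have hkr : |(kap' (pt X η)).re| ≤ 4 / Y ^ 2 := (Complex.abs_re_le_norm _).trans hkn
    have hki : |(kap' (pt X η)).im| ≤ 4 / Y ^ 2 := (Complex.abs_im_le_norm _).trans hkn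
    have hki2 : t * |(kap' (pt X η)).im| ≤ 32 / Y := by
      have h1 : |(kap' (pt X η)).im| ≤ 4 * η / X ^ 3 :=
        am_im_kap' (by linarith) hη.le (by linarith)
      have h2 : 4 * η / X ^ 3 ≤ 4 * η / Y ^ 3 := by
        apply div_le_div_of_nonneg_left (by positivity) (by positivity)
        exact pow_le_pow_left₀ hY0.le hXY 3
      calc t * |(kap' (pt X η)).im| ≤ (2 * T) * (4 * η / Y ^ 3) := by
            apply mul_le_mul ht (h1.trans h2) (abs_nonneg _) (by linarith)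
        _ = 8 * (η * T) / Y ^ 3 := by ring
        _ = 32 / Y := by
            rw [hηT]; field_simp; ring
    have hGk : G * (4 / Y ^ 2) ≤ 4 * K / Y := by
      calc G * (4 / Y ^ 2) ≤ (K * Y) * (4 / Y ^ 2) := by
            apply mul_le_mul_of_nonneg_right hG (by positivity)
        _ = 4 * K / Y := by field_simp
    have hden : ‖(2 : ℂ) / (2 * pt X η - 1)‖ ≤ 2 / Y := by
      rw [norm_div]
      have h1 : Y ≤ ‖2 * pt X η - 1‖ := by
        refine le_trans ?_ (Complex.re_le_norm _)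
        simp [pt]
        linarith
      have h2 : ‖(2 : ℂ)‖ = 2 := by simp
      rw [h2]
      exact div_le_div_of_nonneg_left (by norm_num) hY0 h1
    have hk2 : ‖kap' (pt X η) / 2‖ ≤ 2 / Y := by
      rw [norm_div]
      have h2 : ‖(2 : ℂ)‖ = 2 := by simp
      rw [h2]
      calc ‖kap' (pt X η)‖ / 2 ≤ (4 / Y ^ 2) / 2 := by linarith
        _ = 2 / Y ^ 2 := by ring
        _ ≤ 2 / Y := by
          apply div_le_div_of_nonneg_left (by norm_num) hY0
          nlinarith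
    have hfac : ‖(((-(G * (kap' (pt X η)).re) + t * (kap' (pt X η)).im : ℝ) : ℂ) - I * G * ((kap' (pt X η)).im : ℂ)
        - kap' (pt X η) / 2 - 2 / (2 * pt X η - 1))‖ ≤ 44 * K / Y := by
      have h1 : ‖((-(G * (kap' (pt X η)).re) + t * (kap' (pt X η)).im : ℝ) : ℂ)‖ ≤ 4 * K / Y + 32 / Y := by
        rw [Complex.norm_real, Real.norm_eq_abs]
        calc |(-(G * (kap' (pt X η)).re) + t * (kap' (pt X η)).im)|
            ≤ |(-(G * (kap' (pt X η)).re))| + |t * (kap' (pt X η)).im| := abs_add_le _ _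
          _ = G * |(kap' (pt X η)).re| + t * |(kap' (pt X η)).im| := by
              rw [abs_neg, abs_mul, abs_mul, abs_of_nonneg hG0, abs_of_nonneg ht0]
          _ ≤ G * (4 / Y ^ 2) + 32 / Y := by
              gcongr
          _ ≤ _ := by linarith
      have h2 : ‖I * G * ((kap' (pt X η)).im : ℂ)‖ ≤ 4 * K / Y := by
        rw [norm_mul, norm_mul, Complex.norm_I, one_mul, Complex.norm_real, Complex.norm_real,
          Real.norm_of_nonneg hG0, Real.norm_eq_abs]
        exact (mul_le_mul_of_nonneg_left hki hG0).trans hGk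
      have h3 := norm_sub_le ((((-(G * (kap' (pt X η)).re) + t * (kap' (pt X η)).im : ℝ) : ℂ)
        - I * G * ((kap' (pt X η)).im : ℂ)) - kap' (pt X η) / 2) (2 / (2 * pt X η - 1))
      have h4 := norm_sub_le (((-(G * (kap' (pt X η)).re) + t * (kap' (pt X η)).im : ℝ) : ℂ)
        - I * G * ((kap' (pt X η)).im : ℂ)) (kap' (pt X η) / 2)
      have h5 := norm_sub_le (((-(G * (kap' (pt X η)).re) + t * (kap' (pt X η)).im : ℝ) : ℂ))
        (I * G * ((kap' (pt X η)).im : ℂ))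
      have h6 : 4 * K / Y + 32 / Y + 4 * K / Y + 2 / Y + 2 / Y ≤ 44 * K / Y := by
        rw [← add_div, ← add_div, ← add_div, ← add_div]
        apply div_le_div_of_nonneg_right _ hY0.le
        linarith
      linarith
    unfold Am'
    rw [norm_mul]
    calc ‖Am G t η X‖ * _ ≤ (13 * Real.exp 11 / Y) * (44 * K / Y) := by
          apply mul_le_mul hAm hfac (norm_nonneg _) (by positivity)
      _ = 13 * Real.exp 11 * 44 * K / Y ^ 2 := by
          field_simp

end Pool.Agent.H15.HB
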