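import Pool.Agent.H15.HB.Gam

/-!
# HB-02  Cahen-Mellin integral  (project HB, MP_be4568)

`f(x) = e^{-z x}`: `mellin f s = Γ(s) (1/z)^s` (`Complex.integral_cpow_mul_exp_neg_mul_Ioi`), and Mellin inversion
(`mellinInv_mellin_eq` or `mellin_inversion`) at `x = 1`.  `(1/z)^s = exp(-s log z)` as `re z > 0`.
Integrability of `u ↦ Γ(c+iu) z^{-(c+iu)}` (`VerticalIntegrable`): `gamma_strip` and
`|exp(-(c+iu) log z)| = |z|^{-c} e^{u arg z}`, `|arg z| < π/2`.
(As done here: Mellin inversion for `f(t) = e^{-t}` gives the formula for real `z > 0`; both sides are holomorphic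
in `re z > 0`, so the identity theorem gives it for all `z`.)
-/

set_option autoImplicit false

open Complex Filter Topology MeasureTheory Set
open scoped ComplexConjugate

namespace Pool.Agent.H15.HB

private theorem cm_exp_int {c : ℝ} (hc : 0 < c) : Integrable (fun p : ℝ => Real.exp (-(c * |p|))) := by
  have h0 : Integrable (fun p : ℝ => Real.exp (-|p|)) := by
    rw [← integrableOn_univ, ← Set.Iic_union_Ioi (a := (0 : ℝ))]
    refine IntegrableOn.union ?_ ?_
    · refine (integrableOn_exp_mul_Iic (zero_lt_one) 0).congr_fun (fun p hp => ?_) measurableSet_Iic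
      have hp' : p ≤ 0 := hp
      simp [abs_of_nonpos hp']
    · refine (integrableOn_exp_mul_Ioi (neg_neg_of_pos zero_lt_one) 0).congr_fun (fun p hp => ?_)
        measurableSet_Ioi
      have hp' : 0 < p := hp
      simp [abs_of_pos hp']
  have h := h0.comp_mul_left' hc.ne'
  refine h.congr (Filter.Eventually.of_forall fun p => ?_)
  simp only
  rw [abs_mul, abs_of_pos hc]

/-- uniform bound for `Γ(s) e^{-sw}` in `|im w| ≤ θ < π/2`, `|re w| ≤ R` -/
private theorem cm_key {θ R a b : ℝ} (hθ : θ < Real.pi / 2) (ha : 0 < a) (hab : a ≤ b) :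
    ∃ C c : ℝ, 0 ≤ C ∧ 0 < c ∧ ∀ s : ℂ, a ≤ s.re → s.re ≤ b → ∀ w : ℂ, |w.im| ≤ θ → |w.re| ≤ R →
      ‖Complex.Gamma s * cexp (-s * w)‖ ≤ C * Real.exp (-(c * |s.im|)) := by
  obtain ⟨C, hC, hG⟩ := gamma_strip a b ha hab
  obtain ⟨c, hc⟩ : ∃ c : ℝ, c = (Real.pi / 2 - θ) / 2 := ⟨_, rfl⟩
  have hcpos : 0 < c := by rw [hc]; linarith
  have hb : 0 < b := lt_of_lt_of_le ha hab
  obtain ⟨D, hDdef⟩ : ∃ D : ℝ, D = Real.exp (c - b - b * Real.log (c / b)) := ⟨_, rfl⟩
  have hDpos : 0 < D := by rw [hDdef]; positivity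
  have hD : ∀ x σ : ℝ, 0 ≤ x → σ ≤ b → (1 + x) ^ (σ - 1/2) ≤ D * Real.exp (c * x) := by
    intro x σ hx hσ
    have h1 : (1 + x) ^ (σ - 1/2) ≤ (1 + x) ^ b :=
      Real.rpow_le_rpow_of_exponent_le (by linarith) (by linarith)
    refine h1.trans ?_
    rw [hDdef, Real.rpow_def_of_pos (by positivity), ← Real.exp_add]
    apply Real.exp_le_exp.2
    have h2 : Real.log (c / b * (1 + x)) ≤ c / b * (1 + x) - 1 :=
      Real.log_le_sub_one_of_pos (by positivity)
    rw [Real.log_mul (by positivity) (by positivity)] at h2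
    have h3 : b * (Real.log (c / b) + Real.log (1 + x)) ≤ b * (c / b * (1 + x) - 1) :=
      mul_le_mul_of_nonneg_left h2 hb.le
    have h4 : b * (c / b * (1 + x) - 1) = c * (1 + x) - b := by field_simp
    nlinarith
  refine ⟨C * D * Real.exp (b * R), c, by positivity, hcpos, ?_⟩
  intro s hsa hsb w hwi hwr
  have hs0 : 0 ≤ s.re := by linarith
  rw [norm_mul, Complex.norm_exp]
  have h1 : (-s * w).re ≤ b * R + |s.im| * θ := by
    have e1 : (-s * w).re = -(s.re * w.re) + s.im * w.im := by simp; ring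
    have e2 : -(s.re * w.re) ≤ b * R := by
      calc -(s.re * w.re) ≤ |s.re * w.re| := neg_le_abs _
        _ = s.re * |w.re| := by rw [abs_mul, abs_of_nonneg hs0]
        _ ≤ b * R := mul_le_mul hsb hwr (abs_nonneg _) hb.le
    have e3 : s.im * w.im ≤ |s.im| * θ := by
      calc s.im * w.im ≤ |s.im * w.im| := le_abs_self _
        _ = |s.im| * |w.im| := abs_mul _ _
        _ ≤ |s.im| * θ := mul_le_mul_of_nonneg_left hwi (abs_nonneg _)
    rw [e1]; linarith
  calc ‖Complex.Gamma s‖ * Real.exp (-s * w).re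
      ≤ (C * (D * Real.exp (c * |s.im|)) * Real.exp (-(Real.pi / 2 * |s.im|))) *
          Real.exp (b * R + |s.im| * θ) := by
        apply mul_le_mul _ (Real.exp_le_exp.2 h1) (Real.exp_pos _).le (by positivity)
        refine (hG s hsa hsb).trans ?_
        apply mul_le_mul_of_nonneg_right _ (Real.exp_pos _).le
        exact mul_le_mul_of_nonneg_left (hD _ _ (abs_nonneg _) hsb) hC
    _ = C * D * Real.exp (b * R) * Real.exp (-(c * |s.im|)) := by
        have e : Real.exp (-(c * |s.im|)) = Real.exp (c * |s.im|) * Real.exp (-(Real.pi / 2 * |s.im|)) *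
            Real.exp (|s.im| * θ) := by
          rw [← Real.exp_add, ← Real.exp_add]
          congr 1
          rw [hc]; ring
        rw [e, Real.exp_add]; ring

/-- integrability, with an explicit dominating function -/
theorem gamma_cpow_bound {z : ℂ} (hz : 0 < z.re) {a b : ℝ} (ha : 0 < a) (hab : a ≤ b) : ∃ C c : ℝ, 0 ≤ C ∧ 0 < c ∧
    ∀ s : ℂ, a ≤ s.re → s.re ≤ b →
      ‖Complex.Gamma s * cexp (-s * Complex.log z)‖ ≤ C * Real.exp (-(c * |s.im|)) := by
  have hz' : |z.arg| < Real.pi / 2 := Complex.abs_arg_lt_pi_div_two_iff.2 (Or.inl hz)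
  obtain ⟨C, c, hC, hc, h⟩ := cm_key (θ := |z.arg|) (R := |(Complex.log z).re|) hz' ha hab
  refine ⟨C, c, hC, hc, fun s h1 h2 => h s h1 h2 (Complex.log z) ?_ le_rfl⟩
  rw [Complex.log_im]

private theorem cm_cont {c : ℝ} (hc : 0 < c) : Continuous (fun u : ℝ => Complex.Gamma (SC.ln c u)) := by
  rw [continuous_iff_continuousAt]
  intro u
  have h1 : ContinuousAt Complex.Gamma (SC.ln c u) := by
    apply DifferentiableAt.continuousAt (𝕜 := ℂ)
    apply Complex.differentiableAt_Gamma
    intro m h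
    have h2 : (SC.ln c u).re = c := by simp [SC.ln]
    rw [h] at h2
    simp at h2
    have : (0 : ℝ) ≤ m := Nat.cast_nonneg m
    linarith
  have h2 : Continuous (fun u : ℝ => SC.ln c u) := by unfold SC.ln; fun_prop
  exact ContinuousAt.comp (f := fun u : ℝ => SC.ln c u) h1 h2.continuousAt

private theorem cm_cont' {c : ℝ} (hc : 0 < c) (w : ℂ) :
    Continuous (fun u : ℝ => Complex.Gamma (SC.ln c u) * cexp (-(SC.ln c u) * w)) := by
  have h2 : Continuous (fun u : ℝ => SC.ln c u) := by unfold SC.ln; fun_prop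
  exact (cm_cont hc).mul (by fun_prop)

private theorem cm_integrable {c : ℝ} (hc : 0 < c) {w : ℂ} (hw : |w.im| < Real.pi / 2) :
    Integrable (fun u : ℝ => Complex.Gamma (SC.ln c u) * cexp (-(SC.ln c u) * w)) := by
  obtain ⟨C, k, hC, hk, h⟩ := cm_key (θ := |w.im|) (R := |w.re|) hw hc le_rfl
  refine Integrable.mono' ((cm_exp_int hk).const_mul C) (cm_cont' hc w).aestronglyMeasurable ?_
  refine Eventually.of_forall fun u => ?_
  have := h (SC.ln c u) (by simp [SC.ln]) (by simp [SC.ln]) w le_rfl le_rfl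
  simpa [SC.ln] using this

private theorem cm_diff {c : ℝ} (hc : 0 < c) {w₀ : ℂ} (hw : |w₀.im| < Real.pi / 2) :
    DifferentiableAt ℂ (fun w : ℂ => ∫ u : ℝ, Complex.Gamma (SC.ln c u) * cexp (-(SC.ln c u) * w)) w₀ := by
  obtain ⟨r, hr⟩ : ∃ r : ℝ, r = (Real.pi / 2 - |w₀.im|) / 2 := ⟨_, rfl⟩
  have hrpos : 0 < r := by rw [hr]; linarith
  obtain ⟨C, k, hC, hk, hb⟩ := cm_key (θ := |w₀.im| + r) (R := |w₀.re| + r) (a := c + 1) (b := c + 1)
    (by rw [hr]; linarith) (by linarith) le_rfl
  have hball : ∀ w ∈ Metric.ball w₀ r, |w.im| ≤ |w₀.im| + r ∧ |w.re| ≤ |w₀.re| + r := by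
    intro w hw
    rw [Metric.mem_ball, dist_eq_norm] at hw
    have h1 := Complex.abs_im_le_norm (w - w₀)
    have h2 := Complex.abs_re_le_norm (w - w₀)
    rw [Complex.sub_im] at h1
    rw [Complex.sub_re] at h2
    constructor
    · have := abs_sub_abs_le_abs_sub w.im w₀.im
      linarith
    · have := abs_sub_abs_le_abs_sub w.re w₀.re
      linarith
  have key := hasDerivAt_integral_of_dominated_loc_of_deriv_le (μ := (volume : Measure ℝ)) (𝕜 := ℂ)
    (F := fun (w : ℂ) (u : ℝ) => Complex.Gamma (SC.ln c u) * cexp (-(SC.ln c u) * w))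
    (F' := fun (w : ℂ) (u : ℝ) => Complex.Gamma (SC.ln c u) * (cexp (-(SC.ln c u) * w) * (-(SC.ln c u))))
    (bound := fun u : ℝ => C * Real.exp (|w₀.re| + r) * Real.exp (-(k * |u|)))
    (x₀ := w₀) (s := Metric.ball w₀ r) (Metric.ball_mem_nhds w₀ hrpos)
    (Eventually.of_forall fun w => (cm_cont' hc w).aestronglyMeasurable)
    (cm_integrable hc hw) ?_ ?_ ((cm_exp_int hk).const_mul _) ?_
  · exact key.2.differentiableAt
  · have h2 : Continuous (fun u : ℝ => SC.ln c u) := by unfold SC.ln; fun_prop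
    exact ((cm_cont hc).mul (by fun_prop)).aestronglyMeasurable
  · refine Eventually.of_forall fun u w hw => ?_
    obtain ⟨hi, hre⟩ := hball w hw
    have hne : SC.ln c u ≠ 0 := by
      intro h
      have := congrArg Complex.re h
      simp [SC.ln] at this
      linarith
    have e : Complex.Gamma (SC.ln c u) * (cexp (-(SC.ln c u) * w) * (-(SC.ln c u))) =
        -((Complex.Gamma (SC.ln c u + 1) * cexp (-(SC.ln c u + 1) * w)) * cexp w) := by
      rw [Complex.Gamma_add_one _ hne]
      have : cexp (-(SC.ln c u) * w) = cexp (-(SC.ln c u + 1) * w) * cexp w := by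
        rw [← Complex.exp_add]; congr 1; ring
      rw [this]; ring
    rw [e, norm_neg, norm_mul, Complex.norm_exp w]
    have h1 := hb (SC.ln c u + 1) (by simp [SC.ln]) (by simp [SC.ln]) w hi hre
    have h2 : (SC.ln c u + 1).im = u := by simp [SC.ln]
    rw [h2] at h1
    have h3 : Real.exp w.re ≤ Real.exp (|w₀.re| + r) := Real.exp_le_exp.2 ((le_abs_self _).trans hre)
    calc ‖Complex.Gamma (SC.ln c u + 1) * cexp (-(SC.ln c u + 1) * w)‖ * Real.exp w.re
        ≤ (C * Real.exp (-(k * |u|))) * Real.exp (|w₀.re| + r) :=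
          mul_le_mul h1 h3 (Real.exp_pos _).le (by positivity)
      _ = _ := by ring
  · refine Eventually.of_forall fun u w _ => ?_
    have h1 : HasDerivAt (fun w : ℂ => -(SC.ln c u) * w) (-(SC.ln c u)) w := by
      simpa using (hasDerivAt_id w).const_mul (-(SC.ln c u))
    exact (h1.cexp).const_mul _

/-- real case, from Mellin inversion -/
private theorem cm_real {c x : ℝ} (hc : 0 < c) (hx : 0 < x) :
    cexp (-(x : ℂ)) = ((1 / (2 * Real.pi) : ℝ) : ℂ) *
      ∫ u : ℝ, Complex.Gamma (SC.ln c u) * cexp (-(SC.ln c u) * Complex.log x) := by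
  have hmel : ∀ s : ℂ, 0 < s.re → mellin (fun t : ℝ => ((Real.exp (-t) : ℝ) : ℂ)) s = Complex.Gamma s := by
    intro s hs
    rw [Complex.Gamma_eq_integral hs, Complex.GammaIntegral_eq_mellin]
  have h1 := mellinInv_mellin_eq c (fun t : ℝ => ((Real.exp (-t) : ℝ) : ℂ)) hx ?_ ?_ ?_
  · have e1 : ((Real.exp (-x) : ℝ) : ℂ) = cexp (-(x : ℂ)) := by push_cast; rfl
    rw [← e1, ← h1, mellinInv, Complex.real_smul]
    congr 1
    refine integral_congr_ae (Eventually.of_forall fun u => ?_)
    simp only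
    rw [hmel _ (by simpa using hc), smul_eq_mul, Complex.cpow_def_of_ne_zero (by exact_mod_cast hx.ne')]
    unfold SC.ln
    rw [mul_comm (cexp _), mul_comm (Complex.log _)]
  · have := Complex.GammaIntegral_convergent (s := (c : ℂ)) (by simpa using hc)
    refine this.congr (Eventually.of_forall fun t => ?_)
    simp only [smul_eq_mul]
    rw [mul_comm]
  · unfold VerticalIntegrable
    have := cm_integrable hc (w := 0) (by simp; positivity)
    refine this.congr (Eventually.of_forall fun u => ?_)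
    simp only
    rw [hmel _ (by simpa using hc)]
    simp [SC.ln]
  · fun_prop

theorem cahen_mellin {z : ℂ} (hz : 0 < z.re) {c : ℝ} (hc : 0 < c) :
    Integrable (fun u : ℝ => Complex.Gamma (SC.ln c u) * cexp (-(SC.ln c u) * Complex.log z)) ∧
    cexp (-z) = ((1 / (2 * Real.pi) : ℝ) : ℂ) *
      ∫ u : ℝ, Complex.Gamma (SC.ln c u) * cexp (-(SC.ln c u) * Complex.log z) := by
  have hlog : ∀ w : ℂ, 0 < w.re → |(Complex.log w).im| < Real.pi / 2 := by
    intro w hw
    rw [Complex.log_im]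
    exact Complex.abs_arg_lt_pi_div_two_iff.2 (Or.inl hw)
  refine ⟨cm_integrable hc (hlog z hz), ?_⟩
  have hopen : IsOpen {w : ℂ | 0 < w.re} := isOpen_lt continuous_const Complex.continuous_re
  have hconn : IsPreconnected {w : ℂ | 0 < w.re} := (convex_halfSpace_re_gt 0).isPreconnected
  have hf : AnalyticOnNhd ℂ (fun w : ℂ => cexp (-w)) {w : ℂ | 0 < w.re} := by
    apply DifferentiableOn.analyticOnNhd _ hopen
    fun_prop
  have hg : AnalyticOnNhd ℂ (fun w : ℂ => ((1 / (2 * Real.pi) : ℝ) : ℂ) *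
      ∫ u : ℝ, Complex.Gamma (SC.ln c u) * cexp (-(SC.ln c u) * Complex.log w)) {w : ℂ | 0 < w.re} := by
    apply DifferentiableOn.analyticOnNhd _ hopen
    intro w hw
    have hw' : 0 < w.re := hw
    have h1 := cm_diff hc (hlog w hw')
    have h2 : DifferentiableAt ℂ Complex.log w := Complex.differentiableAt_log (Or.inl hw')
    have h3 := DifferentiableAt.comp w h1 h2
    exact (h3.const_mul _).differentiableWithinAt
  have hfreq : ∃ᶠ w in 𝓝[≠] (1 : ℂ), (fun w : ℂ => cexp (-w)) w = (fun w : ℂ => ((1 / (2 * Real.pi) : ℝ) : ℂ) *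
      ∫ u : ℝ, Complex.Gamma (SC.ln c u) * cexp (-(SC.ln c u) * Complex.log w)) w := by
    have hlim : Tendsto (fun n : ℕ => ((1 + 1 / ((n : ℝ) + 1) : ℝ) : ℂ)) atTop (𝓝[≠] (1 : ℂ)) := by
      rw [tendsto_nhdsWithin_iff]
      constructor
      · have h1 : Tendsto (fun n : ℕ => 1 + 1 / ((n : ℝ) + 1)) atTop (𝓝 (1 + 0)) :=
          tendsto_const_nhds.add tendsto_one_div_add_atTop_nhds_zero_nat
        rw [add_zero] at h1
        have h2 := (Complex.continuous_ofReal.tendsto 1).comp h1
        rw [Complex.ofReal_one] at h2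
        exact h2
      · refine Eventually.of_forall fun n => ?_
        simp only [mem_compl_iff, mem_singleton_iff]
        intro h
        have h1 : (1 + 1 / ((n : ℝ) + 1) : ℝ) = 1 := by exact_mod_cast h
        have h2 : (0 : ℝ) < 1 / ((n : ℝ) + 1) := by positivity
        linarith
    refine hlim.frequently (Frequently.of_forall fun n => ?_)
    exact cm_real hc (by positivity)
  exact hf.eqOn_of_preconnected_of_frequently_eq hg hconn (by simp : (0:ℝ) < (1 : ℂ).re) hfreq hz

end Pool.Agent.H15.HB
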