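import Pool.Agent.H15.SC.Core

/-!
# Project HB (MP_be4568_nt): the sixth moment of `ζ(1/2+it)`, exponent 5/4

Definitions for a proof of Heath-Brown's large values theorem for `∫_{t-G}^{t+G} |ζ(1/2+iu)|² du` by a contour
argument for `Lam ξ = ∫ wt u e^{iuξ} du`, which is `2π e^{-ξ/2}` times a Lambert series of divisor type.
`ln σ t = σ + i t` is from `SC/Core.lean`.
-/

set_option autoImplicit false

open Complex Filter Topology MeasureTheory Set
open scoped ComplexConjugate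

namespace Pool.Agent.H15.HB

/-- number of divisors (`dv 0 = 0`) -/
noncomputable def dv (n : ℕ) : ℝ := (n.divisors.card : ℝ)

/-- `∑ d(n) e^{-nz}` -/
noncomputable def hh (z : ℂ) : ℂ := ∑' n : ℕ, (dv n : ℂ) * cexp (-((n : ℂ) * z))

/-- residue at `s = 1` of `Γ(s) ζ(s)² z^{-s}` -/
noncomputable def gm (z : ℂ) : ℂ := ((Real.eulerMascheroniConstant : ℝ) - Complex.log z) / z

/-- `|ζ(1/2+iu)|²` -/
noncomputable def z2 (u : ℝ) : ℝ := ‖riemannZeta (SC.ln (1/2) u)‖ ^ 2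

/-- `|ζ(1/2+iu)|² / (1 + i e^{-πu})` -/
noncomputable def wt (u : ℝ) : ℂ := (z2 u : ℂ) / (1 + I * (Real.exp (-(Real.pi * u)) : ℝ))

/-- `∫ wt u e^{iuξ} du`, `0 < im ξ < π` -/
noncomputable def Lam (ξ : ℂ) : ℂ := ∫ u : ℝ, wt u * cexp (I * u * ξ)

/-- antiderivative of `e^{-(G+it)ξ} Lam ξ` -/
noncomputable def QQ (G t : ℝ) (ξ : ℂ) : ℂ :=
  -∫ u : ℝ, wt u * cexp (-(((G : ℂ) + I * (t - u)) * ξ)) / ((G : ℂ) + I * (t - u))

/-- the change of variable `ξ = kap ψ`, `e^{-kap ψ} = (2ψ-1)/(2ψ+1)` -/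
noncomputable def kap (ψ : ℂ) : ℂ := Complex.log ((2 * ψ + 1) / (2 * ψ - 1))

/-- its derivative -/
noncomputable def kap' (ψ : ℂ) : ℂ := -4 / (4 * ψ ^ 2 - 1)

/-- the amplitude -/
noncomputable def amp (ψ : ℂ) : ℂ := -(4 * Real.pi) * cexp (-(kap ψ) / 2) / (2 * ψ - 1)

/-- `∑ d(n) (-1)^n e^{-2πinψ}` -/
noncomputable def Hd (ψ : ℂ) : ℂ := ∑' n : ℕ, (dv n : ℂ) * (-1) ^ n * cexp (-(2 * Real.pi * I * n * ψ))

/-- the point `X - iη` -/
noncomputable def pt (X η : ℝ) : ℂ := X - I * η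

/-- the phase and amplitude function `e^{-(G+it) kap ψ} amp ψ` at `ψ = X - iη` -/
noncomputable def Psi (G t η X : ℝ) : ℂ := cexp (-(((G : ℂ) + I * t) * kap (pt X η))) * amp (pt X η)

/-- horizontal piece of the transformed contour -/
noncomputable def LamH (G t η a b : ℝ) : ℂ := ∫ X in a..b, Psi G t η X * Hd (pt X η)

end Pool.Agent.H15.HB
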