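import Pool.Agent.H15.HB.Six
import Pool.Agent.H15.SC.Final
import Pool.Agent.H15.SC.ZetaInst

/-!
# HB-24  the moment of a degree 3 function with the coefficients of `ζ³`, and the theorem  (project HB, MP_be4568)

`D₂.F = ζ³` for `re s > 1` by `h₂.series`, hence `D₂.H s = (s-1)^m ζ(s)³` on the critical line by analytic continuation (`D₂.H` entire,
`(s-1)^3 D₂.H s = (s-1)^m riemannZeta₁ s ^ 3` everywhere).  So `‖D₂.F (1/2+it)‖² = z2 t ^ 3`.  `Mom`: symmetric in `t`, dyadic blocks, `six`.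
-/

set_option autoImplicit false

open Complex Filter Topology MeasureTheory Set
open scoped ComplexConjugate

namespace Pool.Agent.H15.HB

theorem fin_coef {D₂ : SC.SelData}
    (hf : ∀ n : ℕ, 1 ≤ n → D₂.f n = ∑ k ∈ n.divisors, (k.divisors.card : ℝ)) (n : ℕ) (hn : 1 ≤ n) :
    D₂.f n = (SC.zetaD 3).f n := by
  rw [hf n hn]
  show _ = ((((ArithmeticFunction.zeta : ArithmeticFunction ℕ) ^ 3) n : ℕ) : ℝ)
  rw [pow_succ, ArithmeticFunction.mul_zeta_apply]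
  push_cast
  refine Finset.sum_congr rfl fun k hk => ?_
  rw [pow_succ, pow_one, ArithmeticFunction.mul_zeta_apply]
  have h1 : ∑ i ∈ k.divisors, (ArithmeticFunction.zeta : ArithmeticFunction ℕ) i =
      ∑ i ∈ k.divisors, 1 := by
    refine Finset.sum_congr rfl fun i hi => ?_
    have hi1 : i ≠ 0 := (Nat.pos_of_mem_divisors hi).ne'
    simp [ArithmeticFunction.zeta_apply, hi1]
  rw [h1]
  simp

theorem fin_ident {D₂ : SC.SelData} (h₂ : SC.IsSel D₂ 3)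
    (hf : ∀ n : ℕ, 1 ≤ n → D₂.f n = ∑ k ∈ n.divisors, (k.divisors.card : ℝ)) (s : ℂ) :
    D₂.H s * (s - 1) ^ 3 = (s - 1) ^ D₂.m * riemannZeta₁ s ^ 3 := by
  have h3 : SC.IsSel (SC.zetaD 3) ((3 : ℕ) : ℝ) := SC.zetaD_isSel 3
  have hL : AnalyticOnNhd ℂ (fun s => D₂.H s * (s - 1) ^ 3) Set.univ := by
    refine DifferentiableOn.analyticOnNhd ?_ isOpen_univ
    exact (h₂.entire.mul ((differentiable_id.sub_const 1).pow _)).differentiableOn
  have hR : AnalyticOnNhd ℂ (fun s => (s - 1) ^ D₂.m * riemannZeta₁ s ^ 3) Set.univ := by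
    refine DifferentiableOn.analyticOnNhd ?_ isOpen_univ
    exact (((differentiable_id.sub_const 1).pow _).mul h3.entire).differentiableOn
  have hev : (fun s => D₂.H s * (s - 1) ^ 3) =ᶠ[𝓝 2] (fun s => (s - 1) ^ D₂.m * riemannZeta₁ s ^ 3) := by
    have : {s : ℂ | 1 < s.re} ∈ 𝓝 (2 : ℂ) :=
      (isOpen_lt continuous_const continuous_re).mem_nhds (by simp)
    filter_upwards [this] with w hw
    have hw' : 1 < w.re := hw
    have e1 : LSeries (fun n => (D₂.f n : ℂ)) w = LSeries (fun n => ((SC.zetaD 3).f n : ℂ)) w := by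
      refine LSeries_congr ?_ w
      intro n hn
      rw [fin_coef hf n (Nat.one_le_iff_ne_zero.2 hn)]
    have e2 : riemannZeta₁ w ^ 3 = (w - 1) ^ 3 * LSeries (fun n => ((SC.zetaD 3).f n : ℂ)) w :=
      h3.series w hw'
    show D₂.H w * (w - 1) ^ 3 = (w - 1) ^ D₂.m * riemannZeta₁ w ^ 3
    rw [h₂.series w hw', e1, e2]
    ring
  exact congrFun (hL.eq_of_eventuallyEq hR hev) s

theorem F_eq_cube {D₂ : SC.SelData} (h₂ : SC.IsSel D₂ 3)
    (hf : ∀ n : ℕ, 1 ≤ n → D₂.f n = ∑ k ∈ n.divisors, (k.divisors.card : ℝ)) (t : ℝ) :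
    D₂.F (SC.ln (1/2) t) = riemannZeta (SC.ln (1/2) t) ^ 3 := by
  have h1 : SC.ln (1/2) t ≠ 1 := SC.HFa_line_ne1 t
  have h2 : SC.ln (1/2) t - 1 ≠ 0 := sub_ne_zero.2 h1
  have h := fin_ident h₂ hf (SC.ln (1/2) t)
  unfold SC.SelData.F
  rw [riemannZeta_eq_inv_sub_mul h1, mul_pow, inv_pow, div_eq_iff (pow_ne_zero _ h2)]
  field_simp
  rw [h]
  ring

theorem fin_even (t : ℝ) : z2 (-t) = z2 t := by
  unfold z2
  have h1 : SC.ln (1/2) (-t) = conj (SC.ln (1/2) t) := by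
    apply Complex.ext <;> simp
  rw [h1, riemannZeta_conj, Complex.norm_conj]

theorem mom_cube {D₂ : SC.SelData} (h₂ : SC.IsSel D₂ 3)
    (hf : ∀ n : ℕ, 1 ≤ n → D₂.f n = ∑ k ∈ n.divisors, (k.divisors.card : ℝ)) (ε : ℝ) (hε : 0 < ε) (hε1 : ε ≤ 1) :
    SC.Mom D₂ (5/4 + ε) := by
  obtain ⟨C, hC, hsix⟩ := six ε hε hε1
  have hφe : ∀ t : ℝ, ‖D₂.F (SC.ln (1/2) t)‖ ^ 2 = z2 t ^ 3 := by
    intro t
    rw [F_eq_cube h₂ hf t, norm_pow]
    unfold z2
    ring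
  have hcont : Continuous fun t : ℝ => z2 t ^ 3 := by
    have h := (SC.F_half_cont h₂).norm.pow 2
    refine h.congr ?_
    intro t
    exact hφe t
  have hpos : ∀ t : ℝ, 0 ≤ z2 t ^ 3 := by
    intro t
    unfold z2
    positivity
  set a : ℝ := 5/4 + ε with ha
  have ha1 : 1 ≤ a := by rw [ha]; linarith
  have hint : ∀ x y : ℝ, IntervalIntegrable (fun t : ℝ => z2 t ^ 3) volume x y :=
    fun x y => hcont.intervalIntegrable x y
  have hind : ∀ n : ℕ, ∫ t in (1:ℝ)..(2 ^ n), z2 t ^ 3 ≤ C * ((2:ℝ) ^ n) ^ a := by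
    intro n
    induction n with
    | zero =>
      simp
      exact hC
    | succ n ih =>
      have h1 : (1:ℝ) ≤ 2 ^ n := one_le_pow₀ (by norm_num)
      have h2 := hsix (2 ^ n) h1
      rw [← intervalIntegral.integral_add_adjacent_intervals (hint 1 (2 ^ n)) (hint (2 ^ n) (2 ^ (n + 1)))]
      rw [show (2:ℝ) * 2 ^ n = 2 ^ (n + 1) by ring] at h2
      have h3 : ((2:ℝ) ^ (n + 1)) ^ a = 2 ^ a * ((2:ℝ) ^ n) ^ a := by
        rw [pow_succ', Real.mul_rpow (by norm_num) (by positivity)]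
      have h4 : (2:ℝ) ≤ 2 ^ a := by
        calc (2:ℝ) = 2 ^ (1:ℝ) := (Real.rpow_one 2).symm
          _ ≤ 2 ^ a := Real.rpow_le_rpow_of_exponent_le (by norm_num) ha1
      have h5 : 0 ≤ C * ((2:ℝ) ^ n) ^ a := by positivity
      rw [h3]
      nlinarith
  obtain ⟨B, hB⟩ : ∃ B : ℝ, B = ∫ t in (0:ℝ)..1, z2 t ^ 3 := ⟨_, rfl⟩
  have hB0 : 0 ≤ B := by
    rw [hB]
    exact intervalIntegral.integral_nonneg (by norm_num) (fun t _ => hpos t)
  refine ⟨2 * (B + C * 2 ^ a), by positivity, fun U hU => ?_⟩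
  have hU0 : 0 < U := by linarith
  have e1 : ∫ t in (-U)..U, ‖D₂.F (SC.ln (1/2) t)‖ ^ 2 = ∫ t in (-U)..U, z2 t ^ 3 :=
    intervalIntegral.integral_congr (fun t _ => hφe t)
  have e2 : ∫ t in (-U)..0, z2 t ^ 3 = ∫ t in (0:ℝ)..U, z2 t ^ 3 := by
    have h := intervalIntegral.integral_comp_neg (a := 0) (b := U) (fun t : ℝ => z2 t ^ 3)
    rw [neg_zero] at h
    rw [← h]
    refine intervalIntegral.integral_congr (fun t _ => ?_)
    simp only [fin_even]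
  rw [e1, ← intervalIntegral.integral_add_adjacent_intervals (hint (-U) 0) (hint 0 U), e2]
  obtain ⟨n, hn1, hn2⟩ := exists_nat_pow_near hU (by norm_num : (1:ℝ) < 2)
  have h6 : ∫ t in (0:ℝ)..U, z2 t ^ 3 ≤ B + C * (2 * U) ^ a := by
    have h7 : ∫ t in (0:ℝ)..U, z2 t ^ 3 ≤ ∫ t in (0:ℝ)..(2 ^ (n + 1)), z2 t ^ 3 := by
      refine intervalIntegral.integral_mono_interval le_rfl hU0.le hn2.le ?_ (hint _ _)
      exact Filter.Eventually.of_forall (fun t => hpos t)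
    have h8 : ∫ t in (0:ℝ)..(2 ^ (n + 1)), z2 t ^ 3 = B + ∫ t in (1:ℝ)..(2 ^ (n + 1)), z2 t ^ 3 := by
      rw [hB, intervalIntegral.integral_add_adjacent_intervals (hint _ _) (hint _ _)]
    have h9 := hind (n + 1)
    have h10 : ((2:ℝ) ^ (n + 1)) ^ a ≤ (2 * U) ^ a := by
      refine Real.rpow_le_rpow (by positivity) ?_ (by linarith)
      rw [pow_succ']
      linarith
    have h11 := mul_le_mul_of_nonneg_left h10 hC
    linarith
  have h12 : (2 * U) ^ a = 2 ^ a * U ^ a := Real.mul_rpow (by norm_num) hU0.le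
  have h13 : 1 ≤ U ^ a := Real.one_le_rpow hU (by linarith)
  rw [h12] at h6
  nlinarith

/-- the full conjectured range for `F₂ = ζ³` -/
theorem propA_cube {D₁ D₂ : SC.SelData} (h₁ : SC.IsSel D₁ 2) (h₂ : SC.IsSel D₂ 3)
    (hf : ∀ n : ℕ, 1 ≤ n → D₂.f n = ∑ k ∈ n.divisors, (k.divisors.card : ℝ))
    (δ : ℝ) (hδ0 : 0 < δ) (hδ1 : δ < 1/2) :
    SC.PropA (fun x => D₁.E x * D₂.E x) (7/12) δ := by
  have hM := mom_cube h₂ hf (min (1/8) ((1/2 - δ)/2)) (lt_min (by norm_num) (by linarith))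
    ((min_le_left _ _).trans (by norm_num))
  have e1 : min (1/8 : ℝ) ((1/2 - δ)/2) ≤ 1/8 := min_le_left _ _
  have e2 : min (1/8 : ℝ) ((1/2 - δ)/2) ≤ (1/2 - δ)/2 := min_le_right _ _
  have e3 : 0 < min (1/8 : ℝ) ((1/2 - δ)/2) := lt_min (by norm_num) (by linarith)
  exact SC.propA_gen h₁ h₂ (by linarith) (by linarith) hM δ hδ0 hδ1 (by linarith)

end Pool.Agent.H15.HB
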