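import Pool.Agent.H15.HB.Defs

/-!
# HB-15  Bessel inequality for a folded function  (project HB, MP_be4568)

`A` bounded, measurable, zero outside `[a, b]`.  The periodization `f(x) = ∑_{k ∈ ℤ} A(x + k)` (finite sum for `x ∈ [0,1]`) is bounded,
`∫_0^1 f(x) e^{-2πinx} dx = ∫_ℝ A(x) e^{-2πinx} dx`; Bessel's inequality on `[0,1]` (expand
`0 ≤ ∫_0^1 |f - ∑_{n ∈ S} c_n e_n|²`, or `orthonormal_fourier`) gives `∑_{n ∈ S} |Â(n)|² ≤ ∫_0^1 |f|²`, and
`∫_0^1 |f|² = ∑_{k, k'} ∫_0^1 A(x+k) conj A(x+k') = ∑_l ∫_ℝ A(x) conj A(x+l) dx`; only `|l| ≤ b - a` contribute.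
-/

set_option autoImplicit false

open Complex Filter Topology MeasureTheory Set
open scoped ComplexConjugate

namespace Pool.Agent.H15.HB

theorem fold_split (g : ℝ → ℂ) (hg : Integrable g) (K : ℕ) (hs : ∀ x, x ∉ Icc (-(K:ℝ)) K → g x = 0) :
    ∫ x, g x = ∑ k ∈ Finset.Icc (-(K:ℤ)) K, ∫ x in (0:ℝ)..1, g (x + k) := by
  have h1 : ∀ k : ℤ, ∫ x in (0:ℝ)..1, g (x + k) = ∫ x in (k:ℝ)..(k+1:ℝ), g x := by
    intro k
    rw [intervalIntegral.integral_comp_add_right]
    simp [add_comm]
  have h2 : ∀ N : ℕ, ∑ k ∈ Finset.Icc (-(N:ℤ)) N, ∫ x in (k:ℝ)..(k+1:ℝ), g x =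
      ∫ x in (-(N:ℝ))..(N+1:ℝ), g x := by
    intro N
    induction N with
    | zero => simp
    | succ n ih =>
      have e : Finset.Icc (-((n+1:ℕ):ℤ)) ((n+1:ℕ):ℤ) =
          insert (-(n+1:ℤ)) (insert (n+1:ℤ) (Finset.Icc (-(n:ℤ)) n)) := by
        ext k
        simp only [Finset.mem_Icc, Finset.mem_insert]
        push_cast
        omega
      rw [e, Finset.sum_insert, Finset.sum_insert, ih]
      · push_cast
        rw [add_comm (∫ x in ((n:ℝ)+1)..(n+1+1), g x), ← add_assoc]
        have i1 : ∀ p q : ℝ, IntervalIntegrable g volume p q := fun p q => hg.intervalIntegrable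
        rw [show (-((n:ℝ)+1) + 1) = -(n:ℝ) by ring,
          intervalIntegral.integral_add_adjacent_intervals (i1 _ _) (i1 _ _),
          intervalIntegral.integral_add_adjacent_intervals (i1 _ _) (i1 _ _)]
      · simp
      · simp only [Finset.mem_insert, Finset.mem_Icc, not_or]
        constructor
        · omega
        · omega
  simp only [h1]
  rw [h2, intervalIntegral.integral_of_le (by have : (0:ℝ) ≤ K := Nat.cast_nonneg K; linarith)]
  rw [← integral_Icc_eq_integral_Ioc]
  symm
  apply setIntegral_eq_integral_of_forall_compl_eq_zero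
  intro x hx
  apply hs
  intro h
  apply hx
  exact ⟨h.1, by linarith [h.2]⟩

theorem fold_orth (n m : ℕ) : ∫ x in (0:ℝ)..1, cexp (2 * Real.pi * I * n * x) * conj (cexp (2 * Real.pi * I * m * x)) =
    if n = m then 1 else 0 := by
  have e : ∀ x : ℝ, cexp (2 * Real.pi * I * n * x) * conj (cexp (2 * Real.pi * I * m * x)) =
      cexp ((2 * Real.pi * I * ((n:ℂ) - m)) * x) := by
    intro x
    rw [← Complex.exp_conj, ← Complex.exp_add]
    congr 1
    simp only [map_mul, Complex.conj_ofReal, Complex.conj_I, map_natCast, map_ofNat]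
    ring
  simp only [e]
  split_ifs with h
  · subst h; simp
  · have hne : (n:ℂ) - m ≠ 0 := by
      rw [sub_ne_zero]; exact_mod_cast h
    have hpi : (Real.pi : ℂ) ≠ 0 := by exact_mod_cast Real.pi_ne_zero
    have hc : (2 * Real.pi * I * ((n:ℂ) - m)) ≠ 0 := by
      simp [hne, hpi]
    rw [integral_exp_mul_complex hc]
    have : cexp (2 * Real.pi * I * ((n:ℂ) - m) * (1:ℝ)) = 1 := by
      have := Complex.exp_int_mul_two_pi_mul_I ((n:ℤ) - m)
      rw [← this]
      congr 1
      push_cast
      ring
    rw [this]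
    simp

theorem fold_bessel (f : ℝ → ℂ) (hf : AEStronglyMeasurable f (volume.restrict (Ioc 0 1))) (M : ℝ)
    (hM : ∀ x, ‖f x‖ ≤ M) (S : Finset ℕ) :
    (∑ n ∈ S, ‖∫ x in (0:ℝ)..1, f x * cexp (-(2 * Real.pi * I * n * x))‖ ^ 2) ≤
      (∫ x in (0:ℝ)..1, f x * conj (f x)).re := by
  set c : ℕ → ℂ := fun n => ∫ x in (0:ℝ)..1, f x * cexp (-(2 * Real.pi * I * n * x)) with hc
  set e : ℕ → ℝ → ℂ := fun n x => cexp (2 * Real.pi * I * n * x) with he
  have he' : ∀ (n : ℕ) (x : ℝ), cexp (-(2 * Real.pi * I * n * x)) = conj (e n x) := by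
    intro n x
    rw [he]
    simp only
    rw [← Complex.exp_conj]
    congr 1
    simp only [map_mul, Complex.conj_ofReal, Complex.conj_I, map_natCast, map_ofNat]
    ring
  have hen : ∀ n x, ‖e n x‖ = 1 := by
    intro n x
    have : e n x = cexp (((2 * Real.pi * n * x : ℝ) : ℂ) * I) := by
      rw [he]; simp only; congr 1; push_cast; ring
    rw [this, Complex.norm_exp_ofReal_mul_I]
  have hec : ∀ n, Continuous (e n) := by
    intro n
    rw [he]
    fun_prop
  set P : ℝ → ℂ := fun x => ∑ n ∈ S, c n * e n x with hP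
  have hPc : Continuous P := by
    rw [hP]
    apply continuous_finsetSum
    intro n _
    exact continuous_const.mul (hec n)
  have fI : IntervalIntegrable f volume 0 1 := by
    rw [intervalIntegrable_iff, uIoc_of_le zero_le_one]
    refine ⟨hf, ?_⟩
    exact HasFiniteIntegral.of_bounded (C := M) (ae_of_all _ hM)
  have ffI : IntervalIntegrable (fun x => f x * conj (f x)) volume 0 1 := by
    rw [intervalIntegrable_iff, uIoc_of_le zero_le_one]
    refine ⟨hf.mul (Complex.continuous_conj.comp_aestronglyMeasurable hf), ?_⟩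
    apply HasFiniteIntegral.of_bounded (C := M * M) (ae_of_all _ ?_)
    intro x
    rw [norm_mul, RCLike.norm_conj]
    exact mul_le_mul (hM x) (hM x) (norm_nonneg _) (le_trans (norm_nonneg _) (hM x))
  have feI : ∀ n, IntervalIntegrable (fun x => f x * conj (e n x)) volume 0 1 := by
    intro n
    exact fI.mul_continuousOn (Complex.continuous_conj.comp (hec n)).continuousOn
  have e1 : ∫ x in (0:ℝ)..1, f x * conj (P x) = ∑ n ∈ S, ((‖c n‖ ^ 2 : ℝ) : ℂ) := by
    have : ∀ x, f x * conj (P x) = ∑ n ∈ S, conj (c n) * (f x * conj (e n x)) := by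
      intro x
      rw [hP]
      simp only [map_sum, map_mul, Finset.mul_sum]
      apply Finset.sum_congr rfl
      intro n _
      ring
    simp only [this]
    rw [intervalIntegral.integral_finsetSum (fun n _ => (feI n).const_mul _)]
    apply Finset.sum_congr rfl
    intro n _
    rw [intervalIntegral.integral_const_mul]
    have h3 : ∫ x in (0:ℝ)..1, f x * conj (e n x) = c n := by
      rw [hc]; simp only [he']
    rw [h3, mul_comm, Complex.mul_conj, Complex.normSq_eq_norm_sq]
  have e2 : ∫ x in (0:ℝ)..1, P x * conj (P x) = ∑ n ∈ S, ((‖c n‖ ^ 2 : ℝ) : ℂ) := by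
    have : ∀ x, P x * conj (P x) = ∑ n ∈ S, ∑ m ∈ S, (c n * conj (c m)) * (e n x * conj (e m x)) := by
      intro x
      rw [hP]
      simp only [map_sum, map_mul, Finset.mul_sum, Finset.sum_mul]
      rw [Finset.sum_comm]
      apply Finset.sum_congr rfl
      intro n _
      apply Finset.sum_congr rfl
      intro m _
      ring
    simp only [this]
    rw [intervalIntegral.integral_finsetSum]
    · apply Finset.sum_congr rfl
      intro n hn
      rw [intervalIntegral.integral_finsetSum]
      · simp only [intervalIntegral.integral_const_mul]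
        rw [Finset.sum_eq_single n]
        · rw [he]
          simp only
          rw [fold_orth n n]
          simp only [if_true, mul_one]
          rw [Complex.mul_conj, Complex.normSq_eq_norm_sq]
        · intro m _ hmn
          rw [he]
          simp only
          rw [fold_orth n m, if_neg (Ne.symm hmn), mul_zero]
        · intro h; exact absurd hn h
      · intro m _
        apply Continuous.intervalIntegrable
        exact continuous_const.mul ((hec n).mul (Complex.continuous_conj.comp (hec m)))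
    · intro n _
      apply Continuous.intervalIntegrable
      apply continuous_finsetSum
      intro m _
      exact continuous_const.mul ((hec n).mul (Complex.continuous_conj.comp (hec m)))
  have e3 : ∫ x in (0:ℝ)..1, P x * conj (f x) = ∑ n ∈ S, ((‖c n‖ ^ 2 : ℝ) : ℂ) := by
    have h4 : ∫ x in (0:ℝ)..1, P x * conj (f x) = conj (∫ x in (0:ℝ)..1, f x * conj (P x)) := by
      rw [intervalIntegral.integral_of_le zero_le_one, intervalIntegral.integral_of_le zero_le_one, ← integral_conj]
      congr 1
      ext x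
      simp [mul_comm]
    rw [h4, e1]
    simp only [map_sum, Complex.conj_ofReal]
  have fPI : IntervalIntegrable (fun x => f x * conj (P x)) volume 0 1 :=
    fI.mul_continuousOn (Complex.continuous_conj.comp hPc).continuousOn
  have PfI : IntervalIntegrable (fun x => P x * conj (f x)) volume 0 1 := by
    have h5 : IntervalIntegrable (fun x => conj (f x)) volume 0 1 := by
      rw [intervalIntegrable_iff, uIoc_of_le zero_le_one]
      refine ⟨Complex.continuous_conj.comp_aestronglyMeasurable hf, ?_⟩
      apply HasFiniteIntegral.of_bounded (C := M) (ae_of_all _ ?_)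
      intro x
      rw [RCLike.norm_conj]
      exact hM x
    have := h5.mul_continuousOn hPc.continuousOn
    refine this.congr ?_
    intro x _
    simp [mul_comm]
  have PPI : IntervalIntegrable (fun x => P x * conj (P x)) volume 0 1 :=
    (hPc.mul (Complex.continuous_conj.comp hPc)).intervalIntegrable _ _
  have e4 : ∫ x in (0:ℝ)..1, (f x - P x) * conj (f x - P x) =
      (∫ x in (0:ℝ)..1, f x * conj (f x)) - ∑ n ∈ S, ((‖c n‖ ^ 2 : ℝ) : ℂ) := by
    have : ∀ x, (f x - P x) * conj (f x - P x) = (f x * conj (f x) - f x * conj (P x)) -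
        (P x * conj (f x) - P x * conj (P x)) := by
      intro x
      rw [map_sub]
      ring
    simp only [this]
    rw [intervalIntegral.integral_sub (ffI.sub fPI) (PfI.sub PPI),
      intervalIntegral.integral_sub ffI fPI, intervalIntegral.integral_sub PfI PPI, e1, e2, e3]
    ring
  have e5 : 0 ≤ (∫ x in (0:ℝ)..1, (f x - P x) * conj (f x - P x)).re := by
    have h6 : ∫ x in (0:ℝ)..1, (f x - P x) * conj (f x - P x) =
        ((∫ x in (0:ℝ)..1, ‖f x - P x‖ ^ 2 : ℝ) : ℂ) := by
      rw [← intervalIntegral.integral_ofReal]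
      apply intervalIntegral.integral_congr
      intro x _
      simp only
      rw [Complex.mul_conj, Complex.normSq_eq_norm_sq]
    rw [h6, Complex.ofReal_re]
    apply intervalIntegral.integral_nonneg zero_le_one
    intro x _
    positivity
  rw [e4, Complex.sub_re] at e5
  have e6 : (∑ n ∈ S, ((‖c n‖ ^ 2 : ℝ) : ℂ)).re = ∑ n ∈ S, ‖c n‖ ^ 2 := by
    rw [← Complex.ofReal_sum, Complex.ofReal_re]
  rw [e6] at e5
  linarith

theorem fold_intg (g : ℝ → ℂ) (hm : Measurable g) (M : ℝ) (hM : ∀ x, ‖g x‖ ≤ M) (a b : ℝ)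
    (hs : ∀ x, x ∉ Icc a b → g x = 0) : Integrable g := by
  have h1 : IntegrableOn g (Icc a b) := by
    refine ⟨hm.aestronglyMeasurable, ?_⟩
    exact HasFiniteIntegral.of_bounded (C := M) (ae_of_all _ hM)
  rw [integrableOn_iff_integrable_of_support_subset] at h1
  · exact h1
  · intro x hx
    by_contra h
    exact hx (hs x h)

theorem fold (A : ℝ → ℂ) (hm : Measurable A) (B : ℝ) (hB : ∀ x, ‖A x‖ ≤ B) (a b : ℝ) (hab : a ≤ b)
    (hs : ∀ x, x ∉ Icc a b → A x = 0) (S : Finset ℕ) (L : ℕ) (hL : b - a ≤ L) :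
    ∑ n ∈ S, ‖∫ x : ℝ, A x * cexp (-(2 * Real.pi * I * n * x))‖ ^ 2 ≤
      ‖∑ l ∈ Finset.Icc (-(L : ℤ)) L, ∫ x : ℝ, A x * conj (A (x + l))‖ := by
  obtain ⟨K, hK⟩ := exists_nat_ge (max |a| |b| + 1)
  have hKa : |a| + 1 ≤ K := le_trans (by gcongr; exact le_max_left _ _) hK
  have hKb : |b| + 1 ≤ K := le_trans (by gcongr; exact le_max_right _ _) hK
  have ha1 := (abs_le.1 (le_refl |a|)).1
  have hb1 := (abs_le.1 (le_refl |b|)).2
  have hs' : ∀ x, x ∉ Icc (-(K:ℝ)) K → A x = 0 := by
    intro x hx
    apply hs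
    intro h
    apply hx
    exact ⟨by linarith [h.1], by linarith [h.2]⟩
  have hB0 : 0 ≤ B := le_trans (norm_nonneg _) (hB 0)
  set P : ℝ → ℂ := fun x => ∑' l : ℤ, A (x + l) with hPdef
  have hper : ∀ (x : ℝ) (k : ℤ), P (x + k) = P x := by
    intro x k
    rw [hPdef]
    simp only
    rw [← Equiv.tsum_eq (Equiv.addLeft k) (fun l : ℤ => A (x + l))]
    apply tsum_congr
    intro l
    simp only [Equiv.coe_addLeft]
    push_cast
    congr 1
    ring
  set f : ℝ → ℂ := fun x => ∑ k ∈ Finset.Icc (-(K : ℤ)) K, A (x + k) with hf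
  have hP1 : ∀ x ∈ Icc (0:ℝ) 1, P x = f x := by
    intro x hx
    rw [hPdef, hf]
    simp only
    apply tsum_eq_sum
    intro k hk
    apply hs
    intro h
    apply hk
    rw [Finset.mem_Icc]
    have h1 := h.1
    have h2 := h.2
    constructor
    · have : (-(K:ℝ)) ≤ k := by linarith [hx.2]
      exact_mod_cast this
    · have : (k:ℝ) ≤ K := by linarith [hx.1]
      exact_mod_cast this
  have hP2 : ∀ x, A x * conj (P x) = ∑ l ∈ Finset.Icc (-(L : ℤ)) L, A x * conj (A (x + l)) := by
    intro x
    by_cases hx : x ∈ Icc a b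
    · have : P x = ∑ l ∈ Finset.Icc (-(L : ℤ)) L, A (x + l) := by
        rw [hPdef]
        simp only
        apply tsum_eq_sum
        intro k hk
        apply hs
        intro h
        apply hk
        rw [Finset.mem_Icc]
        have h1 := h.1
        have h2 := h.2
        have h3 := hx.1
        have h4 := hx.2
        constructor
        · have : (-(L:ℝ)) ≤ k := by linarith
          exact_mod_cast this
        · have : (k:ℝ) ≤ L := by linarith
          exact_mod_cast this
      rw [this, map_sum, Finset.mul_sum]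
    · rw [hs x hx]
      simp
  have fm : Measurable f := by
    rw [hf]
    exact Finset.measurable_fun_sum _ (fun k _ => hm.comp (measurable_id.add_const _))
  have fb : ∀ x, ‖f x‖ ≤ (Finset.Icc (-(K : ℤ)) K).card * B := by
    intro x
    rw [hf]
    simp only
    refine le_trans (norm_sum_le _ _) ?_
    refine le_trans (Finset.sum_le_sum (fun k _ => hB _)) ?_
    simp
  have iA : Integrable A := fold_intg A hm B hB a b hs
  have e1 : ∀ n : ℕ, ∫ x : ℝ, A x * cexp (-(2 * Real.pi * I * n * x)) =
      ∫ x in (0:ℝ)..1, f x * cexp (-(2 * Real.pi * I * n * x)) := by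
    intro n
    have hne : ∀ x : ℝ, ‖cexp (-(2 * Real.pi * I * n * x))‖ = 1 := by
      intro x
      have : -(2 * Real.pi * I * n * x) = (((-(2 * Real.pi * n * x)) : ℝ) : ℂ) * I := by
        push_cast; ring
      rw [this, Complex.norm_exp_ofReal_mul_I]
    rw [fold_split (fun x => A x * cexp (-(2 * Real.pi * I * n * x))) ?_ K ?_]
    · have h3 : ∀ k : ℤ, ∀ x : ℝ, A (x + k) * cexp (-(2 * Real.pi * I * n * ((x + k : ℝ) : ℂ))) =
          A (x + k) * cexp (-(2 * Real.pi * I * n * x)) := by
        intro k x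
        congr 1
        have h4 : -(2 * Real.pi * I * n * ((x + k : ℝ) : ℂ)) =
            -(2 * Real.pi * I * n * x) + ((-(n * k) : ℤ) : ℂ) * (2 * Real.pi * I) := by
          push_cast; ring
        rw [h4, Complex.exp_add, Complex.exp_int_mul_two_pi_mul_I, mul_one]
      simp only [h3]
      rw [← intervalIntegral.integral_finsetSum]
      · apply intervalIntegral.integral_congr
        intro x _
        simp only
        rw [hf]
        simp only
        rw [Finset.sum_mul]
      · intro k _
        apply IntervalIntegrable.mul_continuousOn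
        · exact (iA.comp_add_right (k:ℝ)).intervalIntegrable
        · fun_prop
    · apply fold_intg _ _ B _ a b
      · intro x hx
        rw [hs x hx, zero_mul]
      · exact hm.mul (by fun_prop)
      · intro x
        rw [norm_mul, hne, mul_one]
        exact hB x
    · intro x hx
      rw [hs' x hx, zero_mul]
  simp only [e1]
  refine le_trans (fold_bessel f fm.aestronglyMeasurable _ fb S) ?_
  have iAA : ∀ l : ℤ, Integrable (fun x => A x * conj (A (x + l))) := by
    intro l
    apply fold_intg _ _ (B * B) _ a b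
    · intro x hx
      rw [hs x hx, zero_mul]
    · exact hm.mul (Complex.continuous_conj.measurable.comp (hm.comp (measurable_id.add_const _)))
    · intro x
      rw [norm_mul, RCLike.norm_conj]
      exact mul_le_mul (hB x) (hB _) (norm_nonneg _) hB0
  have e2 : ∫ x in (0:ℝ)..1, f x * conj (f x) =
      ∑ l ∈ Finset.Icc (-(L : ℤ)) L, ∫ x : ℝ, A x * conj (A (x + l)) := by
    rw [← integral_finsetSum _ (fun l _ => iAA l)]
    have h5 : ∫ x : ℝ, ∑ l ∈ Finset.Icc (-(L : ℤ)) L, A x * conj (A (x + l)) =
        ∫ x : ℝ, A x * conj (P x) := by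
      congr 1
      ext x
      rw [hP2]
    rw [h5]
    have i6 : Integrable (fun x => A x * conj (P x)) := by
      have : (fun x => A x * conj (P x)) = fun x => ∑ l ∈ Finset.Icc (-(L : ℤ)) L, A x * conj (A (x + l)) := by
        ext x
        rw [hP2]
      rw [this]
      exact integrable_finsetSum _ (fun l _ => iAA l)
    rw [fold_split (fun x => A x * conj (P x)) i6 K (by intro x hx; rw [hs' x hx, zero_mul])]
    simp only [hper]
    have h7 : ∀ k : ℤ, ∫ x in (0:ℝ)..1, A (x + k) * conj (P x) = ∫ x in (0:ℝ)..1, A (x + k) * conj (f x) := by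
      intro k
      apply intervalIntegral.integral_congr
      intro x hx
      rw [uIcc_of_le zero_le_one] at hx
      simp only
      rw [hP1 x hx]
    simp only [h7]
    rw [← intervalIntegral.integral_finsetSum]
    · apply intervalIntegral.integral_congr
      intro x _
      simp only
      rw [← Finset.sum_mul]
    · intro k _
      rw [intervalIntegrable_iff, uIoc_of_le zero_le_one]
      refine ⟨((hm.comp (measurable_id.add_const _)).mul (Complex.continuous_conj.measurable.comp fm)).aestronglyMeasurable, ?_⟩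
      apply HasFiniteIntegral.of_bounded (C := B * ((Finset.Icc (-(K : ℤ)) K).card * B)) (ae_of_all _ ?_)
      intro x
      rw [norm_mul, RCLike.norm_conj]
      exact mul_le_mul (hB _) (fb x) (norm_nonneg _) hB0
  rw [e2]
  exact Complex.re_le_norm _

/-- for a sum of functions -/
theorem fold_sum {ι : Type*} (s : Finset ι) (A : ι → ℝ → ℂ) (hm : ∀ i, Measurable (A i)) (B : ℝ)
    (hB : ∀ i x, ‖A i x‖ ≤ B) (a b : ℝ) (hab : a ≤ b)
    (hs : ∀ i x, x ∉ Icc a b → A i x = 0) (S : Finset ℕ) (L : ℕ) (hL : b - a ≤ L) :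
    ∑ n ∈ S, ‖∫ x : ℝ, (∑ i ∈ s, A i x) * cexp (-(2 * Real.pi * I * n * x))‖ ^ 2 ≤
      ∑ i ∈ s, ∑ j ∈ s, ∑ l ∈ Finset.Icc (-(L : ℤ)) L, ‖∫ x : ℝ, A i x * conj (A j (x + l))‖ := by
  have iAA : ∀ i j, ∀ l : ℤ, Integrable (fun x => A i x * conj (A j (x + l))) := by
    intro i j l
    apply fold_intg _ _ (B * B) _ a b
    · intro x hx
      rw [hs i x hx, zero_mul]
    · exact (hm i).mul (Complex.continuous_conj.measurable.comp ((hm j).comp (measurable_id.add_const _)))
    · intro x
      rw [norm_mul, RCLike.norm_conj]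
      exact mul_le_mul (hB i x) (hB j _) (norm_nonneg _) (le_trans (norm_nonneg _) (hB i x))
  have h1 := fold (fun x => ∑ i ∈ s, A i x) (Finset.measurable_fun_sum _ (fun i _ => hm i)) (s.card * B)
    (by
      intro x
      refine le_trans (norm_sum_le _ _) ?_
      refine le_trans (Finset.sum_le_sum (fun i _ => hB i x)) ?_
      simp) a b hab
    (by
      intro x hx
      exact Finset.sum_eq_zero (fun i _ => hs i x hx)) S L hL
  refine le_trans h1 ?_
  have h2 : ∀ l : ℤ, ∫ x : ℝ, (∑ i ∈ s, A i x) * conj (∑ j ∈ s, A j (x + l)) =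
      ∑ i ∈ s, ∑ j ∈ s, ∫ x : ℝ, A i x * conj (A j (x + l)) := by
    intro l
    have h3 : ∀ x : ℝ, (∑ i ∈ s, A i x) * conj (∑ j ∈ s, A j (x + l)) =
        ∑ i ∈ s, ∑ j ∈ s, A i x * conj (A j (x + l)) := by
      intro x
      rw [map_sum, Finset.sum_mul_sum]
    simp only [h3]
    rw [integral_finsetSum _ (fun i _ => integrable_finsetSum _ (fun j _ => iAA i j l))]
    apply Finset.sum_congr rfl
    intro i _
    rw [integral_finsetSum _ (fun j _ => iAA i j l)]
  simp only [h2]
  refine le_trans (norm_sum_le _ _) ?_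
  rw [Finset.sum_congr rfl (fun i _ => Finset.sum_comm)]
  rw [Finset.sum_comm]
  apply Finset.sum_le_sum
  intro l _
  refine le_trans (norm_sum_le _ _) ?_
  apply Finset.sum_le_sum
  intro i _
  exact norm_sum_le _ _

end Pool.Agent.H15.HB
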