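import Pool.Agent.H15.HB.Defs
import Pool.Agent.H15.SC.Stir

/-!
# HB-01  Stirling bound for Γ on vertical strips  (project HB, MP_be4568)

`SC/Stir.lean` has `stirling`: for `|im z| ≥ 2`, `Γ(z) = √(2π) exp((z - 1/2) log z - z + E)`, `‖E‖ ≤ C/|im z|`.
`Re((z-1/2) log z - z) = (σ - 1/2) log|z| - t arg z - σ`, and `t arg z ≥ π|t|/2 - |σ|` (as `|arg z| ≥ π/2 - |σ|/|t|`
for `σ > 0`); `|z|^{σ-1/2}` and `(1+|t|)^{σ-1/2}` are comparable with constants depending on `a, b`.
For `|im z| ≤ 2`: `Γ` is continuous on the compact rectangle `[a,b] × [-2,2]` (`a > 0`) and the right side is bounded below.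
-/

set_option autoImplicit false

open Complex Filter Topology MeasureTheory Set
open scoped ComplexConjugate

namespace Pool.Agent.H15.HB

/-- `t arg z ≥ π|t|/2 - σ` for `σ > 0` -/
private theorem im_mul_arg (s : ℂ) (hs : 0 < s.re) : Real.pi / 2 * |s.im| - s.re ≤ s.im * s.arg := by
  have hn : 0 < ‖s‖ := norm_pos_iff.2 (by rintro rfl; simp at hs)
  have habs : |s.arg| < Real.pi / 2 := Complex.abs_arg_lt_pi_div_two_iff.2 (Or.inl hs)
  -- `im * arg = |im| * |arg|`
  have hsgn : s.im * s.arg = |s.im| * |s.arg| := by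
    rcases le_total 0 s.im with h | h
    · rw [abs_of_nonneg h, abs_of_nonneg (Complex.arg_nonneg_iff.2 h)]
    · rcases eq_or_lt_of_le h with h0 | h0
      · rw [h0]; simp
      · rw [abs_of_neg h0, abs_of_neg (Complex.arg_neg_iff.2 h0)]
        ring
  rw [hsgn]
  rcases eq_or_ne s.im 0 with h0 | h0
  · rw [h0]; simp [hs.le]
  set δ := Real.pi / 2 - |s.arg| with hδ
  have hδpos : 0 ≤ δ := by linarith
  have hcos : Real.cos |s.arg| = s.re / ‖s‖ := by
    rw [Real.cos_abs, Complex.cos_arg (by rintro rfl; simp at hs)]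
  have hsin : Real.sin |s.arg| = |s.im| / ‖s‖ := by
    rcases le_total 0 s.im with h | h
    · rw [abs_of_nonneg (Complex.arg_nonneg_iff.2 h), Complex.sin_arg, abs_of_nonneg h]
    · have h' : s.im < 0 := lt_of_le_of_ne h h0
      rw [abs_of_neg (Complex.arg_neg_iff.2 h'), Real.sin_neg, Complex.sin_arg, abs_of_neg h']
      ring
  have himpos : 0 < |s.im| := abs_pos.2 h0
  have hδlt : δ < Real.pi / 2 := by
    have : 0 < |s.arg| := by
      rw [abs_pos]
      intro h
      rw [h, abs_zero, Real.sin_zero] at hsin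
      have := div_pos himpos hn
      linarith
    linarith
  have htan : Real.tan δ = s.re / |s.im| := by
    rw [Real.tan_eq_sin_div_cos, hδ, Real.sin_pi_div_two_sub, Real.cos_pi_div_two_sub, hcos, hsin]
    field_simp
  have h1 := Real.le_tan hδpos hδlt
  rw [htan, le_div_iff₀ himpos] at h1
  have : |s.arg| = Real.pi / 2 - δ := by rw [hδ]; ring
  rw [this]
  nlinarith

private theorem gamma_strip_far (a b : ℝ) (ha : 0 < a) : ∃ C : ℝ, 0 ≤ C ∧ ∀ s : ℂ, a ≤ s.re → s.re ≤ b →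
    2 ≤ |s.im| →
    ‖Complex.Gamma s‖ ≤ C * (1 + |s.im|) ^ (s.re - 1/2) * Real.exp (-(Real.pi / 2 * |s.im|)) := by
  obtain ⟨C, hC, hst⟩ := SC.stirling
  refine ⟨Real.sqrt (2 * Real.pi) * Real.exp (C / 2 + (|b| + 1) * (Real.log (1 + |b|) + Real.log 2)), by positivity, ?_⟩
  intro s hsa hsb him
  obtain ⟨E, hE, hG⟩ := hst s him
  have hre : 0 < s.re := lt_of_lt_of_le ha hsa
  have hn : 0 < ‖s‖ := norm_pos_iff.2 (by rintro rfl; simp at hre)
  have hb : 0 < b := lt_of_lt_of_le hre hsb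
  rw [abs_of_pos hb]
  have hs0 : s ≠ 0 := norm_pos_iff.1 hn
  have hpos : 0 < 1 + |s.im| := by positivity
  have h1 : ‖Complex.Gamma s‖ = Real.sqrt (2 * Real.pi) *
      Real.exp ((s.re - 1/2) * Real.log ‖s‖ - s.im * s.arg - s.re + E.re) := by
    rw [hG, norm_mul, Complex.norm_real, Real.norm_of_nonneg (Real.sqrt_nonneg _), Complex.norm_exp]
    congr 2
    simp only [Complex.add_re, Complex.sub_re, Complex.mul_re, Complex.sub_im, Complex.log_re, Complex.log_im]
    have e1 : ((1 : ℂ) / 2).re = 1/2 := by norm_num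
    have e2 : ((1 : ℂ) / 2).im = 0 := by norm_num
    rw [e1, e2]
    ring
  have hEre : E.re ≤ C / 2 := by
    calc E.re ≤ ‖E‖ := Complex.re_le_norm E
      _ ≤ C / |s.im| := hE
      _ ≤ C / 2 := div_le_div_of_nonneg_left hC (by norm_num) him
  have harg := im_mul_arg s hre
  have hlog1 : Real.log ‖s‖ ≤ Real.log (1 + b) + Real.log (1 + |s.im|) := by
    rw [← Real.log_mul (by positivity) (by positivity)]
    apply Real.log_le_log hn
    calc ‖s‖ ≤ |s.re| + |s.im| := Complex.norm_le_abs_re_add_abs_im s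
      _ = s.re + |s.im| := by rw [abs_of_pos hre]
      _ ≤ (1 + b) * (1 + |s.im|) := by nlinarith [abs_nonneg s.im]
  have hlog2 : Real.log (1 + |s.im|) - Real.log 2 ≤ Real.log ‖s‖ := by
    rw [← Real.log_div (by positivity) (by norm_num)]
    apply Real.log_le_log (by positivity)
    have := Complex.abs_im_le_norm s
    linarith
  have hlb : 0 ≤ Real.log (1 + b) := Real.log_nonneg (by linarith)
  have hl2 : 0 ≤ Real.log 2 := Real.log_nonneg (by norm_num)
  have hdiff : |Real.log ‖s‖ - Real.log (1 + |s.im|)| ≤ Real.log (1 + b) + Real.log 2 := by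
    rw [abs_le]
    constructor <;> linarith
  have hkey : (s.re - 1/2) * (Real.log ‖s‖ - Real.log (1 + |s.im|)) ≤ (b + 1) * (Real.log (1 + b) + Real.log 2) := by
    calc (s.re - 1/2) * (Real.log ‖s‖ - Real.log (1 + |s.im|))
        ≤ |(s.re - 1/2) * (Real.log ‖s‖ - Real.log (1 + |s.im|))| := le_abs_self _
      _ = |s.re - 1/2| * |Real.log ‖s‖ - Real.log (1 + |s.im|)| := abs_mul _ _
      _ ≤ (b + 1) * (Real.log (1 + b) + Real.log 2) := by
          apply mul_le_mul _ hdiff (abs_nonneg _) (by linarith)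
          rw [abs_le]
          constructor <;> linarith
  rw [h1, Real.rpow_def_of_pos hpos, mul_assoc, mul_assoc, ← Real.exp_add, ← Real.exp_add]
  apply mul_le_mul_of_nonneg_left _ (Real.sqrt_nonneg _)
  apply Real.exp_le_exp.2
  nlinarith

private theorem gamma_strip_near (a b : ℝ) (ha : 0 < a) : ∃ C : ℝ, 0 ≤ C ∧ ∀ s : ℂ, a ≤ s.re → s.re ≤ b →
    |s.im| ≤ 2 →
    ‖Complex.Gamma s‖ ≤ C * (1 + |s.im|) ^ (s.re - 1/2) * Real.exp (-(Real.pi / 2 * |s.im|)) := by
  have hK : IsCompact (Icc a b ×ℂ Icc (-2 : ℝ) 2) := isCompact_Icc.reProdIm isCompact_Icc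
  have hcont : ContinuousOn Complex.Gamma (Icc a b ×ℂ Icc (-2 : ℝ) 2) := by
    intro s hs
    apply ContinuousAt.continuousWithinAt
    apply DifferentiableAt.continuousAt (𝕜 := ℂ)
    apply Complex.differentiableAt_Gamma
    intro m h
    have h1 : a ≤ s.re := hs.1.1
    rw [h] at h1
    simp at h1
    have : (0 : ℝ) ≤ m := Nat.cast_nonneg m
    linarith
  obtain ⟨M, hM⟩ := hK.exists_bound_of_continuousOn hcont
  refine ⟨|M| * 3 * Real.exp Real.pi, by positivity, ?_⟩
  intro s hsa hsb him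
  have h1 : ‖Complex.Gamma s‖ ≤ |M| := (hM s ⟨⟨hsa, hsb⟩, abs_le.1 him⟩).trans (le_abs_self M)
  have h2 : (1 : ℝ) / 3 ≤ (1 + |s.im|) ^ (s.re - 1/2) := by
    calc (1 : ℝ) / 3 ≤ (1 + |s.im|) ^ (-1 : ℝ) := by
          rw [Real.rpow_neg_one, one_div]
          apply inv_anti₀ (by positivity)
          linarith
      _ ≤ (1 + |s.im|) ^ (s.re - 1/2) := by
          apply Real.rpow_le_rpow_of_exponent_le
          · linarith [abs_nonneg s.im]
          · linarith
  have h3 : Real.exp (-Real.pi) ≤ Real.exp (-(Real.pi / 2 * |s.im|)) := by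
    apply Real.exp_le_exp.2
    nlinarith [Real.pi_pos]
  have h4 : (1 : ℝ) = 3 * Real.exp Real.pi * ((1 / 3) * Real.exp (-Real.pi)) := by
    rw [Real.exp_neg]
    field_simp
  calc ‖Complex.Gamma s‖ ≤ |M| := h1
    _ = |M| * (3 * Real.exp Real.pi * ((1 / 3) * Real.exp (-Real.pi))) := by rw [← h4, mul_one]
    _ ≤ |M| * (3 * Real.exp Real.pi * ((1 + |s.im|) ^ (s.re - 1/2) * Real.exp (-(Real.pi / 2 * |s.im|)))) := by
        gcongr
    _ = |M| * 3 * Real.exp Real.pi * (1 + |s.im|) ^ (s.re - 1/2) * Real.exp (-(Real.pi / 2 * |s.im|)) := by ring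

theorem gamma_strip (a b : ℝ) (ha : 0 < a) (hab : a ≤ b) : ∃ C : ℝ, 0 ≤ C ∧ ∀ s : ℂ, a ≤ s.re → s.re ≤ b →
    ‖Complex.Gamma s‖ ≤ C * (1 + |s.im|) ^ (s.re - 1/2) * Real.exp (-(Real.pi / 2 * |s.im|)) := by
  obtain ⟨C₁, h₁, H₁⟩ := gamma_strip_far a b ha
  obtain ⟨C₂, h₂, H₂⟩ := gamma_strip_near a b ha
  refine ⟨C₁ + C₂, by positivity, ?_⟩
  intro s hsa hsb
  have hr : 0 ≤ (1 + |s.im|) ^ (s.re - 1/2) * Real.exp (-(Real.pi / 2 * |s.im|)) := by positivity
  rcases le_total 2 |s.im| with h | h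
  · refine (H₁ s hsa hsb h).trans ?_
    rw [mul_assoc, mul_assoc]
    apply mul_le_mul_of_nonneg_right _ hr
    linarith
  · refine (H₂ s hsa hsb h).trans ?_
    rw [mul_assoc, mul_assoc]
    apply mul_le_mul_of_nonneg_right _ hr
    linarith

end Pool.Agent.H15.HB
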