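import Pool.Agent.H15.HB.Kap

/-!
# HB-17  the phase density `rho = -re kap'`  (project HB, MP_be4568)

`ψ = X - iη`, `X ≥ 10`, `0 < η ≤ X/10`.  `4ψ² - 1 = 4 (a - i b)`, `a = X² - η² - 1/4`, `b = 2Xη`, so `rho = a/(a²+b²)` with
`0.98 X² ≤ a ≤ X²`, `0 ≤ b ≤ 0.2 X²`.  `rho' = -re (32 ψ/(4ψ²-1)²)`, `rho'' = re ((384 ψ² + 32)/(4ψ²-1)³)`.
`lr = rho'/rho` is close to `-2/X` and `lr' = rho''/rho - (rho'/rho)²` is close to `2/X²` (at `η = X/10`, `X` large: `1.82/X²`).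
(For instance: `f(ψ) = 1/(ψ²-1/4)`, `rho = re f`, `|ψ² f - 1| ≤ 0.01`, and with `ψ = X (1 - iθ)`, `0 ≤ θ ≤ 0.1`, compute.)
`q_facts`: `q = rho(X+l)/rho(X)`, `q' = q (lr(X+l) - lr X)`; `lr(X+l) - lr(X) ≥ ∫ 1/s² ≥ l/(4Y²)` and `q ≥ 1/16`;
`log q = ∫_X^{X+l} lr ≤ -log((X+l)/X)` for `l > 0`, so `q ≤ X/(X+l)` and `1 - q ≥ l/(X+l) ≥ l/(2Y)`; `l < 0` similarly.
-/

set_option autoImplicit false

open Complex Filter Topology MeasureTheory Set
open scoped ComplexConjugate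

namespace Pool.Agent.H15.HB

/-- `-re kap'` -/
noncomputable def rho (η X : ℝ) : ℝ := -(kap' (pt X η)).re

/-- derivative of `rho` in `X` -/
noncomputable def rho' (η X : ℝ) : ℝ := -(32 * pt X η / (4 * pt X η ^ 2 - 1) ^ 2).re

/-- logarithmic derivative -/
noncomputable def lr (η X : ℝ) : ℝ := rho' η X / rho η X

theorem rho_sq_re (η X : ℝ) : (4 * pt X η ^ 2 - 1).re = 4 * (X ^ 2 - η ^ 2 - 1 / 4) := by
  simp [pt, pow_two]; ring

theorem rho_sq_im (η X : ℝ) : (4 * pt X η ^ 2 - 1).im = -(4 * (2 * X * η)) := by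
  simp [pt, pow_two]; ring

theorem rho_den_pos {η X : ℝ} (hX : 1 ≤ X) : 0 < (X ^ 2 - η ^ 2 - 1 / 4) ^ 2 + (2 * X * η) ^ 2 := by
  by_cases h : η = 0
  · subst h
    have : 0 < X ^ 2 - 0 ^ 2 - 1 / 4 := by nlinarith
    positivity
  · have : 0 < X := by linarith
    have : 0 < (2 * X * η) ^ 2 := by positivity
    positivity

theorem rho_den_ne {η X : ℝ} (hX : 1 ≤ X) : 4 * pt X η ^ 2 - 1 ≠ 0 := by
  intro h
  have h1 := rho_sq_re η X
  have h2 := rho_sq_im η X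
  rw [h] at h1 h2
  simp only [Complex.zero_re, Complex.zero_im] at h1 h2
  have h3 := rho_den_pos (η := η) hX
  have h4 : X ^ 2 - η ^ 2 - 1 / 4 = 0 := by linarith
  have h5 : 2 * X * η = 0 := by linarith
  rw [h4, h5] at h3
  norm_num at h3

theorem rho_eq (η X : ℝ) : rho η X = (X ^ 2 - η ^ 2 - 1 / 4) / ((X ^ 2 - η ^ 2 - 1 / 4) ^ 2 + (2 * X * η) ^ 2) := by
  unfold rho kap'
  rw [Complex.div_re, Complex.normSq_apply, rho_sq_re, rho_sq_im]
  have h4 : (-4 : ℂ).re = -4 := by norm_num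
  have h5 : (-4 : ℂ).im = 0 := by norm_num
  rw [h4, h5]
  set a := X ^ 2 - η ^ 2 - 1 / 4
  set b := 2 * X * η
  have e : 4 * a * (4 * a) + -(4 * b) * -(4 * b) = 16 * (a ^ 2 + b ^ 2) := by ring
  rw [e]
  have e2 : -(-4 * (4 * a) / (16 * (a ^ 2 + b ^ 2)) + 0 * -(4 * b) / (16 * (a ^ 2 + b ^ 2)))
      = (16 * a) / (16 * (a ^ 2 + b ^ 2)) := by ring
  rw [e2, mul_div_mul_left _ _ (by norm_num : (16 : ℝ) ≠ 0)]

theorem rho'_eq (η X : ℝ) : rho' η X = -2 * (X * ((X ^ 2 - η ^ 2 - 1 / 4) ^ 2 - (2 * X * η) ^ 2)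
    + 2 * (X ^ 2 - η ^ 2 - 1 / 4) * (2 * X * η) * η) / ((X ^ 2 - η ^ 2 - 1 / 4) ^ 2 + (2 * X * η) ^ 2) ^ 2 := by
  unfold rho'
  have hre : ((4 * pt X η ^ 2 - 1) ^ 2).re = 16 * ((X ^ 2 - η ^ 2 - 1 / 4) ^ 2 - (2 * X * η) ^ 2) := by
    rw [pow_two, Complex.mul_re, rho_sq_re, rho_sq_im]; ring
  have him : ((4 * pt X η ^ 2 - 1) ^ 2).im = -(32 * ((X ^ 2 - η ^ 2 - 1 / 4) * (2 * X * η))) := by
    rw [pow_two, Complex.mul_im, rho_sq_re, rho_sq_im]; ring
  have h4 : (32 * pt X η).re = 32 * X := by simp [pt]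
  have h5 : (32 * pt X η).im = -(32 * η) := by simp [pt]
  rw [Complex.div_re, Complex.normSq_apply, hre, him, h4, h5]
  set a := X ^ 2 - η ^ 2 - 1 / 4
  set b := 2 * X * η
  have e : 16 * (a ^ 2 - b ^ 2) * (16 * (a ^ 2 - b ^ 2)) + -(32 * (a * b)) * -(32 * (a * b))
      = 256 * (a ^ 2 + b ^ 2) ^ 2 := by ring
  rw [e]
  have e2 : -(32 * X * (16 * (a ^ 2 - b ^ 2)) / (256 * (a ^ 2 + b ^ 2) ^ 2)
      + -(32 * η) * -(32 * (a * b)) / (256 * (a ^ 2 + b ^ 2) ^ 2))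
      = (256 * (-2 * (X * (a ^ 2 - b ^ 2) + 2 * a * b * η))) / (256 * (a ^ 2 + b ^ 2) ^ 2) := by ring
  rw [e2, mul_div_mul_left _ _ (by norm_num : (256 : ℝ) ≠ 0)]

theorem rho_deriv {η X : ℝ} (hX : 1 ≤ X) : HasDerivAt (rho η) (rho' η X) X := by
  have hD := (rho_den_pos (η := η) hX).ne'
  have ha : HasDerivAt (fun x : ℝ => x ^ 2 - η ^ 2 - 1 / 4) (2 * X) X := by
    have := (((hasDerivAt_id X).pow 2).sub_const (η ^ 2)).sub_const (1 / 4)
    simpa using this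
  have hb : HasDerivAt (fun x : ℝ => 2 * x * η) (2 * η) X := by
    have := ((hasDerivAt_id X).const_mul 2).mul_const η
    simpa using this
  have hd := (ha.pow 2).add (hb.pow 2)
  have h := ha.div hd hD
  have he : rho η = fun x : ℝ => (x ^ 2 - η ^ 2 - 1 / 4) / ((x ^ 2 - η ^ 2 - 1 / 4) ^ 2 + (2 * x * η) ^ 2) := by
    funext x; exact rho_eq η x
  rw [he, rho'_eq]
  refine h.congr_deriv ?_
  simp only [Pi.add_apply, Pi.pow_apply]
  congr 1
  ring

theorem kr_deriv {η X : ℝ} (hX : 1 ≤ X) : HasDerivAt (fun x : ℝ => (kap (pt x η)).re) (-rho η X) X := by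
  have h1 : HasDerivAt (fun x : ℝ => pt x η) 1 X := by
    unfold pt
    have := (Complex.ofRealCLM.hasDerivAt (x := X)).sub_const (I * η)
    simpa using this
  have h2 := (kap_deriv (η := η) hX).comp X h1
  have h3 := Complex.reCLM.hasFDerivAt.comp_hasDerivAt X h2
  have h4 : HasDerivAt (fun x : ℝ => (kap (pt x η)).re) (kap' (pt X η)).re X := by
    simpa [Function.comp_def] using h3
  unfold rho
  simpa using h4

theorem rho_cont {η : ℝ} : ContinuousOn (rho η) (Ici 1) := fun _ hx =>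
  (rho_deriv (η := η) hx).continuousAt.continuousWithinAt

theorem rho'_cont {η : ℝ} : ContinuousOn (rho' η) (Ici 1) := by
  unfold rho'
  have hp : Continuous (fun x : ℝ => pt x η) := by unfold pt; fun_prop
  refine (Complex.continuous_re.comp_continuousOn ?_).neg
  refine ContinuousOn.div (by fun_prop) (by fun_prop) ?_
  intro x hx
  exact pow_ne_zero 2 (rho_den_ne hx)

/-- scaled variables -/
theorem rho_scale {η X : ℝ} (hX : 10 ≤ X) (hη : 0 < η) (h : 10 * η ≤ X) :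
    ∃ α s : ℝ, X ^ 2 - η ^ 2 - 1 / 4 = α * X ^ 2 ∧ η ^ 2 = s * X ^ 2 ∧ 0 ≤ s ∧ s ≤ 1 / 100 ∧
      1 - s - 1 / 400 ≤ α ∧ α ≤ 1 := by
  have hX0 : 0 < X := by linarith
  have hX2 : 0 < X ^ 2 := by positivity
  refine ⟨(X ^ 2 - η ^ 2 - 1 / 4) / X ^ 2, η ^ 2 / X ^ 2, by field_simp, by field_simp, by positivity, ?_, ?_, ?_⟩
  · rw [div_le_iff₀ hX2]; nlinarith
  · have e : (X ^ 2 - η ^ 2 - 1 / 4) / X ^ 2 = 1 - η ^ 2 / X ^ 2 - 1 / 4 / X ^ 2 := by field_simp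
    rw [e]
    have : 1 / 4 / X ^ 2 ≤ 1 / 400 := by
      rw [div_le_iff₀ hX2]; nlinarith
    linarith
  · rw [div_le_one hX2]; nlinarith [sq_nonneg η]

theorem rho_den_scale {η X α s : ℝ} (h1 : X ^ 2 - η ^ 2 - 1 / 4 = α * X ^ 2) (h2 : η ^ 2 = s * X ^ 2) :
    (X ^ 2 - η ^ 2 - 1 / 4) ^ 2 + (2 * X * η) ^ 2 = X ^ 4 * (α ^ 2 + 4 * s) := by
  have : (2 * X * η) ^ 2 = 4 * X ^ 2 * η ^ 2 := by ring
  rw [this, h1, h2]; ring

theorem rho_num_scale {η X α s : ℝ} (h1 : X ^ 2 - η ^ 2 - 1 / 4 = α * X ^ 2) (h2 : η ^ 2 = s * X ^ 2) :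
    X * ((X ^ 2 - η ^ 2 - 1 / 4) ^ 2 - (2 * X * η) ^ 2)
    + 2 * (X ^ 2 - η ^ 2 - 1 / 4) * (2 * X * η) * η = X ^ 5 * (α ^ 2 - 4 * s + 4 * α * s) := by
  have e1 : (2 * X * η) ^ 2 = 4 * X ^ 2 * η ^ 2 := by ring
  have e2 : 2 * (X ^ 2 - η ^ 2 - 1 / 4) * (2 * X * η) * η = 4 * (X ^ 2 - η ^ 2 - 1 / 4) * X * η ^ 2 := by ring
  rw [e1, e2, h1, h2]; ring

theorem rho_lo {η X : ℝ} (hX : 10 ≤ X) (hη : 0 < η) (h : 10 * η ≤ X) : 1 / (2 * X ^ 2) ≤ rho η X := by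
  obtain ⟨α, s, h1, h2, hs0, hs1, ha0, ha1⟩ := rho_scale hX hη h
  have hX0 : 0 < X := by linarith
  have hd : 0 < α ^ 2 + 4 * s := by nlinarith
  rw [rho_eq, rho_den_scale h1 h2, h1, div_le_div_iff₀ (by positivity) (by positivity)]
  have : 0 ≤ 2 * α - (α ^ 2 + 4 * s) := by nlinarith
  have h4 : 0 ≤ X ^ 4 * (2 * α - (α ^ 2 + 4 * s)) := by positivity
  nlinarith

theorem rho_hi {η X : ℝ} (hX : 10 ≤ X) (hη : 0 < η) (h : 10 * η ≤ X) : rho η X ≤ 2 / X ^ 2 := by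
  obtain ⟨α, s, h1, h2, hs0, hs1, ha0, ha1⟩ := rho_scale hX hη h
  have hX0 : 0 < X := by linarith
  have hd : 0 < α ^ 2 + 4 * s := by nlinarith
  rw [rho_eq, rho_den_scale h1 h2, h1, div_le_div_iff₀ (by positivity) (by positivity)]
  have : 0 ≤ 2 * (α ^ 2 + 4 * s) - α := by nlinarith
  have h4 : 0 ≤ X ^ 4 * (2 * (α ^ 2 + 4 * s) - α) := by positivity
  nlinarith

theorem rho'_scale {η X α s : ℝ} (hX : 0 < X) (h1 : X ^ 2 - η ^ 2 - 1 / 4 = α * X ^ 2) (h2 : η ^ 2 = s * X ^ 2)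
    (hd : 0 < α ^ 2 + 4 * s) :
    rho' η X = -2 * (α ^ 2 - 4 * s + 4 * α * s) / (X ^ 3 * (α ^ 2 + 4 * s) ^ 2) := by
  rw [rho'_eq, rho_den_scale h1 h2, rho_num_scale h1 h2]
  have := hd.ne'
  field_simp

theorem rho_scale' {η X α s : ℝ} (hX : 0 < X) (h1 : X ^ 2 - η ^ 2 - 1 / 4 = α * X ^ 2) (h2 : η ^ 2 = s * X ^ 2)
    (hd : 0 < α ^ 2 + 4 * s) :
    rho η X = α / (X ^ 2 * (α ^ 2 + 4 * s)) := by
  rw [rho_eq, rho_den_scale h1 h2, h1]
  have := hd.ne'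
  field_simp

theorem rho'_abs {η X : ℝ} (hX : 10 ≤ X) (hη : 0 < η) (h : 10 * η ≤ X) : |rho' η X| ≤ 4 / X ^ 3 := by
  obtain ⟨α, s, h1, h2, hs0, hs1, ha0, ha1⟩ := rho_scale hX hη h
  have hX0 : 0 < X := by linarith
  have hd : 0 < α ^ 2 + 4 * s := by nlinarith
  rw [rho'_scale hX0 h1 h2 hd]
  have hd2 : 9 / 10 ≤ α ^ 2 + 4 * s := by nlinarith
  have hn0 : 0 ≤ α ^ 2 - 4 * s + 4 * α * s := by nlinarith
  have hn1 : α ^ 2 - 4 * s + 4 * α * s ≤ 1 := by nlinarith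
  rw [abs_div, abs_of_pos (a := X ^ 3 * (α ^ 2 + 4 * s) ^ 2) (by positivity), abs_mul, abs_of_nonneg hn0,
    div_le_div_iff₀ (by positivity) (by positivity)]
  have e : |(-2 : ℝ)| = 2 := by norm_num
  rw [e]
  have : 0 ≤ 4 * (α ^ 2 + 4 * s) ^ 2 - 2 * (α ^ 2 - 4 * s + 4 * α * s) := by nlinarith
  have h4 : 0 ≤ X ^ 3 * (4 * (α ^ 2 + 4 * s) ^ 2 - 2 * (α ^ 2 - 4 * s + 4 * α * s)) := by positivity
  nlinarith

theorem lr_scale {η X α s : ℝ} (hX : 0 < X) (h1 : X ^ 2 - η ^ 2 - 1 / 4 = α * X ^ 2) (h2 : η ^ 2 = s * X ^ 2)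
    (hd : 0 < α ^ 2 + 4 * s) (ha : 0 < α) :
    lr η X = -2 * (α ^ 2 - 4 * s + 4 * α * s) / (X * (α * (α ^ 2 + 4 * s))) := by
  unfold lr
  rw [rho'_scale hX h1 h2 hd, rho_scale' hX h1 h2 hd]
  have := hd.ne'
  field_simp

theorem lr_le {η X : ℝ} (hX : 10 ≤ X) (hη : 0 < η) (h : 10 * η ≤ X) : lr η X ≤ -1 / X := by
  obtain ⟨α, s, h1, h2, hs0, hs1, ha0, ha1⟩ := rho_scale hX hη h
  have hX0 : 0 < X := by linarith
  have hd : 0 < α ^ 2 + 4 * s := by nlinarith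
  have ha : 0 < α := by linarith
  rw [lr_scale hX0 h1 h2 hd ha, div_le_div_iff₀ (by positivity) (by positivity)]
  have h5 : α * (α ^ 2 + 4 * s) ≤ 1 + 4 * s := by nlinarith [sq_nonneg α, mul_nonneg ha.le hs0, mul_nonneg ha.le (sub_nonneg.2 ha1)]
  have h6 : 94 / 100 ≤ α ^ 2 - 4 * s + 4 * α * s := by nlinarith
  nlinarith

theorem key_poly {s α : ℝ} (hs0 : 0 ≤ s) (hs1 : s ≤ 1 / 100) (ha0 : 1 - s - 1 / 400 ≤ α) (ha1 : α ≤ 1) :
    (α * (α ^ 2 + 4 * s)) ^ 2 ≤ -2 * (α ^ 2 - 4 * s + 4 * α * (1 + s)) * (α * (α ^ 2 + 4 * s))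
      + 2 * (α ^ 2 - 4 * s + 4 * α * s) * (6 * α ^ 2 + 8 * s + 8 * α * s) := by
  have ha : 0 < α := by linarith
  have hp0 : 0 ≤ α * (α ^ 2 + 4 * s) := by positivity
  have hp1 : α * (α ^ 2 + 4 * s) ≤ 1 + 4 * s := by
    nlinarith [sq_nonneg α, mul_nonneg ha.le hs0, mul_nonneg ha.le (sub_nonneg.2 ha1)]
  have hq0 : 0 ≤ α ^ 2 - 4 * s + 4 * α * (1 + s) := by nlinarith
  have hq1 : α ^ 2 - 4 * s + 4 * α * (1 + s) ≤ 5 := by nlinarith
  have hm : (α ^ 2 - 4 * s + 4 * α * (1 + s)) * (α * (α ^ 2 + 4 * s)) ≤ 5 * (1 + 4 * s) :=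
    mul_le_mul hq1 hp1 hp0 (by norm_num)
  have hsq : (α * (α ^ 2 + 4 * s)) ^ 2 ≤ (1 + 4 * s) ^ 2 := pow_le_pow_left₀ hp0 hp1 2
  have hα2 : 995 / 1000 - 2 * s ≤ α ^ 2 := by nlinarith [sq_nonneg (1 - α)]
  have hr0 : 994 / 1000 - 2 * s ≤ α ^ 2 - 4 * s + 4 * α * s := by nlinarith
  have hr1 : 597 / 100 + 3 * s ≤ 6 * α ^ 2 + 8 * s + 8 * α * s := by nlinarith
  have hn : (994 / 1000 - 2 * s) * (597 / 100 + 3 * s) ≤ (α ^ 2 - 4 * s + 4 * α * s) * (6 * α ^ 2 + 8 * s + 8 * α * s) :=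
    mul_le_mul hr0 hr1 (by linarith) (by linarith)
  nlinarith

theorem lr_deriv {η X : ℝ} (hX : 10 ≤ X) (hη : 0 < η) (h : 10 * η ≤ X) :
    ∃ d : ℝ, HasDerivAt (lr η) d X ∧ 1 / X ^ 2 ≤ d := by
  obtain ⟨α, s, h1, h2, hs0, hs1, ha0, ha1⟩ := rho_scale hX hη h
  have hX0 : 0 < X := by linarith
  have hd : 0 < α ^ 2 + 4 * s := by nlinarith
  have ha : 0 < α := by linarith
  have hax : 0 < X ^ 2 - η ^ 2 - 1 / 4 := by rw [h1]; positivity
  have hD := rho_den_pos (η := η) (X := X) (by linarith)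
  -- the function near X
  have hev : lr η =ᶠ[𝓝 X] fun x : ℝ => -2 * (x * ((x ^ 2 - η ^ 2 - 1 / 4) ^ 2 - (2 * x * η) ^ 2)
      + 2 * (x ^ 2 - η ^ 2 - 1 / 4) * (2 * x * η) * η) /
      ((x ^ 2 - η ^ 2 - 1 / 4) * ((x ^ 2 - η ^ 2 - 1 / 4) ^ 2 + (2 * x * η) ^ 2)) := by
    filter_upwards [lt_mem_nhds (show (1 : ℝ) < X by linarith)] with x hx
    unfold lr
    rw [rho_eq, rho'_eq]
    have hDx := (rho_den_pos (η := η) hx.le).ne'
    set D := (x ^ 2 - η ^ 2 - 1 / 4) ^ 2 + (2 * x * η) ^ 2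
    rw [div_div_eq_mul_div, div_mul_eq_mul_div, div_div, pow_two D]
    rw [show D * D * (x ^ 2 - η ^ 2 - 1 / 4) = ((x ^ 2 - η ^ 2 - 1 / 4) * D) * D by ring]
    rw [mul_div_mul_right _ _ hDx]
  have hda : HasDerivAt (fun x : ℝ => x ^ 2 - η ^ 2 - 1 / 4) (2 * X) X := by
    have := (((hasDerivAt_id X).pow 2).sub_const (η ^ 2)).sub_const (1 / 4)
    simpa using this
  have hdb : HasDerivAt (fun x : ℝ => 2 * x * η) (2 * η) X := by
    have := ((hasDerivAt_id X).const_mul 2).mul_const η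
    simpa using this
  have hN := ((((hasDerivAt_id X).mul ((hda.pow 2).sub (hdb.pow 2))).add
    (((hda.const_mul 2).mul hdb).mul_const η)).const_mul (-2))
  have hM := hda.mul ((hda.pow 2).add (hdb.pow 2))
  have hq := hN.div hM (by
    simp only [Pi.mul_apply, Pi.add_apply, Pi.pow_apply]
    positivity)
  refine ⟨_, hq.congr_of_eventuallyEq hev, ?_⟩
  simp only [Pi.mul_apply, Pi.add_apply, Pi.sub_apply, Pi.pow_apply, id_eq]
  have e1 : (2 * X * η) ^ 2 = 4 * s * X ^ 4 := by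
    have : (2 * X * η) ^ 2 = 4 * X ^ 2 * η ^ 2 := by ring
    rw [this, h2]; ring
  have key := key_poly hs0 hs1 ha0 ha1
  rw [div_le_div_iff₀ (by positivity) (by positivity), h1]
  have hX12 : 0 ≤ X ^ 12 := by positivity
  have hfin := mul_le_mul_of_nonneg_left key hX12
  have eL : 1 * (α * X ^ 2 * ((α * X ^ 2) ^ 2 + (2 * X * η) ^ 2)) ^ 2 = X ^ 12 * (α * (α ^ 2 + 4 * s)) ^ 2 := by
    rw [e1]; ring
  rw [eL]
  refine hfin.trans (le_of_eq ?_)
  have gen : ∀ a E : ℝ, E = η ^ 2 → (-2 * (1 * (a ^ 2 - (2 * X * η) ^ 2) +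
      X * ((2 : ℕ) * a ^ (2 - 1) * (2 * X) - (2 : ℕ) * (2 * X * η) ^ (2 - 1) * (2 * η)) +
      (2 * (2 * X) * (2 * X * η) + 2 * a * (2 * η)) * η) * (a * (a ^ 2 + (2 * X * η) ^ 2)) -
      -2 * (X * (a ^ 2 - (2 * X * η) ^ 2) + 2 * a * (2 * X * η) * η) *
      (2 * X * (a ^ 2 + (2 * X * η) ^ 2) + a * ((2 : ℕ) * a ^ (2 - 1) * (2 * X)
        + (2 : ℕ) * (2 * X * η) ^ (2 - 1) * (2 * η)))) * X ^ 2
      = (-2 * (a ^ 2 - 4 * X ^ 2 * E + 4 * a * X ^ 2 + 4 * a * E) * (a * (a ^ 2 + 4 * X ^ 2 * E))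
        + 2 * X * (a ^ 2 - 4 * X ^ 2 * E + 4 * a * E) * (2 * X * (a ^ 2 + 4 * X ^ 2 * E) + 4 * a ^ 2 * X
          + 8 * a * X * E)) * X ^ 2 := by
    intro a E hE
    subst hE
    simp only [show (2 : ℕ) - 1 = 1 from rfl, pow_one]
    push_cast
    ring
  rw [gen (α * X ^ 2) (s * X ^ 2) h2.symm]
  ring

theorem q_facts {η Y X l : ℝ} (hY : 10 ≤ Y) (hη : 0 < η) (h : 10 * η ≤ Y) (h1 : Y ≤ X) (h2 : X ≤ 2 * Y)
    (h3 : Y ≤ X + l) (h4 : X + l ≤ 2 * Y) :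
    HasDerivAt (fun x => rho η (x + l) / rho η x) (rho η (X + l) / rho η X * (lr η (X + l) - lr η X)) X ∧
    (0 < l → l / (64 * Y ^ 2) ≤ rho η (X + l) / rho η X * (lr η (X + l) - lr η X) ∧
      l / (2 * Y) ≤ 1 - rho η (X + l) / rho η X) ∧
    (l < 0 → rho η (X + l) / rho η X * (lr η (X + l) - lr η X) ≤ l / (64 * Y ^ 2) ∧
      -l / (2 * Y) ≤ rho η (X + l) / rho η X - 1) := by
  have hY0 : 0 < Y := by linarith
  have hX0 : 0 < X := by linarith
  have hpos : ∀ x, Y ≤ x → 0 < rho η x := fun x hx =>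
    lt_of_lt_of_le (by have : 0 < x := by linarith
                       positivity) (rho_lo (by linarith) hη (by linarith))
  have hrX := hpos X h1
  have hrl := hpos (X + l) h3
  -- monotonicity of x rho x
  have hmon : AntitoneOn (fun x => x * rho η x) (Icc Y (2 * Y)) := by
    refine antitoneOn_of_deriv_nonpos (convex_Icc _ _) ?_ ?_ ?_
    · exact continuousOn_id.mul (rho_cont.mono fun x hx => by
        have := hx.1; simp only [mem_Ici]; linarith)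
    · intro x hx
      rw [interior_Icc] at hx
      exact ((hasDerivAt_id x).mul (rho_deriv (η := η) (by linarith [hx.1]))).differentiableAt.differentiableWithinAt
    · intro x hx
      rw [interior_Icc] at hx
      have hx0 : 0 < x := by linarith [hx.1]
      have hd := (hasDerivAt_id x).mul (rho_deriv (η := η) (show (1 : ℝ) ≤ x by linarith [hx.1]))
      have hd' : HasDerivAt (fun x => x * rho η x) (1 * rho η x + x * rho' η x) x := hd
      rw [hd'.deriv]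
      have hl := lr_le (η := η) (X := x) (by linarith [hx.1]) hη (by linarith [hx.1])
      have hp := hpos x hx.1.le
      have e : rho' η x = lr η x * rho η x := by unfold lr; field_simp
      rw [e]
      have hl2 : x * lr η x ≤ -1 := by
        have := mul_le_mul_of_nonneg_left hl hx0.le
        have e3 : x * (-1 / x) = -1 := by field_simp
        linarith
      nlinarith
  -- growth of lr
  have hgrow : ∀ u v, u ∈ Icc Y (2 * Y) → v ∈ Icc Y (2 * Y) → u ≤ v → (v - u) / (4 * Y ^ 2) ≤ lr η v - lr η u := by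
    intro u v hu hv huv
    have hdiff : ∀ x, Y ≤ x → DifferentiableAt ℝ (lr η) x := fun x hx => by
      obtain ⟨d, hd, _⟩ := lr_deriv (η := η) (X := x) (by linarith) hη (by linarith)
      exact hd.differentiableAt
    have hm : MonotoneOn (fun x => lr η x - x / (4 * Y ^ 2)) (Icc Y (2 * Y)) := by
      refine monotoneOn_of_deriv_nonneg (convex_Icc _ _) ?_ ?_ ?_
      · intro x hx
        exact ((hdiff x hx.1).sub ((differentiableAt_id).div_const _)).continuousAt.continuousWithinAt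
      · intro x hx
        rw [interior_Icc] at hx
        exact ((hdiff x hx.1.le).sub ((differentiableAt_id).div_const _)).differentiableWithinAt
      · intro x hx
        rw [interior_Icc] at hx
        obtain ⟨d, hd, hd2⟩ := lr_deriv (η := η) (X := x) (by linarith [hx.1]) hη (by linarith [hx.1])
        have hd3 := hd.sub ((hasDerivAt_id x).div_const (4 * Y ^ 2))
        have hd4 : HasDerivAt (fun x => lr η x - x / (4 * Y ^ 2)) (d - 1 / (4 * Y ^ 2)) x := hd3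
        rw [hd4.deriv]
        have hx0 : 0 < x := by linarith [hx.1]
        have : 1 / (4 * Y ^ 2) ≤ 1 / x ^ 2 := by
          apply one_div_le_one_div_of_le (by positivity)
          nlinarith [hx.1, hx.2]
        linarith
    have := hm hu hv huv
    simp only at this
    have e : (v - u) / (4 * Y ^ 2) = v / (4 * Y ^ 2) - u / (4 * Y ^ 2) := by ring
    rw [e]; linarith
  -- q ≥ 1/16
  have hq16 : 1 / 16 ≤ rho η (X + l) / rho η X := by
    rw [le_div_iff₀ hrX]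
    have a1 := rho_lo (η := η) (X := X + l) (by linarith) hη (by linarith)
    have a2 := rho_hi (η := η) (X := X) (by linarith) hη (by linarith)
    have a3 : 1 / (8 * Y ^ 2) ≤ 1 / (2 * (X + l) ^ 2) := by
      have : 0 < X + l := by linarith
      apply one_div_le_one_div_of_le (by positivity)
      nlinarith
    have a4 : 2 / X ^ 2 ≤ 2 / Y ^ 2 := by
      apply div_le_div_of_nonneg_left (by norm_num) (by positivity)
      nlinarith
    have a5 : 1 / 16 * (2 / Y ^ 2) = 1 / (8 * Y ^ 2) := by ring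
    nlinarith
  have hXI : X ∈ Icc Y (2 * Y) := ⟨h1, h2⟩
  have hlI : X + l ∈ Icc Y (2 * Y) := ⟨h3, h4⟩
  refine ⟨?_, ?_, ?_⟩
  · have d1 : HasDerivAt (fun x => rho η (x + l)) (rho' η (X + l)) X := by
      have := (rho_deriv (η := η) (show (1 : ℝ) ≤ X + l by linarith)).comp_add_const X l
      exact this
    have d2 := rho_deriv (η := η) (show (1 : ℝ) ≤ X by linarith)
    have d3 := d1.div d2 hrX.ne'
    refine (d3.congr_deriv ?_)
    unfold lr
    have := hrX.ne'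
    have := hrl.ne'
    field_simp
  · intro hl
    refine ⟨?_, ?_⟩
    · have g := hgrow X (X + l) hXI hlI (by linarith)
      have g2 : 0 ≤ (X + l - X) / (4 * Y ^ 2) := by
        have : 0 ≤ X + l - X := by linarith
        positivity
      calc l / (64 * Y ^ 2) = 1 / 16 * ((X + l - X) / (4 * Y ^ 2)) := by ring
        _ ≤ _ := mul_le_mul hq16 g g2 (by positivity)
    · have g := hmon hXI hlI (by linarith)
      simp only at g
      have g1 : rho η (X + l) / rho η X ≤ X / (X + l) := by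
        rw [div_le_div_iff₀ hrX (by linarith)]
        linarith
      have g2 : l / (2 * Y) ≤ l / (X + l) := div_le_div_of_nonneg_left hl.le (by linarith) h4
      have g3 : X / (X + l) = 1 - l / (X + l) := by
        have : X + l ≠ 0 := by linarith
        field_simp
        ring
      linarith
  · intro hl
    refine ⟨?_, ?_⟩
    · have g := hgrow (X + l) X hlI hXI (by linarith)
      have g2 : 0 ≤ (X - (X + l)) / (4 * Y ^ 2) := by
        have : 0 ≤ X - (X + l) := by linarith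
        positivity
      have g4 : 1 / 16 * ((X - (X + l)) / (4 * Y ^ 2)) ≤ rho η (X + l) / rho η X * (lr η X - lr η (X + l)) :=
        mul_le_mul hq16 g g2 (by positivity)
      have g5 : l / (64 * Y ^ 2) = - (1 / 16 * ((X - (X + l)) / (4 * Y ^ 2))) := by ring
      rw [g5]
      have g6 : rho η (X + l) / rho η X * (lr η (X + l) - lr η X) = -(rho η (X + l) / rho η X * (lr η X - lr η (X + l))) := by
        ring
      rw [g6]
      linarith
    · have g := hmon hlI hXI (by linarith)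
      simp only at g
      have g1 : X / (X + l) ≤ rho η (X + l) / rho η X := by
        rw [div_le_div_iff₀ (by linarith) hrX]
        linarith
      have g2 : -l / (2 * Y) ≤ -l / (X + l) := div_le_div_of_nonneg_left (by linarith) (by linarith) h4
      have g3 : X / (X + l) = 1 + -l / (X + l) := by
        have : X + l ≠ 0 := by linarith
        field_simp
        ring
      linarith

end Pool.Agent.H15.HB
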