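import Pool.Agent.H15.HB.Defs

/-!
# HB-16  first and second derivative tests with an amplitude  (project HB, MP_be4568)

`φ' = ρ m`, amplitude `h ρ`.  `vdc1`: `∫ h ρ e^{iφ} = ∫ (h/m) (e^{iφ}/i)'`, integrate by parts:
`|(h/m)(b)| + |(h/m)(a)| + ∫ |h'|/|m| + ∫ |h| |m'|/m² ≤ 2K/μ + K/μ + K/μ` (as `m'` has constant sign, `∫ |m'|/m² = |1/m(a) - 1/m(b)| ≤ 1/μ`,
`m` does not change sign).  `vdc2`: `m` is monotone with `|m'| ≥ lam`, so `{|m| < μ}` is an interval of length `≤ 2μ/lam`, where the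
integrand is `≤ K₀`; on the (at most two) complementary intervals use `vdc1`.
-/

set_option autoImplicit false

open Complex Filter Topology MeasureTheory Set
open scoped ComplexConjugate

namespace Pool.Agent.H15.HB

theorem vdc_sign (a b : ℝ) (hab : a ≤ b) (m m' : ℝ → ℝ) (μ : ℝ) (hμ : 0 < μ)
    (hm : ∀ x ∈ Icc a b, HasDerivAt m (m' x) x) (hm' : ContinuousOn m' (Icc a b))
    (hsg : (∀ x ∈ Icc a b, 0 ≤ m' x) ∨ (∀ x ∈ Icc a b, m' x ≤ 0))
    (hmμ : ∀ x ∈ Icc a b, μ ≤ |m x|) :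
    ∫ x in a..b, |m' x| / (m x) ^ 2 ≤ 1 / μ := by
  have hne : ∀ x ∈ Icc a b, m x ≠ 0 := fun x hx h0 => by
    have := hmμ x hx
    rw [h0, abs_zero] at this
    linarith
  have hmc : ContinuousOn m (Icc a b) := fun x hx => (hm x hx).continuousAt.continuousWithinAt
  have hu : uIcc a b = Icc a b := uIcc_of_le hab
  -- constant sign of m
  have hsm : (∀ x ∈ Icc a b, μ ≤ m x) ∨ (∀ x ∈ Icc a b, m x ≤ -μ) := by
    by_contra hcon
    push Not at hcon
    obtain ⟨⟨x, hx, hx1⟩, ⟨y, hy, hy1⟩⟩ := hcon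
    have hx2 : m x ≤ -μ := by
      have := hmμ x hx
      rcases le_abs.1 this with h | h
      · linarith
      · linarith
    have hy2 : μ ≤ m y := by
      have := hmμ y hy
      rcases le_abs.1 this with h | h
      · linarith
      · linarith
    have hsub : uIcc x y ⊆ Icc a b := uIcc_subset_Icc hx hy
    have := intermediate_value_uIcc (hmc.mono hsub)
    have h0 : (0 : ℝ) ∈ uIcc (m x) (m y) := by
      rw [mem_uIcc]
      left
      constructor <;> linarith
    obtain ⟨z, hz, hz0⟩ := this h0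
    exact hne z (hsub hz) hz0
  have hkey : ∫ x in a..b, m' x / (m x) ^ 2 = (m a)⁻¹ - (m b)⁻¹ := by
    have h1 : ∀ x ∈ uIcc a b, HasDerivAt (fun y => -(m y)⁻¹) (m' x / (m x) ^ 2) x := by
      intro x hx
      rw [hu] at hx
      have := ((hm x hx).inv (hne x hx)).neg
      have e : m' x / (m x) ^ 2 = -(-m' x / m x ^ 2) := by rw [neg_div, neg_neg]
      rw [e]
      exact this
    rw [intervalIntegral.integral_eq_sub_of_hasDerivAt h1]
    · ring
    · apply ContinuousOn.intervalIntegrable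
      rw [hu]
      exact hm'.div (hmc.pow 2) (fun x hx => pow_ne_zero 2 (hne x hx))
  have hia : |(m a)⁻¹| ≤ 1 / μ := by
    rw [abs_inv, ← one_div]
    exact one_div_le_one_div_of_le hμ (hmμ a (left_mem_Icc.2 hab))
  have hib : |(m b)⁻¹| ≤ 1 / μ := by
    rw [abs_inv, ← one_div]
    exact one_div_le_one_div_of_le hμ (hmμ b (right_mem_Icc.2 hab))
  have hdiff : |(m a)⁻¹ - (m b)⁻¹| ≤ 1 / μ := by
    rcases hsm with h | h
    · have ha : 0 < (m a)⁻¹ := inv_pos.2 (by linarith [h a (left_mem_Icc.2 hab)])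
      have hb : 0 < (m b)⁻¹ := inv_pos.2 (by linarith [h b (right_mem_Icc.2 hab)])
      rw [abs_of_pos ha] at hia
      rw [abs_of_pos hb] at hib
      rw [abs_le]
      constructor <;> linarith
    · have ha : (m a)⁻¹ < 0 := inv_lt_zero.2 (by linarith [h a (left_mem_Icc.2 hab)])
      have hb : (m b)⁻¹ < 0 := inv_lt_zero.2 (by linarith [h b (right_mem_Icc.2 hab)])
      rw [abs_of_neg ha] at hia
      rw [abs_of_neg hb] at hib
      rw [abs_le]
      constructor <;> linarith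
  rcases hsg with h | h
  · have : ∫ x in a..b, |m' x| / (m x) ^ 2 = ∫ x in a..b, m' x / (m x) ^ 2 := by
      apply intervalIntegral.integral_congr
      intro x hx
      rw [hu] at hx
      simp only [abs_of_nonneg (h x hx)]
    rw [this, hkey]
    exact (le_abs_self _).trans hdiff
  · have : ∫ x in a..b, |m' x| / (m x) ^ 2 = - ∫ x in a..b, m' x / (m x) ^ 2 := by
      rw [← intervalIntegral.integral_neg]
      apply intervalIntegral.integral_congr
      intro x hx
      rw [hu] at hx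
      simp only [abs_of_nonpos (h x hx)]
      ring
    rw [this, hkey]
    exact (neg_le_abs _).trans hdiff

theorem norm_cexp_I (t : ℝ) : ‖cexp (I * t)‖ = 1 := by
  rw [mul_comm]
  exact Complex.norm_exp_ofReal_mul_I t

theorem vdc1 (a b : ℝ) (hab : a ≤ b) (h h' : ℝ → ℂ) (φ ρ m m' : ℝ → ℝ) (K μ : ℝ) (hμ : 0 < μ)
    (hφ : ∀ x ∈ Icc a b, HasDerivAt φ (ρ x * m x) x) (hρ : ContinuousOn ρ (Icc a b))
    (hm : ∀ x ∈ Icc a b, HasDerivAt m (m' x) x) (hm' : ContinuousOn m' (Icc a b))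
    (hsg : (∀ x ∈ Icc a b, 0 ≤ m' x) ∨ (∀ x ∈ Icc a b, m' x ≤ 0))
    (hh : ∀ x ∈ Icc a b, HasDerivAt h (h' x) x) (hh' : ContinuousOn h' (Icc a b))
    (hK : ∀ x ∈ Icc a b, ‖h x‖ ≤ K) (hK' : ∫ x in a..b, ‖h' x‖ ≤ K) (hmμ : ∀ x ∈ Icc a b, μ ≤ |m x|) :
    ‖∫ x in a..b, h x * ρ x * cexp (I * φ x)‖ ≤ 4 * K / μ := by
  have hne : ∀ x ∈ Icc a b, m x ≠ 0 := fun x hx h0 => by
    have := hmμ x hx
    rw [h0, abs_zero] at this
    linarith
  have hmc : ContinuousOn m (Icc a b) := fun x hx => (hm x hx).continuousAt.continuousWithinAt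
  have hhc : ContinuousOn h (Icc a b) := fun x hx => (hh x hx).continuousAt.continuousWithinAt
  have hφc : ContinuousOn φ (Icc a b) := fun x hx => (hφ x hx).continuousAt.continuousWithinAt
  have hu : uIcc a b = Icc a b := uIcc_of_le hab
  have hneC : ∀ x ∈ Icc a b, (m x : ℂ) ≠ 0 := fun x hx => ofReal_ne_zero.2 (hne x hx)
  have hmC : ContinuousOn (fun x => (m x : ℂ)) (Icc a b) := continuous_ofReal.comp_continuousOn hmc
  have hmC' : ContinuousOn (fun x => (m' x : ℂ)) (Icc a b) := continuous_ofReal.comp_continuousOn hm'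
  have hρC : ContinuousOn (fun x => (ρ x : ℂ)) (Icc a b) := continuous_ofReal.comp_continuousOn hρ
  have hφC : ContinuousOn (fun x => (φ x : ℂ)) (Icc a b) := continuous_ofReal.comp_continuousOn hφc
  have hW : ContinuousOn (fun x => cexp (I * φ x)) (Icc a b) :=
    Complex.continuous_exp.comp_continuousOn (continuousOn_const.mul hφC)
  have hK0 : 0 ≤ K := (norm_nonneg _).trans (hK a (left_mem_Icc.2 hab))
  -- integration by parts
  have hg : ∀ x ∈ uIcc a b, HasDerivAt (fun y => h y / (m y : ℂ))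
      ((h' x * m x - h x * m' x) / (m x : ℂ) ^ 2) x := by
    intro x hx
    rw [hu] at hx
    exact (hh x hx).div (hm x hx).ofReal_comp (hneC x hx)
  have hv : ∀ x ∈ uIcc a b, HasDerivAt (fun y => cexp (I * φ y) / I)
      (((ρ x : ℂ) * m x) * cexp (I * φ x)) x := by
    intro x hx
    rw [hu] at hx
    have h1 : HasDerivAt (fun y => I * (φ y : ℂ)) (I * ((ρ x * m x : ℝ) : ℂ)) x :=
      (hφ x hx).ofReal_comp.const_mul I
    have h2 := h1.cexp.div_const I
    have e : ((ρ x : ℂ) * m x) * cexp (I * φ x) = cexp (I * φ x) * (I * ((ρ x * m x : ℝ) : ℂ)) / I := by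
      rw [eq_div_iff I_ne_zero]
      push_cast
      ring
    rw [e]
    exact h2
  have hgi : IntervalIntegrable (fun x => (h' x * m x - h x * m' x) / (m x : ℂ) ^ 2) volume a b := by
    apply ContinuousOn.intervalIntegrable
    rw [hu]
    exact ((hh'.mul hmC).sub (hhc.mul hmC')).div (hmC.pow 2) (fun x hx => pow_ne_zero 2 (hneC x hx))
  have hvi : IntervalIntegrable (fun x => ((ρ x : ℂ) * m x) * cexp (I * φ x)) volume a b := by
    apply ContinuousOn.intervalIntegrable
    rw [hu]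
    exact (hρC.mul hmC).mul hW
  have hparts := intervalIntegral.integral_mul_deriv_eq_deriv_mul hg hv hgi hvi
  have hcongr : ∫ x in a..b, h x * ρ x * cexp (I * φ x) =
      ∫ x in a..b, h x / (m x : ℂ) * (((ρ x : ℂ) * m x) * cexp (I * φ x)) := by
    apply intervalIntegral.integral_congr
    intro x hx
    rw [hu] at hx
    have := hneC x hx
    field_simp
  rw [hcongr, hparts]
  have hnI : ∀ x : ℝ, ‖cexp (I * φ x) / I‖ = 1 := by
    intro x
    rw [norm_div, norm_cexp_I, norm_I, div_one]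
  have hend : ∀ x ∈ Icc a b, ‖h x / (m x : ℂ) * (cexp (I * φ x) / I)‖ ≤ K / μ := by
    intro x hx
    rw [norm_mul, hnI, mul_one, norm_div, norm_real, Real.norm_eq_abs]
    exact div_le_div₀ hK0 (hK x hx) hμ (hmμ x hx)
  have hint : ‖∫ x in a..b, (h' x * m x - h x * m' x) / (m x : ℂ) ^ 2 * (cexp (I * φ x) / I)‖ ≤ 2 * K / μ := by
    have h1 : ∀ x ∈ Icc a b, ‖(h' x * m x - h x * m' x) / (m x : ℂ) ^ 2 * (cexp (I * φ x) / I)‖ ≤
        ‖h' x‖ * μ⁻¹ + K * (|m' x| / (m x) ^ 2) := by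
      intro x hx
      have hmx := hmμ x hx
      have hmpos : 0 < |m x| := hμ.trans_le hmx
      rw [norm_mul, hnI, mul_one, norm_div, norm_pow, norm_real, Real.norm_eq_abs]
      have h2 : ‖h' x * (m x : ℂ) - h x * (m' x : ℂ)‖ ≤ ‖h' x‖ * |m x| + K * |m' x| := by
        refine (norm_sub_le _ _).trans ?_
        rw [norm_mul, norm_mul, norm_real, norm_real, Real.norm_eq_abs, Real.norm_eq_abs]
        have := mul_le_mul_of_nonneg_right (hK x hx) (abs_nonneg (m' x))
        linarith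
      calc ‖h' x * (m x : ℂ) - h x * (m' x : ℂ)‖ / |m x| ^ 2
          ≤ (‖h' x‖ * |m x| + K * |m' x|) / |m x| ^ 2 := by gcongr
        _ = ‖h' x‖ * |m x|⁻¹ + K * (|m' x| / (m x) ^ 2) := by
            rw [sq_abs, add_div]
            congr 1
            · rw [← sq_abs]
              field_simp
            · ring
        _ ≤ ‖h' x‖ * μ⁻¹ + K * (|m' x| / (m x) ^ 2) := by
            gcongr
    have hi1 : IntervalIntegrable (fun x => ‖h' x‖ * μ⁻¹) volume a b := by
      apply ContinuousOn.intervalIntegrable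
      rw [hu]
      exact hh'.norm.mul continuousOn_const
    have hi2 : IntervalIntegrable (fun x => K * (|m' x| / (m x) ^ 2)) volume a b := by
      apply ContinuousOn.intervalIntegrable
      rw [hu]
      exact continuousOn_const.mul (hm'.abs.div (hmc.pow 2) (fun x hx => pow_ne_zero 2 (hne x hx)))
    have h3 := intervalIntegral.norm_integral_le_of_norm_le hab
      (f := fun x => (h' x * m x - h x * m' x) / (m x : ℂ) ^ 2 * (cexp (I * φ x) / I))
      (Filter.Eventually.of_forall (fun x hx => h1 x (Ioc_subset_Icc_self hx))) (hi1.add hi2)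
    refine h3.trans ?_
    rw [intervalIntegral.integral_add hi1 hi2, intervalIntegral.integral_mul_const,
      intervalIntegral.integral_const_mul]
    have h4 := vdc_sign a b hab m m' μ hμ hm hm' hsg hmμ
    have h5 : (∫ x in a..b, ‖h' x‖) * μ⁻¹ ≤ K * μ⁻¹ := by gcongr
    have h6 : K * ∫ x in a..b, |m' x| / (m x) ^ 2 ≤ K * (1 / μ) := by gcongr
    have h7 : K * μ⁻¹ + K * (1 / μ) = 2 * K / μ := by ring
    linarith
  have hA := hend a (left_mem_Icc.2 hab)
  have hB := hend b (right_mem_Icc.2 hab)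
  refine (norm_sub_le _ _).trans ?_
  have hAB := norm_sub_le (h b / (m b : ℂ) * (cexp (I * φ b) / I)) (h a / (m a : ℂ) * (cexp (I * φ a) / I))
  have h8 : 4 * K / μ = K / μ + K / μ + 2 * K / μ := by ring
  rw [h8]
  linarith

theorem vdc_cut (a b : ℝ) (hab : a ≤ b) (m : ℝ → ℝ) (hmc : ContinuousOn m (Icc a b))
    (hmono : MonotoneOn m (Icc a b)) (v : ℝ) :
    ∃ c ∈ Icc a b, (c = a ∨ ∀ x ∈ Icc a c, m x ≤ v) ∧ (c = b ∨ ∀ x ∈ Icc c b, v ≤ m x) := by
  by_cases h1 : v ≤ m a
  · refine ⟨a, left_mem_Icc.2 hab, Or.inl rfl, Or.inr (fun x hx => h1.trans ?_)⟩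
    exact hmono (left_mem_Icc.2 hab) hx hx.1
  · by_cases h2 : m b ≤ v
    · refine ⟨b, right_mem_Icc.2 hab, Or.inr (fun x hx => le_trans ?_ h2), Or.inl rfl⟩
      exact hmono hx (right_mem_Icc.2 hab) hx.2
    · push Not at h1 h2
      obtain ⟨c, hc, hcv⟩ := intermediate_value_Icc hab hmc ⟨h1.le, h2.le⟩
      refine ⟨c, hc, Or.inr (fun x hx => ?_), Or.inr (fun x hx => ?_)⟩
      · rw [← hcv]
        exact hmono ⟨hx.1, hx.2.trans hc.2⟩ hc hx.2
      · rw [← hcv]
        exact hmono hc ⟨hc.1.trans hx.1, hx.2⟩ hx.1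

theorem vdc2_inc (a b : ℝ) (hab : a ≤ b) (h h' : ℝ → ℂ) (φ ρ m m' : ℝ → ℝ) (K K₀ μ lam : ℝ) (hμ : 0 < μ) (hlam : 0 < lam)
    (hφ : ∀ x ∈ Icc a b, HasDerivAt φ (ρ x * m x) x) (hρ : ContinuousOn ρ (Icc a b))
    (hm : ∀ x ∈ Icc a b, HasDerivAt m (m' x) x) (hm' : ContinuousOn m' (Icc a b))
    (hsg : ∀ x ∈ Icc a b, lam ≤ m' x)
    (hh : ∀ x ∈ Icc a b, HasDerivAt h (h' x) x) (hh' : ContinuousOn h' (Icc a b))
    (hK : ∀ x ∈ Icc a b, ‖h x‖ ≤ K) (hK' : ∫ x in a..b, ‖h' x‖ ≤ K)
    (hK₀ : ∀ x ∈ Icc a b, ‖h x * ρ x‖ ≤ K₀) :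
    ‖∫ x in a..b, h x * ρ x * cexp (I * φ x)‖ ≤ 8 * K / μ + 2 * μ * K₀ / lam := by
  have hmc : ContinuousOn m (Icc a b) := fun x hx => (hm x hx).continuousAt.continuousWithinAt
  have hhc : ContinuousOn h (Icc a b) := fun x hx => (hh x hx).continuousAt.continuousWithinAt
  have hφc : ContinuousOn φ (Icc a b) := fun x hx => (hφ x hx).continuousAt.continuousWithinAt
  have hρC : ContinuousOn (fun x => (ρ x : ℂ)) (Icc a b) := continuous_ofReal.comp_continuousOn hρ
  have hφC : ContinuousOn (fun x => (φ x : ℂ)) (Icc a b) := continuous_ofReal.comp_continuousOn hφc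
  have hW : ContinuousOn (fun x => cexp (I * φ x)) (Icc a b) :=
    Complex.continuous_exp.comp_continuousOn (continuousOn_const.mul hφC)
  have hF : ContinuousOn (fun x => h x * ρ x * cexp (I * φ x)) (Icc a b) := (hhc.mul hρC).mul hW
  have hK0 : 0 ≤ K := (norm_nonneg _).trans (hK a (left_mem_Icc.2 hab))
  have hK00 : 0 ≤ K₀ := (norm_nonneg _).trans (hK₀ a (left_mem_Icc.2 hab))
  -- growth of m
  have hgrow : ∀ x ∈ Icc a b, ∀ y ∈ Icc a b, x ≤ y → lam * (y - x) ≤ m y - m x := by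
    intro x hx y hy hxy
    have hsub : Icc x y ⊆ Icc a b := Icc_subset_Icc hx.1 hy.2
    have hc : Convex ℝ (Icc x y) := convex_Icc x y
    have := hc.mul_sub_le_image_sub_of_le_deriv (f := m) (C := lam) (hmc.mono hsub)
      (fun z hz => ((hm z (hsub (interior_subset hz))).differentiableAt).differentiableWithinAt)
      (fun z hz => by
        rw [(hm z (hsub (interior_subset hz))).deriv]
        exact hsg z (hsub (interior_subset hz))) x (left_mem_Icc.2 hxy) y (right_mem_Icc.2 hxy) hxy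
    exact this
  have hmono : MonotoneOn m (Icc a b) := by
    intro x hx y hy hxy
    have := hgrow x hx y hy hxy
    have : 0 ≤ lam * (y - x) := mul_nonneg hlam.le (by linarith)
    linarith
  obtain ⟨c, hc, hc1, hc2⟩ := vdc_cut a b hab m hmc hmono (-μ)
  obtain ⟨d, hd, hd1, hd2⟩ := vdc_cut a b hab m hmc hmono μ
  have hcd : c ≤ d := by
    by_contra hcon
    push Not at hcon
    have h1 : ∀ x ∈ Icc a c, m x ≤ -μ := by
      rcases hc1 with h | h
      · exfalso; linarith [hd.1]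
      · exact h
    have h2 : ∀ x ∈ Icc d b, μ ≤ m x := by
      rcases hd2 with h | h
      · exfalso; linarith [hc.2]
      · exact h
    have h3 := h1 c ⟨hc.1, le_refl c⟩
    have h4 := h2 c ⟨hcon.le, hc.2⟩
    linarith
  have hlen : d - c ≤ 2 * μ / lam := by
    rcases hc2 with h | h
    · have : d = c := le_antisymm (by rw [h]; exact hd.2) hcd
      rw [this, sub_self]
      positivity
    · rcases hd1 with h' | h'
      · have : d = c := le_antisymm (by rw [h']; exact hc.1) hcd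
        rw [this, sub_self]
        positivity
      · have h1 := h c ⟨le_refl c, hc.2⟩
        have h2 := h' d ⟨hd.1, le_refl d⟩
        have h3 := hgrow c hc d hd hcd
        rw [le_div_iff₀ hlam]
        linarith
  have hmon : ∀ x y : ℝ, a ≤ x → x ≤ y → y ≤ b → ∫ z in x..y, ‖h' z‖ ≤ K := by
    intro x y hax hxy hyb
    refine le_trans ?_ hK'
    have hi : ∀ u v : ℝ, a ≤ u → u ≤ v → v ≤ b → IntervalIntegrable (fun z => ‖h' z‖) volume u v := by
      intro u v hau huv hvb
      apply ContinuousOn.intervalIntegrable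
      rw [uIcc_of_le huv]
      exact (hh'.mono (Icc_subset_Icc hau hvb)).norm
    have e1 := intervalIntegral.integral_add_adjacent_intervals (hi a x (le_refl a) hax (hxy.trans hyb))
      (hi x b hax (hxy.trans hyb) (le_refl b))
    have e2 := intervalIntegral.integral_add_adjacent_intervals (hi x y hax hxy hyb)
      (hi y b (hax.trans hxy) hyb (le_refl b))
    have p1 : 0 ≤ ∫ z in a..x, ‖h' z‖ := intervalIntegral.integral_nonneg hax (fun _ _ => norm_nonneg _)
    have p2 : 0 ≤ ∫ z in y..b, ‖h' z‖ := intervalIntegral.integral_nonneg hyb (fun _ _ => norm_nonneg _)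
    linarith
  have hleft : ‖∫ x in a..c, h x * ρ x * cexp (I * φ x)‖ ≤ 4 * K / μ := by
    rcases hc1 with h0 | h0
    · rw [h0, intervalIntegral.integral_same, norm_zero]
      positivity
    · have hs : Icc a c ⊆ Icc a b := Icc_subset_Icc (le_refl a) hc.2
      exact vdc1 a c hc.1 h h' φ ρ m m' K μ hμ (fun x hx => hφ x (hs hx)) (hρ.mono hs)
        (fun x hx => hm x (hs hx)) (hm'.mono hs) (Or.inl (fun x hx => hlam.le.trans (hsg x (hs hx))))
        (fun x hx => hh x (hs hx)) (hh'.mono hs) (fun x hx => hK x (hs hx))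
        (hmon a c (le_refl a) hc.1 hc.2)
        (fun x hx => by
          have := h0 x hx
          rw [abs_of_nonpos (by linarith)]
          linarith)
  have hright : ‖∫ x in d..b, h x * ρ x * cexp (I * φ x)‖ ≤ 4 * K / μ := by
    rcases hd2 with h0 | h0
    · rw [h0, intervalIntegral.integral_same, norm_zero]
      positivity
    · have hs : Icc d b ⊆ Icc a b := Icc_subset_Icc hd.1 (le_refl b)
      exact vdc1 d b hd.2 h h' φ ρ m m' K μ hμ (fun x hx => hφ x (hs hx)) (hρ.mono hs)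
        (fun x hx => hm x (hs hx)) (hm'.mono hs) (Or.inl (fun x hx => hlam.le.trans (hsg x (hs hx))))
        (fun x hx => hh x (hs hx)) (hh'.mono hs) (fun x hx => hK x (hs hx))
        (hmon d b hd.1 hd.2 (le_refl b))
        (fun x hx => by
          have := h0 x hx
          rw [abs_of_nonneg (by linarith)]
          linarith)
  have hmid : ‖∫ x in c..d, h x * ρ x * cexp (I * φ x)‖ ≤ 2 * μ * K₀ / lam := by
    have h1 : ‖∫ x in c..d, h x * ρ x * cexp (I * φ x)‖ ≤ K₀ * |d - c| := by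
      apply intervalIntegral.norm_integral_le_of_norm_le_const
      intro x hx
      rw [uIoc_of_le hcd] at hx
      have hx' : x ∈ Icc a b := ⟨hc.1.trans hx.1.le, hx.2.trans hd.2⟩
      rw [norm_mul, norm_cexp_I, mul_one]
      exact hK₀ x hx'
    refine h1.trans ?_
    rw [abs_of_nonneg (by linarith)]
    calc K₀ * (d - c) ≤ K₀ * (2 * μ / lam) := by gcongr
      _ = 2 * μ * K₀ / lam := by ring
  have hi : ∀ u v : ℝ, a ≤ u → u ≤ v → v ≤ b →
      IntervalIntegrable (fun x => h x * ρ x * cexp (I * φ x)) volume u v := by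
    intro u v hau huv hvb
    apply ContinuousOn.intervalIntegrable
    rw [uIcc_of_le huv]
    exact hF.mono (Icc_subset_Icc hau hvb)
  have e1 := intervalIntegral.integral_add_adjacent_intervals (hi a c (le_refl a) hc.1 hc.2)
    (hi c b hc.1 hc.2 (le_refl b))
  have e2 := intervalIntegral.integral_add_adjacent_intervals (hi c d hc.1 hcd hd.2)
    (hi d b hd.1 hd.2 (le_refl b))
  rw [← e1, ← e2]
  refine (norm_add_le _ _).trans ?_
  have h9 := norm_add_le (∫ x in c..d, h x * ρ x * cexp (I * φ x)) (∫ x in d..b, h x * ρ x * cexp (I * φ x))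
  have h10 : 8 * K / μ = 4 * K / μ + 4 * K / μ := by ring
  rw [h10]
  linarith

theorem vdc2 (a b : ℝ) (hab : a ≤ b) (h h' : ℝ → ℂ) (φ ρ m m' : ℝ → ℝ) (K K₀ μ lam : ℝ) (hμ : 0 < μ) (hlam : 0 < lam)
    (hφ : ∀ x ∈ Icc a b, HasDerivAt φ (ρ x * m x) x) (hρ : ContinuousOn ρ (Icc a b))
    (hm : ∀ x ∈ Icc a b, HasDerivAt m (m' x) x) (hm' : ContinuousOn m' (Icc a b))
    (hsg : (∀ x ∈ Icc a b, lam ≤ m' x) ∨ (∀ x ∈ Icc a b, m' x ≤ -lam))
    (hh : ∀ x ∈ Icc a b, HasDerivAt h (h' x) x) (hh' : ContinuousOn h' (Icc a b))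
    (hK : ∀ x ∈ Icc a b, ‖h x‖ ≤ K) (hK' : ∫ x in a..b, ‖h' x‖ ≤ K)
    (hK₀ : ∀ x ∈ Icc a b, ‖h x * ρ x‖ ≤ K₀) :
    ‖∫ x in a..b, h x * ρ x * cexp (I * φ x)‖ ≤ 8 * K / μ + 2 * μ * K₀ / lam := by
  rcases hsg with hs | hs
  · exact vdc2_inc a b hab h h' φ ρ m m' K K₀ μ lam hμ hlam hφ hρ hm hm' hs hh hh' hK hK' hK₀
  · have := vdc2_inc a b hab h h' φ (fun x => -ρ x) (fun x => -m x) (fun x => -m' x) K K₀ μ lam hμ hlam
      (fun x hx => by
        have := hφ x hx
        convert this using 1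
        ring) hρ.neg (fun x hx => (hm x hx).neg) hm'.neg (fun x hx => by linarith [hs x hx]) hh hh' hK hK'
      (fun x hx => by
        have := hK₀ x hx
        push_cast
        rw [mul_neg, norm_neg]
        exact this)
    have e : ∫ x in a..b, h x * ((-ρ x : ℝ) : ℂ) * cexp (I * φ x) = -∫ x in a..b, h x * ρ x * cexp (I * φ x) := by
      rw [← intervalIntegral.integral_neg]
      apply intervalIntegral.integral_congr
      intro x _
      simp only [ofReal_neg]
      ring
    rw [e, norm_neg] at this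
    exact this

end Pool.Agent.H15.HB
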