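import Pool.Agent.H15.HB.Am
import Pool.Agent.H15.HB.Rho
import Pool.Agent.H15.HB.VdC

/-!
# HB-19  correlations of the blocks  (project HB, MP_be4568)

`η = 4Y²/T` (`10 η ≤ Y`).  The integral is over `X ∈ [Y,2Y] ∩ [Y-l, 2Y-l]` (an interval or empty).  There, with `Psi_eq`:
`Psi_t(X) conj Psi_{t'}(X+l) = g(X) e^{iφ(X)}`, `g = Am_t(X) conj Am_{t'}(X+l)`, `φ = -t re kap(pt X η) + t' re kap(pt (X+l) η)`,
`φ' = rho(X) m(X)`, `m = t - t' q`, `q = rho(X+l)/rho(X)` (`kr_deriv`), `h = g/rho`: `|g| ≤ C²/Y²` (`Am_bounds`),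
`|h| ≤ 8C²` (`rho_lo`: `1/rho ≤ 2X² ≤ 8Y²`), `|h'| ≤ |g'|/rho + |g| |rho'|/rho² ≤ C' K/Y`, so `∫|h'| ≤ C' K`.
(1) trivial: length `≤ Y`, `|g| ≤ C²/Y²`.  (2) `l = 0`: `q = 1`, `m = t - t'`, `vdc1`, `μ = |t-t'|`.
(3) `l ≠ 0`: `|m'| = t' |q'| ≥ T|l|/(64Y²) =: lam` with constant sign (`q_facts`), `vdc2` with `μ = √(T|l|)`, `K₀ = C²/Y²`.
(4) `l ≠ 0`, `4Y|t-t'| ≤ T|l|`: `|m| ≥ t'|1-q| - |t-t'| ≥ T|l|/(2Y) - T|l|/(4Y)`, `vdc1` with `μ = T|l|/(4Y)`.
-/

set_option autoImplicit false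

open Complex Filter Topology MeasureTheory Set
open scoped ComplexConjugate

namespace Pool.Agent.H15.HB

/-- the block function on `[Y, 2Y]` -/
noncomputable def blk (G t Y T : ℝ) : ℝ → ℂ := (Icc Y (2 * Y)).indicator (Psi G t (4 * Y ^ 2 / T))


theorem gr_pt_meas (η : ℝ) : Measurable (fun x : ℝ => pt x η) := by
  unfold pt
  exact (Complex.measurable_ofReal).sub_const _

theorem gr_kap_meas : Measurable kap := by
  unfold kap
  exact ((((measurable_const.mul measurable_id).add_const _)).div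
    ((measurable_const.mul measurable_id).sub_const _)).clog

theorem gr_amp_meas : Measurable amp := by
  unfold amp
  exact (measurable_const.mul ((gr_kap_meas.neg.div_const _).cexp)).div
    ((measurable_const.mul measurable_id).sub_const _)

theorem gr_Psi_meas (G t η : ℝ) : Measurable (Psi G t η) := by
  unfold Psi
  exact ((measurable_const.mul (gr_kap_meas.comp (gr_pt_meas η))).neg.cexp).mul
    (gr_amp_meas.comp (gr_pt_meas η))

theorem blk_meas {G t Y T : ℝ} (hY : 1 ≤ Y) : Measurable (blk G t Y T) := by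
  unfold blk
  exact (gr_Psi_meas G t _).indicator measurableSet_Icc

theorem gr_norm_Psi (G t η X : ℝ) : ‖Psi G t η X‖ = ‖Am G t η X‖ := by
  rw [Psi_eq, norm_mul, norm_cexp_I, mul_one]

theorem blk_bound : ∃ C : ℝ, 0 ≤ C ∧ ∀ T Y G t x : ℝ, 10 ≤ Y → 40 * Y ≤ T → 0 ≤ G → 0 ≤ t →
    t ≤ 2 * T → ‖blk G t Y T x‖ ≤ C / Y := by
  obtain ⟨C, hC, hb⟩ := Am_bounds
  refine ⟨C, hC, ?_⟩
  intro T Y G t x hY hT hG ht0 ht
  have hY0 : 0 < Y := by linarith
  unfold blk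
  by_cases hx : x ∈ Icc Y (2 * Y)
  · rw [indicator_of_mem hx, gr_norm_Psi]
    have hK : 0 ≤ G / Y := by positivity
    refine (hb T Y G (1 + G / Y) t x hY hT (by linarith) hG ?_ ht0 ht hx.1 hx.2).1
    have : G / Y * Y = G := by field_simp
    nlinarith
  · rw [indicator_of_notMem hx, norm_zero]
    positivity

/-- amplitude of the product -/
noncomputable def grg (G t t' η l x : ℝ) : ℂ := Am G t η x * conj (Am G t' η (x + l))

/-- its derivative -/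
noncomputable def grg' (G t t' η l x : ℝ) : ℂ :=
  Am' G t η x * conj (Am G t' η (x + l)) + Am G t η x * conj (Am' G t' η (x + l))

/-- amplitude over density -/
noncomputable def grh (G t t' η l x : ℝ) : ℂ := grg G t t' η l x / (rho η x : ℂ)

/-- its derivative -/
noncomputable def grh' (G t t' η l x : ℝ) : ℂ :=
  (grg' G t t' η l x * (rho η x : ℂ) - grg G t t' η l x * (rho' η x : ℂ)) / (rho η x : ℂ) ^ 2

/-- phase -/
noncomputable def grf (t t' η l x : ℝ) : ℝ := -(t * (kap (pt x η)).re) + t' * (kap (pt (x + l) η)).re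

/-- ratio -/
noncomputable def grm (t t' η l x : ℝ) : ℝ := t - t' * (rho η (x + l) / rho η x)

/-- its derivative -/
noncomputable def grm' (t t' η l x : ℝ) : ℝ :=
  -(t' * (rho η (x + l) / rho η x * (lr η (x + l) - lr η x)))

theorem gr_eq {G t t' η l x : ℝ} (hr : rho η x ≠ 0) :
    Psi G t η x * conj (Psi G t' η (x + l)) =
      grh G t t' η l x * rho η x * cexp (I * grf t t' η l x) := by
  have hr' : (rho η x : ℂ) ≠ 0 := by exact_mod_cast hr
  rw [Psi_eq, Psi_eq, map_mul, ← Complex.exp_conj, map_mul, Complex.conj_I, Complex.conj_ofReal]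
  unfold grh grg grf
  rw [div_mul_cancel₀ _ hr']
  have e : cexp (I * ((-(t * (kap (pt x η)).re) + t' * (kap (pt (x + l) η)).re : ℝ) : ℂ))
      = cexp (I * ((-(t * (kap (pt x η)).re) : ℝ) : ℂ)) * cexp (-I * ((-(t' * (kap (pt (x + l) η)).re) : ℝ) : ℂ)) := by
    rw [← Complex.exp_add]
    congr 1
    push_cast
    ring
  rw [e]
  ring

theorem gr_conj_deriv {f : ℝ → ℂ} {f' : ℂ} {x : ℝ} (h : HasDerivAt f f' x) :
    HasDerivAt (fun y => conj (f y)) (conj f') x := by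
  have := (Complex.conjCLE.toContinuousLinearMap.hasFDerivAt (x := f x)).comp_hasDerivAt x h
  exact this

theorem gr_shift_deriv {f : ℝ → ℂ} {f' : ℂ} {x l : ℝ} (h : HasDerivAt f f' (x + l)) :
    HasDerivAt (fun y => f (y + l)) f' x := by
  have := h.comp_add_const x l
  exact this

theorem grg_deriv {G t t' η l x : ℝ} (hx : 1 ≤ x) (hxl : 1 ≤ x + l) :
    HasDerivAt (grg G t t' η l) (grg' G t t' η l x) x := by
  have h1 := Am_deriv (G := G) (t := t) (η := η) hx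
  have h2 := gr_conj_deriv (gr_shift_deriv (Am_deriv (G := G) (t := t') (η := η) hxl))
  exact h1.mul h2

theorem grh_deriv {G t t' η l x : ℝ} (hx : 1 ≤ x) (hxl : 1 ≤ x + l) (hr : rho η x ≠ 0) :
    HasDerivAt (grh G t t' η l) (grh' G t t' η l x) x := by
  have hr' : (rho η x : ℂ) ≠ 0 := by exact_mod_cast hr
  have h2 : HasDerivAt (fun y : ℝ => ((rho η y : ℝ) : ℂ)) ((rho' η x : ℝ) : ℂ) x :=
    (rho_deriv hx).ofReal_comp
  exact (grg_deriv hx hxl).div h2 hr'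

theorem grf_deriv {t t' η l x : ℝ} (hx : 1 ≤ x) (hxl : 1 ≤ x + l) (hr : rho η x ≠ 0) :
    HasDerivAt (grf t t' η l) (rho η x * grm t t' η l x) x := by
  have h1 := (kr_deriv (η := η) hx).const_mul t
  have h2 : HasDerivAt (fun y : ℝ => (kap (pt (y + l) η)).re) (-rho η (x + l)) x :=
    (kr_deriv (η := η) hxl).comp_add_const x l
  have h3 := h1.neg.add (h2.const_mul t')
  have e : -(t * -rho η x) + t' * -rho η (x + l) = rho η x * grm t t' η l x := by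
    unfold grm
    field_simp
    ring
  rw [← e]
  exact h3

theorem gr_lr_cont {η Y : ℝ} (hY : 10 ≤ Y) (hη : 0 < η) (h : 10 * η ≤ Y) : ContinuousOn (lr η) (Ici Y) := by
  intro x hx
  obtain ⟨d, hd, _⟩ := lr_deriv (η := η) (X := x) (le_trans hY hx) hη (le_trans h hx)
  exact hd.continuousAt.continuousWithinAt

theorem gr_rho_pos {η Y x : ℝ} (hY : 10 ≤ Y) (hη : 0 < η) (h : 10 * η ≤ Y) (hx : Y ≤ x) : 0 < rho η x := by
  have := rho_lo (η := η) (X := x) (le_trans hY hx) hη (le_trans h hx)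
  have hx0 : 0 < x := by linarith
  have : 0 < 1 / (2 * x ^ 2) := by positivity
  linarith

theorem gr_rho_inv {η Y x : ℝ} (hY : 10 ≤ Y) (hη : 0 < η) (h : 10 * η ≤ Y) (hx : Y ≤ x) (hx2 : x ≤ 2 * Y) :
    1 / rho η x ≤ 8 * Y ^ 2 := by
  have h1 := rho_lo (η := η) (X := x) (le_trans hY hx) hη (le_trans h hx)
  have hx0 : 0 < x := by linarith
  have h2 := gr_rho_pos hY hη h hx
  rw [div_le_iff₀ h2]
  have h3 : 1 / (2 * x ^ 2) * (2 * x ^ 2) = 1 := by field_simp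
  have h4 : 1 ≤ rho η x * (2 * x ^ 2) := by nlinarith [show 0 ≤ 2 * x ^ 2 by positivity]
  have h5 : x ^ 2 ≤ 4 * Y ^ 2 := by nlinarith
  nlinarith

/-- everything about the set of integration -/
structure GrS (Y η a b l : ℝ) : Prop where
  hY : 10 ≤ Y
  hη : 0 < η
  h : 10 * η ≤ Y
  hab : a ≤ b
  h1 : ∀ x ∈ Icc a b, Y ≤ x ∧ x ≤ 2 * Y ∧ Y ≤ x + l ∧ x + l ≤ 2 * Y

theorem gr_mcont {Y η a b l : ℝ} (H : GrS Y η a b l) (t t' : ℝ) : ContinuousOn (grm' t t' η l) (Icc a b) := by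
  have c1 : ContinuousOn (fun x => rho η x) (Icc a b) :=
    (rho_cont (η := η)).mono fun x hx => by
      have := (H.h1 x hx).1; have := H.hY; show (1 : ℝ) ≤ x; linarith
  have c2 : ContinuousOn (fun x => rho η (x + l)) (Icc a b) :=
    (rho_cont (η := η)).comp (continuous_id.add continuous_const).continuousOn fun x hx => by
      have := (H.h1 x hx).2.2.1; have := H.hY; show (1 : ℝ) ≤ x + l; linarith
  have c3 : ContinuousOn (fun x => lr η x) (Icc a b) :=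
    (gr_lr_cont H.hY H.hη H.h).mono fun x hx => (H.h1 x hx).1
  have c4 : ContinuousOn (fun x => lr η (x + l)) (Icc a b) :=
    (gr_lr_cont H.hY H.hη H.h).comp (continuous_id.add continuous_const).continuousOn
      fun x hx => (H.h1 x hx).2.2.1
  exact ((c2.div c1 fun x hx => (gr_rho_pos H.hY H.hη H.h (H.h1 x hx).1).ne').mul (c4.sub c3)).const_mul t' |>.neg

theorem gr_Amcont {Y η a b l : ℝ} (H : GrS Y η a b l) (G t : ℝ) :
    ContinuousOn (fun x => Am G t η x) (Icc a b) ∧ ContinuousOn (fun x => Am G t η (x + l)) (Icc a b) ∧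
    ContinuousOn (fun x => Am' G t η x) (Icc a b) ∧ ContinuousOn (fun x => Am' G t η (x + l)) (Icc a b) := by
  have cA : ContinuousOn (Am G t η) (Ici 1) := fun x hx =>
    (Am_deriv (G := G) (t := t) (η := η) hx).continuousAt.continuousWithinAt
  have m1 : ∀ x ∈ Icc a b, x ∈ Ici (1 : ℝ) := fun x hx => by
    have := (H.h1 x hx).1; have := H.hY; show (1 : ℝ) ≤ x; linarith
  have m2 : ∀ x ∈ Icc a b, x + l ∈ Ici (1 : ℝ) := fun x hx => by
    have := (H.h1 x hx).2.2.1; have := H.hY; show (1 : ℝ) ≤ x + l; linarith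
  have cs : ContinuousOn (fun x : ℝ => x + l) (Icc a b) := (continuous_id.add continuous_const).continuousOn
  exact ⟨cA.mono m1, cA.comp cs m2, (Am'_cont (G := G) (t := t) (η := η)).mono m1,
    (Am'_cont (G := G) (t := t) (η := η)).comp cs m2⟩

theorem gr_rcont {Y η a b l : ℝ} (H : GrS Y η a b l) :
    ContinuousOn (fun x => rho η x) (Icc a b) ∧ ContinuousOn (fun x => rho' η x) (Icc a b) := by
  have m1 : ∀ x ∈ Icc a b, x ∈ Ici (1 : ℝ) := fun x hx => by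
    have := (H.h1 x hx).1; have := H.hY; show (1 : ℝ) ≤ x; linarith
  exact ⟨(rho_cont (η := η)).mono m1, (rho'_cont (η := η)).mono m1⟩

theorem gr_hcont {Y η a b l : ℝ} (H : GrS Y η a b l) (G t t' : ℝ) :
    ContinuousOn (grh' G t t' η l) (Icc a b) := by
  obtain ⟨a1, _, a3, _⟩ := gr_Amcont H G t
  obtain ⟨_, b2, _, b4⟩ := gr_Amcont H G t'
  obtain ⟨r1, r2⟩ := gr_rcont H
  have b2' : ContinuousOn (fun x => conj (Am G t' η (x + l))) (Icc a b) :=
    Complex.continuous_conj.comp_continuousOn b2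
  have b4' : ContinuousOn (fun x => conj (Am' G t' η (x + l))) (Icc a b) :=
    Complex.continuous_conj.comp_continuousOn b4
  have r1' : ContinuousOn (fun x => ((rho η x : ℝ) : ℂ)) (Icc a b) :=
    Complex.continuous_ofReal.comp_continuousOn r1
  have r2' : ContinuousOn (fun x => ((rho' η x : ℝ) : ℂ)) (Icc a b) :=
    Complex.continuous_ofReal.comp_continuousOn r2
  refine ContinuousOn.div ?_ (r1'.pow 2) ?_
  · exact ((((a3.mul b2').add (a1.mul b4'))).mul r1').sub ((a1.mul b2').mul r2')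
  · intro x hx
    have := (gr_rho_pos H.hY H.hη H.h (H.h1 x hx).1).ne'
    exact pow_ne_zero 2 (by exact_mod_cast this)

/-- pointwise bounds -/
theorem gr_pt {Y η a b l C K G t t' : ℝ} (H : GrS Y η a b l) (hC : 0 ≤ C) (hK : 1 ≤ K)
    (hA : ∀ x, Y ≤ x → x ≤ 2 * Y → ‖Am G t η x‖ ≤ C / Y ∧ ‖Am' G t η x‖ ≤ C * K / Y ^ 2)
    (hA' : ∀ x, Y ≤ x → x ≤ 2 * Y → ‖Am G t' η x‖ ≤ C / Y ∧ ‖Am' G t' η x‖ ≤ C * K / Y ^ 2) :
    ∀ x ∈ Icc a b, ‖grh G t t' η l x‖ ≤ 8 * C ^ 2 ∧ ‖grh' G t t' η l x‖ ≤ 272 * C ^ 2 * K / Y ∧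
      ‖grh G t t' η l x * rho η x‖ ≤ C ^ 2 / Y ^ 2 := by
  intro x hx
  obtain ⟨x1, x2, x3, x4⟩ := H.h1 x hx
  have hY0 : 0 < Y := by linarith [H.hY]
  have hrp := gr_rho_pos H.hY H.hη H.h x1
  have hri := gr_rho_inv H.hY H.hη H.h x1 x2
  have hrd := rho'_abs (η := η) (X := x) (le_trans H.hY x1) H.hη (le_trans H.h x1)
  obtain ⟨u1, u2⟩ := hA x x1 x2
  obtain ⟨v1, v2⟩ := hA' (x + l) x3 x4
  have hg : ‖grg G t t' η l x‖ ≤ C ^ 2 / Y ^ 2 := by
    unfold grg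
    rw [norm_mul, RCLike.norm_conj]
    calc ‖Am G t η x‖ * ‖Am G t' η (x + l)‖ ≤ C / Y * (C / Y) :=
          mul_le_mul u1 v1 (norm_nonneg _) (by positivity)
      _ = C ^ 2 / Y ^ 2 := by ring
  have hg' : ‖grg' G t t' η l x‖ ≤ 2 * C ^ 2 * K / Y ^ 3 := by
    unfold grg'
    refine (norm_add_le _ _).trans ?_
    rw [norm_mul, norm_mul, RCLike.norm_conj, RCLike.norm_conj]
    calc ‖Am' G t η x‖ * ‖Am G t' η (x + l)‖ + ‖Am G t η x‖ * ‖Am' G t' η (x + l)‖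
        ≤ C * K / Y ^ 2 * (C / Y) + C / Y * (C * K / Y ^ 2) :=
          add_le_add (mul_le_mul u2 v1 (norm_nonneg _) (by positivity))
            (mul_le_mul u1 v2 (norm_nonneg _) (by positivity))
      _ = 2 * C ^ 2 * K / Y ^ 3 := by
          field_simp
          ring
  have nr : ‖((rho η x : ℝ) : ℂ)‖ = rho η x := by
    rw [Complex.norm_real, Real.norm_eq_abs, abs_of_pos hrp]
  have nr' : ‖((rho' η x : ℝ) : ℂ)‖ ≤ 4 / Y ^ 3 := by
    rw [Complex.norm_real, Real.norm_eq_abs]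
    refine hrd.trans ?_
    have : Y ^ 3 ≤ x ^ 3 := pow_le_pow_left₀ hY0.le x1 3
    gcongr
  have hrpc : ((rho η x : ℝ) : ℂ) ≠ 0 := by exact_mod_cast hrp.ne'
  have hri0 : 0 ≤ 1 / rho η x := by positivity
  refine ⟨?_, ?_, ?_⟩
  · unfold grh
    rw [norm_div, nr, div_eq_mul_one_div]
    calc ‖grg G t t' η l x‖ * (1 / rho η x) ≤ C ^ 2 / Y ^ 2 * (8 * Y ^ 2) :=
          mul_le_mul hg hri hri0 (by positivity)
      _ = 8 * C ^ 2 := by field_simp
  · have e : grh' G t t' η l x = grg' G t t' η l x * (((1 / rho η x : ℝ)) : ℂ)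
        - grg G t t' η l x * (rho' η x : ℂ) * (((1 / rho η x : ℝ)) : ℂ) ^ 2 := by
      unfold grh'
      push_cast
      field_simp
    have ni : ‖(((1 / rho η x : ℝ)) : ℂ)‖ ≤ 8 * Y ^ 2 := by
      rw [Complex.norm_real, Real.norm_eq_abs, abs_of_nonneg hri0]
      exact hri
    rw [e]
    refine (norm_sub_le _ _).trans ?_
    rw [norm_mul, norm_mul, norm_mul, norm_pow]
    calc ‖grg' G t t' η l x‖ * ‖(((1 / rho η x : ℝ)) : ℂ)‖
        + ‖grg G t t' η l x‖ * ‖((rho' η x : ℝ) : ℂ)‖ * ‖(((1 / rho η x : ℝ)) : ℂ)‖ ^ 2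
        ≤ 2 * C ^ 2 * K / Y ^ 3 * (8 * Y ^ 2) + C ^ 2 / Y ^ 2 * (4 / Y ^ 3) * (8 * Y ^ 2) ^ 2 := by
          gcongr
      _ = (16 * K + 256) * C ^ 2 / Y := by
          field_simp
          ring
      _ ≤ 272 * C ^ 2 * K / Y := by
          rw [div_le_div_iff_of_pos_right hY0]
          nlinarith [sq_nonneg C]
  · unfold grh
    rw [div_mul_cancel₀ _ hrpc]
    exact hg

theorem gr_mderiv {Y η a b l : ℝ} (H : GrS Y η a b l) (t t' : ℝ) :
    ∀ x ∈ Icc a b, HasDerivAt (grm t t' η l) (grm' t t' η l x) x := by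
  intro x hx
  obtain ⟨x1, x2, x3, x4⟩ := H.h1 x hx
  have h := (q_facts H.hY H.hη H.h x1 x2 x3 x4).1
  exact (h.const_mul t').const_sub t

theorem gr_int' {Y η a b l C K G t t' : ℝ} (H : GrS Y η a b l) (hC : 0 ≤ C) (hK : 1 ≤ K)
    (hA : ∀ x, Y ≤ x → x ≤ 2 * Y → ‖Am G t η x‖ ≤ C / Y ∧ ‖Am' G t η x‖ ≤ C * K / Y ^ 2)
    (hA' : ∀ x, Y ≤ x → x ≤ 2 * Y → ‖Am G t' η x‖ ≤ C / Y ∧ ‖Am' G t' η x‖ ≤ C * K / Y ^ 2) :
    ∫ x in a..b, ‖grh' G t t' η l x‖ ≤ 272 * C ^ 2 * K := by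
  have hY0 : 0 < Y := by linarith [H.hY]
  have hb := gr_pt H hC hK hA hA'
  have hba : b - a ≤ Y := by
    have := (H.h1 a (left_mem_Icc.2 H.hab)).1
    have := (H.h1 b (right_mem_Icc.2 H.hab)).2.1
    linarith
  have hc : ContinuousOn (fun x => ‖grh' G t t' η l x‖) (Icc a b) := (gr_hcont H G t t').norm
  calc ∫ x in a..b, ‖grh' G t t' η l x‖ ≤ ∫ _x in a..b, 272 * C ^ 2 * K / Y := by
        refine intervalIntegral.integral_mono_on H.hab ?_ ?_ fun x hx => (hb x hx).2.1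
        · exact hc.intervalIntegrable_of_Icc H.hab
        · exact intervalIntegrable_const
    _ = (b - a) * (272 * C ^ 2 * K / Y) := by rw [intervalIntegral.integral_const, smul_eq_mul]
    _ ≤ Y * (272 * C ^ 2 * K / Y) := by gcongr
    _ = 272 * C ^ 2 * K := by field_simp

/-- the oscillating integral: first derivative test -/
theorem gr_first {Y η a b l C K G t t' μ : ℝ} (H : GrS Y η a b l) (hC : 0 ≤ C) (hK : 1 ≤ K)
    (hA : ∀ x, Y ≤ x → x ≤ 2 * Y → ‖Am G t η x‖ ≤ C / Y ∧ ‖Am' G t η x‖ ≤ C * K / Y ^ 2)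
    (hA' : ∀ x, Y ≤ x → x ≤ 2 * Y → ‖Am G t' η x‖ ≤ C / Y ∧ ‖Am' G t' η x‖ ≤ C * K / Y ^ 2)
    (hμ : 0 < μ) (hsg : (∀ x ∈ Icc a b, 0 ≤ grm' t t' η l x) ∨ (∀ x ∈ Icc a b, grm' t t' η l x ≤ 0))
    (hm : ∀ x ∈ Icc a b, μ ≤ |grm t t' η l x|) :
    ‖∫ x in a..b, grh G t t' η l x * rho η x * cexp (I * grf t t' η l x)‖ ≤ 4 * (272 * C ^ 2 * K) / μ := by
  have hb := gr_pt H hC hK hA hA'
  have hY := H.hY
  refine vdc1 a b H.hab (grh G t t' η l) (grh' G t t' η l) (grf t t' η l) (rho η) (grm t t' η l)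
    (grm' t t' η l) (272 * C ^ 2 * K) μ hμ ?_ (gr_rcont H).1 (gr_mderiv H t t') (gr_mcont H t t') hsg ?_
    (gr_hcont H G t t') ?_ (gr_int' H hC hK hA hA') hm
  · intro x hx
    obtain ⟨x1, x2, x3, x4⟩ := H.h1 x hx
    exact grf_deriv (by linarith) (by linarith) (gr_rho_pos H.hY H.hη H.h x1).ne'
  · intro x hx
    obtain ⟨x1, x2, x3, x4⟩ := H.h1 x hx
    exact grh_deriv (by linarith) (by linarith) (gr_rho_pos H.hY H.hη H.h x1).ne'
  · intro x hx
    refine (hb x hx).1.trans ?_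
    nlinarith [sq_nonneg C]

/-- the oscillating integral: second derivative test -/
theorem gr_second {Y η a b l C K G t t' μ lam : ℝ} (H : GrS Y η a b l) (hC : 0 ≤ C) (hK : 1 ≤ K)
    (hA : ∀ x, Y ≤ x → x ≤ 2 * Y → ‖Am G t η x‖ ≤ C / Y ∧ ‖Am' G t η x‖ ≤ C * K / Y ^ 2)
    (hA' : ∀ x, Y ≤ x → x ≤ 2 * Y → ‖Am G t' η x‖ ≤ C / Y ∧ ‖Am' G t' η x‖ ≤ C * K / Y ^ 2)
    (hμ : 0 < μ) (hlam : 0 < lam)
    (hsg : (∀ x ∈ Icc a b, lam ≤ grm' t t' η l x) ∨ (∀ x ∈ Icc a b, grm' t t' η l x ≤ -lam)) :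
    ‖∫ x in a..b, grh G t t' η l x * rho η x * cexp (I * grf t t' η l x)‖ ≤
      8 * (272 * C ^ 2 * K) / μ + 2 * μ * (C ^ 2 / Y ^ 2) / lam := by
  have hb := gr_pt H hC hK hA hA'
  have hY := H.hY
  refine vdc2 a b H.hab (grh G t t' η l) (grh' G t t' η l) (grf t t' η l) (rho η) (grm t t' η l)
    (grm' t t' η l) (272 * C ^ 2 * K) (C ^ 2 / Y ^ 2) μ lam hμ hlam ?_ (gr_rcont H).1 (gr_mderiv H t t')
    (gr_mcont H t t') hsg ?_ (gr_hcont H G t t') ?_ (gr_int' H hC hK hA hA') fun x hx => (hb x hx).2.2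
  · intro x hx
    obtain ⟨x1, x2, x3, x4⟩ := H.h1 x hx
    exact grf_deriv (by linarith) (by linarith) (gr_rho_pos H.hY H.hη H.h x1).ne'
  · intro x hx
    obtain ⟨x1, x2, x3, x4⟩ := H.h1 x hx
    exact grh_deriv (by linarith) (by linarith) (gr_rho_pos H.hY H.hη H.h x1).ne'
  · intro x hx
    refine (hb x hx).1.trans ?_
    nlinarith [sq_nonneg C]

/-- the trivial bound -/
theorem gr_triv {Y η a b l C K G t t' : ℝ} (H : GrS Y η a b l) (hC : 0 ≤ C) (hK : 1 ≤ K)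
    (hA : ∀ x, Y ≤ x → x ≤ 2 * Y → ‖Am G t η x‖ ≤ C / Y ∧ ‖Am' G t η x‖ ≤ C * K / Y ^ 2)
    (hA' : ∀ x, Y ≤ x → x ≤ 2 * Y → ‖Am G t' η x‖ ≤ C / Y ∧ ‖Am' G t' η x‖ ≤ C * K / Y ^ 2) :
    ‖∫ x in a..b, grh G t t' η l x * rho η x * cexp (I * grf t t' η l x)‖ ≤ C ^ 2 / Y := by
  have hY0 : 0 < Y := by linarith [H.hY]
  have hb := gr_pt H hC hK hA hA'
  have hba : b - a ≤ Y := by
    have := (H.h1 a (left_mem_Icc.2 H.hab)).1
    have := (H.h1 b (right_mem_Icc.2 H.hab)).2.1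
    linarith
  have hba0 : 0 ≤ b - a := by linarith [H.hab]
  refine (intervalIntegral.norm_integral_le_of_norm_le_const (C := C ^ 2 / Y ^ 2) ?_).trans ?_
  · intro x hx
    rw [uIoc_of_le H.hab] at hx
    rw [norm_mul, norm_cexp_I, mul_one]
    exact (hb x ⟨hx.1.le, hx.2⟩).2.2
  · rw [abs_of_nonneg hba0]
    calc C ^ 2 / Y ^ 2 * (b - a) ≤ C ^ 2 / Y ^ 2 * Y := by gcongr
      _ = C ^ 2 / Y := by field_simp

/-- the integral over the line -/
theorem gr_line (G t t' Y T l : ℝ) (hY : 10 ≤ Y) (hη : 0 < 4 * Y ^ 2 / T) (h : 10 * (4 * Y ^ 2 / T) ≤ Y) :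
    (∫ x : ℝ, blk G t Y T x * conj (blk G t' Y T (x + l))) = 0 ∨
    ∃ a b : ℝ, GrS Y (4 * Y ^ 2 / T) a b l ∧
      (∫ x : ℝ, blk G t Y T x * conj (blk G t' Y T (x + l))) =
        ∫ x in a..b, grh G t t' (4 * Y ^ 2 / T) l x * rho (4 * Y ^ 2 / T) x * cexp (I * grf t t' (4 * Y ^ 2 / T) l x) := by
  set η : ℝ := 4 * Y ^ 2 / T with hηd
  set a : ℝ := max Y (Y - l) with ha
  set b : ℝ := min (2 * Y) (2 * Y - l) with hb
  have hmem : ∀ x : ℝ, x ∈ Icc a b ↔ (x ∈ Icc Y (2 * Y) ∧ x + l ∈ Icc Y (2 * Y)) := by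
    intro x
    simp only [mem_Icc, ha, hb, max_le_iff, le_min_iff]
    constructor
    · rintro ⟨⟨h1, h2⟩, h3, h4⟩
      exact ⟨⟨h1, h3⟩, by linarith, by linarith⟩
    · rintro ⟨⟨h1, h2⟩, h3, h4⟩
      exact ⟨⟨h1, by linarith⟩, h2, by linarith⟩
  have e : (fun x : ℝ => blk G t Y T x * conj (blk G t' Y T (x + l))) =
      (Icc a b).indicator (fun x => grh G t t' η l x * rho η x * cexp (I * grf t t' η l x)) := by
    funext x
    by_cases hx : x ∈ Icc a b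
    · rw [indicator_of_mem hx]
      obtain ⟨h1, h2⟩ := (hmem x).1 hx
      unfold blk
      rw [indicator_of_mem h1, indicator_of_mem h2]
      exact gr_eq (gr_rho_pos hY hη h h1.1).ne'
    · rw [indicator_of_notMem hx]
      unfold blk
      by_cases h1 : x ∈ Icc Y (2 * Y)
      · have h2 : x + l ∉ Icc Y (2 * Y) := fun h2 => hx ((hmem x).2 ⟨h1, h2⟩)
        rw [indicator_of_notMem h2, map_zero, mul_zero]
      · rw [indicator_of_notMem h1, zero_mul]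
  rw [e, integral_indicator measurableSet_Icc]
  by_cases hab : a ≤ b
  · right
    refine ⟨a, b, ⟨hY, hη, h, hab, ?_⟩, ?_⟩
    · intro x hx
      obtain ⟨h1, h2⟩ := (hmem x).1 hx
      exact ⟨h1.1, h1.2, h2.1, h2.2⟩
    · rw [intervalIntegral.integral_of_le hab, integral_Icc_eq_integral_Ioc]
  · left
    rw [Icc_eq_empty hab, Measure.restrict_empty, integral_zero_measure]

theorem gram : ∃ C : ℝ, 0 ≤ C ∧ ∀ (T Y G K t t' : ℝ) (l : ℤ), 10 ≤ Y → 40 * Y ≤ T → 1 ≤ K → 1 ≤ G → G ≤ K * Y →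
    T ≤ t → t ≤ 2 * T → T ≤ t' → t' ≤ 2 * T →
    ‖∫ x : ℝ, blk G t Y T x * conj (blk G t' Y T (x + l))‖ ≤ C / Y ∧
    (l = 0 → t ≠ t' → ‖∫ x : ℝ, blk G t Y T x * conj (blk G t' Y T (x + l))‖ ≤ C * K / |t - t'|) ∧
    (l ≠ 0 → ‖∫ x : ℝ, blk G t Y T x * conj (blk G t' Y T (x + l))‖ ≤ C * K / √(T * |(l : ℝ)|)) ∧
    (l ≠ 0 → 4 * Y * |t - t'| ≤ T * |(l : ℝ)| →
      ‖∫ x : ℝ, blk G t Y T x * conj (blk G t' Y T (x + l))‖ ≤ C * K * Y / (T * |(l : ℝ)|)) := by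
  obtain ⟨C, hC, hAB⟩ := Am_bounds
  refine ⟨5000 * C ^ 2, by positivity, ?_⟩
  intro T Y G K t t' l hY hT hK hG hGK ht1 ht2 ht1' ht2'
  have hY0 : 0 < Y := by linarith
  have hT0 : 0 < T := by linarith
  have hη : 0 < 4 * Y ^ 2 / T := by positivity
  have h10 : 10 * (4 * Y ^ 2 / T) ≤ Y := by
    rw [← mul_div_assoc, div_le_iff₀ hT0]
    nlinarith
  have hA : ∀ x, Y ≤ x → x ≤ 2 * Y → ‖Am G t (4 * Y ^ 2 / T) x‖ ≤ C / Y ∧ ‖Am' G t (4 * Y ^ 2 / T) x‖ ≤ C * K / Y ^ 2 :=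
    fun x h1 h2 => hAB T Y G K t x hY hT hK (by linarith) hGK (by linarith) ht2 h1 h2
  have hA' : ∀ x, Y ≤ x → x ≤ 2 * Y → ‖Am G t' (4 * Y ^ 2 / T) x‖ ≤ C / Y ∧ ‖Am' G t' (4 * Y ^ 2 / T) x‖ ≤ C * K / Y ^ 2 :=
    fun x h1 h2 => hAB T Y G K t' x hY hT hK (by linarith) hGK (by linarith) ht2' h1 h2
  have hC2 : 0 ≤ C ^ 2 := sq_nonneg C
  have hCK : 0 ≤ C ^ 2 * K := by positivity
  rcases gr_line G t t' Y T l hY hη h10 with h0 | ⟨a, b, H, hI⟩
  · rw [h0, norm_zero]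
    refine ⟨by positivity, fun _ _ => by positivity, fun _ => by positivity, fun _ _ => by positivity⟩
  rw [hI]
  -- sign of the derivative of the ratio
  have hneg : (0 : ℝ) < l → ∀ x ∈ Icc a b, grm' t t' (4 * Y ^ 2 / T) l x ≤ -(T * |(l : ℝ)| / (64 * Y ^ 2)) := by
    intro hl x hx
    obtain ⟨x1, x2, x3, x4⟩ := H.h1 x hx
    have hq := ((q_facts hY hη h10 x1 x2 x3 x4).2.1 hl).1
    unfold grm'
    rw [abs_of_pos hl]
    have h1 : 0 ≤ (l : ℝ) / (64 * Y ^ 2) := by positivity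
    have h2 : T * ((l : ℝ) / (64 * Y ^ 2)) ≤ t' * (rho (4 * Y ^ 2 / T) (x + l) / rho (4 * Y ^ 2 / T) x *
        (lr (4 * Y ^ 2 / T) (x + l) - lr (4 * Y ^ 2 / T) x)) :=
      mul_le_mul ht1' hq h1 (by linarith)
    have h3 : T * (l : ℝ) / (64 * Y ^ 2) = T * ((l : ℝ) / (64 * Y ^ 2)) := by ring
    rw [h3]
    linarith
  have hpos : (l : ℝ) < 0 → ∀ x ∈ Icc a b, T * |(l : ℝ)| / (64 * Y ^ 2) ≤ grm' t t' (4 * Y ^ 2 / T) l x := by
    intro hl x hx
    obtain ⟨x1, x2, x3, x4⟩ := H.h1 x hx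
    have hq := ((q_facts hY hη h10 x1 x2 x3 x4).2.2 hl).1
    unfold grm'
    rw [abs_of_neg hl]
    have h1 : 0 ≤ -(l : ℝ) / (64 * Y ^ 2) := by
      have : 0 < -(l : ℝ) := by linarith
      positivity
    have hq' : -(l : ℝ) / (64 * Y ^ 2) ≤ -(rho (4 * Y ^ 2 / T) (x + l) / rho (4 * Y ^ 2 / T) x *
        (lr (4 * Y ^ 2 / T) (x + l) - lr (4 * Y ^ 2 / T) x)) := by
      rw [neg_div]
      linarith
    have h2 : T * (-(l : ℝ) / (64 * Y ^ 2)) ≤ t' * -(rho (4 * Y ^ 2 / T) (x + l) / rho (4 * Y ^ 2 / T) x *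
        (lr (4 * Y ^ 2 / T) (x + l) - lr (4 * Y ^ 2 / T) x)) :=
      mul_le_mul ht1' hq' h1 (by linarith)
    have h3 : T * -(l : ℝ) / (64 * Y ^ 2) = T * (-(l : ℝ) / (64 * Y ^ 2)) := by ring
    rw [h3]
    linarith
  refine ⟨?_, ?_, ?_, ?_⟩
  · refine (gr_triv H hC hK hA hA').trans ?_
    rw [div_le_div_iff_of_pos_right hY0]
    linarith
  · intro hl htt
    have hl' : (l : ℝ) = 0 := by exact_mod_cast hl
    have hμ : 0 < |t - t'| := abs_pos.2 (sub_ne_zero.2 htt)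
    have hr : ∀ x ∈ Icc a b, rho (4 * Y ^ 2 / T) (x + l) / rho (4 * Y ^ 2 / T) x = 1 := by
      intro x hx
      rw [hl', add_zero]
      exact div_self (gr_rho_pos hY hη h10 (H.h1 x hx).1).ne'
    have := gr_first (G := G) (t := t) (t' := t') (μ := |t - t'|) H hC hK hA hA' hμ ?_ ?_
    · refine this.trans ?_
      rw [div_le_div_iff_of_pos_right hμ]
      nlinarith
    · left
      intro x hx
      unfold grm'
      rw [hl', add_zero, sub_self, mul_zero, mul_zero, neg_zero]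
    · intro x hx
      unfold grm
      rw [hr x hx, mul_one]
  · intro hl
    have hl' : (l : ℝ) ≠ 0 := by exact_mod_cast hl
    have hla : 0 < |(l : ℝ)| := abs_pos.2 hl'
    have hTl : 0 < T * |(l : ℝ)| := by positivity
    have hμ : 0 < √(T * |(l : ℝ)|) := Real.sqrt_pos.2 hTl
    have hlam : 0 < T * |(l : ℝ)| / (64 * Y ^ 2) := by positivity
    have := gr_second (G := G) (t := t) (t' := t') (μ := √(T * |(l : ℝ)|)) (lam := T * |(l : ℝ)| / (64 * Y ^ 2))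
      H hC hK hA hA' hμ hlam ?_
    · refine this.trans ?_
      have hs : √(T * |(l : ℝ)|) ^ 2 = T * |(l : ℝ)| := Real.sq_sqrt hTl.le
      have e2 : 2 * √(T * |(l : ℝ)|) * (C ^ 2 / Y ^ 2) / (T * |(l : ℝ)| / (64 * Y ^ 2))
          = 128 * C ^ 2 / √(T * |(l : ℝ)|) := by
        have hne := hμ.ne'
        nth_rewrite 2 [← hs]
        field_simp
        ring
      rw [e2, ← add_div, div_le_div_iff_of_pos_right hμ]
      nlinarith
    · rcases lt_or_gt_of_ne hl' with h1 | h1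
      · exact Or.inl (hpos h1)
      · exact Or.inr (hneg h1)
  · intro hl hd
    have hl' : (l : ℝ) ≠ 0 := by exact_mod_cast hl
    have hla : 0 < |(l : ℝ)| := abs_pos.2 hl'
    have hTl : 0 < T * |(l : ℝ)| := by positivity
    have hμ : 0 < T * |(l : ℝ)| / (4 * Y) := by positivity
    have hlam : 0 < T * |(l : ℝ)| / (64 * Y ^ 2) := by positivity
    have := gr_first (G := G) (t := t) (t' := t') (μ := T * |(l : ℝ)| / (4 * Y)) H hC hK hA hA' hμ ?_ ?_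
    · refine this.trans ?_
      have e2 : 4 * (272 * C ^ 2 * K) / (T * |(l : ℝ)| / (4 * Y)) = 4352 * C ^ 2 * K * Y / (T * |(l : ℝ)|) := by
        field_simp
        ring
      rw [e2, div_le_div_iff_of_pos_right hTl]
      nlinarith [mul_nonneg hCK hY0.le]
    · rcases lt_or_gt_of_ne hl' with h1 | h1
      · exact Or.inl fun x hx => hlam.le.trans (hpos h1 x hx)
      · exact Or.inr fun x hx => (hneg h1 x hx).trans (by linarith)
    · intro x hx
      obtain ⟨x1, x2, x3, x4⟩ := H.h1 x hx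
      obtain ⟨_, q1, q2⟩ := q_facts hY hη h10 x1 x2 x3 x4
      have hdd : |t - t'| ≤ T * |(l : ℝ)| / (4 * Y) := by
        rw [le_div_iff₀ (by positivity)]
        linarith
      unfold grm
      set q : ℝ := rho (4 * Y ^ 2 / T) (x + l) / rho (4 * Y ^ 2 / T) x with hq
      have hq1 : |(l : ℝ)| / (2 * Y) ≤ |1 - q| := by
        rcases lt_or_gt_of_ne hl' with h1 | h1
        · rw [abs_of_neg h1]
          have := (q2 h1).2
          rw [abs_sub_comm]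
          exact this.trans (le_abs_self _)
        · rw [abs_of_pos h1]
          exact (q1 h1).2.trans (le_abs_self _)
      have hq2 : T * (|(l : ℝ)| / (2 * Y)) ≤ t' * |1 - q| :=
        mul_le_mul ht1' hq1 (by positivity) (by linarith)
      have hq3 : t' * |1 - q| = |t' * (1 - q)| := by
        rw [abs_mul, abs_of_pos (by linarith : (0 : ℝ) < t')]
      have hq4 : |t' * (1 - q)| ≤ |t - t' * q| + |t - t'| := by
        have : t' * (1 - q) = (t - t' * q) - (t - t') := by ring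
        rw [this]
        exact abs_sub _ _
      have hq5 : T * (|(l : ℝ)| / (2 * Y)) = 2 * (T * |(l : ℝ)| / (4 * Y)) := by
        field_simp
        ring
      linarith

end Pool.Agent.H15.HB
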