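import Pool.Agent.H15.HB.Kap
import Pool.Agent.H14.PT.Div

/-!
# HB-11  bounds for the divisor series  (project HB, MP_be4568)

`d(n) ≤ C n^{ε/8}` (`SC.zin_ram 2` in `SC/ZetaInst.lean`: `(zeta^2) n` is the number of divisors; or any other proof).
`e^{-2πnη} ≤ e^{-6η} e^{-nη/4}` for `n ≥ 1`, `∑ n^a e^{-nη/4} ≤ C (1 + η^{-(1+a)})` (compare with the `Γ` integral or with
`n^a ≤ C_a η^{-a} e^{nη/8}` and the geometric series `∑ e^{-nη/8} ≤ C (1 + 1/η)`).
`‖cexp (-(2 π I n ψ))‖ = e^{2π n im ψ}`, `im (pt X η) = -η`.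
-/

set_option autoImplicit false

open Complex Filter Topology MeasureTheory Set
open scoped ComplexConjugate

namespace Pool.Agent.H15.HB

theorem dv_nonneg (n : ℕ) : 0 ≤ dv n := by unfold dv; positivity

theorem dv_zero : dv 0 = 0 := by simp [dv]

theorem dv_le_self (n : ℕ) : dv n ≤ n := by
  unfold dv
  exact_mod_cast Nat.card_divisors_le_self n

theorem dv_le (ε : ℝ) (hε : 0 < ε) : ∃ C : ℝ, 0 ≤ C ∧ ∀ n : ℕ, 1 ≤ n → dv n ≤ C * (n : ℝ) ^ ε := by
  obtain ⟨C, hC, h⟩ := Pool.Agent.H14.PT.divisor_bound ε hε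
  exact ⟨C, by linarith, fun n hn => h n (by omega)⟩

theorem dv_summable {c : ℝ} (hc : 0 < c) : Summable (fun n : ℕ => dv n * Real.exp (-(c * n))) := by
  have h := Real.summable_pow_mul_exp_neg_nat_mul 1 hc
  refine Summable.of_nonneg_of_le (fun n => mul_nonneg (dv_nonneg n) (Real.exp_pos _).le) (fun n => ?_) h
  rw [pow_one, neg_mul]
  exact mul_le_mul_of_nonneg_right (dv_le_self n) (Real.exp_pos _).le

theorem dv2_summable {c : ℝ} (hc : 0 < c) : Summable (fun n : ℕ => dv n ^ 2 * Real.exp (-(c * n))) := by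
  have h := Real.summable_pow_mul_exp_neg_nat_mul 2 hc
  refine Summable.of_nonneg_of_le (fun n => mul_nonneg (sq_nonneg _) (Real.exp_pos _).le) (fun n => ?_) h
  rw [neg_mul]
  exact mul_le_mul_of_nonneg_right (pow_le_pow_left₀ (dv_nonneg n) (dv_le_self n) 2) (Real.exp_pos _).le

/-- `x^a ≤ a^a e^x` -/
theorem rpow_le_exp {a x : ℝ} (ha : 0 < a) (hx : 0 ≤ x) : x ^ a ≤ a ^ a * Real.exp x := by
  have h1 : x / a ≤ Real.exp (x / a) := by linarith [Real.add_one_le_exp (x / a)]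
  have h2 : x ≤ a * Real.exp (x / a) := by
    rw [div_le_iff₀ ha] at h1; linarith
  calc x ^ a ≤ (a * Real.exp (x / a)) ^ a := Real.rpow_le_rpow hx h2 ha.le
    _ = a ^ a * Real.exp x := by
      rw [Real.mul_rpow ha.le (Real.exp_pos _).le, ← Real.exp_mul, div_mul_cancel₀ _ ha.ne']

theorem geom_le {δ : ℝ} (hδ : 0 < δ) : ∑' n : ℕ, Real.exp (-(δ * n)) ≤ 1 + 1 / δ := by
  have h0 : ∀ n : ℕ, Real.exp (-(δ * n)) = Real.exp (-δ) ^ n := fun n => by
    rw [← Real.exp_nat_mul]; congr 1; ring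
  have h1 : Real.exp (-δ) < 1 := by rw [Real.exp_lt_one_iff]; linarith
  rw [tsum_congr h0, tsum_geometric_of_lt_one (Real.exp_pos _).le h1]
  have h2 : Real.exp (-δ) ≤ 1 / (1 + δ) := by
    rw [Real.exp_neg, ← one_div]
    exact one_div_le_one_div_of_le (by linarith) (by linarith [Real.add_one_le_exp δ])
  have h3 : δ / (1 + δ) ≤ 1 - Real.exp (-δ) := by
    have : δ / (1 + δ) = 1 - 1 / (1 + δ) := by field_simp; ring
    linarith
  have h4 : 0 < δ / (1 + δ) := by positivity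
  calc (1 - Real.exp (-δ))⁻¹ ≤ (δ / (1 + δ))⁻¹ := by
        exact inv_anti₀ h4 h3
    _ = 1 + 1 / δ := by field_simp; ring

theorem geom_summable {δ : ℝ} (hδ : 0 < δ) : Summable (fun n : ℕ => Real.exp (-(δ * n))) := by
  have h := Real.summable_pow_mul_exp_neg_nat_mul 0 hδ
  refine h.congr fun n => ?_
  rw [pow_zero, one_mul, neg_mul]

theorem neg_rpow_le {a η : ℝ} (ha : 0 < a) (hη : 0 < η) : η ^ (-a) ≤ 1 + η ^ (-(1 + a)) := by
  have h0 : 0 < η ^ (-(1 + a)) := Real.rpow_pos_of_pos hη _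
  rcases le_total 1 η with h | h
  · have : η ^ (-a) ≤ 1 := Real.rpow_le_one_of_one_le_of_nonpos h (by linarith)
    linarith
  · have : η ^ (-a) ≤ η ^ (-(1 + a)) := Real.rpow_le_rpow_of_exponent_ge hη h (by linarith)
    linarith

theorem gen_bound {f : ℕ → ℝ} {a c C0 : ℝ} (ha : 0 < a) (hc : 0 < c) (hC0 : 0 ≤ C0) (hf0 : f 0 = 0)
    (hfn : ∀ n, 0 ≤ f n) (hf : ∀ n : ℕ, 1 ≤ n → f n ≤ C0 * (n : ℝ) ^ a) :
    ∃ C : ℝ, 0 ≤ C ∧ ∀ η : ℝ, 0 < η →
      ∑' n : ℕ, f n * Real.exp (-(c * η * n)) ≤ C * (1 + η ^ (-(1 + a))) := by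
  refine ⟨C0 * a ^ a * ((c / 2) ^ (-a) + (c / 2) ^ (-(1 + a))), by positivity, fun η hη => ?_⟩
  set δ : ℝ := c / 2 * η with hδd
  have hδ : 0 < δ := by positivity
  have hterm : ∀ n : ℕ, f n * Real.exp (-(c * η * n)) ≤ C0 * a ^ a * δ ^ (-a) * Real.exp (-(δ * n)) := by
    intro n
    rcases Nat.eq_zero_or_pos n with h | h
    · subst h
      rw [hf0, zero_mul]; positivity
    · have hn : (0 : ℝ) < n := by exact_mod_cast h
      have h1 : (n : ℝ) ^ a ≤ a ^ a * δ ^ (-a) * Real.exp (δ * n) := by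
        have h2 := rpow_le_exp ha (x := δ * n) (by positivity)
        rw [Real.mul_rpow hδ.le hn.le] at h2
        have h3 : δ ^ (-a) * δ ^ a = 1 := by
          rw [← Real.rpow_add hδ]; simp
        calc (n : ℝ) ^ a = δ ^ (-a) * (δ ^ a * (n : ℝ) ^ a) := by rw [← mul_assoc, h3, one_mul]
          _ ≤ δ ^ (-a) * (a ^ a * Real.exp (δ * n)) := by
            exact mul_le_mul_of_nonneg_left h2 (Real.rpow_nonneg hδ.le _)
          _ = a ^ a * δ ^ (-a) * Real.exp (δ * n) := by ring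
      have h4 : Real.exp (-(c * η * n)) = Real.exp (-(δ * n)) * Real.exp (-(δ * n)) := by
        rw [← Real.exp_add]; congr 1; rw [hδd]; ring
      have h5 : Real.exp (δ * n) * Real.exp (-(δ * n)) = 1 := by
        rw [← Real.exp_add]; simp
      calc f n * Real.exp (-(c * η * n))
          ≤ (C0 * (a ^ a * δ ^ (-a) * Real.exp (δ * n))) * Real.exp (-(c * η * n)) := by
            refine mul_le_mul_of_nonneg_right ?_ (Real.exp_pos _).le
            exact (hf n h).trans (mul_le_mul_of_nonneg_left h1 hC0)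
        _ = C0 * a ^ a * δ ^ (-a) * (Real.exp (δ * n) * Real.exp (-(δ * n))) * Real.exp (-(δ * n)) := by
            rw [h4]; ring
        _ = C0 * a ^ a * δ ^ (-a) * Real.exp (-(δ * n)) := by rw [h5, mul_one]
  have hs2 : Summable (fun n : ℕ => C0 * a ^ a * δ ^ (-a) * Real.exp (-(δ * n))) :=
    (geom_summable hδ).mul_left _
  have hs1 : Summable (fun n : ℕ => f n * Real.exp (-(c * η * n))) :=
    Summable.of_nonneg_of_le (fun n => mul_nonneg (hfn n) (Real.exp_pos _).le) hterm hs2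
  have hmain : ∑' n : ℕ, f n * Real.exp (-(c * η * n)) ≤ C0 * a ^ a * δ ^ (-a) * (1 + 1 / δ) := by
    refine (hs1.tsum_le_tsum hterm hs2).trans ?_
    rw [tsum_mul_left]
    exact mul_le_mul_of_nonneg_left (geom_le hδ) (by positivity)
  refine hmain.trans ?_
  have e1 : δ ^ (-a) * (1 + 1 / δ) = (c / 2) ^ (-a) * η ^ (-a) + (c / 2) ^ (-(1 + a)) * η ^ (-(1 + a)) := by
    rw [hδd]
    have h6 : (1 : ℝ) / (c / 2 * η) = (c / 2 * η) ^ (-1 : ℝ) := by
      rw [Real.rpow_neg_one, one_div]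
    rw [h6, mul_add, mul_one, ← Real.rpow_add (by positivity), show (-a + -1 : ℝ) = -(1 + a) by ring,
      Real.mul_rpow (by positivity) hη.le, Real.mul_rpow (by positivity) hη.le]
  have h7 := neg_rpow_le ha hη
  have h8 : 0 < (c / 2) ^ (-a) := Real.rpow_pos_of_pos (by positivity) _
  have h9 : 0 < (c / 2) ^ (-(1 + a)) := Real.rpow_pos_of_pos (by positivity) _
  have h10 : 0 < η ^ (-(1 + a)) := Real.rpow_pos_of_pos hη _
  calc C0 * a ^ a * δ ^ (-a) * (1 + 1 / δ) = C0 * a ^ a * (δ ^ (-a) * (1 + 1 / δ)) := by ring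
    _ = C0 * a ^ a * ((c / 2) ^ (-a) * η ^ (-a) + (c / 2) ^ (-(1 + a)) * η ^ (-(1 + a))) := by rw [e1]
    _ ≤ C0 * a ^ a * ((c / 2) ^ (-a) * (1 + η ^ (-(1 + a))) + (c / 2) ^ (-(1 + a)) * (1 + η ^ (-(1 + a)))) := by
      refine mul_le_mul_of_nonneg_left ?_ (by positivity)
      refine add_le_add (mul_le_mul_of_nonneg_left h7 h8.le) (mul_le_mul_of_nonneg_left ?_ h9.le)
      linarith
    _ = C0 * a ^ a * ((c / 2) ^ (-a) + (c / 2) ^ (-(1 + a))) * (1 + η ^ (-(1 + a))) := by ring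

theorem dv2_bound (ε : ℝ) (hε : 0 < ε) : ∃ C : ℝ, 0 ≤ C ∧ ∀ η : ℝ, 0 < η →
    ∑' n : ℕ, dv n ^ 2 * Real.exp (-(4 * Real.pi * η * n)) ≤ C * (1 + η ^ (-(1 + ε))) := by
  obtain ⟨C1, hC1, h1⟩ := dv_le (ε / 2) (by positivity)
  refine gen_bound (f := fun n => dv n ^ 2) (C0 := C1 ^ 2) hε (by positivity) (by positivity)
    (by simp [dv_zero]) (fun n => sq_nonneg _) (fun n hn => ?_)
  have hn' : (0 : ℝ) < n := by exact_mod_cast hn
  calc dv n ^ 2 ≤ (C1 * (n : ℝ) ^ (ε / 2)) ^ 2 := pow_le_pow_left₀ (dv_nonneg n) (h1 n hn) 2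
    _ = C1 ^ 2 * (n : ℝ) ^ ε := by
      rw [mul_pow, ← Real.rpow_natCast, ← Real.rpow_natCast, ← Real.rpow_mul hn'.le]
      congr 2
      push_cast; ring

theorem Hd_term_norm (n : ℕ) (ψ : ℂ) :
    ‖(dv n : ℂ) * (-1) ^ n * cexp (-(2 * Real.pi * I * n * ψ))‖ = dv n * Real.exp (2 * Real.pi * ψ.im * n) := by
  rw [norm_mul, norm_mul, norm_pow, norm_neg, norm_one, one_pow, mul_one, Complex.norm_real,
    Real.norm_of_nonneg (dv_nonneg n), Complex.norm_exp]
  congr 2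
  have : -(2 * Real.pi * I * n * ψ) = ((-(2 * Real.pi * n) : ℝ) : ℂ) * (I * ψ) := by push_cast; ring
  rw [this, Complex.re_ofReal_mul, Complex.I_mul_re]
  ring

/-- the series `Hd` converges absolutely -/
theorem Hd_summable {X η : ℝ} (hη : 0 < η) :
    Summable (fun n : ℕ => (dv n : ℂ) * (-1) ^ n * cexp (-(2 * Real.pi * I * n * pt X η))) := by
  refine Summable.of_norm ?_
  refine (dv_summable (c := 2 * Real.pi * η) (by positivity)).congr fun n => ?_
  rw [Hd_term_norm, pt_im]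
  congr 2; ring

theorem Hd_bound (ε : ℝ) (hε : 0 < ε) : ∃ C : ℝ, 0 ≤ C ∧ ∀ X η : ℝ, 0 < η →
    ‖Hd (pt X η)‖ ≤ C * (1 + η ^ (-(1 + ε))) * Real.exp (-(6 * η)) := by
  obtain ⟨C1, hC1, h1⟩ := dv_le ε hε
  obtain ⟨C, hC, h⟩ := gen_bound (f := dv) (c := 1 / 4) (C0 := C1) hε (by positivity) hC1 dv_zero dv_nonneg h1
  refine ⟨C, hC, fun X η hη => ?_⟩
  have hsn : Summable (fun n : ℕ => ‖(dv n : ℂ) * (-1) ^ n * cexp (-(2 * Real.pi * I * n * pt X η))‖) := by
    refine (dv_summable (c := 2 * Real.pi * η) (by positivity)).congr fun n => ?_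
    rw [Hd_term_norm, pt_im]
    congr 2; ring
  have hs4 : Summable (fun n : ℕ => Real.exp (-(6 * η)) * (dv n * Real.exp (-(1 / 4 * η * n)))) :=
    (dv_summable (c := 1 / 4 * η) (by positivity)).mul_left _
  have hle : ∀ n : ℕ, ‖(dv n : ℂ) * (-1) ^ n * cexp (-(2 * Real.pi * I * n * pt X η))‖ ≤
      Real.exp (-(6 * η)) * (dv n * Real.exp (-(1 / 4 * η * n))) := by
    intro n
    rw [Hd_term_norm, pt_im]
    rcases Nat.eq_zero_or_pos n with h0 | h0
    · subst h0; rw [dv_zero]; simp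
    · have hn1 : (1 : ℝ) ≤ n := by exact_mod_cast h0
      have hpi : 3.14 < Real.pi := Real.pi_gt_d2
      have h2 : Real.exp (2 * Real.pi * -η * n) ≤ Real.exp (-(6 * η)) * Real.exp (-(1 / 4 * η * n)) := by
        rw [← Real.exp_add]
        refine Real.exp_le_exp.2 ?_
        have h3 : 6 + 1 / 4 * (n : ℝ) ≤ 2 * Real.pi * n := by nlinarith
        nlinarith [mul_le_mul_of_nonneg_left h3 hη.le]
      calc dv n * Real.exp (2 * Real.pi * -η * n)
          ≤ dv n * (Real.exp (-(6 * η)) * Real.exp (-(1 / 4 * η * n))) :=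
            mul_le_mul_of_nonneg_left h2 (dv_nonneg n)
        _ = Real.exp (-(6 * η)) * (dv n * Real.exp (-(1 / 4 * η * n))) := by ring
  calc ‖Hd (pt X η)‖ ≤ ∑' n : ℕ, ‖(dv n : ℂ) * (-1) ^ n * cexp (-(2 * Real.pi * I * n * pt X η))‖ :=
        norm_tsum_le_tsum_norm hsn
    _ ≤ ∑' n : ℕ, Real.exp (-(6 * η)) * (dv n * Real.exp (-(1 / 4 * η * n))) :=
        hsn.tsum_le_tsum hle hs4
    _ = Real.exp (-(6 * η)) * ∑' n : ℕ, dv n * Real.exp (-(1 / 4 * η * n)) := tsum_mul_left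
    _ ≤ Real.exp (-(6 * η)) * (C * (1 + η ^ (-(1 + ε)))) :=
        mul_le_mul_of_nonneg_left (h η hη) (Real.exp_pos _).le
    _ = C * (1 + η ^ (-(1 + ε))) * Real.exp (-(6 * η)) := by ring

/-- continuity of `Hd` along horizontal and vertical lines -/
theorem Hd_cont : ContinuousOn Hd {ψ : ℂ | ψ.im < 0} := by
  intro ψ hψ
  have hψ' : ψ.im < 0 := hψ
  refine ContinuousAt.continuousWithinAt ?_
  set s : Set ℂ := {z : ℂ | z.im < ψ.im / 2} with hs
  have hso : IsOpen s := isOpen_lt Complex.continuous_im continuous_const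
  have hmem : ψ ∈ s := by
    show ψ.im < ψ.im / 2
    linarith
  have hco : ContinuousOn Hd s := by
    unfold Hd
    refine continuousOn_tsum (u := fun n : ℕ => dv n * Real.exp (-(Real.pi * (-ψ.im) * n))) (fun n => ?_)
      (dv_summable (mul_pos Real.pi_pos (by linarith))) (fun n z hz => ?_)
    · fun_prop
    · rw [Hd_term_norm]
      refine mul_le_mul_of_nonneg_left (Real.exp_le_exp.2 ?_) (dv_nonneg n)
      have hz' : z.im < ψ.im / 2 := hz
      have hn : (0 : ℝ) ≤ n := Nat.cast_nonneg n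
      have h5 : 2 * Real.pi * z.im ≤ Real.pi * ψ.im := by nlinarith [Real.pi_pos]
      nlinarith [mul_le_mul_of_nonneg_right h5 hn]
  exact hco.continuousAt (hso.mem_nhds hmem)

end Pool.Agent.H15.HB
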