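import Pool.Agent.H15.HB.Gram
import Pool.Agent.H15.HB.Fold
import Pool.Agent.H15.HB.Hdb

/-!
# HB-20  large values: the bilinear inequality  (project HB, MP_be4568)

`η = 4Y²/T`, `R = |S|`.  `-LamH G t η (2Y) Y = ∫_Y^{2Y} Psi G t η X · Hd (pt X η) dX = ∑_n d(n) (-1)^n e^{-2πnη} ∫ blk_t(x) e^{-2πinx} dx`
(sum and integral: absolute convergence, `Hd_summable`, `dv_summable`).  Sum over `t ∈ S`, Cauchy-Schwarz over `n` (finite sections, then limit):
`‖∑_t LamH‖² ≤ (∑ d(n)² e^{-4πnη}) · sup_N ∑_{n ≤ N} ‖∫ (∑_t blk_t) e^{-2πinx}‖²`, and `fold_sum` with `[a,b] = [Y,2Y]`,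
`L = ⌈Y⌉` bounds the last by `∑_{t,t'} ∑_{|l| ≤ L} ‖∫ blk_t conj blk_{t'}(· + l)‖`.  With `gram`:
`l = 0`, `t = t'`: `R · C/Y`.  `l = 0`, `t ≠ t'`: `CK ∑_{t≠t'} 1/|t-t'| ≤ CK R (2/G)(1 + log R)·C'` (`G`-separated: for fixed `t` the `j`-th nearest on
each side is at distance `≥ jG`; `R ≤ T/G + 1 ≤ 2T`).  `l ≠ 0`: if `T|l| ≥ 4Y|t-t'|` use (4): `∑_{|l| ≤ L} CKY/(T|l|) ≤ CKY (1+log T)/T · C'`;
otherwise `|l| < 4Y T₀/T`: (3) and `∑_{1 ≤ l ≤ M} l^{-1/2} ≤ 2√M`, `M = 4YT₀/T`: `≤ C K √(T₀ Y)/T`.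
-/

set_option autoImplicit false

open Complex Filter Topology MeasureTheory Set
open scoped ComplexConjugate

namespace Pool.Agent.H15.HB

theorem gs_sqrt_sum (m : ℕ) : ∑ l ∈ Finset.Icc 1 m, 1 / √(l : ℝ) ≤ 2 * √(m : ℝ) := by
  induction m with
  | zero => simp
  | succ m ih =>
    rw [Finset.sum_Icc_succ_top (by omega)]
    have h1 : 1 / √((m + 1 : ℕ) : ℝ) ≤ 2 * √((m + 1 : ℕ) : ℝ) - 2 * √(m : ℝ) := by
      have hp : 0 < √((m + 1 : ℕ) : ℝ) := Real.sqrt_pos.2 (by positivity)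
      rw [div_le_iff₀ hp]
      have h2 : √((m + 1 : ℕ) : ℝ) ^ 2 = m + 1 := by
        rw [Real.sq_sqrt (by positivity)]; push_cast; ring
      have h3 : √(m : ℝ) ^ 2 = m := Real.sq_sqrt (by positivity)
      nlinarith [sq_nonneg (√((m + 1 : ℕ) : ℝ) - √(m : ℝ))]
    linarith

/-- sum of `1/|t - t'|` over a `G`-separated set, one side -/
theorem gs_side {S : Finset ℝ} {G T t : ℝ} (hG : 1 ≤ G) (hT : 1 ≤ T) (hd : ∀ s ∈ S, |t - s| ≤ T)
    (σ : ℝ) (hσ : σ = 1 ∨ σ = -1) (hpos : ∀ s ∈ S, G ≤ σ * (s - t))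
    (hsep : ∀ s ∈ S, ∀ s' ∈ S, s ≠ s' → G ≤ |s - s'|) :
    ∑ s ∈ S, 1 / |t - s| ≤ (1 + Real.log T) / G := by
  have hG0 : 0 < G := by linarith
  have habs : ∀ s ∈ S, |t - s| = σ * (s - t) := by
    intro s hs
    have h := hpos s hs
    rcases hσ with h1 | h1
    · rw [h1] at h ⊢
      rw [abs_sub_comm, abs_of_nonneg (by linarith)]; ring
    · rw [h1] at h ⊢
      rw [abs_of_nonneg (by linarith)]; ring
  let k : ℝ → ℕ := fun s => ⌊|t - s| / G⌋₊
  have hk1 : ∀ s ∈ S, 1 ≤ k s := by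
    intro s hs
    refine Nat.le_floor ?_
    rw [Nat.cast_one, le_div_iff₀ hG0, one_mul, habs s hs]
    exact hpos s hs
  have hinj : Set.InjOn k S := by
    intro s hs s' hs' hkk
    by_contra hne
    have h1 := hsep s hs s' hs' hne
    have e1 := Nat.floor_le (show 0 ≤ |t - s| / G by positivity)
    have e2 := Nat.lt_floor_add_one (|t - s| / G)
    have e3 := Nat.floor_le (show 0 ≤ |t - s'| / G by positivity)
    have e4 := Nat.lt_floor_add_one (|t - s'| / G)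
    have hkk' : (⌊|t - s| / G⌋₊ : ℝ) = ⌊|t - s'| / G⌋₊ := by exact_mod_cast hkk
    rw [hkk'] at e1 e2
    have h2 : |(|t - s| / G) - (|t - s'| / G)| < 1 := by
      rw [abs_lt]; constructor <;> linarith
    rw [← sub_div, abs_div, abs_of_pos hG0, div_lt_one hG0, habs s hs, habs s' hs'] at h2
    have h3 : |σ * (s - t) - σ * (s' - t)| = |s - s'| := by
      rcases hσ with h | h
      · rw [h]; congr 1; ring
      · rw [h, show (-1 : ℝ) * (s - t) - -1 * (s' - t) = -(s - s') by ring, abs_neg]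
    rw [h3] at h2
    linarith
  have hterm : ∀ s ∈ S, 1 / |t - s| ≤ 1 / G * (1 / (k s : ℝ)) := by
    intro s hs
    have e1 := Nat.floor_le (show 0 ≤ |t - s| / G by positivity)
    have hk0 : (0 : ℝ) < k s := by exact_mod_cast hk1 s hs
    have e5 : 1 / G * (1 / (k s : ℝ)) = 1 / ((k s : ℝ) * G) := by field_simp
    rw [e5]
    apply one_div_le_one_div_of_le (by positivity)
    rw [← le_div_iff₀ hG0]; exact e1
  have himg : Finset.image k S ⊆ Finset.Icc 1 ⌊T⌋₊ := by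
    intro n hn
    obtain ⟨s, hs, rfl⟩ := Finset.mem_image.1 hn
    rw [Finset.mem_Icc]
    refine ⟨hk1 s hs, ?_⟩
    apply Nat.floor_le_floor
    rw [div_le_iff₀ hG0]
    have := hd s hs
    nlinarith
  calc ∑ s ∈ S, 1 / |t - s| ≤ ∑ s ∈ S, 1 / G * (1 / (k s : ℝ)) := Finset.sum_le_sum hterm
    _ = 1 / G * ∑ s ∈ S, (1 / (k s : ℝ)) := by rw [Finset.mul_sum]
    _ = 1 / G * ∑ n ∈ Finset.image k S, (1 / (n : ℝ)) := by
        rw [Finset.sum_image hinj]
    _ ≤ 1 / G * ∑ n ∈ Finset.Icc 1 ⌊T⌋₊, (1 / (n : ℝ)) := by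
        refine mul_le_mul_of_nonneg_left ?_ (by positivity)
        exact Finset.sum_le_sum_of_subset_of_nonneg himg (fun n _ _ => by positivity)
    _ ≤ 1 / G * (1 + Real.log T) := by
        refine mul_le_mul_of_nonneg_left ?_ (by positivity)
        have h1 := harmonic_floor_le_one_add_log T hT
        refine le_trans (le_of_eq ?_) h1
        rw [harmonic_eq_sum_Icc]
        push_cast
        refine Finset.sum_congr rfl fun n _ => ?_
        rw [one_div]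
    _ = (1 + Real.log T) / G := by ring

theorem gs_sep {S : Finset ℝ} {G T t : ℝ} (hG : 1 ≤ G) (hT : 1 ≤ T) (ht : t ∈ S)
    (hd : ∀ s ∈ S, |t - s| ≤ T) (hsep : ∀ s ∈ S, ∀ s' ∈ S, s ≠ s' → G ≤ |s - s'|) :
    ∑ s ∈ S.filter (fun s => s ≠ t), 1 / |t - s| ≤ 2 * (1 + Real.log T) / G := by
  classical
  have hsplit : S.filter (fun s => s ≠ t) = S.filter (fun s => t < s) ∪ S.filter (fun s => s < t) := by
    ext s
    simp only [Finset.mem_filter, Finset.mem_union]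
    constructor
    · rintro ⟨h1, h2⟩
      rcases lt_or_gt_of_ne h2 with h | h
      · exact Or.inr ⟨h1, h⟩
      · exact Or.inl ⟨h1, h⟩
    · rintro (⟨h1, h2⟩ | ⟨h1, h2⟩)
      · exact ⟨h1, h2.ne'⟩
      · exact ⟨h1, h2.ne⟩
  have hdisj : Disjoint (S.filter (fun s => t < s)) (S.filter (fun s => s < t)) := by
    rw [Finset.disjoint_filter]
    intro s _ h1 h2
    exact absurd h1 (not_lt.2 h2.le)
  rw [hsplit, Finset.sum_union hdisj]
  have e1 := gs_side (S := S.filter (fun s => t < s)) (t := t) hG hT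
    (fun s hs => hd s (Finset.mem_filter.1 hs).1) 1 (Or.inl rfl) (by
      intro s hs
      obtain ⟨h1, h2⟩ := Finset.mem_filter.1 hs
      have := hsep s h1 t ht h2.ne'
      rw [abs_of_pos (by linarith)] at this
      linarith)
    (fun s hs s' hs' => hsep s (Finset.mem_filter.1 hs).1 s' (Finset.mem_filter.1 hs').1)
  have e2 := gs_side (S := S.filter (fun s => s < t)) (t := t) hG hT
    (fun s hs => hd s (Finset.mem_filter.1 hs).1) (-1) (Or.inr rfl) (by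
      intro s hs
      obtain ⟨h1, h2⟩ := Finset.mem_filter.1 hs
      have := hsep s h1 t ht h2.ne
      rw [abs_of_neg (by linarith)] at this
      linarith)
    (fun s hs s' hs' => hsep s (Finset.mem_filter.1 hs).1 s' (Finset.mem_filter.1 hs').1)
  have : 2 * (1 + Real.log T) / G = (1 + Real.log T) / G + (1 + Real.log T) / G := by ring
  linarith

theorem gs_sum_int (g : ℕ → ℝ) (L : ℕ) :
    ∑ l ∈ Finset.Icc (-(L : ℤ)) L, g l.natAbs = g 0 + 2 * ∑ m ∈ Finset.Icc 1 L, g m := by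
  induction L with
  | zero => simp
  | succ L ih =>
    have h : Finset.Icc (-((L + 1 : ℕ) : ℤ)) ((L + 1 : ℕ) : ℤ)
        = insert (-((L + 1 : ℕ) : ℤ)) (insert ((L + 1 : ℕ) : ℤ) (Finset.Icc (-(L : ℤ)) L)) := by
      ext x
      simp only [Finset.mem_Icc, Finset.mem_insert]
      push_cast
      omega
    rw [h, Finset.sum_insert, Finset.sum_insert, ih, Finset.sum_Icc_succ_top (by omega)]
    · rw [Int.natAbs_neg, Int.natAbs_natCast]
      ring
    · simp only [Finset.mem_Icc]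
      push_cast
      omega
    · simp only [Finset.mem_Icc, Finset.mem_insert]
      push_cast
      omega

/-- sum over `l` of the correlation bounds -/
theorem gs_lsum {T Y K T₀ C d : ℝ} (hY : 10 ≤ Y) (hT : 40 * Y ≤ T) (hK : 1 ≤ K) (hT0 : 0 ≤ T₀)
    (hC : 0 ≤ C) (_hd0 : 0 ≤ d) (hd : d ≤ T₀) (B : ℤ → ℝ) (L : ℕ) (hL : (L : ℝ) ≤ T)
    (h3 : ∀ l : ℤ, l ≠ 0 → B l ≤ C * K / √(T * |(l : ℝ)|))
    (h4 : ∀ l : ℤ, l ≠ 0 → 4 * Y * d ≤ T * |(l : ℝ)| → B l ≤ C * K * Y / (T * |(l : ℝ)|)) :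
    ∑ l ∈ Finset.Icc (-(L : ℤ)) L, B l ≤
      B 0 + 2 * C * K * Y * (1 + Real.log T) / T + 8 * C * K * √(T₀ * Y) / T := by
  have hTpos : 0 < T := by linarith
  have hYpos : 0 < Y := by linarith
  obtain ⟨M, hM⟩ : ∃ M : ℕ, M = ⌊4 * Y * T₀ / T⌋₊ := ⟨_, rfl⟩
  let g : ℕ → ℝ := fun m => if m = 0 then 0 else C * K * Y / (T * m) + if m ≤ M then C * K / √(T * m) else 0
  have hg0 : g 0 = 0 := by simp [g]
  have hgpos : ∀ m, m ≠ 0 → g m = C * K * Y / (T * m) + if m ≤ M then C * K / √(T * m) else 0 := by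
    intro m hm; simp [g, hm]
  have hB : ∀ l : ℤ, B l ≤ (if l = 0 then B 0 else 0) + g l.natAbs := by
    intro l
    by_cases hl : l = 0
    · subst hl; simp [g]
    · rw [if_neg hl, zero_add]
      have hn : l.natAbs ≠ 0 := Int.natAbs_ne_zero.2 hl
      have hcast : ((l.natAbs : ℕ) : ℝ) = |(l : ℝ)| := by
        rw [Nat.cast_natAbs, Int.cast_abs]
      have hlpos : 0 < |(l : ℝ)| := abs_pos.2 (by exact_mod_cast hl)
      rw [hgpos _ hn, hcast]
      by_cases h : 4 * Y * d ≤ T * |(l : ℝ)|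
      · have h5 := h4 l hl h
        have h6 : (0 : ℝ) ≤ if l.natAbs ≤ M then C * K / √(T * |(l : ℝ)|) else 0 := by
          split_ifs <;> positivity
        linarith
      · push Not at h
        have h7 : l.natAbs ≤ M := by
          rw [hM]
          apply Nat.le_floor
          rw [hcast, le_div_iff₀ hTpos]
          nlinarith
        rw [if_pos h7]
        have h5 := h3 l hl
        have h6 : (0 : ℝ) ≤ C * K * Y / (T * |(l : ℝ)|) := by positivity
        linarith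
  have hsum1 : ∑ l ∈ Finset.Icc (-(L : ℤ)) L, B l ≤ B 0 + 2 * ∑ m ∈ Finset.Icc 1 L, g m := by
    refine (Finset.sum_le_sum fun l _ => hB l).trans ?_
    rw [Finset.sum_add_distrib, gs_sum_int, hg0, zero_add]
    have : ∑ l ∈ Finset.Icc (-(L : ℤ)) L, (if l = 0 then B 0 else 0) = B 0 := by
      rw [Finset.sum_ite_eq' (Finset.Icc (-(L : ℤ)) L) (0 : ℤ) (fun _ => B 0)]
      rw [if_pos]
      simp
    rw [this]
  have hsum2 : ∑ m ∈ Finset.Icc 1 L, g m ≤ C * K * Y * (1 + Real.log T) / T + 4 * C * K * √(T₀ * Y) / T := by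
    have e1 : ∑ m ∈ Finset.Icc 1 L, g m
        = ∑ m ∈ Finset.Icc 1 L, (C * K * Y / T) * (1 / (m : ℝ))
          + ∑ m ∈ Finset.Icc 1 L, if m ≤ M then C * K / √(T * m) else 0 := by
      rw [← Finset.sum_add_distrib]
      refine Finset.sum_congr rfl fun m hm => ?_
      have hm1 : 1 ≤ m := (Finset.mem_Icc.1 hm).1
      have hm0 : (0 : ℝ) < m := by exact_mod_cast hm1
      rw [hgpos m (by omega)]
      congr 1
      field_simp
    rw [e1]
    refine add_le_add ?_ ?_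
    · rw [← Finset.mul_sum]
      have h8 : ∑ m ∈ Finset.Icc 1 L, 1 / (m : ℝ) ≤ 1 + Real.log T := by
        have hLf : L ≤ ⌊T⌋₊ := Nat.le_floor hL
        have h1 := harmonic_floor_le_one_add_log T (by linarith)
        refine le_trans ?_ h1
        rw [harmonic_eq_sum_Icc]
        push_cast
        refine le_trans (Finset.sum_le_sum_of_subset_of_nonneg
          (Finset.Icc_subset_Icc_right hLf) (fun n _ _ => by positivity)) (le_of_eq ?_)
        refine Finset.sum_congr rfl fun n _ => ?_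
        rw [one_div]
      calc C * K * Y / T * ∑ m ∈ Finset.Icc 1 L, 1 / (m : ℝ) ≤ C * K * Y / T * (1 + Real.log T) :=
            mul_le_mul_of_nonneg_left h8 (by positivity)
        _ = C * K * Y * (1 + Real.log T) / T := by ring
    · have h9 : ∑ m ∈ Finset.Icc 1 L, (if m ≤ M then C * K / √(T * m) else 0)
          ≤ ∑ m ∈ Finset.Icc 1 M, C * K / √(T * m) := by
        rw [← Finset.sum_filter]
        refine Finset.sum_le_sum_of_subset_of_nonneg ?_ (fun n _ _ => by positivity)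
        intro m hm
        obtain ⟨h1, h2⟩ := Finset.mem_filter.1 hm
        exact Finset.mem_Icc.2 ⟨(Finset.mem_Icc.1 h1).1, h2⟩
      refine h9.trans ?_
      have h10 : ∀ m ∈ Finset.Icc 1 M, C * K / √(T * m) = C * K / √T * (1 / √(m : ℝ)) := by
        intro m _
        rw [Real.sqrt_mul hTpos.le]
        rw [div_mul_div_comm, mul_one]
      rw [Finset.sum_congr rfl h10, ← Finset.mul_sum]
      have h11 := gs_sqrt_sum M
      have h12 : √(M : ℝ) ≤ √(4 * Y * T₀ / T) := by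
        apply Real.sqrt_le_sqrt
        rw [hM]
        exact Nat.floor_le (by positivity)
      have h13 : √(4 * Y * T₀ / T) = 2 * √(T₀ * Y) / √T := by
        rw [Real.sqrt_div (by positivity)]
        congr 1
        rw [show 4 * Y * T₀ = 2 ^ 2 * (T₀ * Y) by ring, Real.sqrt_mul (by positivity),
          Real.sqrt_sq (by norm_num)]
      have hsT : 0 < √T := Real.sqrt_pos.2 hTpos
      have hsT2 : √T * √T = T := Real.mul_self_sqrt hTpos.le
      calc C * K / √T * ∑ i ∈ Finset.Icc 1 M, 1 / √(i : ℝ) ≤ C * K / √T * (2 * (2 * √(T₀ * Y) / √T)) := by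
            refine mul_le_mul_of_nonneg_left ?_ (by positivity)
            rw [← h13]; linarith
        _ = 4 * C * K * √(T₀ * Y) / (√T * √T) := by field_simp; ring
        _ = 4 * C * K * √(T₀ * Y) / T := by rw [hsT2]
  have : 2 * C * K * Y * (1 + Real.log T) / T + 8 * C * K * √(T₀ * Y) / T
      = 2 * (C * K * Y * (1 + Real.log T) / T + 4 * C * K * √(T₀ * Y) / T) := by ring
  linarith

/-- the complete quadratic sum -/
theorem gs_quad {T Y G K T₀ C : ℝ} {S : Finset ℝ} (hY : 10 ≤ Y) (hT : 40 * Y ≤ T) (hK : 1 ≤ K)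
    (hG : 1 ≤ G) (hT0 : 0 ≤ T₀) (hT0T : T₀ ≤ T) (hC : 0 ≤ C)
    (hd : ∀ t ∈ S, ∀ t' ∈ S, |t - t'| ≤ T₀) (hsep : ∀ t ∈ S, ∀ t' ∈ S, t ≠ t' → G ≤ |t - t'|)
    (B : ℝ → ℝ → ℤ → ℝ) (L : ℕ) (hL : (L : ℝ) ≤ T)
    (h1 : ∀ t ∈ S, ∀ t' ∈ S, ∀ l, B t t' l ≤ C / Y)
    (h2 : ∀ t ∈ S, ∀ t' ∈ S, t ≠ t' → B t t' 0 ≤ C * K / |t - t'|)
    (h3 : ∀ t ∈ S, ∀ t' ∈ S, ∀ l : ℤ, l ≠ 0 → B t t' l ≤ C * K / √(T * |(l : ℝ)|))
    (h4 : ∀ t ∈ S, ∀ t' ∈ S, ∀ l : ℤ, l ≠ 0 → 4 * Y * |t - t'| ≤ T * |(l : ℝ)| →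
      B t t' l ≤ C * K * Y / (T * |(l : ℝ)|)) :
    ∑ t ∈ S, ∑ t' ∈ S, ∑ l ∈ Finset.Icc (-(L : ℤ)) L, B t t' l ≤
      8 * C * K * (1 + Real.log T) ^ 2 *
        (S.card / Y + S.card / G + S.card ^ 2 * Y / T + S.card ^ 2 * √(T₀ * Y) / T) := by
  have hTpos : 0 < T := by linarith
  have hYpos : 0 < Y := by linarith
  have hGpos : 0 < G := by linarith
  have hlog : 0 ≤ Real.log T := Real.log_nonneg (by linarith)
  have hrow : ∀ t ∈ S, ∑ t' ∈ S, ∑ l ∈ Finset.Icc (-(L : ℤ)) L, B t t' l ≤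
      C / Y + C * K * (2 * (1 + Real.log T) / G)
        + S.card * (2 * C * K * Y * (1 + Real.log T) / T + 8 * C * K * √(T₀ * Y) / T) := by
    intro t ht
    have e1 : ∀ t' ∈ S, ∑ l ∈ Finset.Icc (-(L : ℤ)) L, B t t' l ≤
        ((if t' = t then C / Y else 0) + (if t' ≠ t then C * K * (1 / |t - t'|) else 0))
          + (2 * C * K * Y * (1 + Real.log T) / T + 8 * C * K * √(T₀ * Y) / T) := by
      intro t' ht'
      have e2 := gs_lsum hY hT hK hT0 hC (abs_nonneg (t - t')) (hd t ht t' ht') (B t t') L hL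
        (h3 t ht t' ht') (h4 t ht t' ht')
      have e3 : B t t' 0 ≤ (if t' = t then C / Y else 0) + (if t' ≠ t then C * K * (1 / |t - t'|) else 0) := by
        by_cases h : t' = t
        · rw [if_pos h, if_neg (by simpa using h), add_zero]
          exact h1 t ht t' ht' 0
        · rw [if_neg h, if_pos h, zero_add]
          refine (h2 t ht t' ht' (Ne.symm h)).trans (le_of_eq ?_)
          ring
      linarith
    refine (Finset.sum_le_sum e1).trans ?_
    rw [Finset.sum_add_distrib, Finset.sum_add_distrib, Finset.sum_const, nsmul_eq_mul]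
    have e4 : ∑ t' ∈ S, (if t' = t then C / Y else 0) = C / Y := by
      rw [Finset.sum_ite_eq' S t (fun _ => C / Y), if_pos ht]
    have e5 : ∑ t' ∈ S, (if t' ≠ t then C * K * (1 / |t - t'|) else 0)
        ≤ C * K * (2 * (1 + Real.log T) / G) := by
      rw [← Finset.sum_filter, ← Finset.mul_sum]
      refine mul_le_mul_of_nonneg_left ?_ (by positivity)
      exact gs_sep hG (by linarith) ht (fun s hs => (hd t ht s hs).trans hT0T) hsep
    rw [e4]
    linarith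
  refine (Finset.sum_le_sum hrow).trans ?_
  rw [Finset.sum_const, nsmul_eq_mul]
  obtain ⟨R, hR⟩ : ∃ R : ℝ, R = (S.card : ℝ) := ⟨_, rfl⟩
  have hR0 : 0 ≤ R := by rw [hR]; positivity
  obtain ⟨Λ, hΛ⟩ : ∃ Λ : ℝ, Λ = 1 + Real.log T := ⟨_, rfl⟩
  have hΛ1 : 1 ≤ Λ := by rw [hΛ]; linarith
  rw [← hR, ← hΛ]
  have f1 : R * (C / Y) ≤ 8 * C * K * Λ ^ 2 * (R / Y) := by
    have : R * (C / Y) = C * (R / Y) := by ring
    rw [this]
    refine mul_le_mul_of_nonneg_right ?_ (by positivity)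
    have hKΛ : 1 ≤ K * Λ ^ 2 := by nlinarith [sq_nonneg Λ, mul_le_mul hK (one_le_pow₀ hΛ1 (n := 2)) (by norm_num) (by linarith)]
    nlinarith
  have f2 : R * (C * K * (2 * Λ / G)) ≤ 8 * C * K * Λ ^ 2 * (R / G) := by
    have : R * (C * K * (2 * Λ / G)) = C * K * (2 * Λ) * (R / G) := by ring
    rw [this]
    refine mul_le_mul_of_nonneg_right ?_ (by positivity)
    have : 2 * Λ ≤ 8 * Λ ^ 2 := by nlinarith
    calc C * K * (2 * Λ) ≤ C * K * (8 * Λ ^ 2) := mul_le_mul_of_nonneg_left this (by positivity)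
      _ = 8 * C * K * Λ ^ 2 := by ring
  have f3 : R * (R * (2 * C * K * Y * Λ / T)) ≤ 8 * C * K * Λ ^ 2 * (R ^ 2 * Y / T) := by
    have : R * (R * (2 * C * K * Y * Λ / T)) = C * K * (2 * Λ) * (R ^ 2 * Y / T) := by ring
    rw [this]
    refine mul_le_mul_of_nonneg_right ?_ (by positivity)
    have : 2 * Λ ≤ 8 * Λ ^ 2 := by nlinarith
    calc C * K * (2 * Λ) ≤ C * K * (8 * Λ ^ 2) := mul_le_mul_of_nonneg_left this (by positivity)
      _ = 8 * C * K * Λ ^ 2 := by ring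
  have f4 : R * (R * (8 * C * K * √(T₀ * Y) / T)) ≤ 8 * C * K * Λ ^ 2 * (R ^ 2 * √(T₀ * Y) / T) := by
    have : R * (R * (8 * C * K * √(T₀ * Y) / T)) = 8 * C * K * 1 * (R ^ 2 * √(T₀ * Y) / T) := by ring
    rw [this]
    refine mul_le_mul_of_nonneg_right ?_ (by positivity)
    refine mul_le_mul_of_nonneg_left (one_le_pow₀ hΛ1) (by positivity)
  calc R * (C / Y + C * K * (2 * Λ / G) + R * (2 * C * K * Y * Λ / T + 8 * C * K * √(T₀ * Y) / T))
      = R * (C / Y) + R * (C * K * (2 * Λ / G)) + R * (R * (2 * C * K * Y * Λ / T))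
        + R * (R * (8 * C * K * √(T₀ * Y) / T)) := by ring
    _ ≤ _ := by linarith

/-- coefficients -/
noncomputable def gsa (η : ℝ) (n : ℕ) : ℂ := (dv n : ℂ) * (-1) ^ n * ((Real.exp (-(2 * Real.pi * η * n)) : ℝ) : ℂ)

theorem gsa_norm (η : ℝ) (n : ℕ) : ‖gsa η n‖ = dv n * Real.exp (-(2 * Real.pi * η * n)) := by
  have hd : 0 ≤ dv n := by unfold dv; positivity
  unfold gsa
  rw [norm_mul, norm_mul, norm_pow, norm_neg, norm_one, one_pow, mul_one, Complex.norm_real,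
    Complex.norm_real, Real.norm_of_nonneg hd, Real.norm_of_nonneg (Real.exp_pos _).le]

theorem gsa_summable {η : ℝ} (hη : 0 < η) : Summable (fun n => ‖gsa η n‖) := by
  simp only [gsa_norm]
  exact dv_summable (by positivity)

theorem gsa_exp (X η : ℝ) (n : ℕ) : cexp (-(2 * Real.pi * I * n * pt X η))
    = ((Real.exp (-(2 * Real.pi * η * n)) : ℝ) : ℂ) * cexp (-(2 * Real.pi * I * n * X)) := by
  rw [Complex.ofReal_exp, ← Complex.exp_add]
  congr 1
  unfold pt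
  push_cast
  linear_combination (2 * Real.pi * n * η : ℂ) * Complex.I_mul_I

/-- Fourier integral of a bounded function supported in `[a,b]` -/
theorem gs_integrable {A : ℝ → ℂ} (hm : Measurable A) {Bd : ℝ} (hB : ∀ x, ‖A x‖ ≤ Bd) {a b : ℝ}
    (hs : ∀ x, x ∉ Icc a b → A x = 0) (n : ℕ) :
    Integrable (fun x : ℝ => A x * cexp (-(2 * Real.pi * I * n * x))) := by
  have hBd : 0 ≤ Bd := (norm_nonneg _).trans (hB 0)
  have hmeas : Measurable (fun x : ℝ => A x * cexp (-(2 * Real.pi * I * n * x))) := by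
    refine hm.mul ?_
    exact (by fun_prop : Continuous fun x : ℝ => cexp (-(2 * Real.pi * I * n * x))).measurable
  have hdom : Integrable ((Icc a b).indicator fun _ => Bd) := by
    rw [integrable_indicator_iff measurableSet_Icc]
    exact integrableOn_const (by simp)
  refine hdom.mono' hmeas.aestronglyMeasurable (Filter.Eventually.of_forall fun x => ?_)
  rw [norm_mul]
  have h1 : ‖cexp (-(2 * Real.pi * I * n * x))‖ = 1 := by
    have : -(2 * Real.pi * I * n * (x : ℂ)) = ((-(2 * Real.pi * n * x) : ℝ) : ℂ) * I := by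
      push_cast; ring
    rw [this, Complex.norm_exp_ofReal_mul_I]
  rw [h1, mul_one]
  by_cases hx : x ∈ Icc a b
  · rw [Set.indicator_of_mem hx]; exact hB x
  · rw [Set.indicator_of_notMem hx, hs x hx, norm_zero]

theorem gs_norm_int {A : ℝ → ℂ} (hm : Measurable A) {Bd : ℝ} (hB : ∀ x, ‖A x‖ ≤ Bd) {a b : ℝ}
    (hab : a ≤ b) (hs : ∀ x, x ∉ Icc a b → A x = 0) (n : ℕ) :
    ∫ x : ℝ, ‖A x * cexp (-(2 * Real.pi * I * n * x))‖ ≤ Bd * (b - a) := by
  have hBd : 0 ≤ Bd := (norm_nonneg _).trans (hB 0)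
  have hdom : Integrable ((Icc a b).indicator fun _ => Bd) := by
    rw [integrable_indicator_iff measurableSet_Icc]
    exact integrableOn_const (by simp)
  have h2 : ∫ x : ℝ, (Icc a b).indicator (fun _ => Bd) x = Bd * (b - a) := by
    rw [integral_indicator measurableSet_Icc, setIntegral_const, smul_eq_mul, Measure.real,
      Real.volume_Icc, ENNReal.toReal_ofReal (by linarith), mul_comm]
  rw [← h2]
  refine integral_mono (gs_integrable hm hB hs n).norm hdom (fun x => ?_)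
  simp only
  rw [norm_mul]
  have h1 : ‖cexp (-(2 * Real.pi * I * n * x))‖ = 1 := by
    have : -(2 * Real.pi * I * n * (x : ℂ)) = ((-(2 * Real.pi * n * x) : ℝ) : ℂ) * I := by
      push_cast; ring
    rw [this, Complex.norm_exp_ofReal_mul_I]
  rw [h1, mul_one]
  by_cases hx : x ∈ Icc a b
  · rw [Set.indicator_of_mem hx]; exact hB x
  · rw [Set.indicator_of_notMem hx, hs x hx, norm_zero]

/-- expansion of `LamH` -/
theorem gs_lam {G t Y T Bd : ℝ} (hY : 1 ≤ Y) (hT : 0 < T) (hB : ∀ x, ‖blk G t Y T x‖ ≤ Bd) :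
    HasSum (fun n : ℕ => gsa (4 * Y ^ 2 / T) n * ∫ x : ℝ, blk G t Y T x * cexp (-(2 * Real.pi * I * n * x)))
      (-LamH G t (4 * Y ^ 2 / T) (2 * Y) Y) := by
  have hη : 0 < 4 * Y ^ 2 / T := by positivity
  obtain ⟨η, hηd⟩ : ∃ η : ℝ, η = 4 * Y ^ 2 / T := ⟨_, rfl⟩
  have hm : Measurable (blk G t Y T) := blk_meas hY
  have hs : ∀ x, x ∉ Icc Y (2 * Y) → blk G t Y T x = 0 := fun x hx => by
    unfold blk; exact Set.indicator_of_notMem hx _
  have hint : ∀ n, Integrable (fun x : ℝ => gsa η n * (blk G t Y T x * cexp (-(2 * Real.pi * I * n * x)))) :=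
    fun n => (gs_integrable hm hB hs n).const_mul _
  have hsum : Summable (fun n : ℕ => ∫ x : ℝ, ‖gsa η n * (blk G t Y T x * cexp (-(2 * Real.pi * I * n * x)))‖) := by
    refine Summable.of_nonneg_of_le (fun n => integral_nonneg fun x => norm_nonneg _) (fun n => ?_)
      ((gsa_summable (η := η) (by rw [hηd]; exact hη)).mul_right (Bd * (2 * Y - Y)))
    simp only [norm_mul (gsa η n)]
    rw [integral_const_mul]
    exact mul_le_mul_of_nonneg_left (gs_norm_int hm hB (by linarith) hs n) (norm_nonneg _)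
  have h1 := hasSum_integral_of_summable_integral_norm hint hsum
  have h2 : ∀ n, ∫ x : ℝ, gsa η n * (blk G t Y T x * cexp (-(2 * Real.pi * I * n * x)))
      = gsa η n * ∫ x : ℝ, blk G t Y T x * cexp (-(2 * Real.pi * I * n * x)) := fun n => integral_const_mul _ _
  simp only [h2] at h1
  rw [← hηd]
  have h3 : ∫ x : ℝ, ∑' n : ℕ, gsa η n * (blk G t Y T x * cexp (-(2 * Real.pi * I * n * x)))
      = -LamH G t η (2 * Y) Y := by
    unfold LamH
    rw [intervalIntegral.integral_symm, neg_neg, intervalIntegral.integral_of_le (by linarith),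
      ← integral_Icc_eq_integral_Ioc, ← integral_indicator measurableSet_Icc]
    refine integral_congr_ae (Filter.Eventually.of_forall fun x => ?_)
    simp only
    by_cases hx : x ∈ Icc Y (2 * Y)
    · rw [Set.indicator_of_mem hx]
      have h4 : blk G t Y T x = Psi G t η x := by
        unfold blk; rw [Set.indicator_of_mem hx, hηd]
      rw [h4]
      unfold Hd
      rw [← tsum_mul_left]
      refine tsum_congr fun n => ?_
      rw [gsa_exp]
      unfold gsa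
      ring
    · rw [Set.indicator_of_notMem hx, hs x hx]
      simp
  rw [h3] at h1
  exact h1

/-- Cauchy-Schwarz -/
theorem gs_cs {a c : ℕ → ℂ} {z : ℂ} (hz : HasSum (fun n => a n * c n) z) {D Q : ℝ}
    (hD : HasSum (fun n => ‖a n‖ ^ 2) D) (_hQ0 : 0 ≤ Q) (hQ : ∀ F : Finset ℕ, ∑ n ∈ F, ‖c n‖ ^ 2 ≤ Q) :
    ‖z‖ ^ 2 ≤ D * Q := by
  have hD0 : 0 ≤ D := hD.nonneg fun n => by positivity
  have hF : ∀ F : Finset ℕ, ‖∑ n ∈ F, a n * c n‖ ^ 2 ≤ D * Q := by
    intro F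
    have h1 : ‖∑ n ∈ F, a n * c n‖ ≤ ∑ n ∈ F, ‖a n‖ * ‖c n‖ := by
      refine (norm_sum_le _ _).trans (le_of_eq ?_)
      simp only [norm_mul]
    have h2 : (∑ n ∈ F, ‖a n‖ * ‖c n‖) ^ 2 ≤ (∑ n ∈ F, ‖a n‖ ^ 2) * ∑ n ∈ F, ‖c n‖ ^ 2 :=
      Finset.sum_mul_sq_le_sq_mul_sq F _ _
    have h3 : ∑ n ∈ F, ‖a n‖ ^ 2 ≤ D := sum_le_hasSum F (fun n _ => by positivity) hD
    calc ‖∑ n ∈ F, a n * c n‖ ^ 2 ≤ (∑ n ∈ F, ‖a n‖ * ‖c n‖) ^ 2 :=
          pow_le_pow_left₀ (norm_nonneg _) h1 2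
      _ ≤ (∑ n ∈ F, ‖a n‖ ^ 2) * ∑ n ∈ F, ‖c n‖ ^ 2 := h2
      _ ≤ D * Q := mul_le_mul h3 (hQ F) (Finset.sum_nonneg fun n _ => by positivity) hD0
  have hlim : Tendsto (fun F : Finset ℕ => ‖∑ n ∈ F, a n * c n‖ ^ 2) atTop (𝓝 (‖z‖ ^ 2)) :=
    (hz.norm).pow 2
  exact le_of_tendsto' hlim hF

theorem gram_sum : ∃ C : ℝ, 0 ≤ C ∧ ∀ (T Y G K T₀ : ℝ) (S : Finset ℝ), 10 ≤ Y → 40 * Y ≤ T → 1 ≤ K → 1 ≤ G → G ≤ K * Y →
    0 ≤ T₀ → T₀ ≤ T → (∀ t ∈ S, T ≤ t ∧ t ≤ 2 * T) → (∀ t ∈ S, ∀ t' ∈ S, |t - t'| ≤ T₀) →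
    (∀ t ∈ S, ∀ t' ∈ S, t ≠ t' → G ≤ |t - t'|) →
    ‖∑ t ∈ S, LamH G t (4 * Y ^ 2 / T) (2 * Y) Y‖ ^ 2 ≤ C * K * (1 + Real.log T) ^ 2 *
      (∑' n : ℕ, dv n ^ 2 * Real.exp (-(4 * Real.pi * (4 * Y ^ 2 / T) * n))) *
      (S.card / Y + S.card / G + S.card ^ 2 * Y / T + S.card ^ 2 * √(T₀ * Y) / T) := by
  classical
  obtain ⟨C1, hC1, hbd⟩ := blk_bound
  obtain ⟨C, hC, hgram⟩ := gram
  refine ⟨8 * C, by positivity, ?_⟩
  intro T Y G K T₀ S hY hT hK hG hGK hT0 hT0T hS hd hsep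
  have hTpos : 0 < T := by linarith
  have hYpos : 0 < Y := by linarith
  have hη : 0 < 4 * Y ^ 2 / T := by positivity
  obtain ⟨η, hηd⟩ : ∃ η : ℝ, η = 4 * Y ^ 2 / T := ⟨_, rfl⟩
  have hbd' : ∀ t ∈ S, ∀ x, ‖blk G t Y T x‖ ≤ C1 / Y := fun t ht x =>
    hbd T Y G t x hY hT (by linarith) (by linarith [(hS t ht).1]) (hS t ht).2
  let A : ℝ → ℝ → ℂ := fun t => if t ∈ S then blk G t Y T else 0
  have hA : ∀ t ∈ S, A t = blk G t Y T := fun t ht => by simp [A, ht]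
  have hA0 : ∀ t, t ∉ S → A t = 0 := fun t ht => by simp [A, ht]
  have hAm : ∀ t, Measurable (A t) := by
    intro t
    by_cases ht : t ∈ S
    · rw [hA t ht]; exact blk_meas (by linarith)
    · rw [hA0 t ht]; exact measurable_const
  have hAB : ∀ t x, ‖A t x‖ ≤ C1 / Y := by
    intro t x
    by_cases ht : t ∈ S
    · rw [hA t ht]; exact hbd' t ht x
    · rw [hA0 t ht, Pi.zero_apply, norm_zero]; positivity
  have hAs : ∀ t x, x ∉ Icc Y (2 * Y) → A t x = 0 := by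
    intro t x hx
    by_cases ht : t ∈ S
    · rw [hA t ht]; unfold blk; exact Set.indicator_of_notMem hx _
    · rw [hA0 t ht, Pi.zero_apply]
  obtain ⟨L, hLd⟩ : ∃ L : ℕ, L = ⌈Y⌉₊ := ⟨_, rfl⟩
  have hL1 : 2 * Y - Y ≤ L := by
    rw [hLd]; have := Nat.le_ceil Y; linarith
  have hL2 : (L : ℝ) ≤ T := by
    rw [hLd]; have := (Nat.ceil_lt_add_one hYpos.le).le; linarith
  -- the sum
  have hsum : HasSum (fun n : ℕ => gsa η n * ∫ x : ℝ, (∑ t ∈ S, A t x) * cexp (-(2 * Real.pi * I * n * x)))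
      (-∑ t ∈ S, LamH G t η (2 * Y) Y) := by
    have h1 : HasSum (fun n : ℕ => ∑ t ∈ S, gsa η n * ∫ x : ℝ, A t x * cexp (-(2 * Real.pi * I * n * x)))
        (∑ t ∈ S, -LamH G t η (2 * Y) Y) := by
      refine hasSum_sum fun t ht => ?_
      rw [hA t ht, hηd]
      exact gs_lam (by linarith) hTpos (hbd' t ht)
    rw [Finset.sum_neg_distrib] at h1
    have h2 : (fun n : ℕ => gsa η n * ∫ x : ℝ, (∑ t ∈ S, A t x) * cexp (-(2 * Real.pi * I * n * x)))
        = fun n : ℕ => ∑ t ∈ S, gsa η n * ∫ x : ℝ, A t x * cexp (-(2 * Real.pi * I * n * x)) := by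
      funext n
      rw [← Finset.mul_sum]
      congr 1
      rw [← integral_finsetSum S fun t _ => gs_integrable (hAm t) (hAB t) (hAs t) n]
      refine integral_congr_ae (Filter.Eventually.of_forall fun x => ?_)
      simp only
      rw [Finset.sum_mul]
    rw [h2]
    exact h1
  have hQ : ∀ F : Finset ℕ, ∑ n ∈ F, ‖∫ x : ℝ, (∑ t ∈ S, A t x) * cexp (-(2 * Real.pi * I * n * x))‖ ^ 2
      ≤ 8 * C * K * (1 + Real.log T) ^ 2 *
        (S.card / Y + S.card / G + S.card ^ 2 * Y / T + S.card ^ 2 * √(T₀ * Y) / T) := by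
    intro F
    refine (fold_sum S A hAm (C1 / Y) hAB Y (2 * Y) (by linarith) hAs F L hL1).trans ?_
    have hcongr : ∑ i ∈ S, ∑ j ∈ S, ∑ l ∈ Finset.Icc (-(L : ℤ)) L, ‖∫ x : ℝ, A i x * conj (A j (x + l))‖
        = ∑ i ∈ S, ∑ j ∈ S, ∑ l ∈ Finset.Icc (-(L : ℤ)) L,
          ‖∫ x : ℝ, blk G i Y T x * conj (blk G j Y T (x + l))‖ := by
      refine Finset.sum_congr rfl fun i hi => Finset.sum_congr rfl fun j hj => ?_
      rw [hA i hi, hA j hj]
    rw [hcongr]
    have hg : ∀ t ∈ S, ∀ t' ∈ S, ∀ l : ℤ, _ := fun t ht t' ht' l =>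
      hgram T Y G K t t' l hY hT hK hG hGK (hS t ht).1 (hS t ht).2 (hS t' ht').1 (hS t' ht').2
    exact gs_quad (B := fun t t' l => ‖∫ x : ℝ, blk G t Y T x * conj (blk G t' Y T (x + l))‖)
      hY hT hK hG hT0 hT0T hC hd hsep L hL2
      (fun t ht t' ht' l => (hg t ht t' ht' l).1)
      (fun t ht t' ht' hne => by
        have := (hg t ht t' ht' 0).2.1 rfl hne
        simpa using this)
      (fun t ht t' ht' l hl => (hg t ht t' ht' l).2.2.1 hl)
      (fun t ht t' ht' l hl h => (hg t ht t' ht' l).2.2.2 hl h)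
  have hQ0 : 0 ≤ 8 * C * K * (1 + Real.log T) ^ 2 *
        (S.card / Y + S.card / G + S.card ^ 2 * Y / T + S.card ^ 2 * √(T₀ * Y) / T) := by
    positivity
  have hD : HasSum (fun n => ‖gsa η n‖ ^ 2) (∑' n : ℕ, dv n ^ 2 * Real.exp (-(4 * Real.pi * (4 * Y ^ 2 / T) * n))) := by
    have h1 : (fun n => ‖gsa η n‖ ^ 2) = fun n : ℕ => dv n ^ 2 * Real.exp (-(4 * Real.pi * (4 * Y ^ 2 / T) * n)) := by
      funext n
      rw [gsa_norm, mul_pow, ← Real.exp_nat_mul, hηd]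
      congr 2
      push_cast
      ring
    rw [h1]
    exact (dv2_summable (c := 4 * Real.pi * (4 * Y ^ 2 / T)) (by positivity)).hasSum
  have := gs_cs hsum hD hQ0 hQ
  rw [norm_neg, hηd] at this
  calc _ ≤ _ := this
    _ = _ := by ring

end Pool.Agent.H15.HB
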