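import Pool.Agent.H15.HB.Defs

/-!
# HB-10  the change of variable  (project HB, MP_be4568)

`ψ = X - iη`, `X ≥ 1`, `0 < η ≤ X`.  `(2ψ+1)/(2ψ-1) = 1 + 2/(2ψ-1)` has positive real part.
`im kap = arg((2ψ+1) conj(2ψ-1)) = arg(4|ψ|² - 1 + 4iη) = arctan(4η/(4|ψ|²-1))`, `|ψ|² = X² + η²`; the argument `v` of arctan is
in `(0, 1)` and `arctan v ≤ v`, `arctan v ≥ v/2` for `0 ≤ v ≤ 1`.
`re kap = (1/2) log((4|ψ|²+4X+1)/(4|ψ|²-4X+1))`; `(1/2) log((1+v)/(1-v)) ≥ v` with `v = 4X/(4|ψ|²+1)`, and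
`(1/2) log(1+y) ≤ y/2` with `y = 8X/(4|ψ|²-4X+1) ≤ 8X/(2X-1)² ≤ 8/X`.
`‖amp‖ = 4π e^{-re kap/2}/|2ψ-1| ≤ 4π/(2X-1) ≤ 4π/X`.
-/

set_option autoImplicit false

open Complex Filter Topology MeasureTheory Set
open scoped ComplexConjugate

namespace Pool.Agent.H15.HB

variable {X η : ℝ}

theorem pt_re : (pt X η).re = X := by simp [pt]

theorem pt_im : (pt X η).im = -η := by simp [pt]

theorem pt_norm_sq : ‖pt X η‖ ^ 2 = X ^ 2 + η ^ 2 := by
  rw [Complex.sq_norm, Complex.normSq_apply, pt_re, pt_im]; ring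

theorem kap_num_re : (2 * pt X η + 1).re = 2 * X + 1 := by simp [pt_re]

theorem kap_num_im : (2 * pt X η + 1).im = -(2 * η) := by simp [pt_im]

theorem kap_den_re : (2 * pt X η - 1).re = 2 * X - 1 := by simp [pt_re]

theorem kap_den_im : (2 * pt X η - 1).im = -(2 * η) := by simp [pt_im]

theorem kap_den_normSq : Complex.normSq (2 * pt X η - 1) = 4 * (X ^ 2 + η ^ 2) - 4 * X + 1 := by
  rw [Complex.normSq_apply, kap_den_re, kap_den_im]; ring

theorem kap_num_normSq : Complex.normSq (2 * pt X η + 1) = 4 * (X ^ 2 + η ^ 2) + 4 * X + 1 := by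
  rw [Complex.normSq_apply, kap_num_re, kap_num_im]; ring

theorem kap_den_pos (hX : 1 ≤ X) : 0 < Complex.normSq (2 * pt X η - 1) := by
  rw [kap_den_normSq]; nlinarith [sq_nonneg η, sq_nonneg (2 * X - 1)]

theorem kap_num_pos (hX : 1 ≤ X) : 0 < Complex.normSq (2 * pt X η + 1) := by
  rw [kap_num_normSq]; nlinarith [sq_nonneg η, sq_nonneg (2 * X - 1)]

theorem kap_den_ne (hX : 1 ≤ X) : (2 * pt X η - 1) ≠ 0 := Complex.normSq_pos.1 (kap_den_pos hX)

theorem kap_num_ne (hX : 1 ≤ X) : (2 * pt X η + 1) ≠ 0 := Complex.normSq_pos.1 (kap_num_pos hX)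

theorem ratio_re : ((2 * pt X η + 1) / (2 * pt X η - 1)).re =
    (4 * (X ^ 2 + η ^ 2) - 1) / Complex.normSq (2 * pt X η - 1) := by
  rw [Complex.div_re, kap_num_re, kap_num_im, kap_den_re, kap_den_im, ← add_div]
  congr 1; ring

theorem ratio_im : ((2 * pt X η + 1) / (2 * pt X η - 1)).im =
    (4 * η) / Complex.normSq (2 * pt X η - 1) := by
  rw [Complex.div_im, kap_num_re, kap_num_im, kap_den_re, kap_den_im, ← sub_div]
  congr 1; ring

theorem ratio_re_pos (hX : 1 ≤ X) : 0 < ((2 * pt X η + 1) / (2 * pt X η - 1)).re := by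
  rw [ratio_re]
  exact div_pos (by nlinarith [sq_nonneg η]) (kap_den_pos hX)

theorem ratio_ne (hX : 1 ≤ X) : (2 * pt X η + 1) / (2 * pt X η - 1) ≠ 0 :=
  div_ne_zero (kap_num_ne hX) (kap_den_ne hX)

theorem kap_deriv (hX : 1 ≤ X) : HasDerivAt kap (kap' (pt X η)) (pt X η) := by
  have hn := kap_num_ne (η := η) hX
  have hd := kap_den_ne (η := η) hX
  have h1 : HasDerivAt (fun ψ : ℂ => 2 * ψ + 1) 2 (pt X η) := by
    simpa using ((hasDerivAt_id (pt X η)).const_mul (2 : ℂ)).add_const (1 : ℂ)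
  have h2 : HasDerivAt (fun ψ : ℂ => 2 * ψ - 1) 2 (pt X η) := by
    simpa using ((hasDerivAt_id (pt X η)).const_mul (2 : ℂ)).sub_const (1 : ℂ)
  have h3 := (h1.div h2 hd).clog (Or.inl (ratio_re_pos hX))
  refine h3.congr_deriv ?_
  have h4 : (4 * (pt X η) ^ 2 - 1) = (2 * pt X η + 1) * (2 * pt X η - 1) := by ring
  unfold kap'
  rw [h4]
  simp only [Pi.div_apply]
  field_simp
  ring

theorem exp_neg_kap (hX : 1 ≤ X) : cexp (-kap (pt X η)) = (2 * pt X η - 1) / (2 * pt X η + 1) := by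
  rw [Complex.exp_neg, kap, Complex.exp_log (ratio_ne hX), inv_div]

theorem kap_im_eq (hX : 1 ≤ X) : (kap (pt X η)).im = Real.arctan (4 * η / (4 * (X ^ 2 + η ^ 2) - 1)) := by
  have hr := ratio_re_pos (η := η) hX
  have habs := Complex.abs_arg_lt_pi_div_two_iff.2 (Or.inl hr)
  rw [abs_lt] at habs
  have ht := Complex.tan_arg ((2 * pt X η + 1) / (2 * pt X η - 1))
  have hd := kap_den_pos (η := η) hX
  rw [ratio_re, ratio_im, div_div_div_cancel_right₀ hd.ne'] at ht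
  rw [kap, Complex.log_im, ← ht, Real.arctan_tan habs.1 habs.2]

theorem kap_im_pos (hX : 1 ≤ X) (hη : 0 < η) : 0 < (kap (pt X η)).im := by
  rw [kap_im_eq hX]
  exact Real.arctan_pos.2 (div_pos (by linarith) (by nlinarith [sq_nonneg η]))

theorem kap_im_lt (hX : 1 ≤ X) (hη : 0 < η) : (kap (pt X η)).im < Real.pi / 2 := by
  rw [kap_im_eq hX]
  exact Real.arctan_lt_pi_div_two _

theorem arctan_le_self_of_nonneg {v : ℝ} (hv : 0 ≤ v) : Real.arctan v ≤ v := by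
  have h0 : 0 ≤ Real.arctan v := Real.arctan_nonneg.2 hv
  rcases h0.eq_or_lt with h | h
  · rw [← h]; exact hv
  · have := Real.lt_tan h (Real.arctan_lt_pi_div_two v)
    rw [Real.tan_arctan] at this
    exact this.le

theorem half_le_arctan {v : ℝ} (hv : 0 ≤ v) (hv1 : v ≤ 1) : v / 2 ≤ Real.arctan v := by
  have hpi := Real.pi_gt_three
  have hc := Real.one_sub_sq_div_two_le_cos (x := v / 2)
  have hc1 : 7 / 8 ≤ Real.cos (v / 2) := by nlinarith
  have hcpos : 0 < Real.cos (v / 2) := by linarith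
  have hs : Real.sin (v / 2) ≤ v / 2 := Real.sin_le (by linarith)
  have ht : Real.tan (v / 2) ≤ v := by
    rw [Real.tan_eq_sin_div_cos, div_le_iff₀ hcpos]
    nlinarith
  have h := Real.arctan_strictMono.monotone ht
  rwa [Real.arctan_tan (by linarith) (by linarith)] at h

theorem kap_im_le (hX : 1 ≤ X) (hη : 0 < η) : (kap (pt X η)).im ≤ 4 * η / (4 * X ^ 2 - 1) := by
  rw [kap_im_eq hX]
  have h1 : 0 < 4 * X ^ 2 - 1 := by nlinarith
  have h2 : 4 * X ^ 2 - 1 ≤ 4 * (X ^ 2 + η ^ 2) - 1 := by nlinarith [sq_nonneg η]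
  refine (arctan_le_self_of_nonneg (div_nonneg (by linarith) (by linarith))).trans ?_
  exact div_le_div_of_nonneg_left (by linarith) h1 h2

theorem kap_im_ge (hX : 1 ≤ X) (hη : 0 < η) (h : η ≤ X) : η / (2 * (X ^ 2 + η ^ 2)) ≤ (kap (pt X η)).im := by
  rw [kap_im_eq hX]
  have h1 : 0 < 4 * (X ^ 2 + η ^ 2) - 1 := by nlinarith [sq_nonneg η]
  have hv0 : 0 ≤ 4 * η / (4 * (X ^ 2 + η ^ 2) - 1) := div_nonneg (by linarith) h1.le
  have hv1 : 4 * η / (4 * (X ^ 2 + η ^ 2) - 1) ≤ 1 := by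
    rw [div_le_one h1]
    nlinarith [sq_nonneg (2 * η - 1)]
  refine le_trans ?_ (half_le_arctan hv0 hv1)
  rw [div_div, div_le_div_iff₀ (by nlinarith [sq_nonneg η]) (by linarith)]
  nlinarith

theorem kap_re_eq (hX : 1 ≤ X) : (kap (pt X η)).re =
    Real.log ((4 * (X ^ 2 + η ^ 2) + 4 * X + 1) / (4 * (X ^ 2 + η ^ 2) - 4 * X + 1)) / 2 := by
  have h1 : ‖(2 * pt X η + 1) / (2 * pt X η - 1)‖ ^ 2 =
      (4 * (X ^ 2 + η ^ 2) + 4 * X + 1) / (4 * (X ^ 2 + η ^ 2) - 4 * X + 1) := by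
    rw [norm_div, div_pow, Complex.sq_norm, Complex.sq_norm, kap_num_normSq, kap_den_normSq]
  rw [← h1, kap, Complex.log_re, Real.log_pow]
  push_cast; ring

theorem kap_re_ge (hX : 1 ≤ X) (hη : 0 < η) : X / (3 * (X ^ 2 + η ^ 2)) ≤ (kap (pt X η)).re := by
  have hd := kap_den_pos (η := η) hX
  have hn := kap_num_pos (η := η) hX
  rw [kap_den_normSq] at hd
  rw [kap_num_normSq] at hn
  rw [kap_re_eq hX]
  have h := Real.one_sub_inv_le_log_of_pos (div_pos hn hd)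
  rw [inv_div] at h
  have h2 : X / (3 * (X ^ 2 + η ^ 2)) ≤
      (1 - (4 * (X ^ 2 + η ^ 2) - 4 * X + 1) / (4 * (X ^ 2 + η ^ 2) + 4 * X + 1)) / 2 := by
    have h3 : (1 - (4 * (X ^ 2 + η ^ 2) - 4 * X + 1) / (4 * (X ^ 2 + η ^ 2) + 4 * X + 1)) / 2 =
        4 * X / (4 * (X ^ 2 + η ^ 2) + 4 * X + 1) := by
      field_simp
      ring
    rw [h3, div_le_div_iff₀ (by nlinarith [sq_nonneg η]) hn]
    nlinarith [sq_nonneg η, mul_nonneg (by linarith : (0:ℝ) ≤ X) (by linarith : (0:ℝ) ≤ X - 1),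
      mul_nonneg (by linarith : (0:ℝ) ≤ X) (sq_nonneg η)]
  linarith

theorem kap_re_le (hX : 1 ≤ X) (hη : 0 < η) : (kap (pt X η)).re ≤ 4 / X := by
  have hd := kap_den_pos (η := η) hX
  have hn := kap_num_pos (η := η) hX
  rw [kap_den_normSq] at hd
  rw [kap_num_normSq] at hn
  rw [kap_re_eq hX]
  have h := Real.log_le_sub_one_of_pos (div_pos hn hd)
  have h3 : (4 * (X ^ 2 + η ^ 2) + 4 * X + 1) / (4 * (X ^ 2 + η ^ 2) - 4 * X + 1) - 1 =
        8 * X / (4 * (X ^ 2 + η ^ 2) - 4 * X + 1) := by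
    rw [div_sub_one hd.ne']
    congr 1; ring
  have h4 : 8 * X / (4 * (X ^ 2 + η ^ 2) - 4 * X + 1) ≤ 8 / X := by
    rw [div_le_div_iff₀ hd (by linarith)]
    nlinarith [sq_nonneg η, mul_nonneg (by linarith : (0:ℝ) ≤ X - 1) (by linarith : (0:ℝ) ≤ 3 * X - 1)]
  have h5 : (8 : ℝ) / X / 2 = 4 / X := by ring
  rw [← h5]
  linarith

theorem amp_le (hX : 1 ≤ X) (hη : 0 < η) : ‖amp (pt X η)‖ ≤ 13 / X := by
  have hd : X ≤ ‖2 * pt X η - 1‖ := by
    have h := Complex.abs_re_le_norm (2 * pt X η - 1)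
    rw [kap_den_re] at h
    have h2 := le_abs_self (2 * X - 1)
    linarith
  have hre : 0 ≤ (kap (pt X η)).re :=
    le_trans (div_nonneg (by linarith) (by nlinarith [sq_nonneg η])) (kap_re_ge hX hη)
  have he : ‖cexp (-(kap (pt X η)) / 2)‖ ≤ 1 := by
    rw [Complex.norm_exp]
    have h1 : (-(kap (pt X η)) / 2).re = -((kap (pt X η)).re) / 2 := by
      rw [show (-(kap (pt X η)) / 2 : ℂ) = -(kap (pt X η)) / ((2 : ℝ) : ℂ) by norm_num, Complex.div_ofReal_re,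
        Complex.neg_re]
    rw [h1]
    exact Real.exp_le_one_iff.2 (by linarith)
  have hpi : Real.pi ≤ 3.15 := Real.pi_lt_d2.le
  have hn : ‖-(4 * (Real.pi : ℂ))‖ = 4 * Real.pi := by
    rw [norm_neg, norm_mul, Complex.norm_real, Real.norm_of_nonneg Real.pi_pos.le]
    norm_num
  unfold amp
  rw [norm_div, norm_mul, hn]
  refine div_le_div₀ (by norm_num) ?_ (by linarith) hd
  calc 4 * Real.pi * ‖cexp (-(kap (pt X η)) / 2)‖ ≤ 4 * Real.pi * 1 := by
        exact mul_le_mul_of_nonneg_left he (by positivity)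
    _ ≤ 13 := by linarith

theorem kap'_le (hX : 1 ≤ X) : ‖kap' (pt X η)‖ ≤ 4 / X ^ 2 := by
  have h1 : (4 * (pt X η) ^ 2 - 1) = (2 * pt X η + 1) * (2 * pt X η - 1) := by ring
  have hd : X ≤ ‖2 * pt X η - 1‖ := by
    have h := Complex.abs_re_le_norm (2 * pt X η - 1)
    rw [kap_den_re] at h
    have h2 := le_abs_self (2 * X - 1)
    linarith
  have hn : X ≤ ‖2 * pt X η + 1‖ := by
    have h := Complex.abs_re_le_norm (2 * pt X η + 1)
    rw [kap_num_re] at h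
    have h2 := le_abs_self (2 * X + 1)
    linarith
  unfold kap'
  rw [h1, norm_div, norm_mul, norm_neg]
  refine div_le_div₀ (by norm_num) (by norm_num) (by positivity) ?_
  rw [sq]
  exact mul_le_mul hn hd (by linarith) (by linarith)

/-- the exponent on the horizontal lines used: `t im kap ≤ 11` -/
theorem exponent_le {t T : ℝ} (hX : 1 ≤ X) (hη : 0 < η) (ht0 : 0 ≤ t) (ht : t ≤ 2 * T) (h : η * T ≤ 4 * X ^ 2) :
    t * (kap (pt X η)).im ≤ 11 := by
  have h1 : 0 < 4 * X ^ 2 - 1 := by nlinarith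
  have h2 := kap_im_le hX hη
  calc t * (kap (pt X η)).im ≤ t * (4 * η / (4 * X ^ 2 - 1)) := mul_le_mul_of_nonneg_left h2 ht0
    _ ≤ (2 * T) * (4 * η / (4 * X ^ 2 - 1)) :=
        mul_le_mul_of_nonneg_right ht (div_nonneg (by linarith) h1.le)
    _ = (8 * (η * T)) / (4 * X ^ 2 - 1) := by ring
    _ ≤ 11 := by
        rw [div_le_iff₀ h1]
        nlinarith

end Pool.Agent.H15.HB
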