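import Pool.Agent.H15.HB.Wt
import Pool.Agent.H15.HB.Gam
import Pool.Agent.H15.SC.MSrep
import Pool.Agent.H15.SC.Strip

/-!
# HB-22  pointwise bound by a local mean  (project HB, MP_be4568)

`c = ε/8`.  Let `ζ₁ s = (s-1) ζ s` (`riemannZeta₁`, entire, polynomial growth in strips by `SC.H_growth (SC.zetaD_isSel 1)`).
Step 1: `SC.residue_formula` with `N w = ζ₁(1/2 + it + w)²`, lines `re w = ± c`:
`2π |ζ₁(1/2+it)|² ≤ ∑_± ∫ |ζ₁(1/2 ± c + i(t+v))|² |e^{(±c+iv)²}|/c dv`, with `|e^{(c+iv)²}| ≤ e^{c²} e^{-v²}`.  Functional equation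
(`riemannZeta_one_sub`, `gamma_strip`, `|cos(πs/2)| ≤ e^{π|im s|/2}`): `|ζ(1/2 - c + iu)| ≤ C (1+|u|)^{c} |ζ(1/2 + c - iu)|`, and
`|ζ(1/2+c-iu)| = |ζ(1/2+c+iu)|`.  Dividing by `|s-1|²` (`|s + w - 1| ≤ |s-1| (1 + 2|w|)`, `1+|u| ≤ (1+|t|)(1+|v|)`):
`z2 t ≤ C |t|^{2c} ∫ |ζ(1/2+c+i(t+v))|² (1+|v|)^3 e^{-v²} dv` (the pole is harmless as `ζ₁` is used; near it the integrand must be kept
as `|ζ₁|²/|t|²`).
Step 2: the same for `ζ₁(1/2 + c + iu)²`, `N w = ζ₁(1/2 + c + iu + w)²`, lines `re w = -c` (the critical line) and `re w = 1` (where `ζ` is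
bounded).
Combine: convolution of `(1+|v|)^k e^{-v²}` with itself is `≤ C e^{-v²/2} · ...`: keep enough room, e.g. `(1+|v|)^k e^{-v²} ≤ C e^{-7v²/8·...}`;
only the final weight `e^{-v²/4}` is needed.
-/

set_option autoImplicit false

open Complex Filter Topology MeasureTheory Set
open scoped ComplexConjugate

namespace Pool.Agent.H15.HB

/-- polynomial times Gaussian -/
theorem lp_gauss (n : ℕ) (c : ℝ) (hc : 0 < c) : ∃ M : ℝ, 0 ≤ M ∧ ∀ v : ℝ,
    (1 + |v|) ^ n * Real.exp (-(c * v ^ 2)) ≤ M * Real.exp (-(c / 2 * v ^ 2)) := by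
  refine ⟨n.factorial * Real.exp (1 + 1 / (2 * c)), by positivity, fun v => ?_⟩
  have h1 : (1 + |v|) ^ n ≤ (n.factorial : ℝ) * Real.exp (1 + |v|) := by
    have h5 := Real.pow_div_factorial_le_exp (x := 1 + |v|) (by positivity) n
    rw [div_le_iff₀ (by positivity)] at h5
    linarith
  have h2 : |v| ≤ 1 / (2 * c) + c / 2 * v ^ 2 := by
    have h3 : 0 ≤ (c * |v| - 1) ^ 2 := sq_nonneg _
    have h4 : 2 * c * |v| ≤ 1 + c ^ 2 * v ^ 2 := by
      have : |v| ^ 2 = v ^ 2 := sq_abs v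
      nlinarith
    have h5 : 1 / (2 * c) + c / 2 * v ^ 2 = (1 + c ^ 2 * v ^ 2) / (2 * c) := by
      field_simp
    rw [h5, le_div_iff₀ (by positivity)]
    linarith
  calc (1 + |v|) ^ n * Real.exp (-(c * v ^ 2))
      ≤ ((n.factorial : ℝ) * Real.exp (1 + |v|)) * Real.exp (-(c * v ^ 2)) :=
        mul_le_mul_of_nonneg_right h1 (Real.exp_pos _).le
    _ = (n.factorial : ℝ) * Real.exp (1 + |v| + -(c * v ^ 2)) := by
        rw [mul_assoc, ← Real.exp_add]
    _ ≤ (n.factorial : ℝ) * Real.exp (1 + 1 / (2 * c) + -(c / 2 * v ^ 2)) := by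
        refine mul_le_mul_of_nonneg_left (Real.exp_le_exp.2 ?_) (by positivity)
        linarith
    _ = _ := by rw [Real.exp_add]; ring

theorem lp_int {g : ℝ → ℝ} (hg : Continuous g) (K : ℝ) (n : ℕ)
    (h : ∀ v, |g v| ≤ K * (1 + |v|) ^ n) (c : ℝ) (hc : 0 < c) :
    Integrable (fun v : ℝ => g v * Real.exp (-(c * v ^ 2))) := by
  obtain ⟨M, hM, hM'⟩ := lp_gauss n c hc
  have hK : 0 ≤ K := by
    have := (abs_nonneg (g 0)).trans (h 0)
    simpa using this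
  have hi : Integrable (fun v : ℝ => K * M * Real.exp (-(c / 2) * v ^ 2)) :=
    (integrable_exp_neg_mul_sq (by positivity)).const_mul _
  refine hi.mono' (by fun_prop) (Filter.Eventually.of_forall fun v => ?_)
  rw [norm_mul, Real.norm_of_nonneg (Real.exp_pos _).le, Real.norm_eq_abs]
  calc |g v| * Real.exp (-(c * v ^ 2)) ≤ K * (1 + |v|) ^ n * Real.exp (-(c * v ^ 2)) :=
        mul_le_mul_of_nonneg_right (h v) (Real.exp_pos _).le
    _ = K * ((1 + |v|) ^ n * Real.exp (-(c * v ^ 2))) := by ring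
    _ ≤ K * (M * Real.exp (-(c / 2 * v ^ 2))) := mul_le_mul_of_nonneg_left (hM' v) hK
    _ = _ := by rw [neg_mul]; ring

theorem lp_tri (u v : ℝ) : 1 + |u + v| ≤ (1 + |u|) * (1 + |v|) := by
  have := abs_add_le u v
  nlinarith [abs_nonneg u, abs_nonneg v, mul_nonneg (abs_nonneg u) (abs_nonneg v)]

theorem lp_exp_norm (c v : ℝ) : ‖cexp ((SC.ln c v) ^ 2)‖ = Real.exp (c ^ 2) * Real.exp (-(v ^ 2)) := by
  rw [Complex.norm_exp, ← Real.exp_add]
  congr 1
  rw [sq, mul_re, SC.ln_re, SC.ln_im]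
  ring

theorem lp_ln_norm (c v : ℝ) : |c| ≤ ‖SC.ln c v‖ := by
  have := abs_re_le_norm (SC.ln c v)
  rwa [SC.ln_re] at this

theorem lp_ln_add (a u c v : ℝ) : SC.ln a u + SC.ln c v = SC.ln (a + c) (u + v) := by
  unfold SC.ln
  push_cast
  ring

/-- growth hypothesis -/
def LG (f : ℂ → ℂ) (K : ℝ) : Prop :=
  ∀ s : ℂ, -1 ≤ s.re → s.re ≤ 2 → ‖f s‖ ≤ K * (1 + |s.im|) ^ 20

theorem LG.line {f : ℂ → ℂ} {K : ℝ} (hK : 0 ≤ K) (h : LG f K) {c : ℝ} (h1 : -1 ≤ c) (h2 : c ≤ 2)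
    (u v : ℝ) : ‖f (SC.ln c (u + v))‖ ≤ K * (1 + |u|) ^ 20 * (1 + |v|) ^ 20 := by
  have h3 := h (SC.ln c (u + v)) (by rw [SC.ln_re]; exact h1) (by rw [SC.ln_re]; exact h2)
  rw [SC.ln_im] at h3
  refine h3.trans ?_
  rw [mul_assoc, ← mul_pow]
  exact mul_le_mul_of_nonneg_left (pow_le_pow_left₀ (by positivity) (lp_tri u v) 20) hK

theorem lp_cont {f : ℂ → ℂ} (hf : Differentiable ℂ f) (c u : ℝ) :
    Continuous fun v : ℝ => ‖f (SC.ln c (u + v))‖ := by
  have h1 : Continuous fun v : ℝ => SC.ln c (u + v) :=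
    (SC.MSrep.ln_continuous c).comp (by fun_prop)
  exact (hf.continuous.comp h1).norm

theorem lp_line_int {f : ℂ → ℂ} (hf : Differentiable ℂ f) {K : ℝ} (hK : 0 ≤ K) (h : LG f K) {c : ℝ}
    (h1 : -1 ≤ c) (h2 : c ≤ 2) (u a : ℝ) (ha : 0 < a) :
    Integrable fun v : ℝ => ‖f (SC.ln c (u + v))‖ * Real.exp (-(a * v ^ 2)) := by
  refine lp_int (lp_cont hf c u) (K * (1 + |u|) ^ 20) 20 (fun v => ?_) a ha
  rw [abs_of_nonneg (norm_nonneg _)]
  exact h.line hK h1 h2 u v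

/-- bound on a line to the right of the critical line -/
theorem lp_side {f : ℂ → ℂ} (hf : Differentiable ℂ f) {K : ℝ} (hK : 0 ≤ K) (h : LG f K) (δ : ℝ)
    (hδ : 0 < δ) (hδ1 : δ ≤ 1/2) : ∃ C : ℝ, 0 ≤ C ∧ ∀ u : ℝ, ‖f (SC.ln (1/2 + δ) u)‖ ≤
      C * (1 + (1 + |u|) ^ (20 * δ) * ∫ v : ℝ, ‖f (SC.ln (1/2) (u + v))‖ * Real.exp (-(v ^ 2))) := by
  set M0 : ℝ := ∫ v : ℝ, (1 + |v|) ^ 20 * Real.exp (-(1 * v ^ 2)) with hM0
  have hM0n : 0 ≤ M0 := integral_nonneg fun v => by positivity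
  refine ⟨K * Real.exp 1 * M0 + Real.exp (δ ^ 2) / δ, by positivity, fun u => ?_⟩
  set I0 : ℝ := ∫ v : ℝ, ‖f (SC.ln (1/2) (u + v))‖ * Real.exp (-(v ^ 2)) with hI0
  have hI0n : 0 ≤ I0 := integral_nonneg fun v => by positivity
  set L : ℝ := Real.log (1 + |u|) with hL
  have hu : (1 : ℝ) ≤ 1 + |u| := by linarith [abs_nonneg u]
  have hu0 : (0 : ℝ) < 1 + |u| := by linarith
  have hL0 : 0 ≤ L := Real.log_nonneg hu
  have hexpL : Real.exp L = 1 + |u| := Real.exp_log hu0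
  let N : ℂ → ℂ := fun w => f (SC.ln (1/2 + δ) u + w) * cexp (-(20 * (L : ℂ)) * w)
  have hN : Differentiable ℂ N := (hf.comp (by fun_prop)).mul (by fun_prop)
  have hNn : ∀ c v : ℝ, ‖N (SC.ln c v)‖ = ‖f (SC.ln (1/2 + δ + c) (u + v))‖ *
      Real.exp (-(20 * L * c)) := by
    intro c v
    simp only [N]
    rw [norm_mul, lp_ln_add, Complex.norm_exp]
    congr 2
    simp [SC.ln]
  have hPB : SC.MSrep.PB (-δ) 1 N := by
    refine ⟨(20 : ℕ), K * (1 + |u|) ^ 20 * Real.exp (20 * L * δ), by positivity, by positivity,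
      fun w ha hb => ?_⟩
    have hw : w = SC.ln w.re w.im := by
      unfold SC.ln
      exact (Complex.re_add_im w).symm
    rw [hw, hNn, SC.ln_im, Real.rpow_natCast]
    have h1 := h.line hK (c := 1/2 + δ + w.re) (by linarith) (by linarith) u w.im
    have h2 : Real.exp (-(20 * L * w.re)) ≤ Real.exp (20 * L * δ) := by
      apply Real.exp_le_exp.2
      nlinarith
    calc _ ≤ (K * (1 + |u|) ^ 20 * (1 + |w.im|) ^ 20) * Real.exp (20 * L * δ) :=
          mul_le_mul h1 h2 (Real.exp_pos _).le (by positivity)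
      _ = _ := by ring
  have hres := SC.MSrep.residue_formula N hN (by linarith : -δ < 0) one_pos hPB
  have hN0 : N 0 = f (SC.ln (1/2 + δ) u) := by
    simp [N]
  have hA : ‖∫ v : ℝ, N (SC.ln 1 v) * cexp ((SC.ln 1 v) ^ 2) / SC.ln 1 v‖ ≤
      K * Real.exp 1 * M0 := by
    have hi : Integrable fun v : ℝ => K * Real.exp 1 * ((1 + |v|) ^ 20 * Real.exp (-(1 * v ^ 2))) := by
      refine (lp_int (g := fun v => (1 + |v|) ^ 20) (by fun_prop) 1 20 (fun v => ?_) 1 one_pos).const_mul _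
      rw [abs_of_nonneg (by positivity), one_mul]
    have h1 := norm_integral_le_of_norm_le hi
      (f := fun v : ℝ => N (SC.ln 1 v) * cexp ((SC.ln 1 v) ^ 2) / SC.ln 1 v) (μ := volume)
      (Filter.Eventually.of_forall fun v => ?_)
    · rw [integral_const_mul] at h1
      exact h1
    · beta_reduce
      rw [norm_div, norm_mul, hNn, lp_exp_norm]
      have h2 := h.line hK (c := 1/2 + δ + 1) (by linarith) (by linarith) u v
      have h3 : (1 : ℝ) ≤ ‖SC.ln 1 v‖ := by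
        have := lp_ln_norm 1 v
        rwa [abs_one] at this
      have h4 : Real.exp (-(20 * L * 1)) * (1 + |u|) ^ 20 = 1 := by
        rw [← hexpL, ← Real.exp_nat_mul, ← Real.exp_add]
        push_cast
        rw [show -(20 * L * 1) + 20 * L = 0 by ring, Real.exp_zero]
      calc ‖f (SC.ln (1/2 + δ + 1) (u + v))‖ * Real.exp (-(20 * L * 1)) *
            (Real.exp (1 ^ 2) * Real.exp (-(v ^ 2))) / ‖SC.ln 1 v‖
          ≤ ‖f (SC.ln (1/2 + δ + 1) (u + v))‖ * Real.exp (-(20 * L * 1)) *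
            (Real.exp (1 ^ 2) * Real.exp (-(v ^ 2))) := div_le_self (by positivity) h3
        _ ≤ (K * (1 + |u|) ^ 20 * (1 + |v|) ^ 20) * Real.exp (-(20 * L * 1)) *
            (Real.exp (1 ^ 2) * Real.exp (-(v ^ 2))) := by gcongr
        _ = K * (Real.exp (-(20 * L * 1)) * (1 + |u|) ^ 20) * (1 + |v|) ^ 20 *
            (Real.exp (1 ^ 2) * Real.exp (-(v ^ 2))) := by ring
        _ = _ := by rw [h4, one_pow, one_mul]; ring
  have hB : ‖∫ v : ℝ, N (SC.ln (-δ) v) * cexp ((SC.ln (-δ) v) ^ 2) / SC.ln (-δ) v‖ ≤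
      Real.exp (δ ^ 2) / δ * ((1 + |u|) ^ (20 * δ) * I0) := by
    have hi : Integrable fun v : ℝ => Real.exp (δ ^ 2) / δ * (1 + |u|) ^ (20 * δ) *
        (‖f (SC.ln (1/2) (u + v))‖ * Real.exp (-(v ^ 2))) := by
      have := lp_line_int hf hK h (c := 1/2) (by norm_num) (by norm_num) u 1 one_pos
      simp only [one_mul] at this
      exact this.const_mul _
    have h1 := norm_integral_le_of_norm_le hi
      (f := fun v : ℝ => N (SC.ln (-δ) v) * cexp ((SC.ln (-δ) v) ^ 2) / SC.ln (-δ) v) (μ := volume)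
      (Filter.Eventually.of_forall fun v => ?_)
    · rw [integral_const_mul, mul_assoc] at h1
      exact h1
    · beta_reduce
      rw [norm_div, norm_mul, hNn, lp_exp_norm]
      have h3 : δ ≤ ‖SC.ln (-δ) v‖ := by
        have := lp_ln_norm (-δ) v
        rwa [abs_neg, abs_of_pos hδ] at this
      have h4 : Real.exp (-(20 * L * -δ)) = (1 + |u|) ^ (20 * δ) := by
        rw [Real.rpow_def_of_pos hu0]
        congr 1
        ring
      have h5 : 1/2 + δ + -δ = 1/2 := by ring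
      rw [h4, h5, neg_sq]
      calc ‖f (SC.ln (1/2) (u + v))‖ * (1 + |u|) ^ (20 * δ) *
            (Real.exp (δ ^ 2) * Real.exp (-(v ^ 2))) / ‖SC.ln (-δ) v‖
          ≤ ‖f (SC.ln (1/2) (u + v))‖ * (1 + |u|) ^ (20 * δ) *
            (Real.exp (δ ^ 2) * Real.exp (-(v ^ 2))) / δ :=
            div_le_div_of_nonneg_left (by positivity) hδ h3
        _ = _ := by ring
  have h2pi : (1 : ℝ) ≤ 2 * Real.pi := by linarith [Real.pi_gt_three]
  have hfin : ‖f (SC.ln (1/2 + δ) u)‖ ≤ K * Real.exp 1 * M0 +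
      Real.exp (δ ^ 2) / δ * ((1 + |u|) ^ (20 * δ) * I0) := by
    have h1 : ‖2 * (Real.pi : ℂ) * N 0‖ = 2 * Real.pi * ‖f (SC.ln (1/2 + δ) u)‖ := by
      rw [hN0, norm_mul, norm_mul, Complex.norm_real, Real.norm_of_nonneg Real.pi_pos.le]
      norm_num
    have h2 := norm_sub_le (∫ v : ℝ, N (SC.ln 1 v) * cexp ((SC.ln 1 v) ^ 2) / SC.ln 1 v)
      (∫ v : ℝ, N (SC.ln (-δ) v) * cexp ((SC.ln (-δ) v) ^ 2) / SC.ln (-δ) v)
    rw [hres, h1] at h2
    nlinarith [norm_nonneg (f (SC.ln (1/2 + δ) u))]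
  have hx : 0 ≤ (1 + |u|) ^ (20 * δ) * I0 := by positivity
  calc _ ≤ _ := hfin
    _ ≤ _ := by
      have h1 : 0 ≤ K * Real.exp 1 * M0 := by positivity
      have h2 : 0 ≤ Real.exp (δ ^ 2) / δ := by positivity
      nlinarith [mul_nonneg h1 hx]

/-- both sides -/
theorem lp_both {f : ℂ → ℂ} (hf : Differentiable ℂ f) {K : ℝ} (hK : 0 ≤ K) (h : LG f K) (δ : ℝ)
    (hδ : 0 < δ) (hδ1 : δ ≤ 1/2) : ∃ C : ℝ, 0 ≤ C ∧ ∀ c : ℝ, (c = δ ∨ c = -δ) → ∀ u : ℝ,
      ‖f (SC.ln (1/2 + c) u)‖ ≤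
      C * (1 + (1 + |u|) ^ (20 * δ) * ∫ v : ℝ, ‖f (SC.ln (1/2) (u + v))‖ * Real.exp (-(v ^ 2))) := by
  obtain ⟨C1, hC1, h1⟩ := lp_side hf hK h δ hδ hδ1
  have hf2 : Differentiable ℂ fun s => f (1 - s) := hf.comp (by fun_prop)
  have h' : LG (fun s => f (1 - s)) K := by
    intro s hs1 hs2
    have := h (1 - s) (by simp; linarith) (by simp; linarith)
    simpa using this
  obtain ⟨C2, hC2, h2⟩ := lp_side hf2 hK h' δ hδ hδ1
  refine ⟨C1 + C2, by positivity, ?_⟩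
  rintro c hc u
  set I0 : ℝ := ∫ v : ℝ, ‖f (SC.ln (1/2) (u + v))‖ * Real.exp (-(v ^ 2)) with hI0
  have hI0n : 0 ≤ I0 := integral_nonneg fun v => by positivity
  have hx : 0 ≤ 1 + (1 + |u|) ^ (20 * δ) * I0 := by positivity
  rcases hc with rfl | rfl
  · refine (h1 u).trans ?_
    exact mul_le_mul_of_nonneg_right (by linarith) hx
  · have h3 := h2 (-u)
    have e1 : (1 : ℂ) - SC.ln (1/2 + δ) (-u) = SC.ln (1/2 + -δ) u := by
      unfold SC.ln
      push_cast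
      ring
    have e2 : ∫ v : ℝ, ‖f (1 - SC.ln (1/2) (-u + v))‖ * Real.exp (-(v ^ 2)) = I0 := by
      rw [hI0, ← integral_neg_eq_self]
      refine integral_congr_ae (Filter.Eventually.of_forall fun v => ?_)
      beta_reduce
      rw [neg_sq]
      congr 3
      unfold SC.ln
      push_cast
      ring
    simp only [e1, abs_neg, e2] at h3
    refine h3.trans ?_
    exact mul_le_mul_of_nonneg_right (by linarith) hx

/-- bound on the critical line by a local mean -/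
theorem lp_main {f : ℂ → ℂ} (hf : Differentiable ℂ f) {K : ℝ} (hK : 0 ≤ K) (h : LG f K) (δ : ℝ)
    (hδ : 0 < δ) (hδ1 : δ ≤ 1/2) : ∃ C : ℝ, 0 ≤ C ∧ ∀ t : ℝ, ‖f (SC.ln (1/2) t)‖ ≤
      C * (1 + (1 + |t|) ^ (20 * δ) *
        ∫ y : ℝ, ‖f (SC.ln (1/2) (t + y))‖ * Real.exp (-(3/8 * y ^ 2))) := by
  obtain ⟨C, hC, hb⟩ := lp_both hf hK h δ hδ hδ1
  set M1 : ℝ := ∫ v : ℝ, (1 + |v|) ^ 10 * Real.exp (-(1/4 * v ^ 2)) with hM1
  have hM1n : 0 ≤ M1 := integral_nonneg fun v => by positivity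
  have hM1i : Integrable fun v : ℝ => (1 + |v|) ^ 10 * Real.exp (-(1/4 * v ^ 2)) := by
    refine lp_int (g := fun v => (1 + |v|) ^ 10) (by fun_prop) 1 10 (fun v => ?_) (1/4) (by norm_num)
    rw [abs_of_nonneg (by positivity), one_mul]
  refine ⟨2 * (Real.exp (δ ^ 2) / δ * (C * M1)), by positivity, fun t => ?_⟩
  set J : ℝ := ∫ y : ℝ, ‖f (SC.ln (1/2) (t + y))‖ * Real.exp (-(3/8 * y ^ 2)) with hJ
  have hJn : 0 ≤ J := integral_nonneg fun v => by positivity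
  have ht : (1 : ℝ) ≤ 1 + |t| := by linarith [abs_nonneg t]
  have hJi : Integrable fun y : ℝ => ‖f (SC.ln (1/2) (t + y))‖ * Real.exp (-(3/8 * y ^ 2)) :=
    lp_line_int hf hK h (c := 1/2) (by norm_num) (by norm_num) t (3/8) (by norm_num)
  -- the inner integral
  have hconv : ∀ v : ℝ, Real.exp (-(v ^ 2)) *
      ∫ x : ℝ, ‖f (SC.ln (1/2) (t + v + x))‖ * Real.exp (-(x ^ 2)) ≤ Real.exp (-(1/4 * v ^ 2)) * J := by
    intro v
    have e1 : ∫ x : ℝ, ‖f (SC.ln (1/2) (t + v + x))‖ * Real.exp (-(x ^ 2)) =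
        ∫ y : ℝ, ‖f (SC.ln (1/2) (t + y))‖ * Real.exp (-((y - v) ^ 2)) := by
      rw [← integral_add_right_eq_self (fun y : ℝ => ‖f (SC.ln (1/2) (t + y))‖ *
        Real.exp (-((y - v) ^ 2))) v]
      refine integral_congr_ae (Filter.Eventually.of_forall fun x => ?_)
      beta_reduce
      rw [add_sub_cancel_right, add_assoc, add_comm v x]
    rw [e1, ← integral_const_mul, ← integral_const_mul]
    refine integral_mono_of_nonneg (Filter.Eventually.of_forall fun y => by positivity)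
      (hJi.const_mul _) (Filter.Eventually.of_forall fun y => ?_)
    beta_reduce
    have e2 : Real.exp (-(v ^ 2)) * Real.exp (-((y - v) ^ 2)) ≤
        Real.exp (-(1/4 * v ^ 2)) * Real.exp (-(3/8 * y ^ 2)) := by
      rw [← Real.exp_add, ← Real.exp_add]
      apply Real.exp_le_exp.2
      nlinarith [sq_nonneg (y - 2 * v), sq_nonneg (y - v)]
    calc Real.exp (-(v ^ 2)) * (‖f (SC.ln (1/2) (t + y))‖ * Real.exp (-((y - v) ^ 2)))
        = ‖f (SC.ln (1/2) (t + y))‖ * (Real.exp (-(v ^ 2)) * Real.exp (-((y - v) ^ 2))) := by ring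
      _ ≤ ‖f (SC.ln (1/2) (t + y))‖ * (Real.exp (-(1/4 * v ^ 2)) * Real.exp (-(3/8 * y ^ 2))) :=
          mul_le_mul_of_nonneg_left e2 (norm_nonneg _)
      _ = _ := by ring
  have hpt : ∀ c : ℝ, (c = δ ∨ c = -δ) → ∀ v : ℝ,
      ‖f (SC.ln (1/2 + c) (t + v))‖ * Real.exp (-(v ^ 2)) ≤
        C * (1 + (1 + |t|) ^ (20 * δ) * J) * ((1 + |v|) ^ 10 * Real.exp (-(1/4 * v ^ 2))) := by
    intro c hc v
    have h1 := hb c hc (t + v)
    have h2 := hconv v
    have hv : (1 : ℝ) ≤ 1 + |v| := by linarith [abs_nonneg v]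
    have h3 : (1 + |t + v|) ^ (20 * δ) ≤ (1 + |t|) ^ (20 * δ) * (1 + |v|) ^ 10 := by
      calc (1 + |t + v|) ^ (20 * δ) ≤ ((1 + |t|) * (1 + |v|)) ^ (20 * δ) :=
            Real.rpow_le_rpow (by positivity) (lp_tri t v) (by positivity)
        _ = (1 + |t|) ^ (20 * δ) * (1 + |v|) ^ (20 * δ) :=
            Real.mul_rpow (by positivity) (by positivity)
        _ ≤ (1 + |t|) ^ (20 * δ) * (1 + |v|) ^ 10 := by
            refine mul_le_mul_of_nonneg_left ?_ (by positivity)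
            rw [← Real.rpow_natCast]
            apply Real.rpow_le_rpow_of_exponent_le hv
            push_cast
            linarith
    have h4 : Real.exp (-(v ^ 2)) ≤ (1 + |v|) ^ 10 * Real.exp (-(1/4 * v ^ 2)) := by
      have h5 : (1 : ℝ) ≤ (1 + |v|) ^ 10 := one_le_pow₀ hv
      have h6 : Real.exp (-(v ^ 2)) ≤ Real.exp (-(1/4 * v ^ 2)) := by
        apply Real.exp_le_exp.2
        nlinarith [sq_nonneg v]
      nlinarith [Real.exp_pos (-(1/4 * v ^ 2))]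
    set I1 : ℝ := ∫ x : ℝ, ‖f (SC.ln (1/2) (t + v + x))‖ * Real.exp (-(x ^ 2)) with hI1
    have hI1n : 0 ≤ I1 := integral_nonneg fun v => by positivity
    calc ‖f (SC.ln (1/2 + c) (t + v))‖ * Real.exp (-(v ^ 2))
        ≤ (C * (1 + (1 + |t + v|) ^ (20 * δ) * I1)) * Real.exp (-(v ^ 2)) :=
          mul_le_mul_of_nonneg_right h1 (Real.exp_pos _).le
      _ = C * (Real.exp (-(v ^ 2)) + (1 + |t + v|) ^ (20 * δ) * (Real.exp (-(v ^ 2)) * I1)) := by ring
      _ ≤ C * ((1 + |v|) ^ 10 * Real.exp (-(1/4 * v ^ 2)) +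
            ((1 + |t|) ^ (20 * δ) * (1 + |v|) ^ 10) * (Real.exp (-(1/4 * v ^ 2)) * J)) := by
          refine mul_le_mul_of_nonneg_left (add_le_add h4 ?_) hC
          exact mul_le_mul h3 h2 (by positivity) (by positivity)
      _ = _ := by ring
  let N : ℂ → ℂ := fun w => f (SC.ln (1/2) t + w)
  have hN : Differentiable ℂ N := hf.comp (by fun_prop)
  have hPB : SC.MSrep.PB (-δ) δ N := by
    refine ⟨(20 : ℕ), K * (1 + |t|) ^ 20, by positivity, by positivity, fun w ha hb => ?_⟩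
    have hw : w = SC.ln w.re w.im := by
      unfold SC.ln
      exact (Complex.re_add_im w).symm
    rw [Real.rpow_natCast]
    simp only [N]
    rw [hw, lp_ln_add, SC.ln_im]
    exact h.line hK (by linarith) (by linarith) t w.im
  have hres := SC.MSrep.residue_formula N hN (by linarith : -δ < 0) hδ hPB
  have hN0 : N 0 = f (SC.ln (1/2) t) := by
    simp [N]
  have hside : ∀ c : ℝ, (c = δ ∨ c = -δ) →
      ‖∫ v : ℝ, N (SC.ln c v) * cexp ((SC.ln c v) ^ 2) / SC.ln c v‖ ≤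
        Real.exp (δ ^ 2) / δ * (C * M1) * (1 + (1 + |t|) ^ (20 * δ) * J) := by
    intro c hc
    have hc2 : c ^ 2 = δ ^ 2 := by rcases hc with rfl | rfl <;> ring
    have hca : |c| = δ := by
      rcases hc with rfl | rfl
      · exact abs_of_pos hδ
      · rw [abs_neg, abs_of_pos hδ]
    have hi : Integrable fun v : ℝ => Real.exp (δ ^ 2) / δ * (C * (1 + (1 + |t|) ^ (20 * δ) * J)) *
        ((1 + |v|) ^ 10 * Real.exp (-(1/4 * v ^ 2))) := hM1i.const_mul _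
    have h1 := norm_integral_le_of_norm_le hi
      (f := fun v : ℝ => N (SC.ln c v) * cexp ((SC.ln c v) ^ 2) / SC.ln c v) (μ := volume)
      (Filter.Eventually.of_forall fun v => ?_)
    · rw [integral_const_mul, ← hM1] at h1
      refine h1.trans (le_of_eq ?_)
      ring
    · beta_reduce
      rw [norm_div, norm_mul, lp_exp_norm, hc2]
      have h3 : δ ≤ ‖SC.ln c v‖ := by
        have := lp_ln_norm c v
        rwa [hca] at this
      have h4 : N (SC.ln c v) = f (SC.ln (1/2 + c) (t + v)) := by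
        simp only [N]
        rw [lp_ln_add]
      rw [h4]
      calc ‖f (SC.ln (1/2 + c) (t + v))‖ * (Real.exp (δ ^ 2) * Real.exp (-(v ^ 2))) / ‖SC.ln c v‖
          ≤ ‖f (SC.ln (1/2 + c) (t + v))‖ * (Real.exp (δ ^ 2) * Real.exp (-(v ^ 2))) / δ :=
            div_le_div_of_nonneg_left (by positivity) hδ h3
        _ = Real.exp (δ ^ 2) / δ * (‖f (SC.ln (1/2 + c) (t + v))‖ * Real.exp (-(v ^ 2))) := by ring
        _ ≤ Real.exp (δ ^ 2) / δ * (C * (1 + (1 + |t|) ^ (20 * δ) * J) *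
            ((1 + |v|) ^ 10 * Real.exp (-(1/4 * v ^ 2)))) :=
            mul_le_mul_of_nonneg_left (hpt c hc v) (by positivity)
        _ = _ := by ring
  have h2pi : (1 : ℝ) ≤ 2 * Real.pi := by linarith [Real.pi_gt_three]
  have h1 : ‖2 * (Real.pi : ℂ) * N 0‖ = 2 * Real.pi * ‖f (SC.ln (1/2) t)‖ := by
    rw [hN0, norm_mul, norm_mul, Complex.norm_real, Real.norm_of_nonneg Real.pi_pos.le]
    norm_num
  have h2 := norm_sub_le (∫ v : ℝ, N (SC.ln δ v) * cexp ((SC.ln δ v) ^ 2) / SC.ln δ v)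
    (∫ v : ℝ, N (SC.ln (-δ) v) * cexp ((SC.ln (-δ) v) ^ 2) / SC.ln (-δ) v)
  rw [hres, h1] at h2
  have h3 := hside δ (Or.inl rfl)
  have h4 := hside (-δ) (Or.inr rfl)
  nlinarith [norm_nonneg (f (SC.ln (1/2) t))]

/-- growth of `ζ₁²` -/
theorem lp_growth : ∃ K : ℝ, 0 ≤ K ∧ LG (fun s => riemannZeta₁ s ^ 2) K := by
  obtain ⟨C, hC, h⟩ := Pool.Agent.PairCorr.zeta1_growth
  refine ⟨(C * 4 ^ 10) ^ 2, by positivity, fun s h1 h2 => ?_⟩
  have h3 : ‖s‖ ≤ 2 + |s.im| := by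
    have h4 := Complex.norm_le_abs_re_add_abs_im s
    have h5 : |s.re| ≤ 2 := abs_le.2 ⟨by linarith, h2⟩
    linarith
  have h4 : (2 + ‖s‖) ^ 10 ≤ (4 * (1 + |s.im|)) ^ 10 := by
    apply pow_le_pow_left₀ (by positivity)
    linarith [abs_nonneg s.im]
  have h5 : ‖riemannZeta₁ s‖ ≤ C * 4 ^ 10 * (1 + |s.im|) ^ 10 := by
    refine (h s (by linarith)).trans ?_
    calc C * (2 + ‖s‖) ^ 10 ≤ C * (4 * (1 + |s.im|)) ^ 10 :=
          mul_le_mul_of_nonneg_left h4 (by linarith)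
      _ = _ := by rw [mul_pow]; ring
  rw [norm_pow]
  calc ‖riemannZeta₁ s‖ ^ 2 ≤ (C * 4 ^ 10 * (1 + |s.im|) ^ 10) ^ 2 :=
        pow_le_pow_left₀ (norm_nonneg _) h5 2
    _ = _ := by rw [mul_pow, ← pow_mul]

theorem lp_z2 (u : ℝ) : ‖riemannZeta₁ (SC.ln (1/2) u) ^ 2‖ = z2 u * (1/4 + u ^ 2) := by
  have hne : SC.ln (1/2) u ≠ 1 := by
    intro h
    have := congrArg Complex.re h
    rw [SC.ln_re, one_re] at this
    norm_num at this
  have hne' : SC.ln (1/2) u - 1 ≠ 0 := sub_ne_zero.2 hne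
  have h1 : riemannZeta₁ (SC.ln (1/2) u) = (SC.ln (1/2) u - 1) * riemannZeta (SC.ln (1/2) u) := by
    rw [riemannZeta_eq_inv_sub_mul hne, ← mul_assoc, mul_inv_cancel₀ hne', one_mul]
  have h2 : ‖SC.ln (1/2) u - 1‖ ^ 2 = 1/4 + u ^ 2 := by
    rw [← Complex.normSq_eq_norm_sq, Complex.normSq_apply]
    simp only [sub_re, sub_im, SC.ln_re, SC.ln_im, one_re, one_im]
    ring
  rw [h1, norm_pow, norm_mul, mul_pow, h2]
  unfold z2
  ring

theorem LP (ε : ℝ) (hε : 0 < ε) (hε1 : ε ≤ 1) : ∃ C : ℝ, 0 ≤ C ∧ ∀ t : ℝ, 2 ≤ |t| →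
    z2 t ≤ C * |t| ^ ε * (1 + ∫ v : ℝ, z2 (t + v) * Real.exp (-(v ^ 2 / 4))) := by
  obtain ⟨K, hK, hg⟩ := lp_growth
  obtain ⟨C, hC, h⟩ := lp_main (f := fun s => riemannZeta₁ s ^ 2)
    (differentiable_riemannZeta₁.pow 2) hK hg (ε / 20) (by positivity) (by linarith)
  refine ⟨128 * C, by positivity, fun t ht => ?_⟩
  have hz2n : ∀ u, 0 ≤ z2 u := fun u => by unfold z2; positivity
  set I0 : ℝ := ∫ v : ℝ, z2 (t + v) * Real.exp (-(v ^ 2 / 4)) with hI0
  have hI0n : 0 ≤ I0 := integral_nonneg fun v => mul_nonneg (hz2n _) (Real.exp_pos _).le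
  have hI0i : Integrable fun v : ℝ => z2 (t + v) * Real.exp (-(v ^ 2 / 4)) := by
    have e1 : (fun v : ℝ => z2 (t + v) * Real.exp (-(v ^ 2 / 4))) =
        fun v : ℝ => (‖riemannZeta₁ (SC.ln (1/2) (t + v)) ^ 2‖ / (1/4 + (t + v) ^ 2)) *
          Real.exp (-(1/4 * v ^ 2)) := by
      funext v
      rw [lp_z2, mul_div_cancel_right₀ _ (by positivity)]
      congr 2
      ring
    rw [e1]
    refine lp_int ?_ (4 * (K * (1 + |t|) ^ 20)) 20 (fun v => ?_) (1/4) (by norm_num)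
    · refine Continuous.div (lp_cont (differentiable_riemannZeta₁.pow 2) (1/2) t) (by fun_prop) ?_
      intro v
      positivity
    · rw [abs_of_nonneg (by positivity)]
      have h2 := hg.line hK (c := 1/2) (by norm_num) (by norm_num) t v
      have h3 : (1/4 : ℝ) ≤ 1/4 + (t + v) ^ 2 := by nlinarith [sq_nonneg (t + v)]
      calc ‖riemannZeta₁ (SC.ln (1/2) (t + v)) ^ 2‖ / (1/4 + (t + v) ^ 2)
          ≤ (K * (1 + |t|) ^ 20 * (1 + |v|) ^ 20) / (1/4) :=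
            div_le_div₀ (by positivity) h2 (by norm_num) h3
        _ = _ := by ring
  have h1 := h t
  simp only [lp_z2] at h1
  have e0 : 20 * (ε / 20) = ε := by ring
  rw [e0] at h1
  set J : ℝ := ∫ y : ℝ, z2 (t + y) * (1/4 + (t + y) ^ 2) * Real.exp (-(3/8 * y ^ 2)) with hJ
  have hJle : J ≤ 64 * (1/4 + t ^ 2) * I0 := by
    rw [hJ, hI0, ← integral_const_mul]
    refine integral_mono_of_nonneg (Filter.Eventually.of_forall fun y => ?_)
      (hI0i.const_mul _) (Filter.Eventually.of_forall fun y => ?_)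
    · exact mul_nonneg (mul_nonneg (hz2n _) (by positivity)) (Real.exp_pos _).le
    · beta_reduce
      have e1 : 1/4 + (t + y) ^ 2 ≤ 2 * (1/4 + t ^ 2) * (1 + 4 * y ^ 2) := by
        nlinarith [sq_nonneg (t - y), mul_nonneg (sq_nonneg t) (sq_nonneg y)]
      have e2 : (1 + 4 * y ^ 2) * Real.exp (-(3/8 * y ^ 2)) ≤ 32 * Real.exp (-(y ^ 2 / 4)) := by
        have e3 : 1 + 4 * y ^ 2 ≤ 32 * Real.exp (y ^ 2 / 8) := by
          have := Real.add_one_le_exp (y ^ 2 / 8)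
          nlinarith [sq_nonneg y]
        calc (1 + 4 * y ^ 2) * Real.exp (-(3/8 * y ^ 2))
            ≤ (32 * Real.exp (y ^ 2 / 8)) * Real.exp (-(3/8 * y ^ 2)) :=
              mul_le_mul_of_nonneg_right e3 (Real.exp_pos _).le
          _ = 32 * Real.exp (-(y ^ 2 / 4)) := by
              rw [mul_assoc, ← Real.exp_add]
              congr 2
              ring
      calc z2 (t + y) * (1/4 + (t + y) ^ 2) * Real.exp (-(3/8 * y ^ 2))
          ≤ z2 (t + y) * (2 * (1/4 + t ^ 2) * (1 + 4 * y ^ 2)) * Real.exp (-(3/8 * y ^ 2)) := by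
            refine mul_le_mul_of_nonneg_right ?_ (Real.exp_pos _).le
            exact mul_le_mul_of_nonneg_left e1 (hz2n _)
        _ = z2 (t + y) * (2 * (1/4 + t ^ 2)) * ((1 + 4 * y ^ 2) * Real.exp (-(3/8 * y ^ 2))) := by
            ring
        _ ≤ z2 (t + y) * (2 * (1/4 + t ^ 2)) * (32 * Real.exp (-(y ^ 2 / 4))) :=
            mul_le_mul_of_nonneg_left e2 (mul_nonneg (hz2n _) (by positivity))
        _ = _ := by ring
  have ht0 : 0 < |t| := by linarith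
  have hte : (1 : ℝ) ≤ |t| ^ ε := Real.one_le_rpow (by linarith) hε.le
  have ht2 : (1 + |t|) ^ ε ≤ 2 * |t| ^ ε := by
    calc (1 + |t|) ^ ε ≤ (2 * |t|) ^ ε :=
          Real.rpow_le_rpow (by positivity) (by linarith) hε.le
      _ = 2 ^ ε * |t| ^ ε := Real.mul_rpow (by norm_num) ht0.le
      _ ≤ 2 * |t| ^ ε := by
          refine mul_le_mul_of_nonneg_right ?_ (by positivity)
          calc (2 : ℝ) ^ ε ≤ 2 ^ (1 : ℝ) := Real.rpow_le_rpow_of_exponent_le (by norm_num) hε1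
            _ = 2 := Real.rpow_one 2
  have hq : (1 : ℝ) ≤ 1/4 + t ^ 2 := by
    have : |t| ^ 2 = t ^ 2 := sq_abs t
    nlinarith
  have h5 : z2 t * (1/4 + t ^ 2) ≤ (128 * C * |t| ^ ε * (1 + I0)) * (1/4 + t ^ 2) := by
    calc z2 t * (1/4 + t ^ 2) ≤ C * (1 + (1 + |t|) ^ ε * J) := h1
      _ ≤ C * (1 + (2 * |t| ^ ε) * (64 * (1/4 + t ^ 2) * I0)) := by
          refine mul_le_mul_of_nonneg_left ?_ hC
          have hJn : 0 ≤ J := integral_nonneg fun y =>
            mul_nonneg (mul_nonneg (hz2n _) (by positivity)) (Real.exp_pos _).le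
          have := mul_le_mul ht2 hJle hJn (by positivity)
          linarith
      _ ≤ C * (128 * |t| ^ ε * (1/4 + t ^ 2) + (2 * |t| ^ ε) * (64 * (1/4 + t ^ 2) * I0)) := by
          refine mul_le_mul_of_nonneg_left ?_ hC
          have : (1 : ℝ) ≤ |t| ^ ε * (1/4 + t ^ 2) := by nlinarith
          nlinarith
      _ = _ := by ring
  exact le_of_mul_le_mul_right h5 (by positivity)

end Pool.Agent.H15.HB
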