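import Pool.Agent.H15.HB.Wt

/-!
# HB-09  the local mean square is controlled by `re (-QQ)` at `ξ = i/(4T)`  (project HB, MP_be4568)

With `δ = 1/(4T)`: `-QQ G t (iδ) = ∫ wt u e^{-iδG} e^{δ(t-u)} / (G + i(t-u)) du`.
`u ≥ 0`: `wt u = z2 u - z2 u · i e^{-πu}/(1 + i e^{-πu})`, the second part is `≤ z2 u e^{-πu}`, its total contribution is
`≤ e^{1/2} ∫ z2 e^{-π|u|} / G`.  The part with `z2 u ≥ 0`:
`re (e^{-iδG}/(G + i(t-u))) = (G cos(δG) - (t-u) sin(δG)) / (G² + (t-u)²)`; `δG ≤ 1/4`; if `u ≤ t` then `(t-u) sin(δG) ≤ 2T·G/(4T) = G/2`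
and `G cos(1/4) ≥ 0.96 G`; if `u ≥ t` the second term is `≥ 0`; so the kernel is `≥ 0` for all `u ≥ 0`, and for `|t-u| ≤ G` (then
`u ≥ 0`) it is `≥ (0.46 G)/(2G²)`, times `e^{δ(t-u)} ≥ e^{-1/4}`.
`u < 0`: `|wt u| ≤ z2 u e^{-π|u|}`, `e^{δ(t-u)} ≤ e^{1/2} e^{|u|}`: contribution `≤ C/G`.
Multiply by `G`.
-/

set_option autoImplicit false

open Complex Filter Topology MeasureTheory Set
open scoped ComplexConjugate

namespace Pool.Agent.H15.HB

namespace Lock

open Wtk

theorem exp_eq {T : ℝ} (hT : 0 < T) (G t u : ℝ) :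
    cexp (-(((G : ℂ) + I * (t - u)) * (I / (4 * T)))) =
      ((Real.exp ((t - u) / (4 * T)) : ℝ) : ℂ) * cexp (((-(G / (4 * T)) : ℝ) : ℂ) * I) := by
  rw [Complex.ofReal_exp, ← Complex.exp_add]
  congr 1
  have hT' : (T : ℂ) ≠ 0 := by exact_mod_cast hT.ne'
  push_cast
  field_simp
  ring_nf
  rw [I_sq]
  ring

theorem ker_re (a G s : ℝ) :
    (cexp (((-a : ℝ) : ℂ) * I) / ((G : ℂ) + I * s)).re =
      (G * Real.cos a - s * Real.sin a) / (G ^ 2 + s ^ 2) := by
  have h1 : ((G : ℂ) + I * s).re = G := by simp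
  have h2 : ((G : ℂ) + I * s).im = s := by simp
  rw [Complex.div_re, Complex.exp_ofReal_mul_I_re, Complex.exp_ofReal_mul_I_im, h1, h2, normSq_apply, h1, h2,
    Real.cos_neg, Real.sin_neg]
  rw [← add_div]
  congr 1 <;> ring

theorem ker_norm (a G s : ℝ) (hG : 0 < G) :
    ‖cexp (((-a : ℝ) : ℂ) * I) / ((G : ℂ) + I * s)‖ ≤ 1 / G := by
  rw [norm_div, Complex.norm_exp_ofReal_mul_I]
  refine one_div_le_one_div_of_le hG ?_
  have h1 : ((G : ℂ) + I * s).re = G := by simp
  have h := Complex.abs_re_le_norm ((G : ℂ) + I * s)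
  rw [h1, abs_of_pos hG] at h
  exact h

/-- lower bound of the kernel for `u ≥ 0` -/
theorem ker_low {T G t u : ℝ} (hG : 1 ≤ G) (hGT : G ≤ T) (_hTt : T ≤ t) (ht : t ≤ 2 * T) (hu : 0 ≤ u) :
    (46 / 100) * G / (G ^ 2 + (t - u) ^ 2) ≤
      (G * Real.cos (G / (4 * T)) - (t - u) * Real.sin (G / (4 * T))) / (G ^ 2 + (t - u) ^ 2) := by
  have hT : 0 < T := by linarith
  have hG0 : 0 < G := by linarith
  have ha0 : 0 ≤ G / (4 * T) := by positivity
  have ha1 : G / (4 * T) ≤ 1 / 4 := by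
    rw [div_le_iff₀ (by positivity)]
    linarith
  have hc : 1 - (G / (4 * T)) ^ 2 / 2 ≤ Real.cos (G / (4 * T)) := Real.one_sub_sq_div_two_le_cos
  have hs : Real.sin (G / (4 * T)) ≤ G / (4 * T) := Real.sin_le ha0
  have hs0 : 0 ≤ Real.sin (G / (4 * T)) := Real.sin_nonneg_of_nonneg_of_le_pi ha0
    (by linarith [Real.pi_gt_three])
  refine div_le_div_of_nonneg_right ?_ (by positivity)
  have h1 : 31 / 32 ≤ Real.cos (G / (4 * T)) := by nlinarith
  have h2 : G * (31 / 32) ≤ G * Real.cos (G / (4 * T)) := mul_le_mul_of_nonneg_left h1 hG0.le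
  have h3 : (t - u) * Real.sin (G / (4 * T)) ≤ G / 2 := by
    rcases le_total u t with h | h
    · calc (t - u) * Real.sin (G / (4 * T)) ≤ (2 * T) * (G / (4 * T)) :=
            mul_le_mul (by linarith) hs hs0 (by positivity)
        _ = G / 2 := by field_simp; ring
    · have : (t - u) * Real.sin (G / (4 * T)) ≤ 0 := mul_nonpos_of_nonpos_of_nonneg (by linarith) hs0
      linarith
  linarith

theorem exp_half : Real.exp (1 / 2) ≤ 2 := by
  have h := Real.exp_one_lt_d9
  have h2 : Real.exp (1 / 2) * Real.exp (1 / 2) = Real.exp 1 := by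
    rw [← Real.exp_add]; norm_num
  nlinarith [Real.exp_pos (1 / 2)]

theorem exp_up {T t u : ℝ} (hT : 1 ≤ T) (ht : t ≤ 2 * T) :
    Real.exp ((t - u) / (4 * T)) ≤ 2 * Real.exp (-(u / (4 * T))) := by
  have h1 : (t - u) / (4 * T) = t / (4 * T) + -(u / (4 * T)) := by ring
  rw [h1, Real.exp_add]
  refine mul_le_mul_of_nonneg_right ((Real.exp_le_exp.2 ?_).trans exp_half) (Real.exp_pos _).le
  rw [div_le_div_iff₀ (by positivity) (by norm_num)]
  linarith

theorem wt_diff {u : ℝ} (_hu : 0 ≤ u) : ‖wt u - z2 u‖ ≤ z2 u * Real.exp (-(Real.pi * u)) := by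
  have h := (norm_den u).1
  have hne : (1 : ℂ) + I * ((Real.exp (-(Real.pi * u)) : ℝ) : ℂ) ≠ 0 := by
    intro h0
    rw [h0, norm_zero] at h
    norm_num at h
  have e : wt u - z2 u = -(z2 u * (I * ((Real.exp (-(Real.pi * u)) : ℝ) : ℂ))) /
      (1 + I * ((Real.exp (-(Real.pi * u)) : ℝ) : ℂ)) := by
    unfold wt
    field_simp
    ring
  rw [e, norm_div, norm_neg, norm_mul, norm_mul, norm_I, one_mul, Complex.norm_real, Complex.norm_real,
    Real.norm_of_nonneg (z2_nonneg u), Real.norm_of_nonneg (Real.exp_pos _).le]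
  exact div_le_self (mul_nonneg (z2_nonneg u) (Real.exp_pos _).le) h

/-- the integrand of `-QQ` at `i/(4T)` -/
noncomputable def Fk (T G t u : ℝ) : ℂ :=
  wt u * cexp (-(((G : ℂ) + I * (t - u)) * (I / (4 * T)))) / ((G : ℂ) + I * (t - u))

theorem Fk_eq {T : ℝ} (hT : 0 < T) (G t u : ℝ) : Fk T G t u =
    wt u * (((Real.exp ((t - u) / (4 * T)) : ℝ) : ℂ) *
      (cexp (((-(G / (4 * T)) : ℝ) : ℂ) * I) / ((G : ℂ) + I * ((t - u : ℝ) : ℂ)))) := by
  unfold Fk
  rw [exp_eq hT]
  push_cast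
  ring

theorem Fk_norm {T G t : ℝ} (hG : 1 ≤ G) (hGT : G ≤ T) (ht : t ≤ 2 * T) (u : ℝ) :
    ‖Fk T G t u‖ ≤ 2 / G * (z2 u * Real.exp (-(1 / (4 * T) * |u|))) := by
  have hT : 0 < T := by linarith
  have hG0 : 0 < G := by linarith
  rw [Fk_eq hT, norm_mul, norm_mul, Complex.norm_real, Real.norm_of_nonneg (Real.exp_pos _).le]
  have h1 := ker_norm (G / (4 * T)) G (t - u) hG0
  have h2 := exp_up (u := u) (by linarith : 1 ≤ T) ht
  have h3 : Real.exp ((t - u) / (4 * T)) *
      ‖cexp (((-(G / (4 * T)) : ℝ) : ℂ) * I) / ((G : ℂ) + I * ((t - u : ℝ) : ℂ))‖ ≤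
      2 * Real.exp (-(u / (4 * T))) * (1 / G) :=
    mul_le_mul h2 h1 (norm_nonneg _) (by positivity)
  rcases le_total 0 u with hu | hu
  · refine (mul_le_mul (norm_wt_le u) h3 (by positivity) (z2_nonneg u)).trans (le_of_eq ?_)
    rw [abs_of_nonneg hu]
    have : -(u / (4 * T)) = -(1 / (4 * T) * u) := by ring
    rw [this]
    ring
  · refine (mul_le_mul (wt_norm_neg hu) h3 (by positivity)
      (mul_nonneg (z2_nonneg u) (Real.exp_pos _).le)).trans ?_
    rw [abs_of_nonpos hu]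
    have h4 : Real.exp (-(Real.pi * -u)) * Real.exp (-(u / (4 * T))) ≤ Real.exp (-(1 / (4 * T) * -u)) := by
      rw [← Real.exp_add]
      refine Real.exp_le_exp.2 ?_
      have h5 : 1 / (4 * T) ≤ 1 / 4 := by
        refine one_div_le_one_div_of_le (by norm_num) (by linarith)
      have h6 : u / (4 * T) = 1 / (4 * T) * u := by ring
      rw [h6]
      have h7 : Real.pi * u ≤ 1 * u := mul_le_mul_of_nonpos_right (by linarith [Real.pi_gt_three]) hu
      have h8 : 1 / 4 * u ≤ 1 / (4 * T) * u := mul_le_mul_of_nonpos_right h5 hu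
      nlinarith
    calc z2 u * Real.exp (-(Real.pi * -u)) * (2 * Real.exp (-(u / (4 * T))) * (1 / G))
        = 2 / G * (z2 u * (Real.exp (-(Real.pi * -u)) * Real.exp (-(u / (4 * T))))) := by ring
      _ ≤ _ := by
        refine mul_le_mul_of_nonneg_left ?_ (by positivity)
        exact mul_le_mul_of_nonneg_left h4 (z2_nonneg u)

theorem Fk_low {T G t : ℝ} (hG : 1 ≤ G) (hGT : G ≤ T) (hTt : T ≤ t) (ht : t ≤ 2 * T) (u : ℝ) :
    1 / (10 * G) * (Icc (t - G) (t + G)).indicator z2 u - 2 / G * (z2 u * Real.exp (-|u|)) ≤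
      (Fk T G t u).re := by
  have hT : 0 < T := by linarith
  have hG0 : 0 < G := by linarith
  have hz := z2_nonneg u
  rcases le_or_gt 0 u with hu | hu
  · -- main part
    set k : ℂ := cexp (((-(G / (4 * T)) : ℝ) : ℂ) * I) / ((G : ℂ) + I * ((t - u : ℝ) : ℂ)) with hk
    set E : ℝ := Real.exp ((t - u) / (4 * T)) with hE
    have hE0 : 0 < E := Real.exp_pos _
    have h1 := ker_norm (G / (4 * T)) G (t - u) hG0
    have h2 : E ≤ 2 * Real.exp (-(u / (4 * T))) := exp_up (by linarith : 1 ≤ T) ht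
    have h2' : E ≤ 2 := by
      refine h2.trans ?_
      have : Real.exp (-(u / (4 * T))) ≤ 1 := Real.exp_le_one_iff.2 (by
        have : 0 ≤ u / (4 * T) := by positivity
        linarith)
      linarith
    have e1 : Fk T G t u = ((z2 u * E : ℝ) : ℂ) * k + (wt u - z2 u) * ((E : ℂ) * k) := by
      rw [Fk_eq hT]
      change wt u * ((E : ℂ) * k) = _
      rw [Complex.ofReal_mul]
      ring
    have h3 : -(2 / G * (z2 u * Real.exp (-|u|))) ≤ ((wt u - z2 u) * ((E : ℂ) * k)).re := by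
      have h4 := Complex.abs_re_le_norm ((wt u - z2 u) * ((E : ℂ) * k))
      have h5 : ‖(wt u - z2 u) * ((E : ℂ) * k)‖ ≤ 2 / G * (z2 u * Real.exp (-|u|)) := by
        rw [norm_mul, norm_mul, Complex.norm_real, Real.norm_of_nonneg hE0.le]
        have h6 : E * ‖k‖ ≤ 2 * (1 / G) := mul_le_mul h2' h1 (norm_nonneg _) (by norm_num)
        refine (mul_le_mul (wt_diff hu) h6 (by positivity)
          (mul_nonneg hz (Real.exp_pos _).le)).trans ?_
        have h7 : Real.exp (-(Real.pi * u)) ≤ Real.exp (-|u|) := by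
          refine Real.exp_le_exp.2 ?_
          rw [abs_of_nonneg hu]
          nlinarith [Real.pi_gt_three]
        calc z2 u * Real.exp (-(Real.pi * u)) * (2 * (1 / G))
            = 2 / G * (z2 u * Real.exp (-(Real.pi * u))) := by ring
          _ ≤ _ := mul_le_mul_of_nonneg_left (mul_le_mul_of_nonneg_left h7 hz) (by positivity)
      have := neg_abs_le ((wt u - z2 u) * ((E : ℂ) * k)).re
      linarith
    have hkre : k.re = (G * Real.cos (G / (4 * T)) - (t - u) * Real.sin (G / (4 * T))) /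
        (G ^ 2 + (t - u) ^ 2) := ker_re _ _ _
    have hlow := ker_low hG hGT hTt ht hu
    rw [← hkre] at hlow
    have hk0 : 0 ≤ k.re := le_trans (by positivity) hlow
    have h8 : 1 / (10 * G) * (Icc (t - G) (t + G)).indicator z2 u ≤ z2 u * E * k.re := by
      by_cases hm : u ∈ Icc (t - G) (t + G)
      · rw [indicator_of_mem hm]
        obtain ⟨ha, hb⟩ := hm
        have h9 : (t - u) ^ 2 ≤ G ^ 2 := by
          rw [← sq_abs (t - u)]
          exact pow_le_pow_left₀ (abs_nonneg _) (abs_le.2 ⟨by linarith, by linarith⟩) 2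
        have h10 : 23 / 100 / G ≤ k.re := by
          refine le_trans ?_ hlow
          rw [div_le_div_iff₀ hG0 (by positivity)]
          nlinarith
        have h11 : 3 / 4 ≤ E := by
          have h12 : (t - u) / (4 * T) ≥ -(1 / 4) := by
            rw [ge_iff_le, le_div_iff₀ (by positivity)]
            linarith
          have := Real.add_one_le_exp ((t - u) / (4 * T))
          linarith
        have h13 : 3 / 4 * (23 / 100 / G) ≤ E * k.re := mul_le_mul h11 h10 (by positivity) hE0.le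
        have h14 : 1 / (10 * G) ≤ 3 / 4 * (23 / 100 / G) := by
          rw [← mul_div_assoc, div_le_div_iff₀ (by positivity) hG0]
          nlinarith
        calc 1 / (10 * G) * z2 u ≤ (E * k.re) * z2 u := mul_le_mul_of_nonneg_right (h14.trans h13) hz
          _ = _ := by ring
      · rw [indicator_of_notMem hm, mul_zero]
        positivity
    rw [e1, add_re, re_ofReal_mul]
    linarith
  · have hm : u ∉ Icc (t - G) (t + G) := by
      intro h
      have := h.1
      linarith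
    rw [indicator_of_notMem hm, mul_zero, zero_sub]
    have h1 := Complex.abs_re_le_norm (Fk T G t u)
    have h2 := neg_abs_le (Fk T G t u).re
    have h3 : ‖Fk T G t u‖ ≤ 2 / G * (z2 u * Real.exp (-|u|)) := by
      rw [Fk_eq hT, norm_mul, norm_mul, Complex.norm_real, Real.norm_of_nonneg (Real.exp_pos _).le]
      have h4 := ker_norm (G / (4 * T)) G (t - u) hG0
      have h5 := exp_up (u := u) (by linarith : 1 ≤ T) ht
      have h6 : Real.exp ((t - u) / (4 * T)) *
          ‖cexp (((-(G / (4 * T)) : ℝ) : ℂ) * I) / ((G : ℂ) + I * ((t - u : ℝ) : ℂ))‖ ≤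
          2 * Real.exp (-(u / (4 * T))) * (1 / G) :=
        mul_le_mul h5 h4 (norm_nonneg _) (by positivity)
      refine (mul_le_mul (wt_norm_neg hu.le) h6 (by positivity)
        (mul_nonneg hz (Real.exp_pos _).le)).trans ?_
      rw [abs_of_neg hu]
      have h7 : Real.exp (-(Real.pi * -u)) * Real.exp (-(u / (4 * T))) ≤ Real.exp (- -u) := by
        rw [← Real.exp_add]
        refine Real.exp_le_exp.2 ?_
        have h8 : 1 / (4 * T) ≤ 1 / 4 := by
          refine one_div_le_one_div_of_le (by norm_num) (by linarith)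
        have h9 : u / (4 * T) = 1 / (4 * T) * u := by ring
        rw [h9]
        have h10 : Real.pi * u ≤ 3 * u := mul_le_mul_of_nonpos_right (by linarith [Real.pi_gt_three]) hu.le
        have h11 : 1 / 4 * u ≤ 1 / (4 * T) * u := mul_le_mul_of_nonpos_right h8 hu.le
        nlinarith
      calc z2 u * Real.exp (-(Real.pi * -u)) * (2 * Real.exp (-(u / (4 * T))) * (1 / G))
          = 2 / G * (z2 u * (Real.exp (-(Real.pi * -u)) * Real.exp (-(u / (4 * T))))) := by ring
        _ ≤ _ := by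
          refine mul_le_mul_of_nonneg_left ?_ (by positivity)
          exact mul_le_mul_of_nonneg_left h7 hz
    linarith

theorem wt_cont : Continuous wt := by
  have hc2 := z2_cont
  unfold wt
  refine Continuous.div (by fun_prop) (by fun_prop) (fun u h0 => ?_)
  have := (norm_den u).1
  rw [h0] at this
  norm_num at this

theorem Fk_int {T G t : ℝ} (hG : 1 ≤ G) (hGT : G ≤ T) (ht : t ≤ 2 * T) : Integrable (Fk T G t) := by
  have hT : 0 < T := by linarith
  have h1 := (z2_exp (1 / (4 * T)) (by positivity)).const_mul (2 / G)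
  have hw := wt_cont
  refine h1.mono' (Continuous.aestronglyMeasurable ?_) (Eventually.of_forall (Fk_norm hG hGT ht))
  unfold Fk
  refine Continuous.div (by fun_prop) (by fun_prop) (fun u h0 => ?_)
  have := congrArg Complex.re h0
  simp at this
  linarith

end Lock

theorem local_ms : ∃ C₁ C₂ : ℝ, 0 ≤ C₁ ∧ 0 ≤ C₂ ∧ ∀ T G t : ℝ, 1 ≤ G → G ≤ T → T ≤ t → t ≤ 2 * T →
    ∫ u in (t - G)..(t + G), z2 u ≤ C₁ * (G * (-QQ G t (I / (4 * T))).re) + C₂ := by
  have hint : Integrable (fun u : ℝ => z2 u * Real.exp (-|u|)) := by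
    have := z2_exp 1 one_pos
    simpa using this
  refine ⟨10, 20 * ∫ u : ℝ, z2 u * Real.exp (-|u|), by norm_num, ?_, ?_⟩
  · have : 0 ≤ ∫ u : ℝ, z2 u * Real.exp (-|u|) :=
      integral_nonneg fun u => mul_nonneg (Wtk.z2_nonneg u) (Real.exp_pos _).le
    positivity
  intro T G t hG hGT hTt ht
  have hG0 : 0 < G := by linarith
  have hF := Lock.Fk_int hG hGT ht
  have e1 : -QQ G t (I / (4 * T)) = ∫ u : ℝ, Lock.Fk T G t u := by
    unfold QQ Lock.Fk
    rw [neg_neg]
  have e2 : (∫ u : ℝ, Lock.Fk T G t u).re = ∫ u : ℝ, (Lock.Fk T G t u).re := by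
    have := integral_re hF
    simpa using this.symm
  have hz : IntegrableOn z2 (Icc (t - G) (t + G)) := z2_cont.continuousOn.integrableOn_Icc
  have hzi : Integrable ((Icc (t - G) (t + G)).indicator z2) := hz.integrable_indicator measurableSet_Icc
  have h1 := integral_mono ((hzi.const_mul (1 / (10 * G))).sub (hint.const_mul (2 / G))) hF.re
    (fun u => Lock.Fk_low hG hGT hTt ht u)
  rw [integral_sub' (hzi.const_mul (1 / (10 * G))) (hint.const_mul (2 / G)), integral_const_mul,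
    integral_const_mul, integral_indicator measurableSet_Icc, integral_Icc_eq_integral_Ioc,
    ← intervalIntegral.integral_of_le (by linarith)] at h1
  rw [e1, e2]
  have h2 : (fun u : ℝ => RCLike.re (Lock.Fk T G t u)) = fun u : ℝ => (Lock.Fk T G t u).re := rfl
  have h3 : 1 / (10 * G) * (∫ u in (t - G)..(t + G), z2 u) - 2 / G * ∫ u : ℝ, z2 u * Real.exp (-|u|) ≤
      ∫ u : ℝ, (Lock.Fk T G t u).re := h1
  have h4 := mul_le_mul_of_nonneg_left h3 (by positivity : 0 ≤ 10 * G)
  have h5 : 10 * G * (1 / (10 * G) * (∫ u in (t - G)..(t + G), z2 u) -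
      2 / G * ∫ u : ℝ, z2 u * Real.exp (-|u|)) =
      (∫ u in (t - G)..(t + G), z2 u) - 20 * ∫ u : ℝ, z2 u * Real.exp (-|u|) := by
    field_simp
    ring
  rw [h5] at h4
  linarith

end Pool.Agent.H15.HB
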