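import Pool.Agent.H15.HB.PathA

/-!
# HB-14  the contour  (project HB, MP_be4568)

`Yb T ε j = T^{1/2+ε} / 2^{j+1}`, `η_j = 4 (Yb T ε j)² / T`, `η_0 = T^{2ε}`.  Path:
`i/(4T)` → `kap(pt 2T 2T)` (`seg_piece`, `ε`) → `kap(pt 2T η_0)` (`ver_piece`, `X = 2T`, `c = η_0 ≥ 1`, `d = 2T`: `≤ C (1 + log T)`)
→ `kap(pt (2 Yb 0) η_0)` (`hor_piece` and `LamH_small`, `a = 2 Yb 0 = T^{1/2+ε}`) → for `j = 0, 1, ..., J-1`: horizontal from
`X = 2 Yb j` to `Yb j` at height `η_j` (`hor_piece`, `a = Yb j`, `b = 2 Yb j`) and, between blocks, vertical at `X = Yb j` from `η_j` to `η_{j+1}`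
(`ver_piece`, `d = η_j`, `c = η_{j+1} = η_j/4`: `d T = 4X²`; `d (1+log X)/X ≤ 4 X (1+log X)/T ≤ C`, `c^{-ε}/X ≤ (T/X²)^ε ≤ T^ε`).
`J`: let `J - 1` be the first index with `Yb j ≤ G T^{-ε}` (it is `≥ 1` for large `T`, as `Yb 0 = T^{1/2+ε}/2 > T^{1/2-ε}`), so
`Yb (J-1) ≥ G T^{-ε}/2`, and `J ≤ C (1 + log T)`.  The endpoint `kap(pt (Yb (J-1)) η_{J-1})`: `end_piece` gives
`≤ C exp(-T^ε/6) T^{1+ε} ≤ C'`.  For all `j < J`: `Yb j ≥ T^{1/5-ε}/2 ≥ 1`, `η_j ≤ Yb j` since `Yb j ≤ T/4` (large `T`).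
Sum of the errors: `J` times `C ((1+log T)² + T^ε)`, `≤ C T^{2ε}`.  Telescoping, `-QQ(i/(4T)) = (QQ(end) - QQ(i/(4T))) - QQ(end)`.
-/

set_option autoImplicit false

open Complex Filter Topology MeasureTheory Set
open scoped ComplexConjugate

namespace Pool.Agent.H15.HB

/-- the dyadic abscissae -/
noncomputable def Yb (T ε : ℝ) (j : ℕ) : ℝ := T ^ (1 / 2 + ε) / 2 ^ (j + 1)

theorem pb_succ (T ε : ℝ) (j : ℕ) : 2 * Yb T ε (j + 1) = Yb T ε j := by
  unfold Yb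
  rw [pow_succ 2 (j + 1)]
  have h2 : (2 : ℝ) ^ (j + 1) ≠ 0 := by positivity
  field_simp

theorem pb_pos {T : ℝ} (hT : 0 < T) (ε : ℝ) (j : ℕ) : 0 < Yb T ε j := by
  unfold Yb
  have := Real.rpow_pos_of_pos hT (1 / 2 + ε)
  positivity

theorem pb_anti {T : ℝ} (hT : 0 < T) (ε : ℝ) {i j : ℕ} (hij : i ≤ j) : Yb T ε j ≤ Yb T ε i := by
  induction j, hij using Nat.le_induction with
  | base => exact le_rfl
  | succ k _ ih =>
    have h1 := pb_succ T ε k
    have h2 := pb_pos hT ε (k + 1)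
    linarith

/-- choice of the number of blocks -/
theorem pb_J {T ε G : ℝ} (hT : 1024 ≤ T) (hε : 0 < ε) (hε1 : ε ≤ 1 / 100) (hG1 : T ^ ((1 : ℝ) / 5) ≤ G)
    (hG2 : G ≤ T ^ ((1 : ℝ) / 2)) : ∃ k : ℕ, Yb T ε k ≤ G * T ^ (-ε) ∧ G * T ^ (-ε) / 2 ≤ Yb T ε k ∧
      1 ≤ Yb T ε k := by
  have hT0 : 0 < T := by linarith
  have hT1 : 1 ≤ T := by linarith
  have hG0 : 0 < G := lt_of_lt_of_le (Real.rpow_pos_of_pos hT0 _) hG1
  have hTe := Real.rpow_pos_of_pos hT0 (-ε)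
  have hex : ∃ j : ℕ, Yb T ε j ≤ G * T ^ (-ε) := by
    have hlim : Tendsto (fun j : ℕ => T ^ (1 / 2 + ε) * ((2 : ℝ)⁻¹) ^ (j + 1)) atTop (𝓝 (T ^ (1 / 2 + ε) * 0)) := by
      refine Tendsto.const_mul _ ?_
      exact (tendsto_pow_atTop_nhds_zero_of_lt_one (by norm_num) (by norm_num)).comp (tendsto_add_atTop_nat 1)
    rw [mul_zero] at hlim
    have hpos : 0 < G * T ^ (-ε) := by positivity
    obtain ⟨j, hj⟩ := ((tendsto_order.1 hlim).2 _ hpos).exists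
    refine ⟨j, ?_⟩
    unfold Yb
    rw [div_eq_mul_inv (T ^ (1 / 2 + ε)), ← inv_pow]
    exact hj.le
  classical
  have hk := Nat.find_spec hex
  set k := Nat.find hex with hkdef
  have hlow : G * T ^ (-ε) / 2 ≤ Yb T ε k := by
    rcases Nat.eq_zero_or_pos k with h0 | h0
    · rw [h0]
      unfold Yb
      have h3 : G * T ^ (-ε) ≤ T ^ (1 / 2 + ε) := by
        calc G * T ^ (-ε) ≤ T ^ ((1 : ℝ) / 2) * T ^ (-ε) := mul_le_mul_of_nonneg_right hG2 hTe.le
          _ = T ^ (1 / 2 + -ε) := (Real.rpow_add hT0 _ _).symm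
          _ ≤ T ^ (1 / 2 + ε) := Real.rpow_le_rpow_of_exponent_le hT1 (by linarith)
      norm_num
      linarith
    · obtain ⟨m, hm⟩ := Nat.exists_eq_succ_of_ne_zero h0.ne'
      have h3 : ¬ Yb T ε m ≤ G * T ^ (-ε) := Nat.find_min hex (by omega)
      have h4 := pb_succ T ε m
      rw [← Nat.succ_eq_add_one, ← hm] at h4
      push Not at h3
      linarith
  refine ⟨k, hk, hlow, ?_⟩
  have h5 : (2 : ℝ) ≤ T ^ ((1 : ℝ) / 5 + -ε) := by
    calc (2 : ℝ) = (2 ^ (10 : ℕ)) ^ ((1 : ℝ) / 10) := by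
          rw [← Real.rpow_natCast, ← Real.rpow_mul (by norm_num)]
          norm_num
      _ = (1024 : ℝ) ^ ((1 : ℝ) / 10) := by norm_num
      _ ≤ T ^ ((1 : ℝ) / 10) := Real.rpow_le_rpow (by norm_num) hT (by norm_num)
      _ ≤ T ^ ((1 : ℝ) / 5 + -ε) := Real.rpow_le_rpow_of_exponent_le hT1 (by linarith)
  rw [Real.rpow_add hT0] at h5
  have h6 : T ^ ((1 : ℝ) / 5) * T ^ (-ε) ≤ G * T ^ (-ε) := mul_le_mul_of_nonneg_right hG1 hTe.le
  linarith

/-- telescoping -/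
theorem pb_tele (A : ℂ) (P S L : ℕ → ℂ) (E1 E2 E3 : ℝ) (k : ℕ) (h0 : ‖S 0 - A‖ ≤ E3)
    (h1 : ∀ j ≤ k, ‖P j - S j - L j‖ ≤ E1) (h2 : ∀ j < k, ‖S (j + 1) - P j‖ ≤ E2) :
    ‖P k - A - ∑ j ∈ Finset.range (k + 1), L j‖ ≤ E3 + (k + 1) * E1 + k * E2 := by
  induction k with
  | zero =>
    have h3 := h1 0 le_rfl
    have h4 : P 0 - A - ∑ j ∈ Finset.range (0 + 1), L j = (S 0 - A) + (P 0 - S 0 - L 0) := by
      simp
      ring
    rw [h4]
    refine (norm_add_le _ _).trans ?_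
    norm_num
    linarith
  | succ k ih =>
    have h3 := ih (fun j hj => h1 j (by omega)) (fun j hj => h2 j (by omega))
    have h4 := h1 (k + 1) le_rfl
    have h5 := h2 k (by omega)
    have h6 : P (k + 1) - A - ∑ j ∈ Finset.range (k + 1 + 1), L j =
        (P k - A - ∑ j ∈ Finset.range (k + 1), L j) + (S (k + 1) - P k) +
          (P (k + 1) - S (k + 1) - L (k + 1)) := by
      rw [Finset.sum_range_succ _ (k + 1)]
      ring
    rw [h6]
    have h7 := norm_add_le ((P k - A - ∑ j ∈ Finset.range (k + 1), L j) + (S (k + 1) - P k))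
      (P (k + 1) - S (k + 1) - L (k + 1))
    have h8 := norm_add_le (P k - A - ∑ j ∈ Finset.range (k + 1), L j) (S (k + 1) - P k)
    push_cast
    linarith

/-- the exponential factor wins -/
theorem pb_exp (ε : ℝ) (hε : 0 < ε) : ∃ T₂ : ℝ, ∀ T : ℝ, T₂ ≤ T →
    Real.exp (-(T ^ ε / 6)) * T ^ (1 + ε) ≤ 1 := by
  have h1 := (tendsto_rpow_mul_exp_neg_mul_atTop_nhds_zero ((1 + ε) / ε) (1 / 6) (by norm_num)).comp
    (tendsto_rpow_atTop hε)
  have h2 : ∀ᶠ T : ℝ in atTop, (fun x : ℝ => x ^ ((1 + ε) / ε) * Real.exp (-(1 / 6) * x)) (T ^ ε) < 1 :=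
    (tendsto_order.1 h1).2 1 one_pos
  obtain ⟨T₂, hT₂⟩ := eventually_atTop.1 (h2.and (eventually_ge_atTop (0 : ℝ)))
  refine ⟨T₂, fun T hT => ?_⟩
  obtain ⟨h3, h4⟩ := hT₂ T hT
  simp only at h3
  rw [← Real.rpow_mul h4] at h3
  have h5 : ε * ((1 + ε) / ε) = 1 + ε := by field_simp
  rw [h5] at h3
  have h6 : -(1 / 6) * T ^ ε = -(T ^ ε / 6) := by ring
  rw [h6] at h3
  rw [mul_comm]
  exact h3.le

theorem pb_log {T δ : ℝ} (hT : 1 ≤ T) (hδ : 0 < δ) : 1 + Real.log T ≤ (1 + 1 / δ) * T ^ δ := by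
  have h1 := Real.log_le_rpow_div (by linarith : 0 ≤ T) hδ
  have h2 := Real.one_le_rpow hT hδ.le
  have h3 : (1 + 1 / δ) * T ^ δ = T ^ δ + T ^ δ / δ := by ring
  rw [h3]
  linarith

theorem path (ε : ℝ) (hε : 0 < ε) (hε1 : ε ≤ 1 / 100) : ∃ C T₁ : ℝ, 0 ≤ C ∧ 1 ≤ T₁ ∧ ∀ T : ℝ, T₁ ≤ T → ∀ G : ℝ,
    T ^ ((1 : ℝ) / 5) ≤ G → G ≤ T ^ ((1 : ℝ) / 2) → ∃ J : ℕ, (J : ℝ) ≤ C * (1 + Real.log T) ∧
      (∀ j : ℕ, j < J → G * T ^ (-ε) / 2 ≤ Yb T ε j) ∧
      ∀ t : ℝ, T ≤ t → t ≤ 2 * T →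
        ‖-QQ G t (I / (4 * T)) - ∑ j ∈ Finset.range J, LamH G t (4 * Yb T ε j ^ 2 / T) (2 * Yb T ε j) (Yb T ε j)‖ ≤
          C * T ^ (2 * ε) := by
  obtain ⟨C1, hC1, h1⟩ := hor_piece
  obtain ⟨C2, hC2, h2⟩ := ver_piece ε hε (by linarith)
  obtain ⟨C3, hC3, h3⟩ := seg_piece ε hε (by linarith)
  obtain ⟨C4, hC4, h4⟩ := end_piece ε hε (by linarith)
  obtain ⟨C5, hC5, h5⟩ := LamH_small
  obtain ⟨T₂, hT₂⟩ := pb_exp ε hε
  set K : ℝ := 1 + 1 / (ε / 3) with hK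
  have hK1 : 1 ≤ K := by
    rw [hK]
    have : 0 < 1 / (ε / 3) := by positivity
    linarith
  refine ⟨C3 + 3 * C2 * K + C1 * K ^ 2 + C5 * K + 2 * C1 * K ^ 3 + 2 * C2 * K ^ 2 + 2 * C2 * K + C4 + 2,
    max 1024 T₂, by positivity, le_trans (by norm_num) (le_max_left _ _), ?_⟩
  intro T hT G hG1 hG2
  have hTa : 1024 ≤ T := (le_max_left _ _).trans hT
  have hTb : T₂ ≤ T := (le_max_right _ _).trans hT
  have hT0 : 0 < T := by linarith
  have hT1 : 1 ≤ T := by linarith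
  obtain ⟨k, hk1, hk2, hk3⟩ := pb_J hTa hε hε1 hG1 hG2
  have hG0 : 1 ≤ G := (Real.one_le_rpow hT1 (by norm_num)).trans hG1
  set L : ℝ := 1 + Real.log T with hL
  have hlog : 0 ≤ Real.log T := Real.log_nonneg hT1
  have hL1 : 1 ≤ L := by linarith
  have hJL : ((k + 1 : ℕ) : ℝ) ≤ 2 * L := by
    have e1 : (2 : ℝ) ^ (k + 1) ≤ T ^ (1 / 2 + ε) := by
      unfold Yb at hk3
      rwa [one_le_div (by positivity)] at hk3
    have e2 : T ^ (1 / 2 + ε) ≤ T ^ (1 : ℝ) := Real.rpow_le_rpow_of_exponent_le hT1 (by linarith)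
    rw [Real.rpow_one] at e2
    have e3 : Real.log ((2 : ℝ) ^ (k + 1)) ≤ Real.log T := Real.log_le_log (by positivity) (e1.trans e2)
    rw [Real.log_pow] at e3
    have e4 : (0.5 : ℝ) ≤ Real.log 2 := by
      have := Real.log_two_gt_d9
      linarith
    have e5 : ((k + 1 : ℕ) : ℝ) * 0.5 ≤ ((k + 1 : ℕ) : ℝ) * Real.log 2 :=
      mul_le_mul_of_nonneg_left e4 (Nat.cast_nonneg _)
    linarith
  refine ⟨k + 1, ?_, ?_, ?_⟩
  · refine hJL.trans (mul_le_mul_of_nonneg_right ?_ (by linarith))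
    have : 0 ≤ C3 + 3 * C2 * K + C1 * K ^ 2 + C5 * K + 2 * C1 * K ^ 3 + 2 * C2 * K ^ 2 + 2 * C2 * K + C4 := by
      positivity
    linarith
  · intro j hj
    exact hk2.trans (pb_anti hT0 ε (by omega))
  · intro t ht1 ht2
    -- notation
    set A : ℂ := QQ G t (I / (4 * T)) with hA
    set η : ℕ → ℝ := fun j => 4 * Yb T ε j ^ 2 / T with hη
    set P : ℕ → ℂ := fun j => QQ G t (kap (pt (Yb T ε j) (η j))) with hP
    set S : ℕ → ℂ := fun j => QQ G t (kap (pt (2 * Yb T ε j) (η j))) with hS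
    -- elementary facts
    have hYpos : ∀ j, 0 < Yb T ε j := fun j => pb_pos hT0 ε j
    have hηpos : ∀ j, 0 < η j := fun j => by
      have := hYpos j
      simp only [hη]
      positivity
    have hηT : ∀ j, η j * T = 4 * Yb T ε j ^ 2 := fun j => by
      simp only [hη]
      field_simp
    have hY0 : 2 * Yb T ε 0 = T ^ (1 / 2 + ε) := by
      unfold Yb
      rw [zero_add, pow_one]
      ring
    have hYle : ∀ j, 2 * Yb T ε j ≤ T ^ (1 / 2 + ε) := fun j => by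
      have := pb_anti hT0 ε (Nat.zero_le j)
      linarith
    have hpow1 : T ^ (1 / 2 + ε) ≤ T := by
      have e2 : T ^ (1 / 2 + ε) ≤ T ^ (1 : ℝ) := Real.rpow_le_rpow_of_exponent_le hT1 (by linarith)
      rwa [Real.rpow_one] at e2
    have hpow2 : 2 * T ^ (1 / 2 + ε) ≤ T := by
      have h6 : (2 : ℝ) ≤ T ^ ((1 : ℝ) / 2 + -ε) := by
        calc (2 : ℝ) = (2 ^ (10 : ℕ)) ^ ((1 : ℝ) / 10) := by
              rw [← Real.rpow_natCast, ← Real.rpow_mul (by norm_num)]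
              norm_num
          _ = (1024 : ℝ) ^ ((1 : ℝ) / 10) := by norm_num
          _ ≤ T ^ ((1 : ℝ) / 10) := Real.rpow_le_rpow (by norm_num) hTa (by norm_num)
          _ ≤ T ^ ((1 : ℝ) / 2 + -ε) := Real.rpow_le_rpow_of_exponent_le hT1 (by linarith)
      have h7 : T ^ ((1 : ℝ) / 2 + -ε) * T ^ (1 / 2 + ε) = T := by
        rw [← Real.rpow_add hT0]
        have : (1 : ℝ) / 2 + -ε + (1 / 2 + ε) = 1 := by ring
        rw [this, Real.rpow_one]
      have h8 := Real.rpow_pos_of_pos hT0 (1 / 2 + ε)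
      calc 2 * T ^ (1 / 2 + ε) ≤ T ^ ((1 : ℝ) / 2 + -ε) * T ^ (1 / 2 + ε) :=
            mul_le_mul_of_nonneg_right h6 h8.le
        _ = T := h7
    have hηY : ∀ j, η j ≤ Yb T ε j := fun j => by
      have e1 := hYle j
      have e2 := hYpos j
      simp only [hη]
      rw [div_le_iff₀ hT0]
      nlinarith
    have hY1 : ∀ j ≤ k, 1 ≤ Yb T ε j := fun j hj => hk3.trans (pb_anti hT0 ε hj)
    have hηsucc : ∀ j, η (j + 1) * T = Yb T ε j ^ 2 := fun j => by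
      rw [hηT, ← pb_succ T ε j]
      ring
    -- first pieces
    have hη0 : η 0 = T ^ (2 * ε) := by
      have e1 : η 0 * T = T ^ (2 * ε) * T := by
        rw [hηT]
        have e2 : 4 * Yb T ε 0 ^ 2 = (2 * Yb T ε 0) ^ 2 := by ring
        rw [e2, hY0, ← Real.rpow_natCast, ← Real.rpow_mul hT0.le]
        conv_rhs => rw [← Real.rpow_one T, ← Real.rpow_mul hT0.le, ← Real.rpow_add hT0]
        congr 1
        push_cast
        ring
      exact mul_right_cancel₀ hT0.ne' e1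
    have hη01 : 1 ≤ η 0 := by
      rw [hη0]
      exact Real.one_le_rpow hT1 (by linarith)
    have hlog2 : Real.log 2 ≤ 1 := by
      have := Real.log_two_lt_d9
      linarith
    have hfirst : ‖S 0 - A‖ ≤ C3 * T ^ ε + C2 * (3 * L) + C1 * L ^ 2 + C5 * L := by
      have e1 := h3 T G t hT1 hG0 ht1 ht2
      have e2 := h2 T G t (2 * T) (η 0) (2 * T) hT1 hG0 ht1 ht2 (by linarith) (hηpos 0)
        (by have := hηY 0; have := hYle 0; have := hYpos 0; linarith) le_rfl (by nlinarith)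
      have e3 := h1 T G t (η 0) (2 * Yb T ε 0) (2 * T) hT1 hG0 ht1 ht2 (hηpos 0)
        (by have := hY1 0 (Nat.zero_le k); linarith) (by have := hηY 0; have := hYpos 0; linarith)
        (by have := hYle 0; linarith) le_rfl (by rw [hηT]; have := hYpos 0; nlinarith)
      have e4 := h5 T G t (η 0) (2 * Yb T ε 0) (2 * T) hT1 hG0 ht1 ht2 hη01
        (by have := hY1 0 (Nat.zero_le k); linarith) (by have := hηY 0; have := hYpos 0; linarith)
        (by have := hYle 0; linarith) le_rfl (by rw [hηT]; have := hYpos 0; nlinarith)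
      have e5 : C2 * (2 * T * (1 + Real.log (2 * T)) + η 0 ^ (-ε)) / (2 * T) ≤ C2 * (3 * L) := by
        have f1 : η 0 ^ (-ε) ≤ 1 := Real.rpow_le_one_of_one_le_of_nonpos hη01 (by linarith)
        have f2 : Real.log (2 * T) = Real.log 2 + Real.log T := Real.log_mul (by norm_num) hT0.ne'
        rw [mul_div_assoc]
        refine mul_le_mul_of_nonneg_left ?_ hC2
        rw [div_le_iff₀ (by positivity), f2]
        nlinarith
      have e6 : S 0 - A = (QQ G t (kap (pt (2 * T) (2 * T))) - A) -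
          (QQ G t (kap (pt (2 * T) (2 * T))) - QQ G t (kap (pt (2 * T) (η 0)))) +
          (S 0 - QQ G t (kap (pt (2 * T) (η 0))) - LamH G t (η 0) (2 * T) (2 * Yb T ε 0)) +
          LamH G t (η 0) (2 * T) (2 * Yb T ε 0) := by ring
      have e2' : ‖QQ G t (kap (pt (2 * T) (2 * T))) - QQ G t (kap (pt (2 * T) (η 0)))‖ ≤ C2 * (3 * L) := by
        rw [norm_sub_rev]
        exact e2.trans e5
      rw [e6]
      refine (norm_add_le _ _).trans ?_
      refine (add_le_add_left (norm_add_le _ _) _).trans ?_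
      refine (add_le_add_left (add_le_add_left (norm_sub_le _ _) _) _).trans ?_
      exact add_le_add (add_le_add (add_le_add e1 e2') e3) e4
    have hhor : ∀ j ≤ k, ‖P j - S j - LamH G t (η j) (2 * Yb T ε j) (Yb T ε j)‖ ≤ C1 * L ^ 2 := by
      intro j hj
      exact h1 T G t (η j) (Yb T ε j) (2 * Yb T ε j) hT1 hG0 ht1 ht2 (hηpos j) (hY1 j hj) (hηY j)
        (by have := hYpos j; linarith) (by have := hYle j; linarith) (hηT j).le
    have hTe1 : 1 ≤ T ^ ε := Real.one_le_rpow hT1 hε.le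
    have hver : ∀ j < k, ‖S (j + 1) - P j‖ ≤ C2 * (L + T ^ ε) := by
      intro j hj
      have g1 := hY1 j hj.le
      have g2 := hYpos j
      have g3 := hηY j
      have g4 : η (j + 1) ≤ η j := by
        have := hηsucc j
        have := hηT j
        nlinarith
      have g5 := h2 T G t (Yb T ε j) (η (j + 1)) (η j) hT1 hG0 ht1 ht2 g1 (hηpos (j + 1)) g4 g3 (hηT j).le
      have g6 : S (j + 1) = QQ G t (kap (pt (Yb T ε j) (η (j + 1)))) := by
        simp only [hS]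
        rw [pb_succ]
      rw [g6]
      refine g5.trans ?_
      rw [mul_div_assoc]
      refine mul_le_mul_of_nonneg_left ?_ hC2
      rw [div_le_iff₀ g2]
      have g7 : Real.log (Yb T ε j) ≤ Real.log T :=
        Real.log_le_log g2 (by have := hYle j; linarith)
      have g8 : η (j + 1) ^ (-ε) ≤ T ^ ε := by
        have g9 : (T : ℝ)⁻¹ ≤ η (j + 1) := by
          rw [inv_le_iff_one_le_mul₀ hT0, hηsucc]
          nlinarith
        calc η (j + 1) ^ (-ε) ≤ (T⁻¹) ^ (-ε) :=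
              Real.rpow_le_rpow_of_nonpos (by positivity) g9 (by linarith)
          _ = T ^ ε := by
              rw [Real.inv_rpow hT0.le, Real.rpow_neg hT0.le, inv_inv]
      have g10 : 0 ≤ 1 + Real.log (Yb T ε j) := by
        have := Real.log_nonneg g1
        linarith
      have g11 : η j * (1 + Real.log (Yb T ε j)) ≤ Yb T ε j * L := by
        refine mul_le_mul g3 (by linarith) g10 g2.le
      nlinarith
    have htele := pb_tele A P S (fun j => LamH G t (η j) (2 * Yb T ε j) (Yb T ε j)) _ _ _ k hfirst hhor hver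
    -- the end of the path
    have hend : ‖P k‖ ≤ C4 := by
      have g1 := h4 T G t (Yb T ε k) (η k) hT1 hG0 ht1 ht2 hk3 (hηpos k) (hηY k) (hηT k)
      refine g1.trans ?_
      rw [mul_assoc]
      have g2 : Real.exp (-(G / (6 * Yb T ε k))) ≤ Real.exp (-(T ^ ε / 6)) := by
        refine Real.exp_le_exp.2 (neg_le_neg ?_)
        rw [div_le_div_iff₀ (by norm_num) (by have := hYpos k; positivity)]
        have g3 : T ^ ε * Yb T ε k ≤ T ^ ε * (G * T ^ (-ε)) :=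
          mul_le_mul_of_nonneg_left hk1 (by linarith)
        have g4 : T ^ ε * (G * T ^ (-ε)) = G := by
          have : T ^ ε * T ^ (-ε) = 1 := by
            rw [← Real.rpow_add hT0]
            simp
          calc T ^ ε * (G * T ^ (-ε)) = G * (T ^ ε * T ^ (-ε)) := by ring
            _ = G := by rw [this, mul_one]
        nlinarith
      have g5 : Real.exp (-(G / (6 * Yb T ε k))) * T ^ (1 + ε) ≤ 1 :=
        (mul_le_mul_of_nonneg_right g2 (Real.rpow_pos_of_pos hT0 _).le).trans (hT₂ T hTb)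
      calc C4 * (Real.exp (-(G / (6 * Yb T ε k))) * T ^ (1 + ε)) ≤ C4 * 1 :=
            mul_le_mul_of_nonneg_left g5 hC4
        _ = C4 := mul_one _
    have hfin : ‖-A - ∑ j ∈ Finset.range (k + 1), LamH G t (η j) (2 * Yb T ε j) (Yb T ε j)‖ ≤
        C4 + ((C3 * T ^ ε + C2 * (3 * L) + C1 * L ^ 2 + C5 * L) + (k + 1) * (C1 * L ^ 2) +
          k * (C2 * (L + T ^ ε))) := by
      have g1 : -A - ∑ j ∈ Finset.range (k + 1), LamH G t (η j) (2 * Yb T ε j) (Yb T ε j) =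
          (P k - A - ∑ j ∈ Finset.range (k + 1), LamH G t (η j) (2 * Yb T ε j) (Yb T ε j)) - P k := by ring
      rw [g1]
      refine (norm_sub_le _ _).trans ?_
      linarith
    refine hfin.trans ?_
    -- final arithmetic
    set u : ℝ := T ^ (ε / 3) with hu
    have hu1 : 1 ≤ u := Real.one_le_rpow hT1 (by positivity)
    have hLu : L ≤ K * u := pb_log hT1 (by positivity)
    have hTu3 : T ^ ε = u ^ 3 := by
      rw [hu, ← Real.rpow_natCast, ← Real.rpow_mul hT0.le]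
      congr 1
      push_cast
      ring
    have hTu6 : T ^ (2 * ε) = u ^ 6 := by
      rw [hu, ← Real.rpow_natCast, ← Real.rpow_mul hT0.le]
      congr 1
      push_cast
      ring
    rw [hTu3, hTu6]
    have hkL : (k : ℝ) ≤ 2 * L := by
      push_cast at hJL
      linarith
    have hkL1 : (k : ℝ) + 1 ≤ 2 * L := by
      push_cast at hJL
      linarith
    have p36 : u ^ 3 ≤ u ^ 6 := pow_le_pow_right₀ hu1 (by norm_num)
    have p16 : u ≤ u ^ 6 := by simpa using pow_le_pow_right₀ hu1 (show 1 ≤ 6 by norm_num)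
    have p26 : u ^ 2 ≤ u ^ 6 := pow_le_pow_right₀ hu1 (by norm_num)
    have p46 : u ^ 4 ≤ u ^ 6 := pow_le_pow_right₀ hu1 (by norm_num)
    have p06 : 1 ≤ u ^ 6 := one_le_pow₀ hu1
    have q1 : L ≤ K * u ^ 6 := hLu.trans (mul_le_mul_of_nonneg_left p16 (by linarith))
    have q2 : L ^ 2 ≤ K ^ 2 * u ^ 6 := by
      calc L ^ 2 ≤ (K * u) ^ 2 := pow_le_pow_left₀ (by linarith) hLu 2
        _ = K ^ 2 * u ^ 2 := by ring
        _ ≤ K ^ 2 * u ^ 6 := mul_le_mul_of_nonneg_left p26 (by positivity)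
    have q3 : L ^ 3 ≤ K ^ 3 * u ^ 6 := by
      calc L ^ 3 ≤ (K * u) ^ 3 := pow_le_pow_left₀ (by linarith) hLu 3
        _ = K ^ 3 * u ^ 3 := by ring
        _ ≤ K ^ 3 * u ^ 6 := mul_le_mul_of_nonneg_left p36 (by positivity)
    have q4 : L * u ^ 3 ≤ K * u ^ 6 := by
      calc L * u ^ 3 ≤ (K * u) * u ^ 3 := mul_le_mul_of_nonneg_right hLu (by positivity)
        _ = K * u ^ 4 := by ring
        _ ≤ K * u ^ 6 := mul_le_mul_of_nonneg_left p46 (by positivity)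
    have r1 : ((k : ℝ) + 1) * (C1 * L ^ 2) ≤ 2 * C1 * L ^ 3 := by
      calc ((k : ℝ) + 1) * (C1 * L ^ 2) ≤ (2 * L) * (C1 * L ^ 2) :=
            mul_le_mul_of_nonneg_right hkL1 (by positivity)
        _ = 2 * C1 * L ^ 3 := by ring
    have r2 : (k : ℝ) * (C2 * (L + u ^ 3)) ≤ 2 * C2 * L ^ 2 + 2 * C2 * (L * u ^ 3) := by
      calc (k : ℝ) * (C2 * (L + u ^ 3)) ≤ (2 * L) * (C2 * (L + u ^ 3)) :=
            mul_le_mul_of_nonneg_right hkL (by positivity)
        _ = 2 * C2 * L ^ 2 + 2 * C2 * (L * u ^ 3) := by ring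
    have s1 : C4 ≤ C4 * u ^ 6 := by
      calc C4 = C4 * 1 := (mul_one _).symm
        _ ≤ C4 * u ^ 6 := mul_le_mul_of_nonneg_left p06 hC4
    have s2 : C3 * u ^ 3 ≤ C3 * u ^ 6 := mul_le_mul_of_nonneg_left p36 hC3
    have s3 : C2 * (3 * L) ≤ 3 * C2 * K * u ^ 6 := by
      calc C2 * (3 * L) = 3 * C2 * L := by ring
        _ ≤ 3 * C2 * (K * u ^ 6) := mul_le_mul_of_nonneg_left q1 (by positivity)
        _ = 3 * C2 * K * u ^ 6 := by ring
    have s4 : C1 * L ^ 2 ≤ C1 * K ^ 2 * u ^ 6 := by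
      calc C1 * L ^ 2 ≤ C1 * (K ^ 2 * u ^ 6) := mul_le_mul_of_nonneg_left q2 hC1
        _ = C1 * K ^ 2 * u ^ 6 := by ring
    have s5 : C5 * L ≤ C5 * K * u ^ 6 := by
      calc C5 * L ≤ C5 * (K * u ^ 6) := mul_le_mul_of_nonneg_left q1 hC5
        _ = C5 * K * u ^ 6 := by ring
    have s6 : 2 * C1 * L ^ 3 ≤ 2 * C1 * K ^ 3 * u ^ 6 := by
      calc 2 * C1 * L ^ 3 ≤ 2 * C1 * (K ^ 3 * u ^ 6) := mul_le_mul_of_nonneg_left q3 (by positivity)
        _ = 2 * C1 * K ^ 3 * u ^ 6 := by ring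
    have s7 : 2 * C2 * L ^ 2 ≤ 2 * C2 * K ^ 2 * u ^ 6 := by
      calc 2 * C2 * L ^ 2 ≤ 2 * C2 * (K ^ 2 * u ^ 6) := mul_le_mul_of_nonneg_left q2 (by positivity)
        _ = 2 * C2 * K ^ 2 * u ^ 6 := by ring
    have s8 : 2 * C2 * (L * u ^ 3) ≤ 2 * C2 * K * u ^ 6 := by
      calc 2 * C2 * (L * u ^ 3) ≤ 2 * C2 * (K * u ^ 6) := mul_le_mul_of_nonneg_left q4 (by positivity)
        _ = 2 * C2 * K * u ^ 6 := by ring
    have s9 : (C3 + 3 * C2 * K + C1 * K ^ 2 + C5 * K + 2 * C1 * K ^ 3 + 2 * C2 * K ^ 2 + 2 * C2 * K + C4 + 2) *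
        u ^ 6 = C3 * u ^ 6 + 3 * C2 * K * u ^ 6 + C1 * K ^ 2 * u ^ 6 + C5 * K * u ^ 6 +
          2 * C1 * K ^ 3 * u ^ 6 + 2 * C2 * K ^ 2 * u ^ 6 + 2 * C2 * K * u ^ 6 + C4 * u ^ 6 + 2 * u ^ 6 := by ring
    rw [s9]
    linarith

end Pool.Agent.H15.HB
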