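import Pool.Agent.H15.HB.GramSum
import Pool.Agent.H15.HB.PathB
import Pool.Agent.H15.HB.Loc

/-!
# HB-21  large values of the local mean square  (project HB, MP_be4568)

First a set `S` of diameter `≤ T₀`, `R = |S|`.  `local_ms`, `path` (with this `ε`):
`R W ≤ ∑_t ∫_{t-G}^{t+G} z2 ≤ C₁ G re ∑_t (-QQ) + C₂ R ≤ C₁ G ‖∑_j ∑_t LamH_j(t)‖ + C₁ C G T^{2ε} R + C₂ R`, and `W ≥ T^{3ε} G` absorbs the last two
terms for large `T`: `R W/2 ≤ C₁ G ∑_j ‖∑_t LamH_j(t)‖`.  `gram_sum` with `Y = Yb T ε j`, `K = 2 T^ε` (`Y ≥ G T^{-ε}/2`), `dv2_bound`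
(`η = 4Y²/T`; `1 + η^{-(1+ε)} ≤ C T^{1+3ε}/Y²`, as `1 ≤ Y ≤ T^{1/2+ε}`) gives for each `j`
`‖∑_t LamH_j(t)‖² ≤ C T^{6ε} (T/Y²)(R/Y + R/G + R² Y/T + R² √(T₀Y)/T) ≤ C T^{12ε} (T R/G³ + R²/G + R² √T₀ G^{-3/2})`.
There are `J ≤ C (1 + log T)` values of `j`.  So `(R W)² ≤ C T^{13ε} (T R/G + R² G + R² √(T₀ G))`.
`W² ≥ T^{6ε} G² ≥ T^{6ε} G T^{1/5}` and `ε ≤ 1/100` absorb `R² G`.  Choose `T₀ = W⁴ T^{-27ε}/G` (or `T` if that is larger): `R² √(T₀G)` is absorbed: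
`R ≤ C T^{1+13ε}/(G W²)`.  `[T,2T]` is covered by `≤ 2 + T/T₀` intervals of length `T₀`:
`|S| ≤ (2 + T^{1+27ε} G/W⁴) C T^{1+13ε}/(G W²) ≤ C T^{40ε} (T/(G W²) + T²/W⁶)`.
(The exponents 13, 27, 40 need not be sharp; the statement has `40 ε`.)
-/

set_option autoImplicit false

open Complex Filter Topology MeasureTheory Set
open scoped ComplexConjugate

namespace Pool.Agent.H15.HB

/-- `C T^a ≤ T^b` for large `T` -/
theorem lv_ev (a b C : ℝ) (h : a < b) : ∃ T₁ : ℝ, ∀ T : ℝ, T₁ ≤ T → C * T ^ a ≤ T ^ b := by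
  have h1 := tendsto_rpow_atTop (sub_pos.2 h)
  obtain ⟨T₂, hT₂⟩ := eventually_atTop.1 ((h1.eventually_ge_atTop C).and (eventually_gt_atTop (0 : ℝ)))
  refine ⟨T₂, fun T hT => ?_⟩
  obtain ⟨h3, h4⟩ := hT₂ T hT
  have h5 : T ^ b = T ^ (b - a) * T ^ a := by
    rw [← Real.rpow_add h4]; congr 1; ring
  rw [h5]
  exact mul_le_mul_of_nonneg_right h3 (Real.rpow_nonneg h4.le _)

theorem lv_pw {T : ℝ} (hT : 0 < T) (ε : ℝ) (k : ℕ) : (T ^ ε) ^ k = T ^ (k * ε) := by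
  rw [← Real.rpow_natCast, ← Real.rpow_mul hT.le, mul_comm]

theorem lv_dv (ε : ℝ) (hε : 0 < ε) : ∃ C : ℝ, 0 ≤ C ∧ ∀ T Y : ℝ, 1 ≤ T → 1 ≤ Y → 2 * Y ≤ T ^ (1 / 2 + ε) →
    ∑' n : ℕ, dv n ^ 2 * Real.exp (-(4 * Real.pi * (4 * Y ^ 2 / T) * n)) ≤ C * ((T ^ ε) ^ 2 * (T / Y ^ 2)) := by
  obtain ⟨C, hC, h⟩ := dv2_bound ε hε
  refine ⟨C, hC, fun T Y hT hY h2 => ?_⟩
  have hT0 : 0 < T := by linarith
  have hY0 : 0 < Y := by linarith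
  have hη : 0 < 4 * Y ^ 2 / T := by positivity
  refine (h _ hη).trans ?_
  refine mul_le_mul_of_nonneg_left ?_ hC
  have hE1 : 1 ≤ T ^ ε := Real.one_le_rpow hT hε.le
  have hq : 0 < T / (4 * Y ^ 2) := by positivity
  have e1 : (4 * Y ^ 2 / T) ^ (-(1 + ε)) = T / (4 * Y ^ 2) * (T / (4 * Y ^ 2)) ^ ε := by
    rw [Real.rpow_neg hη.le, ← Real.inv_rpow hη.le, inv_div, Real.rpow_add hq, Real.rpow_one]
  have e2 : (T / (4 * Y ^ 2)) ^ ε ≤ T ^ ε := by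
    refine Real.rpow_le_rpow (by positivity) ?_ hε.le
    refine div_le_self hT0.le ?_
    nlinarith
  have e3 : (2 * Y) ^ 2 ≤ T * (T ^ ε) ^ 2 := by
    have h3 : (T ^ (1 / 2 + ε)) ^ 2 = T * (T ^ ε) ^ 2 := by
      rw [lv_pw hT0, lv_pw hT0]
      nth_rewrite 2 [← Real.rpow_one T]
      rw [← Real.rpow_add hT0]
      congr 1; push_cast; ring
    rw [← h3]
    exact pow_le_pow_left₀ (by positivity) h2 2
  obtain ⟨E, hE⟩ : ∃ E : ℝ, E = T ^ ε := ⟨_, rfl⟩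
  rw [← hE] at hE1 e2 e3 ⊢
  have e4 : 1 ≤ E ^ 2 * (T / (4 * Y ^ 2)) := by
    rw [← mul_div_assoc, le_div_iff₀ (by positivity)]
    nlinarith
  have e5 : T / (4 * Y ^ 2) * (T / (4 * Y ^ 2)) ^ ε ≤ E ^ 2 * (T / (4 * Y ^ 2)) := by
    rw [mul_comm]
    refine mul_le_mul_of_nonneg_right (e2.trans ?_) (by positivity)
    nlinarith
  rw [e1]
  have e6 : E ^ 2 * (T / Y ^ 2) = 4 * (E ^ 2 * (T / (4 * Y ^ 2))) := by field_simp
  rw [e6]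
  linarith [show 0 ≤ E ^ 2 * (T / (4 * Y ^ 2)) by positivity]

/-- the algebra of one block -/
theorem lv_alg {T Y G E T₀ R : ℝ} (hT : 0 < T) (hY : 0 < Y) (hG : 0 < G) (hE : 1 ≤ E) (hGY : G ≤ 2 * E * Y)
    (hT0 : 0 ≤ T₀) (hR : 0 ≤ R) :
    T / Y ^ 2 * (R / Y + R / G + R ^ 2 * Y / T + R ^ 2 * √(T₀ * Y) / T) ≤
      12 * E ^ 3 * (T * R / G ^ 3 + R ^ 2 / G + R ^ 2 * √(T₀ * G) / G ^ 2) := by
  have hE0 : 0 < E := by linarith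
  have h1 : 1 / Y ≤ 2 * E / G := by
    rw [div_le_div_iff₀ hY hG]; linarith
  have h1' : 0 ≤ 1 / Y := by positivity
  have h2 : (1 / Y) ^ 2 ≤ (2 * E / G) ^ 2 := pow_le_pow_left₀ h1' h1 2
  have h3 : (1 / Y) ^ 3 ≤ (2 * E / G) ^ 3 := pow_le_pow_left₀ h1' h1 3
  have hE2 : 1 ≤ E ^ 2 := by nlinarith
  have hE3 : E ^ 2 ≤ E ^ 3 := by nlinarith
  have hE13 : E ≤ E ^ 3 := by nlinarith
  have a1 : T / Y ^ 2 * (R / Y) ≤ 8 * E ^ 3 * (T * R / G ^ 3) := by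
    have : T / Y ^ 2 * (R / Y) = T * R * (1 / Y) ^ 3 := by field_simp
    rw [this]
    calc T * R * (1 / Y) ^ 3 ≤ T * R * (2 * E / G) ^ 3 := mul_le_mul_of_nonneg_left h3 (by positivity)
      _ = _ := by field_simp; ring
  have a2 : T / Y ^ 2 * (R / G) ≤ 4 * E ^ 3 * (T * R / G ^ 3) := by
    have : T / Y ^ 2 * (R / G) = T * R / G * (1 / Y) ^ 2 := by field_simp
    rw [this]
    calc T * R / G * (1 / Y) ^ 2 ≤ T * R / G * (2 * E / G) ^ 2 := mul_le_mul_of_nonneg_left h2 (by positivity)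
      _ = 4 * E ^ 2 * (T * R / G ^ 3) := by field_simp; ring
      _ ≤ _ := mul_le_mul_of_nonneg_right (by linarith) (by positivity)
  have a3 : T / Y ^ 2 * (R ^ 2 * Y / T) ≤ 2 * E ^ 3 * (R ^ 2 / G) := by
    have : T / Y ^ 2 * (R ^ 2 * Y / T) = R ^ 2 * (1 / Y) := by field_simp
    rw [this]
    calc R ^ 2 * (1 / Y) ≤ R ^ 2 * (2 * E / G) := mul_le_mul_of_nonneg_left h1 (by positivity)
      _ = 2 * E * (R ^ 2 / G) := by field_simp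
      _ ≤ _ := mul_le_mul_of_nonneg_right (by linarith) (by positivity)
  have b1 : √(T₀ * Y) / Y ≤ 2 * E * (√(T₀ * G) / G) := by
    have c1 : √(T₀ * Y) / Y = √(T₀ / Y) := by
      have : T₀ * Y = T₀ / Y * Y ^ 2 := by field_simp
      rw [this, Real.sqrt_mul (by positivity), Real.sqrt_sq hY.le]
      field_simp
    have c2 : √(T₀ * G) / G = √(T₀ / G) := by
      have : T₀ * G = T₀ / G * G ^ 2 := by field_simp
      rw [this, Real.sqrt_mul (by positivity), Real.sqrt_sq hG.le]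
      field_simp
    have c3 : 2 * E * √(T₀ / G) = √((2 * E) ^ 2 * (T₀ / G)) := by
      rw [Real.sqrt_mul (by positivity), Real.sqrt_sq (by positivity)]
    rw [c1, c2, c3]
    refine Real.sqrt_le_sqrt ?_
    calc T₀ / Y = T₀ * (1 / Y) := by ring
      _ ≤ T₀ * (2 * E / G) := mul_le_mul_of_nonneg_left h1 hT0
      _ = 2 * E * (T₀ / G) := by ring
      _ ≤ _ := mul_le_mul_of_nonneg_right (by nlinarith) (by positivity)
  have a4 : T / Y ^ 2 * (R ^ 2 * √(T₀ * Y) / T) ≤ 4 * E ^ 3 * (R ^ 2 * √(T₀ * G) / G ^ 2) := by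
    have : T / Y ^ 2 * (R ^ 2 * √(T₀ * Y) / T) = R ^ 2 * ((1 / Y) * (√(T₀ * Y) / Y)) := by field_simp
    rw [this]
    calc R ^ 2 * ((1 / Y) * (√(T₀ * Y) / Y)) ≤ R ^ 2 * ((2 * E / G) * (2 * E * (√(T₀ * G) / G))) := by
          refine mul_le_mul_of_nonneg_left (mul_le_mul h1 b1 (by positivity) (by positivity)) (by positivity)
      _ = 4 * E ^ 2 * (R ^ 2 * √(T₀ * G) / G ^ 2) := by field_simp; ring
      _ ≤ _ := mul_le_mul_of_nonneg_right (by linarith) (by positivity)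
  have n1 : 0 ≤ E ^ 3 * (R ^ 2 / G) := by positivity
  have n2 : 0 ≤ E ^ 3 * (R ^ 2 * √(T₀ * G) / G ^ 2) := by positivity
  calc T / Y ^ 2 * (R / Y + R / G + R ^ 2 * Y / T + R ^ 2 * √(T₀ * Y) / T)
      = T / Y ^ 2 * (R / Y) + T / Y ^ 2 * (R / G) + T / Y ^ 2 * (R ^ 2 * Y / T) +
          T / Y ^ 2 * (R ^ 2 * √(T₀ * Y) / T) := by ring
    _ ≤ 8 * E ^ 3 * (T * R / G ^ 3) + 4 * E ^ 3 * (T * R / G ^ 3) + 2 * E ^ 3 * (R ^ 2 / G) +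
          4 * E ^ 3 * (R ^ 2 * √(T₀ * G) / G ^ 2) := by linarith
    _ ≤ 12 * E ^ 3 * (T * R / G ^ 3 + R ^ 2 / G + R ^ 2 * √(T₀ * G) / G ^ 2) := by linarith

theorem lv_block (ε : ℝ) (hε : 0 < ε) (hε1 : ε ≤ 1 / 200) : ∃ C T₁ : ℝ, 0 ≤ C ∧ 1 ≤ T₁ ∧ ∀ T : ℝ, T₁ ≤ T → ∀ G : ℝ,
    T ^ ((1 : ℝ) / 5) ≤ G → ∀ j : ℕ, G * T ^ (-ε) / 2 ≤ Yb T ε j → ∀ (T₀ : ℝ) (S : Finset ℝ), 0 ≤ T₀ → T₀ ≤ T →
    (∀ t ∈ S, T ≤ t ∧ t ≤ 2 * T) → (∀ t ∈ S, ∀ t' ∈ S, |t - t'| ≤ T₀) →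
    (∀ t ∈ S, ∀ t' ∈ S, t ≠ t' → G ≤ |t - t'|) →
    ‖∑ t ∈ S, LamH G t (4 * Yb T ε j ^ 2 / T) (2 * Yb T ε j) (Yb T ε j)‖ ^ 2 ≤ C * (T ^ ε) ^ 8 *
      (T * S.card / G ^ 3 + (S.card : ℝ) ^ 2 / G + (S.card : ℝ) ^ 2 * √(T₀ * G) / G ^ 2) := by
  obtain ⟨C1, hC1, h1⟩ := gram_sum
  obtain ⟨C2, hC2, h2⟩ := lv_dv ε hε
  obtain ⟨T2, hT2⟩ := lv_ev ε (1 / 5) 20 (by linarith)
  obtain ⟨T3, hT3⟩ := lv_ev (1 / 2 + ε) 1 20 (by linarith)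
  obtain ⟨K, hK⟩ : ∃ K : ℝ, K = 1 + 1 / ε := ⟨_, rfl⟩
  have hK0 : 0 ≤ K := by rw [hK]; positivity
  refine ⟨24 * C1 * C2 * K ^ 2, max 1 (max T2 T3), by positivity, le_max_left _ _, ?_⟩
  intro T hT G hG j hj T₀ S hT0 hT0T hS hd hsep
  have hT1 : 1 ≤ T := (le_max_left _ _).trans hT
  have hTp : 0 < T := by linarith
  have hTa := hT2 T ((le_max_left _ _).trans ((le_max_right _ _).trans hT))
  have hTb := hT3 T ((le_max_right _ _).trans ((le_max_right _ _).trans hT))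
  rw [Real.rpow_one] at hTb
  have hE1 : 1 ≤ T ^ ε := Real.one_le_rpow hT1 hε.le
  have hG1 : 1 ≤ G := (Real.one_le_rpow hT1 (by norm_num)).trans hG
  have hG0 : 0 < G := by linarith
  have hYp := pb_pos hTp ε j
  have hY2 : 2 * Yb T ε j ≤ T ^ (1 / 2 + ε) := by
    have h3 := pb_anti hTp ε (Nat.zero_le j)
    have h4 : Yb T ε 0 = T ^ (1 / 2 + ε) / 2 := by unfold Yb; norm_num
    rw [h4] at h3
    linarith
  have hlog := pb_log hT1 hε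
  rw [← hK] at hlog
  rw [Real.rpow_neg hTp.le] at hj
  have hlog0 : 0 ≤ 1 + Real.log T := by linarith [Real.log_nonneg hT1]
  have h2' := fun hh => h2 T (Yb T ε j) hT1 hh hY2
  obtain ⟨E, hE⟩ : ∃ E : ℝ, E = T ^ ε := ⟨_, rfl⟩
  rw [← hE] at hE1 hTa hj hlog h2' ⊢
  have hE0 : 0 < E := by linarith
  obtain ⟨Y, hY⟩ : ∃ Y : ℝ, Y = Yb T ε j := ⟨_, rfl⟩
  rw [← hY] at hYp hY2 hj h2' ⊢
  have hGY : G ≤ 2 * E * Y := by
    have h5 : G * E⁻¹ / 2 * (2 * E) = G := by field_simp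
    have h6 := mul_le_mul_of_nonneg_right hj (by positivity : 0 ≤ 2 * E)
    rw [h5] at h6
    linarith
  have hY10 : 10 ≤ Y := by
    have h5 : 20 * E ≤ 2 * E * Y := by linarith
    nlinarith
  have hm := h1 T Y G (2 * E) T₀ S hY10 (by linarith) (by linarith) hG1 hGY hT0 hT0T hS hd hsep
  have hD := h2' (by linarith)
  obtain ⟨R, hR⟩ : ∃ R : ℝ, R = (S.card : ℝ) := ⟨_, rfl⟩
  rw [← hR] at hm ⊢
  have hR0 : 0 ≤ R := by rw [hR]; positivity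
  have hA := lv_alg (T := T) (Y := Y) (G := G) (E := E) (T₀ := T₀) (R := R) hTp hYp hG0 hE1 hGY hT0 hR0
  have hl2 : (1 + Real.log T) ^ 2 ≤ (K * E) ^ 2 := pow_le_pow_left₀ hlog0 hlog 2
  refine hm.trans ?_
  obtain ⟨A, hA'⟩ : ∃ A : ℝ, A = R / Y + R / G + R ^ 2 * Y / T + R ^ 2 * √(T₀ * Y) / T := ⟨_, rfl⟩
  obtain ⟨B, hB'⟩ : ∃ B : ℝ, B = T * R / G ^ 3 + R ^ 2 / G + R ^ 2 * √(T₀ * G) / G ^ 2 := ⟨_, rfl⟩
  rw [← hA', ← hB'] at hA ⊢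
  have hA0 : 0 ≤ A := by rw [hA']; positivity
  have hD0 : 0 ≤ ∑' n : ℕ, dv n ^ 2 * Real.exp (-(4 * Real.pi * (4 * Y ^ 2 / T) * n)) :=
    tsum_nonneg fun n => by positivity
  calc C1 * (2 * E) * (1 + Real.log T) ^ 2 *
        (∑' n : ℕ, dv n ^ 2 * Real.exp (-(4 * Real.pi * (4 * Y ^ 2 / T) * n))) * A
      ≤ C1 * (2 * E) * (K * E) ^ 2 * (C2 * (E ^ 2 * (T / Y ^ 2))) * A := by
        refine mul_le_mul_of_nonneg_right ?_ hA0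
        exact mul_le_mul (mul_le_mul_of_nonneg_left hl2 (by positivity)) hD hD0 (by positivity)
    _ = C1 * (2 * E) * (K * E) ^ 2 * C2 * E ^ 2 * (T / Y ^ 2 * A) := by ring
    _ ≤ C1 * (2 * E) * (K * E) ^ 2 * C2 * E ^ 2 * (12 * E ^ 3 * B) := mul_le_mul_of_nonneg_left hA (by positivity)
    _ = 24 * C1 * C2 * K ^ 2 * E ^ 8 * B := by ring

theorem lv_small (ε : ℝ) (hε : 0 < ε) (hε1 : ε ≤ 1 / 200) : ∃ C T₁ : ℝ, 0 ≤ C ∧ 1 ≤ T₁ ∧ ∀ T : ℝ, T₁ ≤ T → ∀ G W : ℝ,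
    T ^ ((1 : ℝ) / 5) ≤ G → G ≤ T ^ ((1 : ℝ) / 2) → (T ^ ε) ^ 3 * G ≤ W → ∀ (T₀ : ℝ) (S : Finset ℝ), 0 ≤ T₀ → T₀ ≤ T →
    (∀ t ∈ S, T ≤ t ∧ t ≤ 2 * T) → (∀ t ∈ S, ∀ t' ∈ S, |t - t'| ≤ T₀) →
    (∀ t ∈ S, ∀ t' ∈ S, t ≠ t' → G ≤ |t - t'|) →
    (∀ t ∈ S, W ≤ ∫ u in (t - G)..(t + G), z2 u) →
    ((S.card : ℝ) * W) ^ 2 ≤ C * (T ^ ε) ^ 10 *
      (T * S.card / G + (S.card : ℝ) ^ 2 * G + (S.card : ℝ) ^ 2 * √(T₀ * G)) := by
  obtain ⟨C1, C2, hC1, hC2, hloc⟩ := local_ms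
  obtain ⟨C3, T3, hC3, hT3, hpath⟩ := path ε hε (by linarith)
  obtain ⟨C4, T4, hC4, hT4, hblock⟩ := lv_block ε hε hε1
  obtain ⟨T5, hT5⟩ := lv_ev 0 ε (4 * (C1 * C3)) hε
  obtain ⟨T6, hT6⟩ := lv_ev 0 ε (4 * C2) hε
  obtain ⟨K, hK⟩ : ∃ K : ℝ, K = 1 + 1 / ε := ⟨_, rfl⟩
  have hK0 : 0 ≤ K := by rw [hK]; positivity
  refine ⟨4 * C1 ^ 2 * (C3 * K) ^ 2 * C4, max (max T3 T4) (max T5 T6), by positivity,
    hT3.trans ((le_max_left _ _).trans (le_max_left _ _)), ?_⟩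
  intro T hT G W hG hG2 hW T₀ S hT0 hT0T hS hd hsep hlarge
  have ha : T3 ≤ T := ((le_max_left _ _).trans (le_max_left _ _)).trans hT
  have hb : T4 ≤ T := ((le_max_right _ _).trans (le_max_left _ _)).trans hT
  have hc : T5 ≤ T := ((le_max_left _ _).trans (le_max_right _ _)).trans hT
  have hd' : T6 ≤ T := ((le_max_right _ _).trans (le_max_right _ _)).trans hT
  have hT1 : 1 ≤ T := hT3.trans ha
  have hTp : 0 < T := by linarith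
  have k1 := hT5 T hc
  have k2 := hT6 T hd'
  rw [Real.rpow_zero, mul_one] at k1 k2
  have hG1 : 1 ≤ G := (Real.one_le_rpow hT1 (by norm_num)).trans hG
  have hG0 : 0 < G := by linarith
  have hGT : G ≤ T := by
    refine hG2.trans ?_
    nth_rewrite 2 [← Real.rpow_one T]
    exact Real.rpow_le_rpow_of_exponent_le hT1 (by norm_num)
  obtain ⟨J, hJ, hJ1, hJ2⟩ := hpath T ha G hG hG2
  have hlog := pb_log hT1 hε
  rw [← hK] at hlog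
  have hE1 : 1 ≤ T ^ ε := Real.one_le_rpow hT1 hε.le
  have he2 : T ^ (2 * ε) = (T ^ ε) ^ 2 := by rw [lv_pw hTp]; norm_num
  rw [he2] at hJ2
  have hbl := fun j hj => hblock T hb G hG j (hJ1 j hj) T₀ S hT0 hT0T hS hd hsep
  obtain ⟨E, hE⟩ : ∃ E : ℝ, E = T ^ ε := ⟨_, rfl⟩
  rw [← hE] at hE1 k1 k2 hlog hJ2 hW hbl ⊢
  have hE0 : 0 < E := by linarith
  obtain ⟨R, hR⟩ : ∃ R : ℝ, R = (S.card : ℝ) := ⟨_, rfl⟩
  rw [← hR] at hbl ⊢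
  have hR0 : 0 ≤ R := by rw [hR]; positivity
  obtain ⟨B, hB⟩ : ∃ B : ℝ, B = T * R / G ^ 3 + R ^ 2 / G + R ^ 2 * √(T₀ * G) / G ^ 2 := ⟨_, rfl⟩
  rw [← hB] at hbl
  have hB0 : 0 ≤ B := by rw [hB]; positivity
  obtain ⟨M, hM⟩ : ∃ M : ℝ, M = √(C4 * E ^ 8 * B) := ⟨_, rfl⟩
  have hM0 : 0 ≤ M := by rw [hM]; exact Real.sqrt_nonneg _
  have hM2 : M ^ 2 = C4 * E ^ 8 * B := by rw [hM]; exact Real.sq_sqrt (by positivity)
  let P : ℕ → ℝ → ℂ := fun j t => LamH G t (4 * Yb T ε j ^ 2 / T) (2 * Yb T ε j) (Yb T ε j)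
  have hPj : ∀ j ∈ Finset.range J, ‖∑ t ∈ S, P j t‖ ≤ M := by
    intro j hj
    rw [hM]
    exact Real.le_sqrt_of_sq_le (hbl j (Finset.mem_range.1 hj))
  have hsumQ : ‖∑ t ∈ S, (-QQ G t (I / (4 * T)))‖ ≤ R * (C3 * E ^ 2) + J * M := by
    have e1 : ∑ t ∈ S, (-QQ G t (I / (4 * T))) =
        ∑ t ∈ S, (-QQ G t (I / (4 * T)) - ∑ j ∈ Finset.range J, P j t) +
          ∑ j ∈ Finset.range J, ∑ t ∈ S, P j t := by
      rw [Finset.sum_comm, ← Finset.sum_add_distrib]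
      exact Finset.sum_congr rfl fun t _ => by ring
    rw [e1]
    refine (norm_add_le _ _).trans (add_le_add ?_ ?_)
    · refine (norm_sum_le _ _).trans ?_
      refine (Finset.sum_le_card_nsmul _ _ _ fun t ht => hJ2 t (hS t ht).1 (hS t ht).2).trans ?_
      rw [nsmul_eq_mul, ← hR]
    · refine (norm_sum_le _ _).trans ?_
      refine (Finset.sum_le_card_nsmul _ _ _ hPj).trans ?_
      rw [nsmul_eq_mul, Finset.card_range]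
  have hRW : R * W ≤ C1 * (G * (R * (C3 * E ^ 2) + J * M)) + R * C2 := by
    have e1 : R * W ≤ ∑ t ∈ S, ∫ u in (t - G)..(t + G), z2 u := by
      have := Finset.card_nsmul_le_sum S _ W hlarge
      rw [nsmul_eq_mul, ← hR] at this
      exact this
    have e2 : ∑ t ∈ S, ∫ u in (t - G)..(t + G), z2 u ≤
        ∑ t ∈ S, (C1 * (G * (-QQ G t (I / (4 * T))).re) + C2) :=
      Finset.sum_le_sum fun t ht => hloc T G t hG1 hGT (hS t ht).1 (hS t ht).2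
    have e3 : ∑ t ∈ S, (C1 * (G * (-QQ G t (I / (4 * T))).re) + C2) =
        C1 * (G * (∑ t ∈ S, (-QQ G t (I / (4 * T)))).re) + R * C2 := by
      rw [Finset.sum_add_distrib, ← Finset.mul_sum, ← Finset.mul_sum, Complex.re_sum, Finset.sum_const,
        nsmul_eq_mul, ← hR]
    rw [e3] at e2
    refine e1.trans (e2.trans ?_)
    have e4 := (Complex.re_le_norm (∑ t ∈ S, (-QQ G t (I / (4 * T))))).trans hsumQ
    have e5 := mul_le_mul_of_nonneg_left (mul_le_mul_of_nonneg_left e4 hG0.le) hC1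
    linarith
  have hW2 : C1 * (G * (C3 * E ^ 2)) + C2 ≤ W / 2 := by
    have f1 : 4 * (C1 * C3) * (E ^ 2 * G) ≤ E * (E ^ 2 * G) := mul_le_mul_of_nonneg_right k1 (by positivity)
    have f2 : 1 ≤ E ^ 2 * G := by nlinarith [mul_self_nonneg (E - 1)]
    have f3 : 4 * C2 * 1 ≤ E * (E ^ 2 * G) := mul_le_mul k2 f2 zero_le_one hE0.le
    have f4 : E * (E ^ 2 * G) = E ^ 3 * G := by ring
    rw [f4] at f1 f3
    have f5 : C1 * (G * (C3 * E ^ 2)) = (4 * (C1 * C3) * (E ^ 2 * G)) / 4 := by ring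
    rw [f5]
    linarith
  have hRW2 : R * W ≤ 2 * (C1 * (G * (J * M))) := by
    have := mul_le_mul_of_nonneg_left hW2 hR0
    nlinarith
  have hJ' : (J : ℝ) ≤ C3 * K * E := by
    refine hJ.trans ?_
    have := mul_le_mul_of_nonneg_left hlog hC3
    linarith
  have hW0 : 0 ≤ W := le_trans (by positivity) hW
  have hRW3 : R * W ≤ 2 * (C1 * (G * (C3 * K * E * M))) := by
    refine hRW2.trans ?_
    refine mul_le_mul_of_nonneg_left (mul_le_mul_of_nonneg_left (mul_le_mul_of_nonneg_left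
      (mul_le_mul_of_nonneg_right hJ' hM0) hG0.le) hC1) (by norm_num)
  have h9 := pow_le_pow_left₀ (by positivity : 0 ≤ R * W) hRW3 2
  refine h9.trans (le_of_eq ?_)
  have h10 : (2 * (C1 * (G * (C3 * K * E * M)))) ^ 2 = 4 * C1 ^ 2 * (C3 * K) ^ 2 * (G ^ 2 * E ^ 2 * M ^ 2) := by ring
  rw [h10, hM2, hB]
  field_simp

theorem lv_abs (ε : ℝ) (hε : 0 < ε) (hε1 : ε ≤ 1 / 200) : ∃ C T₁ : ℝ, 0 ≤ C ∧ 1 ≤ T₁ ∧ ∀ T : ℝ, T₁ ≤ T → ∀ G W : ℝ,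
    T ^ ((1 : ℝ) / 5) ≤ G → G ≤ T ^ ((1 : ℝ) / 2) → (T ^ ε) ^ 3 * G ≤ W → ∀ (T₀ : ℝ) (S : Finset ℝ), 0 ≤ T₀ → T₀ ≤ T →
    T₀ ≤ W ^ 4 / ((T ^ ε) ^ 22 * G) →
    (∀ t ∈ S, T ≤ t ∧ t ≤ 2 * T) → (∀ t ∈ S, ∀ t' ∈ S, |t - t'| ≤ T₀) →
    (∀ t ∈ S, ∀ t' ∈ S, t ≠ t' → G ≤ |t - t'|) →
    (∀ t ∈ S, W ≤ ∫ u in (t - G)..(t + G), z2 u) →
    (S.card : ℝ) ≤ C * (T ^ ε) ^ 10 * (T / (G * W ^ 2)) := by
  obtain ⟨C, T3, hC, hT3, hsm⟩ := lv_small ε hε hε1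
  obtain ⟨T4, hT4⟩ := lv_ev (4 * ε) (1 / 5) (4 * C) (by linarith)
  obtain ⟨T5, hT5⟩ := lv_ev 0 ε (4 * C) hε
  refine ⟨2 * C, max T3 (max T4 T5), by positivity, hT3.trans (le_max_left _ _), ?_⟩
  intro T hT G W hG hG2 hW T₀ S hT0 hT0T hT0W hS hd hsep hlarge
  have ha : T3 ≤ T := (le_max_left _ _).trans hT
  have hb : T4 ≤ T := ((le_max_left _ _).trans (le_max_right _ _)).trans hT
  have hc : T5 ≤ T := ((le_max_right _ _).trans (le_max_right _ _)).trans hT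
  have hT1 : 1 ≤ T := hT3.trans ha
  have hTp : 0 < T := by linarith
  have k1 := hT4 T hb
  have k2 := hT5 T hc
  rw [Real.rpow_zero, mul_one] at k2
  have he4 : T ^ (4 * ε) = (T ^ ε) ^ 4 := by rw [lv_pw hTp]; norm_num
  rw [he4] at k1
  have hG1 : 1 ≤ G := (Real.one_le_rpow hT1 (by norm_num)).trans hG
  have hG0 : 0 < G := by linarith
  have hE1 : 1 ≤ T ^ ε := Real.one_le_rpow hT1 hε.le
  have h1 := hsm T ha G W hG hG2 hW T₀ S hT0 hT0T hS hd hsep hlarge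
  have k1' := k1.trans hG
  obtain ⟨E, hE⟩ : ∃ E : ℝ, E = T ^ ε := ⟨_, rfl⟩
  rw [← hE] at hE1 k1' k2 hW hT0W h1 ⊢
  have hE0 : 0 < E := by linarith
  have hW0 : 0 < W := lt_of_lt_of_le (by positivity) hW
  obtain ⟨R, hR⟩ : ∃ R : ℝ, R = (S.card : ℝ) := ⟨_, rfl⟩
  rw [← hR] at h1 ⊢
  have hR0 : 0 ≤ R := by rw [hR]; positivity
  have f1 : 4 * C * E ^ 10 * G ≤ W ^ 2 := by
    have g1 : (E ^ 3 * G) ^ 2 ≤ W ^ 2 := pow_le_pow_left₀ (by positivity) hW 2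
    have g2 : 4 * C * E ^ 4 * (E ^ 6 * G) ≤ G * (E ^ 6 * G) := mul_le_mul_of_nonneg_right k1' (by positivity)
    calc 4 * C * E ^ 10 * G = 4 * C * E ^ 4 * (E ^ 6 * G) := by ring
      _ ≤ G * (E ^ 6 * G) := g2
      _ = (E ^ 3 * G) ^ 2 := by ring
      _ ≤ W ^ 2 := g1
  have f2 : √(T₀ * G) ≤ W ^ 2 / E ^ 11 := by
    refine Real.sqrt_le_iff.2 ⟨by positivity, ?_⟩
    have g1 := mul_le_mul_of_nonneg_right hT0W hG0.le
    refine g1.trans (le_of_eq ?_)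
    field_simp
  have f3 : 4 * C * E ^ 10 * √(T₀ * G) ≤ W ^ 2 := by
    have g1 : 4 * C * E ^ 10 * √(T₀ * G) ≤ E * E ^ 10 * (W ^ 2 / E ^ 11) :=
      mul_le_mul (mul_le_mul_of_nonneg_right k2 (by positivity)) f2 (Real.sqrt_nonneg _) (by positivity)
    refine g1.trans (le_of_eq ?_)
    field_simp
  have f4 : R ^ 2 * W ^ 2 ≤ 2 * (C * E ^ 10 * (T * R / G)) := by
    have g1 := mul_le_mul_of_nonneg_left f1 (sq_nonneg R)
    have g2 := mul_le_mul_of_nonneg_left f3 (sq_nonneg R)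
    have g3 : (R * W) ^ 2 = R ^ 2 * W ^ 2 := by ring
    rw [g3] at h1
    have g4 : C * E ^ 10 * (T * R / G + R ^ 2 * G + R ^ 2 * √(T₀ * G)) =
        C * E ^ 10 * (T * R / G) + (R ^ 2 * (4 * C * E ^ 10 * G)) / 4 + (R ^ 2 * (4 * C * E ^ 10 * √(T₀ * G))) / 4 := by
      ring
    rw [g4] at h1
    linarith
  rcases eq_or_lt_of_le hR0 with h0 | h0
  · rw [← h0]; positivity
  · have g1 : R * (W ^ 2 * G) ≤ 2 * C * E ^ 10 * T := by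
      have g2 : R * (R * W ^ 2) ≤ R * (2 * (C * E ^ 10 * (T / G))) := by
        calc R * (R * W ^ 2) = R ^ 2 * W ^ 2 := by ring
          _ ≤ 2 * (C * E ^ 10 * (T * R / G)) := f4
          _ = _ := by ring
      have g3 := le_of_mul_le_mul_left g2 h0
      have g4 := mul_le_mul_of_nonneg_right g3 hG0.le
      calc R * (W ^ 2 * G) = R * W ^ 2 * G := by ring
        _ ≤ 2 * (C * E ^ 10 * (T / G)) * G := g4
        _ = 2 * C * E ^ 10 * T := by field_simp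
    rw [← mul_div_assoc, le_div_iff₀ (by positivity)]
    linarith

/-- covering by short intervals -/
theorem lv_cover {T T₀ M : ℝ} (hT0 : 0 < T₀) (hM : 0 ≤ M) (S : Finset ℝ)
    (hS : ∀ t ∈ S, T ≤ t ∧ t ≤ 2 * T)
    (h : ∀ S' : Finset ℝ, S' ⊆ S → (∀ t ∈ S', ∀ t' ∈ S', |t - t'| ≤ T₀) → (S'.card : ℝ) ≤ M) (hT : 0 ≤ T) :
    (S.card : ℝ) ≤ (T / T₀ + 1) * M := by
  classical
  let f : ℝ → ℕ := fun t => ⌊(t - T) / T₀⌋₊
  have hmaps : ∀ t ∈ S, f t ∈ Finset.range (⌊T / T₀⌋₊ + 1) := by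
    intro t ht
    refine Finset.mem_range.2 (Nat.lt_succ_of_le (Nat.floor_le_floor ?_))
    exact div_le_div_of_nonneg_right (by linarith [(hS t ht).2]) hT0.le
  rw [Finset.card_eq_sum_card_fiberwise hmaps]
  push_cast
  have hf : ∀ k ∈ Finset.range (⌊T / T₀⌋₊ + 1), ((S.filter fun t => f t = k).card : ℝ) ≤ M := by
    intro k _
    refine h _ (Finset.filter_subset _ _) ?_
    intro t ht t' ht'
    obtain ⟨h1, h2⟩ := Finset.mem_filter.1 ht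
    obtain ⟨h1', h2'⟩ := Finset.mem_filter.1 ht'
    have a0 : 0 ≤ (t - T) / T₀ := div_nonneg (by linarith [(hS t h1).1]) hT0.le
    have a0' : 0 ≤ (t' - T) / T₀ := div_nonneg (by linarith [(hS t' h1').1]) hT0.le
    have a1 := Nat.floor_le a0
    have a2 := Nat.lt_floor_add_one ((t - T) / T₀)
    have a1' := Nat.floor_le a0'
    have a2' := Nat.lt_floor_add_one ((t' - T) / T₀)
    have b1 : ⌊(t - T) / T₀⌋₊ = k := h2
    have b2 : ⌊(t' - T) / T₀⌋₊ = k := h2'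
    rw [b1] at a1 a2
    rw [b2] at a1' a2'
    rw [le_div_iff₀ hT0] at a1 a1'
    rw [div_lt_iff₀ hT0] at a2 a2'
    rw [abs_le]
    constructor <;> nlinarith
  refine (Finset.sum_le_card_nsmul _ _ _ hf).trans ?_
  rw [nsmul_eq_mul, Finset.card_range]
  refine mul_le_mul_of_nonneg_right ?_ hM
  push_cast
  linarith [Nat.floor_le (div_nonneg hT hT0.le)]

theorem LV (ε : ℝ) (hε : 0 < ε) (hε1 : ε ≤ 1 / 200) : ∃ C T₁ : ℝ, 0 ≤ C ∧ 1 ≤ T₁ ∧ ∀ T : ℝ, T₁ ≤ T → ∀ G W : ℝ,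
    T ^ ((1 : ℝ) / 5) ≤ G → G ≤ T ^ ((1 : ℝ) / 2) → T ^ (3 * ε) * G ≤ W → ∀ S : Finset ℝ,
    (∀ t ∈ S, T ≤ t ∧ t ≤ 2 * T) → (∀ t ∈ S, ∀ t' ∈ S, t ≠ t' → G ≤ |t - t'|) →
    (∀ t ∈ S, W ≤ ∫ u in (t - G)..(t + G), z2 u) →
    (S.card : ℝ) ≤ C * T ^ (40 * ε) * (T / (G * W ^ 2) + T ^ 2 / W ^ 6) := by
  obtain ⟨C, T3, hC, hT3, hab⟩ := lv_abs ε hε hε1
  refine ⟨2 * C, T3, by positivity, hT3, ?_⟩
  intro T hT G W hG hG2 hW S hS hsep hlarge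
  have hT1 : 1 ≤ T := hT3.trans hT
  have hTp : 0 < T := by linarith
  have he3 : T ^ (3 * ε) = (T ^ ε) ^ 3 := by rw [lv_pw hTp]; norm_num
  have he40 : T ^ (40 * ε) = (T ^ ε) ^ 40 := by rw [lv_pw hTp]; norm_num
  rw [he3] at hW
  rw [he40]
  have hG1 : 1 ≤ G := (Real.one_le_rpow hT1 (by norm_num)).trans hG
  have hG0 : 0 < G := by linarith
  have hE1 : 1 ≤ T ^ ε := Real.one_le_rpow hT1 hε.le
  have hab' := hab T hT G W hG hG2 hW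
  obtain ⟨E, hE⟩ : ∃ E : ℝ, E = T ^ ε := ⟨_, rfl⟩
  rw [← hE] at hE1 hW hab' ⊢
  have hE0 : 0 < E := by linarith
  have hW0 : 0 < W := lt_of_lt_of_le (by positivity) hW
  obtain ⟨U, hU⟩ : ∃ U : ℝ, U = W ^ 4 / (E ^ 22 * G) := ⟨_, rfl⟩
  have hU0 : 0 < U := by rw [hU]; positivity
  have hc := lv_cover (T := T) (T₀ := min T U) (M := C * E ^ 10 * (T / (G * W ^ 2))) (lt_min hTp hU0)
    (by positivity) S hS (fun S' hS' hd => hab' (min T U) S' (le_min hTp.le hU0.le) (min_le_left _ _)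
      (by rw [← hU]; exact min_le_right _ _) (fun t ht => hS t (hS' ht)) hd
      (fun t ht t' ht' => hsep t (hS' ht) t' (hS' ht')) (fun t ht => hlarge t (hS' ht))) hTp.le
  have hn : T / min T U ≤ 1 + T / U := by
    rcases le_total T U with h | h
    · rw [min_eq_left h, div_self hTp.ne']
      have : 0 ≤ T / U := by positivity
      linarith
    · rw [min_eq_right h]
      linarith
  have hTU : T / U = T * E ^ 22 * G / W ^ 4 := by rw [hU]; field_simp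
  have hM0 : 0 ≤ C * E ^ 10 * (T / (G * W ^ 2)) := by positivity
  refine hc.trans ?_
  have h1 : (T / min T U + 1) * (C * E ^ 10 * (T / (G * W ^ 2))) ≤
      (2 + T * E ^ 22 * G / W ^ 4) * (C * E ^ 10 * (T / (G * W ^ 2))) := by
    refine mul_le_mul_of_nonneg_right ?_ hM0
    rw [← hTU]; linarith
  refine h1.trans ?_
  have h2 : (2 + T * E ^ 22 * G / W ^ 4) * (C * E ^ 10 * (T / (G * W ^ 2))) =
      2 * C * E ^ 10 * (T / (G * W ^ 2)) + C * E ^ 32 * (T ^ 2 / W ^ 6) := by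
    field_simp
  have h3 : E ^ 10 ≤ E ^ 40 := pow_le_pow_right₀ hE1 (by norm_num)
  have h4 : E ^ 32 ≤ E ^ 40 := pow_le_pow_right₀ hE1 (by norm_num)
  have h5 : 2 * C * E ^ 10 * (T / (G * W ^ 2)) ≤ 2 * C * E ^ 40 * (T / (G * W ^ 2)) :=
    mul_le_mul_of_nonneg_right (mul_le_mul_of_nonneg_left h3 (by positivity)) (by positivity)
  have h6 : C * E ^ 32 * (T ^ 2 / W ^ 6) ≤ 2 * C * E ^ 40 * (T ^ 2 / W ^ 6) := by
    refine mul_le_mul_of_nonneg_right ?_ (by positivity)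
    have := mul_le_mul_of_nonneg_left h4 hC
    have h7 : 0 ≤ C * E ^ 40 := by positivity
    linarith
  rw [h2, mul_add]
  linarith

end Pool.Agent.H15.HB
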