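import Pool.Agent.H15.HB.Defs
import Pool.Agent.H15.SC.MSrep

/-!
# HB-03  moving vertical lines, simple and double pole  (project HB, MP_be4568)

`vshift_c`: as `SC.vshift` (`SC/Shift.lean`, rate 1), by scaling `z ↦ z/c` or by the same rectangle argument.
`res_one`: subtract `G 0 * exp (w²)`: `(G w - G 0 e^{w²})/w` is analytic in the strip (`dslope`), decays, `vshift_c`;
the rest is `SC.residue_formula` (`SC/MSrep.lean`) with `N = 1` (there `∫_b e^{w²}/w - ∫_a e^{w²}/w = 2π`).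
`res_two`: `G w / w² = (G w - G 0 e^{w²})/w² + G 0 e^{w²}/w²`; the first is `res_one` for the dslope, whose value at `0` is
`deriv G 0`; the second: `e^{w²}/w²` is even, so its integrals over the lines `b` and `-b` agree, and `vshift_c`
moves `-b` to `a`.
-/

set_option autoImplicit false

open Complex Filter Topology MeasureTheory Set
open scoped ComplexConjugate

namespace Pool.Agent.H15.HB

theorem vshift_c (G : ℂ → ℂ) (a b C c : ℝ) (hab : a ≤ b) (hc : 0 < c)
    (hG : DifferentiableOn ℂ G {z : ℂ | a ≤ z.re ∧ z.re ≤ b})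
    (hb : ∀ z : ℂ, a ≤ z.re → z.re ≤ b → ‖G z‖ ≤ C * Real.exp (-(c * |z.im|))) :
    ∫ t : ℝ, G (SC.ln a t) = ∫ t : ℝ, G (SC.ln b t) := by
  have hc0 : (c : ℂ) ≠ 0 := by exact_mod_cast hc.ne'
  have hre : ∀ z : ℂ, (z / c).re = z.re / c := fun z => by
    rw [Complex.div_ofReal_re]
  have him : ∀ z : ℂ, (z / c).im = z.im / c := fun z => by
    rw [Complex.div_ofReal_im]
  have key := SC.vshift (fun z => G (z / c)) (a * c) (b * c) C (by nlinarith) ?_ ?_
  · have e : ∀ q : ℝ, (∫ t : ℝ, G (SC.ln (q * c) t / c)) = c * ∫ t : ℝ, G (SC.ln q t) := by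
      intro q
      have h1 : ∀ t : ℝ, G (SC.ln (q * c) t / c) = (fun s : ℝ => G (SC.ln q s)) (t / c) := by
        intro t
        have : SC.ln (q * c) t / c = SC.ln q (t / c) := by
          unfold SC.ln
          push_cast
          field_simp
        rw [this]
      simp_rw [h1]
      rw [Measure.integral_comp_div (fun s : ℝ => G (SC.ln q s)) c, abs_of_pos hc]
      rw [Complex.real_smul]
    rw [e, e] at key
    exact mul_left_cancel₀ hc0 key
  · refine hG.comp (by fun_prop) ?_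
    intro z hz
    have hz' : a * c ≤ z.re ∧ z.re ≤ b * c := hz
    change a ≤ (z / c).re ∧ (z / c).re ≤ b
    rw [hre, le_div_iff₀ hc, div_le_iff₀ hc]
    exact hz'
  · intro z h1 h2
    have h3 := hb (z / c) (by rw [hre, le_div_iff₀ hc]; exact h1)
      (by rw [hre, div_le_iff₀ hc]; exact h2)
    rw [him, abs_div, abs_of_pos hc, mul_div_cancel₀ _ hc.ne'] at h3
    exact h3

/-- `e^{w²}` decays in a strip -/
theorem gauss_dec (a b c : ℝ) (_hc : 0 < c) : ∃ C : ℝ, 0 ≤ C ∧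
    ∀ w : ℂ, a ≤ w.re → w.re ≤ b → ‖cexp (w ^ 2)‖ ≤ C * Real.exp (-(c * |w.im|)) := by
  refine ⟨Real.exp ((|a| + |b|) ^ 2 + c ^ 2), (Real.exp_pos _).le, fun w ha hb => ?_⟩
  rw [Complex.norm_exp, ← Real.exp_add]
  refine Real.exp_le_exp.2 ?_
  have e : (w ^ 2).re = w.re ^ 2 - w.im ^ 2 := by
    rw [sq, mul_re]; ring
  have h4 : |w.re| ≤ |a| + |b| := by
    rw [abs_le]
    constructor
    · linarith [neg_abs_le a, abs_nonneg b]
    · linarith [le_abs_self b, abs_nonneg a]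
  have h5 : w.re ^ 2 ≤ (|a| + |b|) ^ 2 := by
    rw [← sq_abs w.re]
    exact pow_le_pow_left₀ (abs_nonneg _) h4 2
  rw [e, ← sq_abs w.im]
  nlinarith [sq_nonneg (|w.im| - c / 2), sq_nonneg c]

theorem int_exp_c {c : ℝ} (hc : 0 < c) : Integrable (fun p : ℝ => Real.exp (-(c * |p|))) := by
  have h := SC.vs_int.comp_mul_left' hc.ne'
  refine h.congr (Filter.Eventually.of_forall fun p => ?_)
  simp only
  rw [abs_mul, abs_of_pos hc]

/-- integrability on a line of a function with decay, divided by `w^k` -/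
theorem int_line {c q C : ℝ} (hc : 0 < c) (hq : q ≠ 0) (k : ℕ) (f : ℝ → ℂ) (hf : Continuous f)
    (hb : ∀ t : ℝ, ‖f t‖ ≤ C * Real.exp (-(c * |t|))) :
    Integrable (fun t : ℝ => f t / SC.ln q t ^ k) := by
  refine Integrable.mono' (g := fun v : ℝ => C / |q| ^ k * Real.exp (-(c * |v|)))
    ((int_exp_c hc).const_mul _) ?_ ?_
  · refine Continuous.aestronglyMeasurable ?_
    exact hf.div ((SC.MSrep.ln_continuous q).pow k) fun v => pow_ne_zero k (SC.MSrep.ln_ne hq v)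
  · refine Filter.Eventually.of_forall fun v => ?_
    have h3 : |q| ≤ ‖SC.ln q v‖ := by
      have := abs_re_le_norm (SC.ln q v)
      rwa [SC.ln_re] at this
    have h4 : 0 ≤ C * Real.exp (-(c * |v|)) := (norm_nonneg _).trans (hb v)
    rw [norm_div, norm_pow, div_mul_eq_mul_div]
    exact div_le_div₀ h4 (hb v) (by positivity) (pow_le_pow_left₀ (abs_nonneg _) h3 k)

/-- the function `(M w)/w`, extended to `0`: analytic in the strip, decays -/
theorem dslope_strip (M : ℂ → ℂ) (a b C c : ℝ) (ha : a < 0) (hb : 0 < b)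
    (hM : DifferentiableOn ℂ M {z : ℂ | a ≤ z.re ∧ z.re ≤ b})
    (hbd : ∀ z : ℂ, a ≤ z.re → z.re ≤ b → ‖M z‖ ≤ C * Real.exp (-(c * |z.im|)))
    (hM0 : M 0 = 0) :
    DifferentiableOn ℂ (dslope M 0) {z : ℂ | a ≤ z.re ∧ z.re ≤ b} ∧
    (∀ w : ℂ, w ≠ 0 → dslope M 0 w = M w / w) ∧
    dslope M 0 0 = deriv M 0 ∧
    ∃ C' : ℝ, ∀ z : ℂ, a ≤ z.re → z.re ≤ b → ‖dslope M 0 z‖ ≤ C' * Real.exp (-(c * |z.im|)) := by
  have hnhds : {z : ℂ | a ≤ z.re ∧ z.re ≤ b} ∈ 𝓝 (0 : ℂ) := by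
    have h1 : {z : ℂ | a < z.re} ∩ {z : ℂ | z.re < b} ∈ 𝓝 (0 : ℂ) := by
      refine Filter.inter_mem ?_ ?_
      · exact (isOpen_lt continuous_const Complex.continuous_re).mem_nhds (by simpa using ha)
      · exact (isOpen_lt Complex.continuous_re continuous_const).mem_nhds (by simpa using hb)
    exact Filter.mem_of_superset h1 fun z hz => ⟨le_of_lt hz.1, le_of_lt hz.2⟩
  have hds : DifferentiableOn ℂ (dslope M 0) {z : ℂ | a ≤ z.re ∧ z.re ≤ b} :=
    (Complex.differentiableOn_dslope hnhds).2 hM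
  have hd : ∀ w : ℂ, w ≠ 0 → dslope M 0 w = M w / w := by
    intro w hw
    rw [dslope_of_ne _ hw, slope_def_field, hM0, sub_zero, sub_zero]
  refine ⟨hds, hd, dslope_same _ _, ?_⟩
  have hC : 0 ≤ C := by
    have h1 := hbd 0 (by simpa using ha.le) (by simpa using hb.le)
    have h2 := (norm_nonneg _).trans h1
    by_contra h3
    have h4 := mul_neg_of_neg_of_pos (not_le.1 h3) (Real.exp_pos (-(c * |(0 : ℂ).im|)))
    linarith
  obtain ⟨B, hB⟩ : ∃ B : ℝ, ∀ w ∈ (Icc a b) ×ℂ (Icc (-1) 1), ‖dslope M 0 w‖ ≤ B :=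
    IsCompact.exists_bound_of_continuousOn (isCompact_Icc.reProdIm isCompact_Icc)
      (hds.continuousOn.mono fun z hz => (mem_reProdIm.1 hz).1)
  refine ⟨C + max B 0 * Real.exp |c|, ?_⟩
  intro w h2 h3
  rcases le_total |w.im| 1 with h4 | h4
  · have h5 : ‖dslope M 0 w‖ ≤ max B 0 :=
      (hB w (mem_reProdIm.2 ⟨⟨h2, h3⟩, abs_le.1 h4⟩)).trans (le_max_left _ _)
    have h6 : (1 : ℝ) ≤ Real.exp |c| * Real.exp (-(c * |w.im|)) := by
      rw [← Real.exp_add, Real.one_le_exp_iff]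
      have h7 : c * |w.im| ≤ |c| * 1 := by
        calc c * |w.im| ≤ |c| * |w.im| := mul_le_mul_of_nonneg_right (le_abs_self c) (abs_nonneg _)
          _ ≤ |c| * 1 := mul_le_mul_of_nonneg_left h4 (abs_nonneg _)
      linarith
    calc ‖dslope M 0 w‖ ≤ max B 0 * 1 := by rw [mul_one]; exact h5
      _ ≤ max B 0 * (Real.exp |c| * Real.exp (-(c * |w.im|))) :=
          mul_le_mul_of_nonneg_left h6 (le_max_right _ _)
      _ ≤ _ := by
          have := mul_nonneg hC (Real.exp_pos (-(c * |w.im|))).le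
          linarith
  · have hw : 1 ≤ ‖w‖ := h4.trans (abs_im_le_norm w)
    have hw0 : w ≠ 0 := by
      intro h; rw [h, norm_zero] at hw; linarith
    rw [hd w hw0, norm_div]
    calc ‖M w‖ / ‖w‖ ≤ ‖M w‖ := div_le_self (norm_nonneg _) hw
      _ ≤ C * Real.exp (-(c * |w.im|)) := hbd w h2 h3
      _ ≤ _ := by
          have h8 : 0 ≤ max B 0 * Real.exp |c| * Real.exp (-(c * |w.im|)) := by positivity
          linarith

/-- `G w - G 0 e^{w²}` -/
theorem sub_dec (G : ℂ → ℂ) (a b C c : ℝ) (hc : 0 < c)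
    (hG : DifferentiableOn ℂ G {z : ℂ | a ≤ z.re ∧ z.re ≤ b})
    (hbd : ∀ z : ℂ, a ≤ z.re → z.re ≤ b → ‖G z‖ ≤ C * Real.exp (-(c * |z.im|))) :
    DifferentiableOn ℂ (fun w => G w - G 0 * cexp (w ^ 2)) {z : ℂ | a ≤ z.re ∧ z.re ≤ b} ∧
    ∃ C' : ℝ, ∀ z : ℂ, a ≤ z.re → z.re ≤ b →
      ‖G z - G 0 * cexp (z ^ 2)‖ ≤ C' * Real.exp (-(c * |z.im|)) := by
  obtain ⟨B, hB, h1⟩ := gauss_dec a b c hc
  refine ⟨hG.sub (by fun_prop), C + ‖G 0‖ * B, fun z h2 h3 => ?_⟩
  calc ‖G z - G 0 * cexp (z ^ 2)‖ ≤ ‖G z‖ + ‖G 0 * cexp (z ^ 2)‖ := norm_sub_le _ _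
    _ = ‖G z‖ + ‖G 0‖ * ‖cexp (z ^ 2)‖ := by rw [norm_mul]
    _ ≤ C * Real.exp (-(c * |z.im|)) + ‖G 0‖ * (B * Real.exp (-(c * |z.im|))) :=
        add_le_add (hbd z h2 h3) (mul_le_mul_of_nonneg_left (h1 z h2 h3) (norm_nonneg _))
    _ = _ := by ring

theorem res_one (G : ℂ → ℂ) (a b C c : ℝ) (ha : a < 0) (hb : 0 < b) (hc : 0 < c)
    (hG : DifferentiableOn ℂ G {z : ℂ | a ≤ z.re ∧ z.re ≤ b})
    (hbd : ∀ z : ℂ, a ≤ z.re → z.re ≤ b → ‖G z‖ ≤ C * Real.exp (-(c * |z.im|))) :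
    (∫ t : ℝ, G (SC.ln b t) / SC.ln b t) - (∫ t : ℝ, G (SC.ln a t) / SC.ln a t) = 2 * Real.pi * G 0 := by
  obtain ⟨hMd, CM, hMb⟩ := sub_dec G a b C c hc hG hbd
  obtain ⟨h1, h2, -, C', h4⟩ := dslope_strip _ a b CM c ha hb hMd hMb (by simp)
  have key := vshift_c _ a b C' c (ha.trans hb).le hc h1 h4
  have hline : ∀ q : ℝ, a ≤ q → q ≤ b → q ≠ 0 →
      (∫ t : ℝ, G (SC.ln q t) / SC.ln q t) =
        (∫ t : ℝ, dslope (fun w => G w - G 0 * cexp (w ^ 2)) 0 (SC.ln q t)) +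
          G 0 * ∫ t : ℝ, cexp ((SC.ln q t) ^ 2) / SC.ln q t := by
    intro q hqa hqb hq0
    obtain ⟨B, hB, hg⟩ := gauss_dec a b c hc
    have hM : Integrable (fun t : ℝ => (G (SC.ln q t) - G 0 * cexp ((SC.ln q t) ^ 2)) / SC.ln q t) := by
      have := int_line (C := CM) hc hq0 1 (fun t => G (SC.ln q t) - G 0 * cexp ((SC.ln q t) ^ 2))
        (hMd.continuousOn.comp_continuous (SC.MSrep.ln_continuous q) fun t => by
          change a ≤ (SC.ln q t).re ∧ (SC.ln q t).re ≤ b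
          rw [SC.ln_re]; exact ⟨hqa, hqb⟩)
        (fun t => by
          have := hMb (SC.ln q t) (by rw [SC.ln_re]; exact hqa) (by rw [SC.ln_re]; exact hqb)
          rwa [SC.ln_im] at this)
      simpa only [pow_one] using this
    have hE : Integrable (fun t : ℝ => cexp ((SC.ln q t) ^ 2) / SC.ln q t) := by
      have := int_line (C := B) hc hq0 1 (fun t => cexp ((SC.ln q t) ^ 2))
        (by have := SC.MSrep.ln_continuous q; fun_prop)
        (fun t => by
          have := hg (SC.ln q t) (by rw [SC.ln_re]; exact hqa) (by rw [SC.ln_re]; exact hqb)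
          rwa [SC.ln_im] at this)
      simpa only [pow_one] using this
    rw [← integral_const_mul, ← integral_add ?_ (hE.const_mul _)]
    · refine integral_congr_ae (Filter.Eventually.of_forall fun t => ?_)
      simp only
      rw [h2 _ (SC.MSrep.ln_ne hq0 t)]
      ring
    · refine hM.congr (Filter.Eventually.of_forall fun t => ?_)
      simp only
      rw [h2 _ (SC.MSrep.ln_ne hq0 t)]
  have hres := SC.MSrep.residue_formula (fun _ => 1) (differentiable_const _) ha hb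
    (SC.MSrep.PB.const a b 1)
  simp only [one_mul, mul_one] at hres
  rw [hline b (ha.trans hb).le le_rfl hb.ne', hline a le_rfl (ha.trans hb).le ha.ne, key]
  linear_combination (G 0) * hres

/-- `∫ e^{w²}/w²` does not depend on the line left of `0` -/
theorem sq_left {a a' : ℝ} (ha : a < 0) (haa : a' ≤ a) :
    (∫ t : ℝ, cexp ((SC.ln a' t) ^ 2) / SC.ln a' t ^ 2) =
      ∫ t : ℝ, cexp ((SC.ln a t) ^ 2) / SC.ln a t ^ 2 := by
  obtain ⟨B, hB, hg⟩ := gauss_dec a' a 1 one_pos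
  refine vshift_c (fun w => cexp (w ^ 2) / w ^ 2) a' a (B / |a| ^ 2) 1 haa one_pos ?_ ?_
  · refine DifferentiableOn.div (by fun_prop) (by fun_prop) ?_
    intro w hw h0
    have hw' : a' ≤ w.re ∧ w.re ≤ a := hw
    have : w = 0 := by
      rcases pow_eq_zero_iff (two_ne_zero) |>.1 h0 with h; exact h
    rw [this] at hw'
    simp at hw'
    linarith
  · intro w h1 h2
    have h3 : |a| ≤ ‖w‖ := by
      refine le_trans ?_ (abs_re_le_norm w)
      rw [abs_of_neg ha, abs_of_neg (lt_of_le_of_lt h2 ha)]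
      linarith
    have h5 : 0 < |a| := abs_pos.2 ha.ne
    rw [norm_div, norm_pow, div_mul_eq_mul_div]
    exact div_le_div₀ (by positivity) (hg w h1 h2) (by positivity)
      (pow_le_pow_left₀ (abs_nonneg _) h3 2)

theorem sq_lines {a b : ℝ} (ha : a < 0) (hb : 0 < b) :
    (∫ t : ℝ, cexp ((SC.ln b t) ^ 2) / SC.ln b t ^ 2) =
      ∫ t : ℝ, cexp ((SC.ln a t) ^ 2) / SC.ln a t ^ 2 := by
  have h1 : (∫ t : ℝ, cexp ((SC.ln b t) ^ 2) / SC.ln b t ^ 2) =
      ∫ t : ℝ, cexp ((SC.ln (-b) t) ^ 2) / SC.ln (-b) t ^ 2 := by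
    rw [← integral_neg_eq_self (fun t : ℝ => cexp ((SC.ln (-b) t) ^ 2) / SC.ln (-b) t ^ 2)]
    refine integral_congr_ae (Filter.Eventually.of_forall fun v => ?_)
    have h : SC.ln (-b) (-v) = -SC.ln b v := by
      unfold SC.ln
      push_cast
      ring
    simp only
    rw [h, neg_sq]
  rw [h1]
  rcases le_total a (-b) with h | h
  · exact (sq_left (by linarith) h).symm
  · exact sq_left ha h

theorem res_two (G : ℂ → ℂ) (a b C c : ℝ) (ha : a < 0) (hb : 0 < b) (hc : 0 < c)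
    (hG : DifferentiableOn ℂ G {z : ℂ | a ≤ z.re ∧ z.re ≤ b})
    (hbd : ∀ z : ℂ, a ≤ z.re → z.re ≤ b → ‖G z‖ ≤ C * Real.exp (-(c * |z.im|))) :
    (∫ t : ℝ, G (SC.ln b t) / SC.ln b t ^ 2) - (∫ t : ℝ, G (SC.ln a t) / SC.ln a t ^ 2) =
      2 * Real.pi * deriv G 0 := by
  obtain ⟨hMd, CM, hMb⟩ := sub_dec G a b C c hc hG hbd
  obtain ⟨h1, h2, h3, C', h4⟩ := dslope_strip _ a b CM c ha hb hMd hMb (by simp)
  have key := res_one _ a b C' c ha hb hc h1 h4
  have hGd : DifferentiableAt ℂ G 0 := by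
    refine hG.differentiableAt ?_
    have h1 : {z : ℂ | a < z.re} ∩ {z : ℂ | z.re < b} ∈ 𝓝 (0 : ℂ) := by
      refine Filter.inter_mem ?_ ?_
      · exact (isOpen_lt continuous_const Complex.continuous_re).mem_nhds (by simpa using ha)
      · exact (isOpen_lt Complex.continuous_re continuous_const).mem_nhds (by simpa using hb)
    exact Filter.mem_of_superset h1 fun z hz => ⟨le_of_lt hz.1, le_of_lt hz.2⟩
  have hder : deriv (fun w => G w - G 0 * cexp (w ^ 2)) 0 = deriv G 0 := by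
    have h5 : HasDerivAt (fun w : ℂ => cexp (w ^ 2)) (cexp ((0 : ℂ) ^ 2) * (2 * 0)) 0 := by
      have := ((hasDerivAt_pow 2 (0 : ℂ)).cexp)
      simpa using this
    have h6 := (hGd.hasDerivAt.sub (h5.const_mul (G 0))).deriv
    have h7 : (fun w => G w - G 0 * cexp (w ^ 2)) = G - fun w => G 0 * cexp (w ^ 2) := rfl
    rw [h7]
    refine Eq.trans h6 ?_
    simp
  rw [h3, hder] at key
  have hline : ∀ q : ℝ, a ≤ q → q ≤ b → q ≠ 0 →
      (∫ t : ℝ, G (SC.ln q t) / SC.ln q t ^ 2) =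
        (∫ t : ℝ, dslope (fun w => G w - G 0 * cexp (w ^ 2)) 0 (SC.ln q t) / SC.ln q t) +
          G 0 * ∫ t : ℝ, cexp ((SC.ln q t) ^ 2) / SC.ln q t ^ 2 := by
    intro q hqa hqb hq0
    obtain ⟨B, hB, hg⟩ := gauss_dec a b c hc
    have hM : Integrable (fun t : ℝ => (G (SC.ln q t) - G 0 * cexp ((SC.ln q t) ^ 2)) / SC.ln q t ^ 2) := by
      exact int_line (C := CM) hc hq0 2 (fun t => G (SC.ln q t) - G 0 * cexp ((SC.ln q t) ^ 2))
        (hMd.continuousOn.comp_continuous (SC.MSrep.ln_continuous q) fun t => by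
          change a ≤ (SC.ln q t).re ∧ (SC.ln q t).re ≤ b
          rw [SC.ln_re]; exact ⟨hqa, hqb⟩)
        (fun t => by
          have := hMb (SC.ln q t) (by rw [SC.ln_re]; exact hqa) (by rw [SC.ln_re]; exact hqb)
          rwa [SC.ln_im] at this)
    have hE : Integrable (fun t : ℝ => cexp ((SC.ln q t) ^ 2) / SC.ln q t ^ 2) := by
      exact int_line (C := B) hc hq0 2 (fun t => cexp ((SC.ln q t) ^ 2))
        (by have := SC.MSrep.ln_continuous q; fun_prop)
        (fun t => by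
          have := hg (SC.ln q t) (by rw [SC.ln_re]; exact hqa) (by rw [SC.ln_re]; exact hqb)
          rwa [SC.ln_im] at this)
    have hne : ∀ t : ℝ, SC.ln q t ≠ 0 := fun t => SC.MSrep.ln_ne hq0 t
    rw [← integral_const_mul, ← integral_add ?_ (hE.const_mul _)]
    · refine integral_congr_ae (Filter.Eventually.of_forall fun t => ?_)
      simp only
      rw [h2 _ (hne t)]
      have := hne t
      field_simp
      ring
    · refine hM.congr (Filter.Eventually.of_forall fun t => ?_)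
      simp only
      rw [h2 _ (hne t)]
      have := hne t
      field_simp
  rw [hline b (ha.trans hb).le le_rfl hb.ne', hline a le_rfl (ha.trans hb).le ha.ne,
    sq_lines ha hb]
  linear_combination key

end Pool.Agent.H15.HB
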