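import Pool.Agent.H15.HB.CM
import Pool.Agent.H15.HB.Lines
import Pool.Agent.H15.SC.Strip
import Pool.Agent.H15.SC.ZetaInst

/-!
# HB-04  the divisor Lambert series as a Mellin integral on three lines  (project HB, MP_be4568)

`hh z = (1/2π) ∫ Γ(s) ζ(s)² z^{-s}` on `re s = c > 1`: `cahen_mellin` for `n z` (`log (n z) = log n + log z`, `n ≥ 1`), sum over `n`
(`∑ d(n) n^{-s} = ζ(s)²`: `LSeries` of `zeta * zeta`, cf. `SC/ZetaInst.lean`, or `LSeries_zeta_mul...`), interchange by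
absolute convergence.
From 2 to 1/2: `res_two` with `G w = Γ(1+w) ζ₁(1+w)² z^{-(1+w)}`, `a = -1/2`, `b = 1` (`riemannZeta₁ s = (s-1) ζ(s)` entire, in
Mathlib, `riemannZeta₁ 1 = 1`, derivative at 1 is `γ` by `tendsto_riemannZeta_sub_one_div` or `riemannZeta₀`; `Γ'(1) = -γ`:
`Complex.hasDerivAt_Gamma_one`): `G 0 = 1/z`, `G' 0 = (γ - log z)/z = gm z`.
From 1/2 to -1/2: `res_one` with `G w = w Γ(w) ζ(w)² z^{-w} = Γ(1+w) ζ(w)² z^{-w}`, `a = -1/2`, `b = 1/2`, `G 0 = ζ(0)² = 1/4`.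
Growth of `ζ₁` on `-3/4 ≤ re s ≤ 2`: `SC.H_growth (SC.zetaD_isSel 1)`; decay: `gamma_cpow_bound`.
-/

set_option autoImplicit false

open Complex Filter Topology MeasureTheory Set
open scoped ComplexConjugate

namespace Pool.Agent.H15.HB

/-- the integrand `Γ(s) ζ(s)² z^{-s}` -/
noncomputable def KK (z s : ℂ) : ℂ := Complex.Gamma s * riemannZeta s ^ 2 * cexp (-s * Complex.log z)

/-- polynomial times exponential decay -/
theorem mel_poly (A c : ℝ) (hc : 0 < c) : ∃ B : ℝ, 0 ≤ B ∧ ∀ y : ℝ, 0 ≤ y →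
    (1 + y) ^ A * Real.exp (-(c * y)) ≤ B * Real.exp (-(c / 2 * y)) := by
  obtain ⟨N, hN⟩ := exists_nat_ge A
  refine ⟨(N.factorial : ℝ) / (c / 2) ^ N * Real.exp (c / 2), by positivity, fun y hy => ?_⟩
  have h1 : (1 + y) ^ A ≤ (1 + y) ^ (N : ℝ) :=
    Real.rpow_le_rpow_of_exponent_le (by linarith) hN
  rw [Real.rpow_natCast] at h1
  have h2 : (c / 2 * (1 + y)) ^ N / (N.factorial : ℝ) ≤ Real.exp (c / 2 * (1 + y)) :=
    Real.pow_div_factorial_le_exp _ (by positivity) N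
  have h3 : (1 + y) ^ N ≤ (N.factorial : ℝ) / (c / 2) ^ N * Real.exp (c / 2 * (1 + y)) := by
    rw [mul_pow] at h2
    have hf : (0 : ℝ) < N.factorial := by exact_mod_cast N.factorial_pos
    have hp : (0 : ℝ) < (c / 2) ^ N := by positivity
    rw [div_le_iff₀ hf] at h2
    rw [div_mul_eq_mul_div, le_div_iff₀ hp]
    linarith
  calc (1 + y) ^ A * Real.exp (-(c * y))
      ≤ ((N.factorial : ℝ) / (c / 2) ^ N * Real.exp (c / 2 * (1 + y))) * Real.exp (-(c * y)) :=
        mul_le_mul_of_nonneg_right (h1.trans h3) (Real.exp_pos _).le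
    _ = (N.factorial : ℝ) / (c / 2) ^ N * Real.exp (c / 2) * Real.exp (-(c / 2 * y)) := by
        rw [mul_assoc, mul_assoc, ← Real.exp_add, ← Real.exp_add]
        congr 2
        ring

/-- growth of `ζ₁` in the strip -/
theorem mel_zeta1 : ∃ A C : ℝ, 0 ≤ A ∧ 0 ≤ C ∧ ∀ s : ℂ, -(3/4) ≤ s.re → s.re ≤ 2 →
    ‖riemannZeta₁ s‖ ≤ C * (1 + |s.im|) ^ A := by
  obtain ⟨A, C, hA, hC, h⟩ := SC.H_growth (SC.zetaD_isSel 1)
  refine ⟨A, C, hA, hC, fun s h1 h2 => ?_⟩
  have h3 := h s h1 h2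
  have h4 : (SC.zetaD 1).H s = riemannZeta₁ s := by
    show riemannZeta₁ s ^ 1 = _
    rw [pow_one]
  rwa [h4] at h3

theorem mel_zeta1_eq {s : ℂ} (hs : s ≠ 1) : riemannZeta₁ s = (s - 1) * riemannZeta s := by
  rw [riemannZeta_eq_inv_sub_mul hs, mul_inv_cancel_left₀ (sub_ne_zero.2 hs)]

/-- the bound for `Γ(s) ζ₁(w)² z^{-s}` -/
theorem mel_bound {z : ℂ} (hz : 0 < z.re) {a b : ℝ} (ha : 0 < a) (hab : a ≤ b) (hb2 : b ≤ 2) (q : ℝ)
    (hq : q = 0 ∨ q = 1) (haq : -(3/4) ≤ a - q) :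
    ∃ C c : ℝ, 0 ≤ C ∧ 0 < c ∧ ∀ s : ℂ, a ≤ s.re → s.re ≤ b →
      ‖Complex.Gamma s * riemannZeta₁ (s - q) ^ 2 * cexp (-s * Complex.log z)‖ ≤
        C * Real.exp (-(c * |s.im|)) := by
  obtain ⟨C1, c, hC1, hc, h1⟩ := gamma_cpow_bound hz ha hab
  obtain ⟨A, C2, hA, hC2, h2⟩ := mel_zeta1
  obtain ⟨B, hB, h3⟩ := mel_poly (2 * A) c hc
  refine ⟨C1 * C2 ^ 2 * B, c / 2, by positivity, by positivity, fun s hs1 hs2 => ?_⟩
  have e1 : (s - (q : ℂ)).re = s.re - q := by simp
  have e2 : (s - (q : ℂ)).im = s.im := by simp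
  have h4 := h2 (s - q) (by rw [e1]; linarith) (by
    rw [e1]
    rcases hq with hq | hq <;> rw [hq] <;> linarith)
  rw [e2] at h4
  have h5 : ‖riemannZeta₁ (s - q)‖ ^ 2 ≤ C2 ^ 2 * (1 + |s.im|) ^ (2 * A) := by
    calc ‖riemannZeta₁ (s - q)‖ ^ 2 ≤ (C2 * (1 + |s.im|) ^ A) ^ 2 :=
          pow_le_pow_left₀ (norm_nonneg _) h4 2
      _ = C2 ^ 2 * (1 + |s.im|) ^ (2 * A) := by
          rw [mul_pow, mul_comm 2 A, Real.rpow_mul (by positivity), ← Real.rpow_natCast _ 2]
          norm_num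
  have h6 := h1 s hs1 hs2
  have h7 := h3 |s.im| (abs_nonneg _)
  calc ‖Complex.Gamma s * riemannZeta₁ (s - q) ^ 2 * cexp (-s * Complex.log z)‖
      = ‖Complex.Gamma s * cexp (-s * Complex.log z)‖ * ‖riemannZeta₁ (s - q)‖ ^ 2 := by
        rw [norm_mul, norm_mul, norm_mul, norm_pow]; ring
    _ ≤ (C1 * Real.exp (-(c * |s.im|))) * (C2 ^ 2 * (1 + |s.im|) ^ (2 * A)) := by gcongr
    _ = C1 * C2 ^ 2 * ((1 + |s.im|) ^ (2 * A) * Real.exp (-(c * |s.im|))) := by ring
    _ ≤ C1 * C2 ^ 2 * (B * Real.exp (-(c / 2 * |s.im|))) := by gcongr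
    _ = _ := by ring

/-- `ζ` is bounded on a line `re s = c > 1` -/
theorem mel_zeta_line {c : ℝ} (hc : 1 < c) : ∃ C : ℝ, 0 ≤ C ∧ ∀ u : ℝ, ‖riemannZeta (SC.ln c u)‖ ≤ C := by
  have hs : ∀ u : ℝ, 1 < (SC.ln c u).re := fun u => by rw [SC.ln_re]; exact hc
  have hsum := (SC.zin_series 1 (s := ((c : ℝ) : ℂ)) (by simpa using hc)).1
  have hn := hsum.norm
  refine ⟨∑' n : ℕ, ‖LSeries.term (fun n => (((((ArithmeticFunction.zeta : ArithmeticFunction ℕ) ^ 1) n : ℕ)) : ℂ))
      ((c : ℝ) : ℂ) n‖, tsum_nonneg fun n => norm_nonneg _, fun u => ?_⟩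
  have h2 := (SC.zin_series 1 (hs u)).2
  rw [pow_one, pow_one] at h2
  rw [← h2]
  unfold LSeries
  have h3 : ∀ n : ℕ, ‖LSeries.term (fun n => (((((ArithmeticFunction.zeta : ArithmeticFunction ℕ)) n : ℕ)) : ℂ))
      (SC.ln c u) n‖ = ‖LSeries.term (fun n => (((((ArithmeticFunction.zeta : ArithmeticFunction ℕ) ^ 1) n : ℕ)) : ℂ))
      ((c : ℝ) : ℂ) n‖ := by
    intro n
    rw [pow_one]
    rw [LSeries.norm_term_eq, LSeries.norm_term_eq]
    simp
  refine (norm_tsum_le_tsum_norm ?_).trans_eq (tsum_congr h3)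
  simp_rw [h3]
  exact hn

theorem mel_ln_ne_one {a : ℝ} (ha : a ≠ 1) (u : ℝ) : SC.ln a u ≠ 1 := by
  intro h
  have := congrArg Complex.re h
  simp at this
  exact ha this

theorem mel_KK_cont {z : ℂ} {a : ℝ} (h1 : a ≠ 1) (h0 : ∀ m : ℕ, a ≠ -m) :
    Continuous (fun u : ℝ => KK z (SC.ln a u)) := by
  rw [continuous_iff_continuousAt]
  intro u
  have hG : ContinuousAt Complex.Gamma (SC.ln a u) := by
    refine (Complex.differentiableAt_Gamma _ fun m h => h0 m ?_).continuousAt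
    have := congrArg Complex.re h
    simpa using this
  have hZ : ContinuousAt riemannZeta (SC.ln a u) :=
    (differentiableAt_riemannZeta (mel_ln_ne_one h1 u)).continuousAt
  have hl : ContinuousAt (fun v : ℝ => SC.ln a v) u := (SC.MSrep.ln_continuous a).continuousAt
  unfold KK
  refine ContinuousAt.mul (ContinuousAt.mul ?_ (ContinuousAt.pow ?_ 2)) ?_
  · exact ContinuousAt.comp (f := fun v : ℝ => SC.ln a v) hG hl
  · exact ContinuousAt.comp (f := fun v : ℝ => SC.ln a v) hZ hl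
  · exact ((hl.neg.mul continuousAt_const)).cexp

/-- `KK z` on the lines `1/2` and `-1/2` -/
theorem mel_KK_neg {z : ℂ} (hz : 0 < z.re) : ∃ C c : ℝ, 0 ≤ C ∧ 0 < c ∧ ∀ w : ℂ, -(1/2) ≤ w.re → w.re ≤ 1/2 →
    ‖Complex.Gamma (1 + w) * riemannZeta w ^ 2 * cexp (-w * Complex.log z)‖ ≤ C * Real.exp (-(c * |w.im|)) := by
  obtain ⟨C, c, hC, hc, h⟩ := mel_bound hz (a := 1/2) (b := 3/2) (by norm_num) (by norm_num) (by norm_num) 1
    (Or.inr rfl) (by norm_num)
  have hz0 : z ≠ 0 := by rintro rfl; simp at hz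
  refine ⟨C * (4 * ‖z‖), c, by positivity, hc, fun w h1 h2 => ?_⟩
  have h3 := h (1 + w) (by simp; linarith) (by simp; linarith)
  have e1 : (1 + w - ((1 : ℝ) : ℂ)) = w := by push_cast; ring
  have e2 : (1 + w).im = w.im := by simp
  rw [e1, e2] at h3
  have hw1 : w ≠ 1 := by
    rintro rfl
    norm_num at h2
  have e3 : cexp (-w * Complex.log z) = cexp (-(1 + w) * Complex.log z) * z := by
    nth_rw 3 [← Complex.exp_log hz0]
    rw [← Complex.exp_add]
    congr 1
    ring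
  have h4 : (1 : ℝ) / 2 ≤ ‖w - 1‖ := by
    have h5 := Complex.abs_re_le_norm (w - 1)
    have h6 : (w - 1).re = w.re - 1 := by simp
    rw [h6, abs_of_neg (by linarith)] at h5
    linarith
  have h5 : ‖riemannZeta w‖ ^ 2 ≤ 4 * ‖riemannZeta₁ w‖ ^ 2 := by
    have h6 : ‖riemannZeta w‖ ≤ 2 * ‖riemannZeta₁ w‖ := by
      rw [mel_zeta1_eq hw1, norm_mul]
      nlinarith [norm_nonneg (riemannZeta w)]
    nlinarith [norm_nonneg (riemannZeta w), norm_nonneg (riemannZeta₁ w)]
  calc ‖Complex.Gamma (1 + w) * riemannZeta w ^ 2 * cexp (-w * Complex.log z)‖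
      = ‖Complex.Gamma (1 + w)‖ * ‖riemannZeta w‖ ^ 2 * (‖cexp (-(1 + w) * Complex.log z)‖ * ‖z‖) := by
        rw [e3, norm_mul, norm_mul, norm_mul, norm_pow]
    _ ≤ ‖Complex.Gamma (1 + w)‖ * (4 * ‖riemannZeta₁ w‖ ^ 2) * (‖cexp (-(1 + w) * Complex.log z)‖ * ‖z‖) := by
        gcongr
    _ = ‖Complex.Gamma (1 + w) * riemannZeta₁ w ^ 2 * cexp (-(1 + w) * Complex.log z)‖ * (4 * ‖z‖) := by
        rw [norm_mul, norm_mul, norm_pow]; ring
    _ ≤ (C * Real.exp (-(c * |w.im|))) * (4 * ‖z‖) := by gcongr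
    _ = _ := by ring

theorem mel_KK_half {z : ℂ} (hz : 0 < z.re) {a : ℝ} (ha : a = 1/2 ∨ a = -1/2) :
    ∃ C c : ℝ, 0 ≤ C ∧ 0 < c ∧ ∀ u : ℝ, ‖KK z (SC.ln a u)‖ ≤ C * Real.exp (-(c * |u|)) := by
  obtain ⟨C, c, hC, hc, h⟩ := mel_KK_neg hz
  refine ⟨2 * C, c, by positivity, hc, fun u => ?_⟩
  have ha0 : a ≠ 0 := by rcases ha with h | h <;> rw [h] <;> norm_num
  have hne : SC.ln a u ≠ 0 := SC.MSrep.ln_ne ha0 u
  have h1 := h (SC.ln a u) (by rw [SC.ln_re]; rcases ha with h | h <;> rw [h] <;> norm_num)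
    (by rw [SC.ln_re]; rcases ha with h | h <;> rw [h] <;> norm_num)
  rw [SC.ln_im, add_comm, Complex.Gamma_add_one _ hne] at h1
  have h2 : (1 : ℝ) / 2 ≤ ‖SC.ln a u‖ := by
    have h3 := Complex.abs_re_le_norm (SC.ln a u)
    rw [SC.ln_re] at h3
    rcases ha with h | h <;> rw [h] at h3 ⊢
    · rwa [abs_of_pos (by norm_num)] at h3
    · rw [abs_of_neg (by norm_num)] at h3
      linarith
  have h3 : ‖SC.ln a u‖ * ‖KK z (SC.ln a u)‖ ≤ C * Real.exp (-(c * |u|)) := by
    refine le_trans (le_of_eq ?_) h1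
    unfold KK
    rw [← norm_mul]
    congr 1
    ring
  nlinarith [norm_nonneg (KK z (SC.ln a u))]

theorem KK_int {z : ℂ} (hz : 0 < z.re) (a : ℝ) (ha : 1 < a ∨ a = 1/2 ∨ a = -1/2) :
    Integrable (fun u : ℝ => KK z (SC.ln a u)) := by
  rcases ha with ha | ha
  · obtain ⟨C, hC, h1⟩ := mel_zeta_line ha
    have h2 := (cahen_mellin hz (c := a) (by linarith)).1
    have hcont : Continuous (fun u : ℝ => KK z (SC.ln a u)) :=
      mel_KK_cont ha.ne' (fun m h => by
        have : (0 : ℝ) ≤ m := Nat.cast_nonneg m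
        linarith)
    refine Integrable.mono' (h2.norm.const_mul (C ^ 2)) hcont.aestronglyMeasurable
      (Filter.Eventually.of_forall fun u => ?_)
    unfold KK
    have h3 := pow_le_pow_left₀ (norm_nonneg _) (h1 u) 2
    calc ‖Complex.Gamma (SC.ln a u) * riemannZeta (SC.ln a u) ^ 2 * cexp (-(SC.ln a u) * Complex.log z)‖
        = ‖riemannZeta (SC.ln a u)‖ ^ 2 * ‖Complex.Gamma (SC.ln a u) * cexp (-(SC.ln a u) * Complex.log z)‖ := by
          rw [norm_mul, norm_mul, norm_mul, norm_pow]; ring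
      _ ≤ _ := mul_le_mul_of_nonneg_right h3 (norm_nonneg _)
  · obtain ⟨C, c, hC, hc, h⟩ := mel_KK_half hz ha
    have hcont : Continuous (fun u : ℝ => KK z (SC.ln a u)) := by
      refine mel_KK_cont ?_ ?_
      · rcases ha with h | h <;> rw [h] <;> norm_num
      · intro m hm
        rcases ha with h | h
        · rw [h] at hm
          have : (0 : ℝ) ≤ m := Nat.cast_nonneg m
          linarith
        · rw [h] at hm
          have h2 : (m : ℝ) * 2 = 1 := by linarith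
          have h3 : m * 2 = 1 := by exact_mod_cast h2
          omega
    exact Integrable.mono' ((int_exp_c hc).const_mul C) hcont.aestronglyMeasurable
      (Filter.Eventually.of_forall h)

theorem mel_dv (n : ℕ) : ((ArithmeticFunction.zeta : ArithmeticFunction ℕ) ^ 2) n = n.divisors.card := by
  rw [pow_two, ArithmeticFunction.mul_zeta_apply]
  rw [Finset.card_eq_sum_ones]
  refine Finset.sum_congr rfl fun i hi => ?_
  have : i ≠ 0 := by
    have := Nat.pos_of_mem_divisors hi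
    omega
  simp [this]

theorem mel_exp_log {n : ℕ} (hn : n ≠ 0) {z : ℂ} (hz : z ≠ 0) (s : ℂ) :
    cexp (-s * Complex.log ((n : ℂ) * z)) = cexp (-s * Complex.log z) / (n : ℂ) ^ s := by
  have hn0 : (0 : ℝ) < n := by positivity
  have hn1 : (n : ℂ) ≠ 0 := by exact_mod_cast hn
  have h1 : Complex.log ((n : ℂ) * z) = Complex.log n + Complex.log z := by
    have := Complex.log_ofReal_mul hn0 hz
    rw [Complex.ofReal_natCast] at this
    rw [this, Complex.ofReal_log hn0.le, Complex.ofReal_natCast]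
  rw [h1, mul_add, Complex.exp_add, Complex.cpow_def_of_ne_zero hn1, mul_comm (Complex.log (n : ℂ)) s]
  rw [neg_mul, Complex.exp_neg]
  field_simp

theorem hh_line {z : ℂ} (hz : 0 < z.re) {c : ℝ} (hc : 1 < c) :
    hh z = ((1 / (2 * Real.pi) : ℝ) : ℂ) * ∫ u : ℝ, KK z (SC.ln c u) := by
  have hz0 : z ≠ 0 := by rintro rfl; simp at hz
  have hc0 : 0 < c := by linarith
  set E : ℝ → ℂ := fun u => Complex.Gamma (SC.ln c u) * cexp (-(SC.ln c u) * Complex.log z) with hE
  have hEi : Integrable E := (cahen_mellin hz hc0).1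
  set f : ℕ → ℂ := fun n => (((((ArithmeticFunction.zeta : ArithmeticFunction ℕ) ^ 2) n : ℕ)) : ℂ) with hf
  set F : ℕ → ℝ → ℂ := fun n u => LSeries.term f (SC.ln c u) n * E u with hF
  have hterm : ∀ n : ℕ, ∀ u : ℝ, ‖LSeries.term f (SC.ln c u) n‖ = ‖LSeries.term f ((c : ℝ) : ℂ) n‖ :=
    fun n u => by rw [LSeries.norm_term_eq, LSeries.norm_term_eq]; simp
  have hFm : ∀ n : ℕ, Continuous (fun u : ℝ => LSeries.term f (SC.ln c u) n) := by
    intro n
    rcases eq_or_ne n 0 with hn | hn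
    · subst hn
      simp only [LSeries.term_zero]
      exact continuous_const
    · have h1 : (fun u : ℝ => LSeries.term f (SC.ln c u) n) =
          fun u : ℝ => f n / (n : ℂ) ^ (SC.ln c u) := by
        ext u
        rw [LSeries.term_of_ne_zero hn]
      have hn1 : (n : ℂ) ≠ 0 := by exact_mod_cast hn
      rw [h1]
      refine continuous_const.div ?_ fun u => ?_
      · exact (SC.MSrep.ln_continuous c).const_cpow (Or.inl hn1)
      · rw [Complex.cpow_def_of_ne_zero hn1]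
        exact Complex.exp_ne_zero _
  have hFi : ∀ n : ℕ, Integrable (F n) := by
    intro n
    refine Integrable.mono' (hEi.norm.const_mul ‖LSeries.term f ((c : ℝ) : ℂ) n‖)
      (((hFm n).aestronglyMeasurable).mul hEi.aestronglyMeasurable)
      (Filter.Eventually.of_forall fun u => ?_)
    rw [hF]
    simp only
    rw [norm_mul, hterm]
  have hS := (SC.zin_series 2 (s := ((c : ℝ) : ℂ)) (by simpa using hc)).1
  have hFs : Summable fun n : ℕ => ∫ u, ‖F n u‖ := by
    have h1 : (fun n : ℕ => ∫ u, ‖F n u‖) = fun n : ℕ => ‖LSeries.term f ((c : ℝ) : ℂ) n‖ * ∫ u, ‖E u‖ := by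
      ext n
      rw [← integral_const_mul]
      refine integral_congr_ae (Filter.Eventually.of_forall fun u => ?_)
      simp only [hF]
      rw [norm_mul, hterm]
    rw [h1]
    exact hS.norm.mul_right _
  have key := hasSum_integral_of_summable_integral_norm hFi hFs
  have h2 : ∀ u : ℝ, (∑' n : ℕ, F n u) = KK z (SC.ln c u) := by
    intro u
    have h3 := (SC.zin_series 2 (s := SC.ln c u) (by rw [SC.ln_re]; exact hc)).2
    simp only [hF]
    rw [tsum_mul_right]
    have h4 : (∑' n : ℕ, LSeries.term f (SC.ln c u) n) = riemannZeta (SC.ln c u) ^ 2 := h3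
    rw [h4]
    unfold KK
    rw [hE]
    ring
  simp_rw [h2] at key
  have h5 : ∀ n : ℕ, (dv n : ℂ) * cexp (-((n : ℂ) * z)) =
      ((1 / (2 * Real.pi) : ℝ) : ℂ) * ∫ u : ℝ, F n u := by
    intro n
    rcases eq_or_ne n 0 with hn | hn
    · subst hn
      have : ∀ u : ℝ, F 0 u = 0 := fun u => by simp [hF]
      simp [this, dv]
    · have hn0 : (0 : ℝ) < n := by positivity
      have hnz : 0 < ((n : ℂ) * z).re := by
        have : ((n : ℂ) * z).re = n * z.re := by simp
        rw [this]; positivity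
      have h6 := (cahen_mellin hnz hc0).2
      have h7 : ∀ u : ℝ, F n u = f n * (Complex.Gamma (SC.ln c u) *
          cexp (-(SC.ln c u) * Complex.log ((n : ℂ) * z))) := by
        intro u
        simp only [hF, hE]
        rw [LSeries.term_of_ne_zero hn, mel_exp_log hn hz0]
        ring
      simp_rw [h7]
      rw [integral_const_mul, h6]
      have h8 : (dv n : ℂ) = f n := by
        simp only [hf, dv]
        rw [mel_dv]
        simp
      rw [h8]
      ring
  unfold hh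
  simp_rw [h5]
  rw [tsum_mul_left, key.tsum_eq]

theorem hh_half {z : ℂ} (hz : 0 < z.re) :
    hh z - gm z = ((1 / (2 * Real.pi) : ℝ) : ℂ) * ∫ u : ℝ, KK z (SC.ln (1/2) u) := by
  have hz0 : z ≠ 0 := by rintro rfl; simp at hz
  obtain ⟨C, c, hC, hc, h⟩ := mel_bound hz (a := 1/2) (b := 2) (by norm_num) (by norm_num) le_rfl 0
    (Or.inl rfl) (by norm_num)
  set G : ℂ → ℂ := fun w => Complex.Gamma (1 + w) * riemannZeta₁ (1 + w) ^ 2 *
    cexp (-(1 + w) * Complex.log z) with hG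
  have hdG : ∀ w : ℂ, -(1/2) ≤ w.re → DifferentiableAt ℂ G w := by
    intro w hw
    have h1 : DifferentiableAt ℂ Complex.Gamma (1 + w) := by
      refine Complex.differentiableAt_Gamma _ fun m hm => ?_
      have := congrArg Complex.re hm
      simp at this
      have h2 : (0 : ℝ) ≤ m := Nat.cast_nonneg m
      linarith
    have h2 : DifferentiableAt ℂ riemannZeta₁ (1 + w) := differentiable_riemannZeta₁ _
    have h3 : DifferentiableAt ℂ (fun w : ℂ => Complex.Gamma (1 + w)) w :=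
      DifferentiableAt.comp (g := Complex.Gamma) (f := fun w : ℂ => 1 + w) w h1 (by fun_prop)
    have h4 : DifferentiableAt ℂ (fun w : ℂ => riemannZeta₁ (1 + w)) w :=
      DifferentiableAt.comp (g := riemannZeta₁) (f := fun w : ℂ => 1 + w) w h2 (by fun_prop)
    exact (h3.mul (h4.pow 2)).mul (by fun_prop)
  have key := res_two G (-(1/2)) 1 C c (by norm_num) one_pos hc
    (fun w hw => (hdG w hw.1).differentiableWithinAt)
    (fun w h1 h2 => by
      have h3 := h (1 + w) (by simp; linarith) (by simp; linarith)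
      have e1 : (1 + w - ((0 : ℝ) : ℂ)) = 1 + w := by simp
      have e2 : (1 + w).im = w.im := by simp
      rw [e1, e2] at h3
      exact h3)
  have hline : ∀ q : ℝ, q ≠ 0 → ∀ t : ℝ, G (SC.ln q t) / SC.ln q t ^ 2 = KK z (SC.ln (1 + q) t) := by
    intro q hq t
    have hne : SC.ln q t ≠ 0 := SC.MSrep.ln_ne hq t
    have e1 : 1 + SC.ln q t = SC.ln (1 + q) t := by
      unfold SC.ln
      push_cast
      ring
    have e2 : SC.ln (1 + q) t - 1 = SC.ln q t := by rw [← e1]; ring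
    have h1 : SC.ln (1 + q) t ≠ 1 := mel_ln_ne_one (by intro h; apply hq; linarith) t
    simp only [hG]
    rw [e1, mel_zeta1_eq h1, e2]
    unfold KK
    field_simp
  simp_rw [hline 1 one_ne_zero, hline (-(1/2)) (by norm_num)] at key
  have e3 : (1 : ℝ) + 1 = 2 := by norm_num
  have e4 : (1 : ℝ) + -(1/2) = 1/2 := by norm_num
  rw [e3, e4] at key
  have hder : deriv G 0 = gm z := by
    have g1 : HasDerivAt (fun w : ℂ => Complex.Gamma (1 + w)) (-(Real.eulerMascheroniConstant : ℂ)) 0 := by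
      have h1 : HasDerivAt Complex.Gamma (-(Real.eulerMascheroniConstant : ℂ)) (1 + 0) := by
        rw [add_zero]; exact Complex.hasDerivAt_Gamma_one
      have h2 : HasDerivAt (fun w : ℂ => 1 + w) 1 0 := (hasDerivAt_id (0 : ℂ)).const_add 1
      have h3 := HasDerivAt.comp (h₂ := Complex.Gamma) (h := fun w : ℂ => 1 + w) (0 : ℂ) h1 h2
      rw [mul_one] at h3
      exact h3
    have g2 : HasDerivAt (fun w : ℂ => riemannZeta₁ (1 + w)) (Real.eulerMascheroniConstant : ℂ) 0 := by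
      have h1 : HasDerivAt riemannZeta₁ (Real.eulerMascheroniConstant : ℂ) (1 + 0) := by
        rw [add_zero, ← deriv_riemannZeta₁_one]
        exact (differentiable_riemannZeta₁ 1).hasDerivAt
      have h2 : HasDerivAt (fun w : ℂ => 1 + w) 1 0 := (hasDerivAt_id (0 : ℂ)).const_add 1
      have h3 := HasDerivAt.comp (h₂ := riemannZeta₁) (h := fun w : ℂ => 1 + w) (0 : ℂ) h1 h2
      rw [mul_one] at h3
      exact h3
    have g3 : HasDerivAt (fun w : ℂ => cexp (-(1 + w) * Complex.log z)) (-Complex.log z / z) 0 := by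
      have h2 : HasDerivAt (fun w : ℂ => -(1 + w) * Complex.log z) (-1 * Complex.log z) 0 :=
        ((hasDerivAt_id (0 : ℂ)).const_add 1).neg.mul_const _
      have h3 := h2.cexp
      have h4 : cexp (-(1 + (0 : ℂ)) * Complex.log z) = z⁻¹ := by
        rw [add_zero, neg_mul, one_mul, Complex.exp_neg, Complex.exp_log hz0]
      rw [h4] at h3
      have h5 : z⁻¹ * (-1 * Complex.log z) = -Complex.log z / z := by
        rw [div_eq_mul_inv]
        ring
      rw [h5] at h3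
      exact h3
    have g4 := (g1.mul (g2.pow 2)).mul g3
    have g5 := g4.deriv
    have g6 : deriv G 0 = _ := g5
    rw [g6]
    unfold gm
    simp only [Pi.mul_apply, Pi.pow_apply, add_zero, Complex.Gamma_one, riemannZeta₁_one, one_pow,
      neg_mul, one_mul, mul_one]
    rw [Complex.exp_neg, Complex.exp_log hz0]
    push_cast
    field_simp
    ring
  rw [hder] at key
  rw [hh_line hz (c := 2) (by norm_num)]
  have hpi : (Real.pi : ℂ) ≠ 0 := by exact_mod_cast Real.pi_pos.ne'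
  have e5 : (∫ u : ℝ, KK z (SC.ln 2 u)) = (∫ u : ℝ, KK z (SC.ln (1/2) u)) + 2 * Real.pi * gm z := by
    linear_combination key
  rw [e5]
  push_cast
  field_simp
  ring

theorem hh_neg {z : ℂ} (hz : 0 < z.re) :
    hh z - gm z - 1/4 = ((1 / (2 * Real.pi) : ℝ) : ℂ) * ∫ u : ℝ, KK z (SC.ln (-1/2) u) := by
  obtain ⟨C, c, hC, hc, h⟩ := mel_KK_neg hz
  set G : ℂ → ℂ := fun w => Complex.Gamma (1 + w) * riemannZeta w ^ 2 * cexp (-w * Complex.log z) with hG
  have hdG : ∀ w : ℂ, -(1/2) ≤ w.re → w.re ≤ 1/2 → DifferentiableAt ℂ G w := by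
    intro w hw hw'
    have h1 : DifferentiableAt ℂ Complex.Gamma (1 + w) := by
      refine Complex.differentiableAt_Gamma _ fun m hm => ?_
      have := congrArg Complex.re hm
      simp at this
      have h2 : (0 : ℝ) ≤ m := Nat.cast_nonneg m
      linarith
    have h2 : DifferentiableAt ℂ riemannZeta w := differentiableAt_riemannZeta (by
      rintro rfl
      norm_num at hw')
    have h3 : DifferentiableAt ℂ (fun w : ℂ => Complex.Gamma (1 + w)) w :=
      DifferentiableAt.comp w h1 (by fun_prop)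
    exact (h3.mul (h2.pow 2)).mul (by fun_prop)
  have key := res_one G (-(1/2)) (1/2) C c (by norm_num) (by norm_num) hc
    (fun w hw => (hdG w hw.1 hw.2).differentiableWithinAt) h
  have hline : ∀ q : ℝ, q ≠ 0 → ∀ t : ℝ, G (SC.ln q t) / SC.ln q t = KK z (SC.ln q t) := by
    intro q hq t
    have hne : SC.ln q t ≠ 0 := SC.MSrep.ln_ne hq t
    simp only [hG]
    rw [add_comm 1 (SC.ln q t), Complex.Gamma_add_one _ hne]
    unfold KK
    field_simp
  simp_rw [hline (1/2) (by norm_num), hline (-(1/2)) (by norm_num)] at key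
  have hG0 : G 0 = 1/4 := by
    simp only [hG]
    rw [add_zero, Complex.Gamma_one, riemannZeta_zero]
    simp
    norm_num
  rw [hG0] at key
  rw [hh_half hz]
  have hpi : (Real.pi : ℂ) ≠ 0 := by exact_mod_cast Real.pi_pos.ne'
  have e4 : (-1/2 : ℝ) = -(1/2) := by norm_num
  rw [e4]
  have e5 : (∫ u : ℝ, KK z (SC.ln (1/2) u)) = (∫ u : ℝ, KK z (SC.ln (-(1/2)) u)) + 2 * Real.pi * (1/4) := by
    linear_combination key
  rw [e5]
  push_cast
  field_simp
  ring

end Pool.Agent.H15.HB
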