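import Pool.Agent.H15.HB.Mel

/-!
# HB-05  `Lam` in terms of the Lambert series  (project HB, MP_be4568)

`z = 2πi e^{-ξ}`, `0 < im ξ < π`: `log z = log 2π + iπ/2 - ξ` (imaginary part `π/2 - im ξ` in `(-π/2, π/2)`), `re z > 0`.
On `s = 1/2 + iu`: `riemannZeta_one_sub` gives `ζ(1-s) = 2 (2π)^{-s} Γ(s) cos(πs/2) ζ(s)`, so
`Γ(s) ζ(s)² (2π)^{-s} = ζ(s) ζ(1-s) / (2 cos(πs/2)) = z2 u / (2 cos(πs/2))` (`1 - s` is the conjugate of `s`,
`riemannZeta_conj`), and `2 cos(πs/2) e^{iπs/2} = 1 + e^{iπs} = 1 + i e^{-πu}`.  Hence `KK z s = wt u e^{sξ}`; insert in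
`hh_half`.
-/

set_option autoImplicit false

open Complex Filter Topology MeasureTheory Set
open scoped ComplexConjugate

namespace Pool.Agent.H15.HB

/-- the argument `2πi e^{-ξ}` as an exponential -/
theorem P1_arg (ξ : ℂ) : 2 * Real.pi * I * cexp (-ξ) =
    cexp ((Real.log (2 * Real.pi) : ℝ) + (Real.pi / 2 : ℝ) * I - ξ) := by
  have h2 : (0 : ℝ) < 2 * Real.pi := by positivity
  have e1 : cexp ((Real.log (2 * Real.pi) : ℝ) : ℂ) = 2 * Real.pi := by
    rw [← Complex.ofReal_exp, Real.exp_log h2]; push_cast; ring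
  have e2 : cexp (((Real.pi / 2 : ℝ) : ℂ) * I) = I := by
    have := Complex.exp_pi_div_two_mul_I
    push_cast
    exact this
  rw [sub_eq_add_neg, Complex.exp_add, Complex.exp_add, e1, e2]

theorem P1_log {ξ : ℂ} (h0 : 0 < ξ.im) (h1 : ξ.im < Real.pi) :
    Complex.log (2 * Real.pi * I * cexp (-ξ)) =
      (Real.log (2 * Real.pi) : ℝ) + (Real.pi / 2 : ℝ) * I - ξ := by
  have him : ((Real.log (2 * Real.pi) : ℝ) + (Real.pi / 2 : ℝ) * I - ξ : ℂ).im =
      Real.pi / 2 - ξ.im := by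
    simp
  have hp := Real.pi_pos
  rw [P1_arg, Complex.log_exp]
  · rw [him]; linarith
  · rw [him]; linarith

theorem P1_den (u : ℝ) : (1 + I * (Real.exp (-(Real.pi * u)) : ℝ) : ℂ) ≠ 0 := by
  intro h
  have h2 := congrArg Complex.re h
  rw [Complex.add_re, Complex.one_re, Complex.mul_re, Complex.I_re, Complex.I_im,
    Complex.ofReal_re, Complex.ofReal_im, Complex.zero_re] at h2
  norm_num at h2

theorem P1_cos (u : ℝ) : 2 * Complex.cos (Real.pi * SC.ln (1/2) u / 2) =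
    (1 + I * (Real.exp (-(Real.pi * u)) : ℝ)) * cexp (-(Real.pi * SC.ln (1/2) u / 2 * I)) := by
  set w : ℂ := Real.pi * SC.ln (1/2) u / 2 with hw
  have e2 : cexp (w * I) * cexp (w * I) = I * (Real.exp (-(Real.pi * u)) : ℝ) := by
    rw [← Complex.exp_add]
    have : w * I + w * I = (Real.pi / 2 : ℝ) * I + ((-(Real.pi * u) : ℝ) : ℂ) := by
      rw [hw, SC.ln]
      push_cast
      ring_nf
      rw [Complex.I_sq]; ring
    rw [this, Complex.exp_add, ← Complex.ofReal_exp]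
    have e3 : cexp (((Real.pi / 2 : ℝ) : ℂ) * I) = I := by
      push_cast
      exact Complex.exp_pi_div_two_mul_I
    rw [e3]
  have e1 : cexp (w * I) * cexp (-(w * I)) = 1 := by
    rw [← Complex.exp_add, add_neg_cancel, Complex.exp_zero]
  rw [Complex.cos, ← e2]
  have e4 : cexp (-w * I) = cexp (-(w * I)) := by rw [neg_mul]
  rw [e4]
  linear_combination (-cexp (w * I)) * e1

theorem P1_z2 (u : ℝ) : (z2 u : ℂ) =
    riemannZeta (1 - SC.ln (1/2) u) * riemannZeta (SC.ln (1/2) u) := by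
  have hc : 1 - SC.ln (1/2) u = conj (SC.ln (1/2) u) := by
    apply Complex.ext <;> simp [SC.ln]
    norm_num
  rw [hc, riemannZeta_conj, z2, ← Complex.normSq_eq_norm_sq, Complex.normSq_eq_conj_mul_self]

theorem KK_eq_wt {ξ : ℂ} (h0 : 0 < ξ.im) (h1 : ξ.im < Real.pi) (u : ℝ) :
    KK (2 * Real.pi * I * cexp (-ξ)) (SC.ln (1/2) u) = wt u * cexp (SC.ln (1/2) u * ξ) := by
  have hs : ∀ n : ℕ, SC.ln (1/2) u ≠ -n := by
    intro n h
    have := congrArg Complex.re h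
    simp [SC.ln] at this
    have hn : (0 : ℝ) ≤ n := Nat.cast_nonneg n
    linarith
  have hs1 : SC.ln (1/2) u ≠ 1 := by
    intro h
    have := congrArg Complex.re h
    simp [SC.ln] at this
  have hfe := riemannZeta_one_sub hs hs1
  have hz := P1_z2 u
  have hcos := P1_cos u
  rw [hfe] at hz
  rw [wt, div_mul_eq_mul_div, eq_div_iff (P1_den u), hz, KK, P1_log h0 h1]
  set s := SC.ln (1/2) u with hsdef
  have h2 : (2 * (Real.pi : ℂ)) ≠ 0 := by
    have := Real.pi_ne_zero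
    exact mul_ne_zero two_ne_zero (by exact_mod_cast this)
  have hcp : (2 * (Real.pi : ℂ)) ^ (-s) = cexp (-s * (Real.log (2 * Real.pi) : ℝ)) := by
    rw [Complex.cpow_def_of_ne_zero h2, Complex.ofReal_log (by positivity)]
    push_cast
    ring_nf
  have hex : cexp (-s * ((Real.log (2 * Real.pi) : ℝ) + (Real.pi / 2 : ℝ) * I - ξ)) =
      (2 * (Real.pi : ℂ)) ^ (-s) * cexp (-(Real.pi * s / 2 * I)) * cexp (s * ξ) := by
    rw [hcp, ← Complex.exp_add, ← Complex.exp_add]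
    congr 1
    push_cast
    ring
  rw [hex]
  have hcos' : cexp (-(Real.pi * s / 2 * I)) * (1 + I * (Real.exp (-(Real.pi * u)) : ℝ)) =
      2 * Complex.cos (Real.pi * s / 2) := by rw [hcos]; ring
  linear_combination (Complex.Gamma s * riemannZeta s ^ 2 * (2 * (Real.pi : ℂ)) ^ (-s) *
    cexp (s * ξ)) * hcos'

theorem re_pos_of {ξ : ℂ} (h0 : 0 < ξ.im) (h1 : ξ.im < Real.pi) : 0 < (2 * Real.pi * I * cexp (-ξ)).re := by
  have e : (2 * Real.pi * I * cexp (-ξ)).re = 2 * Real.pi * (Real.exp (-ξ.re) * Real.sin ξ.im) := by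
    have h : 2 * Real.pi * I * cexp (-ξ) = ((2 * Real.pi : ℝ) : ℂ) * (I * cexp (-ξ)) := by
      push_cast; ring
    rw [h, Complex.re_ofReal_mul, Complex.mul_re, Complex.I_re, Complex.I_im, Complex.exp_im,
      Complex.neg_re, Complex.neg_im, Real.sin_neg]
    ring
  rw [e]
  have := Real.sin_pos_of_pos_of_lt_pi h0 h1
  have := Real.exp_pos (-ξ.re)
  have := Real.pi_pos
  positivity

theorem P1_fun {ξ : ℂ} (h0 : 0 < ξ.im) (h1 : ξ.im < Real.pi) (u : ℝ) :
    wt u * cexp (I * u * ξ) =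
      cexp (-ξ / 2) * KK (2 * Real.pi * I * cexp (-ξ)) (SC.ln (1/2) u) := by
  rw [KK_eq_wt h0 h1, mul_left_comm, ← Complex.exp_add]
  congr 2
  rw [SC.ln]
  push_cast
  ring

theorem wt_int {ξ : ℂ} (h0 : 0 < ξ.im) (h1 : ξ.im < Real.pi) : Integrable (fun u : ℝ => wt u * cexp (I * u * ξ)) := by
  have h := (KK_int (re_pos_of h0 h1) (1/2) (Or.inr (Or.inl rfl))).const_mul (cexp (-ξ / 2))
  refine h.congr (Filter.Eventually.of_forall fun u => ?_)
  exact (P1_fun h0 h1 u).symm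

theorem P1 {ξ : ℂ} (h0 : 0 < ξ.im) (h1 : ξ.im < Real.pi) :
    Lam ξ = 2 * Real.pi * cexp (-ξ / 2) * (hh (2 * Real.pi * I * cexp (-ξ)) - gm (2 * Real.pi * I * cexp (-ξ))) := by
  rw [hh_half (re_pos_of h0 h1), Lam]
  have h : (fun u : ℝ => wt u * cexp (I * u * ξ)) =
      fun u : ℝ => cexp (-ξ / 2) * KK (2 * Real.pi * I * cexp (-ξ)) (SC.ln (1/2) u) :=
    funext fun u => P1_fun h0 h1 u
  rw [h, integral_const_mul]
  have hp : (Real.pi : ℂ) ≠ 0 := by exact_mod_cast Real.pi_ne_zero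
  push_cast
  field_simp

end Pool.Agent.H15.HB
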