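import Pool.Agent.H15.HB.Mel

/-!
# HB-06  modular relation for the Lambert series  (project HB, MP_be4568)

Start from `hh_neg`: `hh w - gm w - 1/4 = (1/2π) ∫ Γ(s) ζ(s)² w^{-s}` on `re s = -1/2`.  Put `s = 1 - s'`, `re s' = 3/2` (in the
integral: `u ↦ -u`); `ζ(1-s')² = 4 (2π)^{-2s'} cos²(πs'/2) Γ(s')² ζ(s')²` (`riemannZeta_one_sub`) and
`Γ(1-s') Γ(s') = π / sin(πs')` (`Complex.Gamma_mul_Gamma_one_sub`) give
`Γ(1-s') ζ(1-s')² w^{s'-1} = (2π/w) cot(πs'/2) Γ(s') ζ(s')² (4π²/w)^{-s'}`,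
where `(4π²/w)^{-s'} = exp(-s' (log 4π² - log w))`.  Replace `cot` by `-i`: by `hh_line` with `c = 3/2`
the main term is `-i (2π/w) hh(4π²/w)`.  Remainder:
`cot(πs/2) + i = 2i e^{iπs}/(e^{iπs} - 1)` is `O(e^{-π im s})` for `im s > 0` and `O(1)` for `im s < 0` on `re s = 3/2`; for
`arg w ∈ [-π/2, -π/4]` the number `4π²/w` has argument `θ ∈ [π/4, π/2)` and `|(4π²/w)^{-s}| = |4π²/w|^{-3/2} e^{θ im s}`,
`|Γ(3/2 + iu)| ≤ C (1+|u|) e^{-π|u|/2}`; so the remainder is `≤ C |2π/w| |w|^{3/2} ≤ C' |w|^{1/2}`.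
-/

set_option autoImplicit false

open Complex Filter Topology MeasureTheory Set
open scoped ComplexConjugate

namespace Pool.Agent.H15.HB

private theorem p2_zeta : ∃ Z : ℝ, 0 ≤ Z ∧ ∀ s : ℂ, s.re = 3/2 → ‖riemannZeta s‖ ≤ Z := by
  refine ⟨∑' n : ℕ, ((n : ℝ) ^ (3/2 : ℝ))⁻¹, tsum_nonneg fun n => by positivity, fun s hs => ?_⟩
  rw [zeta_eq_tsum_one_div_nat_cpow (by rw [hs]; norm_num)]
  refine tsum_of_norm_bounded (Real.summable_nat_rpow_inv.mpr (by norm_num)).hasSum fun n => ?_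
  rcases Nat.eq_zero_or_pos n with h | h
  · subst h
    have hs0 : s ≠ 0 := by
      intro h0
      rw [h0] at hs
      norm_num at hs
    simp [Complex.zero_cpow hs0]
  · rw [norm_div, norm_one, Complex.norm_natCast_cpow_of_pos h, hs, one_div]

private theorem p2_gamma {z : ℂ} (hz : 0 < z.re) : ‖Complex.Gamma z‖ ≤ Real.Gamma z.re := by
  rw [Complex.Gamma_eq_integral hz, Complex.GammaIntegral, Real.Gamma_eq_integral hz]
  refine (norm_integral_le_integral_norm _).trans (le_of_eq ?_)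
  refine setIntegral_congr_fun measurableSet_Ioi fun x hx => ?_
  have hx' : (0 : ℝ) < x := hx
  rw [norm_mul, Complex.norm_real, Real.norm_of_nonneg (Real.exp_pos _).le,
    Complex.norm_cpow_eq_rpow_re_of_pos hx']
  simp

private theorem p2_sin {s : ℂ} (hs : s.re = 3/2) :
    Real.exp (Real.pi / 2 * |s.im|) / 2 ≤ ‖Complex.sin (Real.pi * s / 2)‖ := by
  set b : ℝ := Real.pi / 2 * s.im with hb
  have hx : (Real.pi * s / 2 : ℂ) = ((3 * Real.pi / 4 : ℝ) : ℂ) + (b : ℂ) * I := by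
    apply Complex.ext
    · simp [hs]; ring
    · simp [hb]; ring
  have hs3 : Real.sin (3 * Real.pi / 4) = Real.sqrt 2 / 2 := by
    rw [show 3 * Real.pi / 4 = Real.pi - Real.pi / 4 by ring, Real.sin_pi_sub, Real.sin_pi_div_four]
  have hc3 : Real.cos (3 * Real.pi / 4) = -(Real.sqrt 2 / 2) := by
    rw [show 3 * Real.pi / 4 = Real.pi - Real.pi / 4 by ring, Real.cos_pi_sub, Real.cos_pi_div_four]
  have h2 : ‖Complex.sin (Real.pi * s / 2)‖ ^ 2 = (Real.cosh b ^ 2 + Real.sinh b ^ 2) / 2 := by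
    rw [hx, Complex.sin_add_mul_I, ← Complex.ofReal_sin, ← Complex.ofReal_cos, ← Complex.ofReal_cosh,
      ← Complex.ofReal_sinh, hs3, hc3, ← Complex.ofReal_mul, ← Complex.ofReal_mul, ← Complex.normSq_eq_norm_sq,
      Complex.normSq_add_mul_I, mul_pow, mul_pow, neg_sq, div_pow, Real.sq_sqrt (by norm_num)]
    ring
  have h3 : Real.exp (2 * |b|) / 2 ≤ Real.cosh b ^ 2 + Real.sinh b ^ 2 := by
    have h4 : Real.cosh b ^ 2 + Real.sinh b ^ 2 = (Real.exp (2 * b) + Real.exp (-(2 * b))) / 2 := by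
      rw [Real.cosh_eq, Real.sinh_eq]
      have e1 : Real.exp (2 * b) = Real.exp b ^ 2 := by rw [← Real.exp_nat_mul]; norm_num
      have e2 : Real.exp (-(2 * b)) = Real.exp (-b) ^ 2 := by rw [← Real.exp_nat_mul]; congr 1; push_cast; ring
      rw [e1, e2]; ring
    rw [h4]
    rcases abs_cases b with ⟨h, _⟩ | ⟨h, _⟩
    · rw [h]; have := Real.exp_pos (-(2 * b)); linarith
    · rw [h, show 2 * -b = -(2 * b) by ring]; have := Real.exp_pos (2 * b); linarith
  have hab : |b| = Real.pi / 2 * |s.im| := by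
    rw [hb, abs_mul, abs_of_pos (by positivity : (0:ℝ) < Real.pi / 2)]
  have h5 : (Real.exp (Real.pi / 2 * |s.im|) / 2) ^ 2 ≤ ‖Complex.sin (Real.pi * s / 2)‖ ^ 2 := by
    rw [h2, div_pow, ← hab, ← Real.exp_nat_mul]
    push_cast
    linarith
  exact (sq_le_sq₀ (by positivity) (norm_nonneg _)).mp h5

private theorem p2_log {w : ℂ} (hw : 0 < w.re) :
    Complex.log (4 * Real.pi ^ 2 / w) = ((2 * Real.log (2 * Real.pi) : ℝ) : ℂ) - Complex.log w := by
  have hw0 : w ≠ 0 := by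
    intro h
    rw [h] at hw
    simp at hw
  have harg : w.arg ≠ Real.pi := by
    have h1 : |Complex.arg w| < Real.pi / 2 := Complex.abs_arg_lt_pi_div_two_iff.mpr (Or.inl hw)
    have h2 := (abs_lt.mp h1).2
    have h3 := Real.pi_pos
    intro h
    rw [h] at h2
    linarith
  have h4 : (0 : ℝ) < 4 * Real.pi ^ 2 := by positivity
  have e1 : (4 * Real.pi ^ 2 / w : ℂ) = ((4 * Real.pi ^ 2 : ℝ) : ℂ) * w⁻¹ := by
    push_cast; rw [div_eq_mul_inv]
  rw [e1, Complex.log_ofReal_mul h4 (inv_ne_zero hw0), Complex.log_inv _ harg, ← sub_eq_add_neg]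
  congr 2
  rw [show 4 * Real.pi ^ 2 = (2 * Real.pi) ^ 2 by ring, Real.log_pow]
  norm_num

private theorem p2_refl {w s : ℂ} (hw : 0 < w.re) (hs : s.re = 3/2) :
    KK w (1 - s) + 2 * Real.pi * I / w * KK (4 * Real.pi ^ 2 / w) s =
      2 * Real.pi / w * (cexp (I * (Real.pi * s / 2)) / Complex.sin (Real.pi * s / 2)) *
        KK (4 * Real.pi ^ 2 / w) s := by
  have hw0 : w ≠ 0 := by
    intro h
    rw [h] at hw
    simp at hw
  have hS : Complex.sin (Real.pi * s / 2) ≠ 0 := by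
    intro h
    have := p2_sin hs
    rw [h, norm_zero] at this
    have h2 := Real.exp_pos (Real.pi / 2 * |s.im|)
    linarith
  have hpi : (Real.pi : ℂ) ≠ 0 := by exact_mod_cast Real.pi_ne_zero
  have hC : Complex.cos (Real.pi * s / 2) ≠ 0 := by
    intro h
    rw [Complex.cos_eq_zero_iff] at h
    obtain ⟨k, hk⟩ := h
    have h1 : s = 2 * k + 1 := by
      have : (Real.pi : ℂ) * s = Real.pi * (2 * k + 1) := by linear_combination 2 * hk
      exact mul_left_cancel₀ hpi this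
    rw [h1] at hs
    simp at hs
    have h2 : (4 * k : ℝ) = 1 := by linarith
    have h3 : (4 * k : ℤ) = 1 := by exact_mod_cast h2
    omega
  have hΓ : Complex.Gamma s ≠ 0 := Complex.Gamma_ne_zero_of_re_pos (by rw [hs]; norm_num)
  have hG := Complex.Gamma_mul_Gamma_one_sub s
  have hZ : riemannZeta (1 - s) = 2 * (2 * Real.pi) ^ (-s) * Complex.Gamma s * Complex.cos (Real.pi * s / 2) *
      riemannZeta s := by
    apply riemannZeta_one_sub
    · intro n h
      rw [h] at hs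
      simp at hs
      have : (0 : ℝ) ≤ n := Nat.cast_nonneg n
      linarith
    · intro h
      rw [h] at hs
      norm_num at hs
  have h2s : Complex.sin (Real.pi * s) = 2 * Complex.sin (Real.pi * s / 2) * Complex.cos (Real.pi * s / 2) := by
    rw [← Complex.sin_two_mul]; congr 1; ring
  have hG1 : Complex.Gamma (1 - s) =
      Real.pi / (2 * Complex.sin (Real.pi * s / 2) * Complex.cos (Real.pi * s / 2) * Complex.Gamma s) := by
    rw [h2s] at hG
    field_simp
    field_simp at hG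
    linear_combination hG
  have hP : (2 * Real.pi : ℂ) ^ (-s) = cexp (-(s * ((Real.log (2 * Real.pi) : ℝ) : ℂ))) := by
    rw [Complex.cpow_def_of_ne_zero (by simp)]
    congr 1
    rw [Complex.ofReal_log (by positivity)]
    push_cast
    ring
  have hE : cexp (-(1 - s) * Complex.log w) = cexp (s * Complex.log w) / w := by
    rw [show -(1 - s) * Complex.log w = s * Complex.log w - Complex.log w by ring, Complex.exp_sub,
      Complex.exp_log hw0]
  have hE2 : cexp (-s * Complex.log (4 * Real.pi ^ 2 / w)) =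
      cexp (-(s * ((Real.log (2 * Real.pi) : ℝ) : ℂ))) ^ 2 * cexp (s * Complex.log w) := by
    rw [p2_log hw, ← Complex.exp_nat_mul, ← Complex.exp_add]
    congr 1
    push_cast
    ring
  have hI : cexp (I * (Real.pi * s / 2)) = Complex.cos (Real.pi * s / 2) + Complex.sin (Real.pi * s / 2) * I := by
    rw [mul_comm I, Complex.exp_mul_I]
  unfold KK
  rw [hE, hE2, hZ, hG1, hP, hI]
  generalize cexp (-(s * ((Real.log (2 * Real.pi) : ℝ) : ℂ))) = P
  generalize cexp (s * Complex.log w) = E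
  generalize Complex.sin (Real.pi * s / 2) = S at *
  generalize Complex.cos (Real.pi * s / 2) = c at *
  generalize Complex.Gamma s = g at *
  generalize riemannZeta s = z
  field_simp

private theorem p2_arg {w : ℂ} (hw : 0 < w.re) (h : w.re ≤ -w.im) :
    Complex.arg w ≤ -(Real.pi / 4) ∧ -(Real.pi / 2) ≤ Complex.arg w := by
  have h1 : |Complex.arg w| < Real.pi / 2 := Complex.abs_arg_lt_pi_div_two_iff.mpr (Or.inl hw)
  obtain ⟨h2, h3⟩ := abs_lt.mp h1
  refine ⟨?_, h2.le⟩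
  have hpi := Real.pi_pos
  have ht : Real.tan (Complex.arg w) ≤ Real.tan (-(Real.pi / 4)) := by
    rw [Complex.tan_arg, Real.tan_neg, Real.tan_pi_div_four, div_le_iff₀ hw]
    linarith
  exact (Real.strictMonoOn_tan.le_iff_le ⟨h2, h3⟩ ⟨by linarith, by linarith⟩).mp ht

private theorem p2_bound : ∃ C : ℝ, 0 ≤ C ∧ ∀ w s : ℂ, 0 < w.re → w.re ≤ -w.im → ‖w‖ ≤ 13 → s.re = 3/2 →
    ‖2 * Real.pi / w * (cexp (I * (Real.pi * s / 2)) / Complex.sin (Real.pi * s / 2)) *
        KK (4 * Real.pi ^ 2 / w) s‖ ≤ C * Real.exp (-(Real.pi / 4 * |s.im|)) := by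
  obtain ⟨Z, hZ0, hZ⟩ := p2_zeta
  refine ⟨16 * Real.pi * Real.Gamma (3/2) * Z ^ 2, by
    have := Real.Gamma_pos_of_pos (show (0:ℝ) < 3/2 by norm_num)
    positivity, fun w s hw hwi hw13 hs => ?_⟩
  have hw0 : w ≠ 0 := by
    intro h
    rw [h] at hw
    simp at hw
  have hwn : 0 < ‖w‖ := norm_pos_iff.mpr hw0
  have hpi := Real.pi_pos
  obtain ⟨ha1, ha2⟩ := p2_arg hw hwi
  have b1 : ‖Complex.Gamma s‖ ≤ Real.Gamma (3/2) := by
    have := p2_gamma (z := s) (by rw [hs]; norm_num)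
    rwa [hs] at this
  have b2 : ‖riemannZeta s‖ ^ 2 ≤ Z ^ 2 := pow_le_pow_left₀ (norm_nonneg _) (hZ s hs) 2
  have b3 : ‖cexp (-s * Complex.log (4 * Real.pi ^ 2 / w))‖ ≤ 4 * ‖w‖ * Real.exp (-(s.im * Complex.arg w)) := by
    rw [p2_log hw, Complex.norm_exp]
    have e1 : (-s * (((2 * Real.log (2 * Real.pi) : ℝ) : ℂ) - Complex.log w)).re =
        -(3 * Real.log (2 * Real.pi)) + (3/2 * Real.log ‖w‖ + -(s.im * Complex.arg w)) := by
      simp only [Complex.mul_re, Complex.neg_re, Complex.neg_im, Complex.sub_re, Complex.sub_im, Complex.ofReal_re,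
        Complex.ofReal_im, Complex.log_re, Complex.log_im, hs]
      ring
    rw [e1, Real.exp_add, Real.exp_add]
    have e2 : Real.exp (-(3 * Real.log (2 * Real.pi))) ≤ 1 := by
      rw [Real.exp_le_one_iff]
      have : 0 ≤ Real.log (2 * Real.pi) := Real.log_nonneg (by have := Real.pi_gt_three; linarith)
      linarith
    have e3 : Real.exp (3/2 * Real.log ‖w‖) ≤ 4 * ‖w‖ := by
      have : 3/2 * Real.log ‖w‖ = Real.log ‖w‖ + 1/2 * Real.log ‖w‖ := by ring
      rw [this, Real.exp_add, Real.exp_log hwn, mul_comm]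
      refine mul_le_mul_of_nonneg_right ?_ hwn.le
      have h16 : Real.log ‖w‖ ≤ 2 * Real.log 4 := by
        rw [show (2:ℝ) * Real.log 4 = Real.log (4 ^ 2) by rw [Real.log_pow]; norm_num]
        exact Real.log_le_log hwn (by linarith)
      calc Real.exp (1/2 * Real.log ‖w‖) ≤ Real.exp (Real.log 4) := Real.exp_le_exp.mpr (by linarith)
        _ = 4 := Real.exp_log (by norm_num)
    have e4 := Real.exp_pos (-(s.im * Complex.arg w))
    calc Real.exp (-(3 * Real.log (2 * Real.pi))) * (Real.exp (3/2 * Real.log ‖w‖) *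
          Real.exp (-(s.im * Complex.arg w))) ≤ 1 * (4 * ‖w‖ * Real.exp (-(s.im * Complex.arg w))) := by
          gcongr
      _ = _ := one_mul _
  have b4 : ‖cexp (I * (Real.pi * s / 2))‖ = Real.exp (-(Real.pi / 2 * s.im)) := by
    rw [Complex.norm_exp]
    congr 1
    simp
    ring
  have b5 := p2_sin hs
  have hsp : 0 < ‖Complex.sin (Real.pi * s / 2)‖ := lt_of_lt_of_le (by positivity) b5
  have b6 : ‖cexp (I * (Real.pi * s / 2)) / Complex.sin (Real.pi * s / 2)‖ ≤
      2 * Real.exp (-(Real.pi / 2 * s.im) - Real.pi / 2 * |s.im|) := by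
    rw [norm_div, b4, div_le_iff₀ hsp, Real.exp_sub]
    have h1 := Real.exp_pos (Real.pi / 2 * |s.im|)
    calc Real.exp (-(Real.pi / 2 * s.im)) = 2 * (Real.exp (-(Real.pi / 2 * s.im)) / Real.exp (Real.pi / 2 * |s.im|)) *
          (Real.exp (Real.pi / 2 * |s.im|) / 2) := by field_simp
      _ ≤ _ := by gcongr
  have b7 : ‖(2 * Real.pi / w : ℂ)‖ = 2 * Real.pi / ‖w‖ := by
    rw [norm_div, norm_mul, Complex.norm_real, Real.norm_of_nonneg hpi.le]
    norm_num
  have b8 : Real.exp (-(Real.pi / 2 * s.im) - Real.pi / 2 * |s.im|) * Real.exp (-(s.im * Complex.arg w)) ≤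
      Real.exp (-(Real.pi / 4 * |s.im|)) := by
    rw [← Real.exp_add]
    apply Real.exp_le_exp.mpr
    rcases le_total 0 s.im with h | h
    · rw [abs_of_nonneg h]
      nlinarith
    · rw [abs_of_nonpos h]
      nlinarith
  unfold KK
  rw [norm_mul, norm_mul, b7, norm_mul, norm_mul, norm_pow]
  have hΓ0 := Real.Gamma_pos_of_pos (show (0:ℝ) < 3/2 by norm_num)
  calc 2 * Real.pi / ‖w‖ * ‖cexp (I * (Real.pi * s / 2)) / Complex.sin (Real.pi * s / 2)‖ *
        (‖Complex.Gamma s‖ * ‖riemannZeta s‖ ^ 2 * ‖cexp (-s * Complex.log (4 * Real.pi ^ 2 / w))‖)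
      ≤ 2 * Real.pi / ‖w‖ * (2 * Real.exp (-(Real.pi / 2 * s.im) - Real.pi / 2 * |s.im|)) *
        (Real.Gamma (3/2) * Z ^ 2 * (4 * ‖w‖ * Real.exp (-(s.im * Complex.arg w)))) := by
        gcongr
    _ = 16 * Real.pi * Real.Gamma (3/2) * Z ^ 2 * (Real.exp (-(Real.pi / 2 * s.im) - Real.pi / 2 * |s.im|) *
          Real.exp (-(s.im * Complex.arg w))) := by
        field_simp
        ring
    _ ≤ _ := by gcongr

private theorem p2_int : Integrable (fun u : ℝ => Real.exp (-(Real.pi / 4 * |u|))) := by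
  have h := SC.MSrep.integrable_exp_abs.comp_mul_left' (R := Real.pi / 4) (by positivity)
  refine h.congr (Eventually.of_forall fun u => ?_)
  simp only
  rw [abs_mul, abs_of_pos (by positivity : (0:ℝ) < Real.pi / 4)]

theorem P2 : ∃ C : ℝ, 0 ≤ C ∧ ∀ w : ℂ, 0 < w.re → w.re ≤ -w.im → ‖w‖ ≤ 13 →
    ‖hh w - gm w + 2 * Real.pi * I / w * hh (4 * Real.pi ^ 2 / w)‖ ≤ C := by
  obtain ⟨C, hC0, hC⟩ := p2_bound
  refine ⟨1/4 + 1 / (2 * Real.pi) * ∫ u : ℝ, C * Real.exp (-(Real.pi / 4 * |u|)), by positivity,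
    fun w hw hwi hw13 => ?_⟩
  have hpi := Real.pi_pos
  have hw0 : w ≠ 0 := by
    intro h
    rw [h] at hw
    simp at hw
  have hz : 0 < (4 * Real.pi ^ 2 / w : ℂ).re := by
    have e1 : (4 * Real.pi ^ 2 / w : ℂ) = ((4 * Real.pi ^ 2 : ℝ) : ℂ) * w⁻¹ := by
      push_cast; rw [div_eq_mul_inv]
    rw [e1, Complex.re_ofReal_mul, Complex.inv_re]
    have := Complex.normSq_pos.mpr hw0
    positivity
  have h1 := hh_neg hw
  have h2 := hh_line hz (c := 3/2) (by norm_num)
  have hln : ∀ u : ℝ, SC.ln (-1/2) (-u) = 1 - SC.ln (3/2) u := by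
    intro u
    apply Complex.ext
    · simp; norm_num
    · simp
  have h3 : ∫ u : ℝ, KK w (SC.ln (-1/2) u) = ∫ u : ℝ, KK w (1 - SC.ln (3/2) u) := by
    rw [← integral_neg_eq_self (fun u : ℝ => KK w (SC.ln (-1/2) u))]
    refine integral_congr_ae (Eventually.of_forall fun u => ?_)
    simp only
    rw [hln]
  have i1 : Integrable (fun u : ℝ => KK w (1 - SC.ln (3/2) u)) := by
    have h := (KK_int hw (-1/2) (by norm_num)).comp_neg
    refine h.congr (Eventually.of_forall fun u => ?_)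
    simp only
    rw [hln]
  have i2 : Integrable (fun u : ℝ => 2 * Real.pi * I / w * KK (4 * Real.pi ^ 2 / w) (SC.ln (3/2) u)) :=
    (KK_int hz (3/2) (by norm_num)).const_mul _
  have h4 : hh w - gm w + 2 * Real.pi * I / w * hh (4 * Real.pi ^ 2 / w) =
      1/4 + ((1 / (2 * Real.pi) : ℝ) : ℂ) * ∫ u : ℝ, (2 * Real.pi / w *
        (cexp (I * (Real.pi * SC.ln (3/2) u / 2)) / Complex.sin (Real.pi * SC.ln (3/2) u / 2)) *
        KK (4 * Real.pi ^ 2 / w) (SC.ln (3/2) u)) := by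
    have h5 : ∫ u : ℝ, (2 * Real.pi / w *
        (cexp (I * (Real.pi * SC.ln (3/2) u / 2)) / Complex.sin (Real.pi * SC.ln (3/2) u / 2)) *
        KK (4 * Real.pi ^ 2 / w) (SC.ln (3/2) u)) =
        (∫ u : ℝ, KK w (1 - SC.ln (3/2) u)) +
          2 * Real.pi * I / w * ∫ u : ℝ, KK (4 * Real.pi ^ 2 / w) (SC.ln (3/2) u) := by
      rw [← integral_const_mul, ← integral_add i1 i2]
      refine integral_congr_ae (Eventually.of_forall fun u => ?_)
      exact (p2_refl hw (by simp)).symm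
    rw [h5]
    rw [h3] at h1
    rw [h2]
    linear_combination h1
  rw [h4]
  refine (norm_add_le _ _).trans (add_le_add (by norm_num) ?_)
  rw [norm_mul, Complex.norm_real, Real.norm_of_nonneg (by positivity)]
  refine mul_le_mul_of_nonneg_left ?_ (by positivity)
  refine norm_integral_le_of_norm_le (p2_int.const_mul C) (Eventually.of_forall fun u => ?_)
  have := hC w (SC.ln (3/2) u) hw hwi hw13 (by simp)
  simpa using this

end Pool.Agent.H15.HB
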