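import Pool.Agent.H15.HB.P1
import Pool.Agent.H15.HB.P2
import Pool.Agent.H15.HB.Kap

/-!
# HB-12  `Lam(kap ψ) kap'(ψ) = amp ψ Hd ψ + small`  (project HB, MP_be4568)

`ψ = X - iη`, `X ≥ 1`, `0 < η ≤ X`, `ξ = kap ψ` (`0 < im ξ < π/2`), `z = 2πi e^{-ξ} = 2πi (2ψ-1)/(2ψ+1) = 2πi - 4πi/(2ψ+1)`,
`w = -4πi/(2ψ+1)`.  `e^{-nz} = e^{-nw}`, so `hh z = hh w`.  `re w = 8πη/|2ψ+1|² > 0`, `-im w = 4π(2X+1)/|2ψ+1|² ≥ re w`,
`|w| = 4π/|2ψ+1| ≤ 13`.  `4π²/w = iπ(2ψ+1)` and `e^{-n iπ(2ψ+1)} = (-1)^n e^{-2πinψ}`, so `hh(4π²/w) = Hd ψ`;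
`2πi/w = -(2ψ+1)/2`.  `P2`: `hh w = gm w + (2ψ+1)/2 · Hd ψ + O(1)`.  `P1`: `Lam ξ = 2π e^{-ξ/2} (hh z - gm z)`.  With
`kap' ψ = -4/((2ψ-1)(2ψ+1))`: `Lam(kap ψ) kap' ψ - amp ψ Hd ψ = 2π e^{-ξ/2} kap' ψ (gm w - gm z + O(1))`.
`|gm w| ≤ (1 + π + |log |w||) |2ψ+1|/(4π)`, `|gm z| ≤ C` (`2π e^{-4} ≤ |z| ≤ 2π` as `0 ≤ re kap ≤ 4/X`), `|kap' ψ| ≤ 4/X²`,
`|2ψ+1| ≤ 5X`, `|e^{-ξ/2}| ≤ 1`.
-/

set_option autoImplicit false

open Complex Filter Topology MeasureTheory Set
open scoped ComplexConjugate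

namespace Pool.Agent.H15.HB

private theorem hh_add_two_pi (w : ℂ) : hh (w + 2 * Real.pi * I) = hh w := by
  unfold hh
  congr 1
  funext n
  have h : cexp (-((n : ℂ) * (w + 2 * Real.pi * I))) = cexp (-((n : ℂ) * w)) := by
    have h1 : -((n : ℂ) * (w + 2 * Real.pi * I)) = -((n : ℂ) * w) - (n : ℂ) * (2 * Real.pi * I) := by ring
    rw [h1, Complex.exp_sub, Complex.exp_nat_mul_two_pi_mul_I, div_one]
  rw [h]

private theorem hh_dual (ψ : ℂ) : hh (I * Real.pi * (2 * ψ + 1)) = Hd ψ := by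
  unfold hh Hd
  congr 1
  funext n
  have h1 : -((n : ℂ) * (I * Real.pi * (2 * ψ + 1))) = (n : ℂ) * (-(Real.pi * I)) + -(2 * Real.pi * I * n * ψ) := by ring
  rw [h1, Complex.exp_add, Complex.exp_nat_mul, Complex.exp_neg, Complex.exp_pi_mul_I]
  norm_num
  ring

private theorem norm_log_le (w : ℂ) : ‖Complex.log w‖ ≤ |Real.log ‖w‖| + Real.pi := by
  have h := Complex.norm_le_abs_re_add_abs_im (Complex.log w)
  rw [Complex.log_re, Complex.log_im] at h
  linarith [Complex.abs_arg_le_pi w]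

private theorem gm_le (w : ℂ) : ‖gm w‖ ≤ (1 + Real.pi + |Real.log ‖w‖|) / ‖w‖ := by
  unfold gm
  rw [norm_div]
  have h1 : ‖((Real.eulerMascheroniConstant : ℝ) : ℂ) - Complex.log w‖ ≤ 1 + Real.pi + |Real.log ‖w‖| := by
    have h2 := norm_sub_le ((Real.eulerMascheroniConstant : ℝ) : ℂ) (Complex.log w)
    have h3 : ‖((Real.eulerMascheroniConstant : ℝ) : ℂ)‖ ≤ 1 := by
      rw [Complex.norm_real, Real.norm_eq_abs, abs_le]
      constructor
      · linarith [Real.one_half_lt_eulerMascheroniConstant]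
      · linarith [Real.eulerMascheroniConstant_lt_two_thirds]
    linarith [norm_log_le w]
  exact div_le_div_of_nonneg_right h1 (norm_nonneg _)

theorem PW : ∃ C : ℝ, 0 ≤ C ∧ ∀ X η : ℝ, 1 ≤ X → 0 < η → η ≤ X →
    ‖Lam (kap (pt X η)) * kap' (pt X η) - amp (pt X η) * Hd (pt X η)‖ ≤ C * (1 + Real.log X) / X := by
  obtain ⟨C, hC0, hC⟩ := P2
  have hpi0 := Real.pi_pos
  have hpi3 := Real.pi_gt_three
  have hpi4 := Real.pi_lt_d2
  set D : ℝ := (1 + Real.pi + 6) * Real.exp 4 with hD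
  have hD0 : 0 ≤ D := by positivity
  refine ⟨32 * (5 + D + C), by positivity, ?_⟩
  intro X η hX hη hle
  set ψ : ℂ := pt X η with hψ
  set ξ : ℂ := kap ψ with hξ
  have hX0 : 0 < X := by linarith
  have hlogX : 0 ≤ Real.log X := Real.log_nonneg hX
  -- the two linear factors
  have hre : ψ.re = X := by simp [hψ, pt]
  have him : ψ.im = -η := by simp [hψ, pt]
  have hA : (2 * ψ + 1 : ℂ) ≠ 0 := by
    intro h
    have := congrArg Complex.re h
    simp [hre] at this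
    linarith
  have hB : (2 * ψ - 1 : ℂ) ≠ 0 := by
    intro h
    have := congrArg Complex.re h
    simp [hre] at this
    linarith
  have hI : (I : ℂ) ≠ 0 := Complex.I_ne_zero
  have hpiC : (Real.pi : ℂ) ≠ 0 := by exact_mod_cast hpi0.ne'
  -- norm of 2ψ+1
  have hAre : (2 * ψ + 1 : ℂ).re = 2 * X + 1 := by simp [hre]
  have hAim : (2 * ψ + 1 : ℂ).im = -(2 * η) := by simp [him]
  set a : ℝ := ‖(2 * ψ + 1 : ℂ)‖ with ha
  have ha3 : 3 ≤ a := by
    have := Complex.abs_re_le_norm (2 * ψ + 1 : ℂ)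
    rw [hAre, abs_of_pos (by linarith)] at this
    linarith
  have ha5 : a ≤ 5 * X := by
    have := Complex.norm_le_abs_re_add_abs_im (2 * ψ + 1 : ℂ)
    rw [hAre, hAim, abs_neg, abs_of_pos (by linarith), abs_of_pos (by linarith)] at this
    linarith
  have ha0 : 0 < a := by linarith
  -- w
  set w : ℂ := -(4 * Real.pi * I) / (2 * ψ + 1) with hw
  set z : ℂ := 2 * Real.pi * I * cexp (-ξ) with hz
  have hzw : z = w + 2 * Real.pi * I := by
    rw [hz, hw, hξ, hψ, exp_neg_kap hX, ← hψ]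
    field_simp
    ring
  have hhz : hh z = hh w := by rw [hzw, hh_add_two_pi]
  have hwn : ‖w‖ = 4 * Real.pi / a := by
    rw [hw, norm_div, norm_neg, norm_mul, norm_mul, Complex.norm_I, mul_one, Complex.norm_real]
    simp [abs_of_pos hpi0, ha]
  have hw0 : 0 < ‖w‖ := by rw [hwn]; positivity
  have hwne : w ≠ 0 := norm_pos_iff.mp hw0
  have hw13 : ‖w‖ ≤ 13 := by
    rw [hwn, div_le_iff₀ ha0]
    nlinarith
  have hnsq : Complex.normSq (2 * ψ + 1) = (2 * X + 1) ^ 2 + (2 * η) ^ 2 := by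
    rw [Complex.normSq_apply, hAre, hAim]; ring
  have hnsq0 : 0 < (2 * X + 1) ^ 2 + (2 * η) ^ 2 := by positivity
  have hwre : w.re = 8 * Real.pi * η / ((2 * X + 1) ^ 2 + (2 * η) ^ 2) := by
    rw [hw, Complex.div_re, hnsq, hAre, hAim]
    simp
    ring
  have hwim : w.im = -(4 * Real.pi * (2 * X + 1)) / ((2 * X + 1) ^ 2 + (2 * η) ^ 2) := by
    rw [hw, Complex.div_im, hnsq, hAre, hAim]
    simp
  have hwre0 : 0 < w.re := by rw [hwre]; positivity
  have hwle : w.re ≤ -w.im := by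
    rw [hwre, hwim, neg_div, neg_neg]
    apply div_le_div_of_nonneg_right _ hnsq0.le
    nlinarith
  have hdual : (4 * (Real.pi : ℂ) ^ 2 / w) = I * Real.pi * (2 * ψ + 1) := by
    rw [hw]
    field_simp
    rw [Complex.I_sq]
  have hfac : (2 * Real.pi * I / w : ℂ) = -((2 * ψ + 1) / 2) := by
    rw [hw]
    field_simp
    ring
  have hP2 := hC w hwre0 hwle hw13
  rw [hdual, hh_dual, hfac] at hP2
  set r : ℂ := hh w - gm w + -((2 * ψ + 1) / 2) * Hd ψ with hr
  have hkim0 : 0 < ξ.im := kap_im_pos hX hη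
  have hkim1 : ξ.im < Real.pi := by
    have := kap_im_lt (X := X) hX hη
    have h2 : ξ.im < Real.pi / 2 := this
    linarith
  have hP1 := P1 hkim0 hkim1
  rw [← hz, hhz] at hP1
  have hkre0 : 0 ≤ ξ.re := le_trans (by positivity) (kap_re_ge hX hη)
  have hkre4 : ξ.re ≤ 4 := by
    have h1 : ξ.re ≤ 4 / X := kap_re_le hX hη
    have h2 : 4 / X ≤ 4 := by rw [div_le_iff₀ hX0]; nlinarith
    linarith
  -- the identity
  have hid : Lam ξ * kap' ψ - amp ψ * Hd ψ =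
      2 * Real.pi * cexp (-ξ / 2) * kap' ψ * (gm w - gm z + r) := by
    have hprod : (4 * ψ ^ 2 - 1 : ℂ) = (2 * ψ - 1) * (2 * ψ + 1) := by ring
    rw [hP1, hr]
    unfold kap' amp
    rw [← hξ, hprod]
    field_simp
    ring
  rw [hid]
  -- bounds
  have hz_norm : ‖z‖ = 2 * Real.pi * Real.exp (-ξ.re) := by
    rw [hz, norm_mul, norm_mul, norm_mul, Complex.norm_I, Complex.norm_exp, Complex.norm_real]
    simp [abs_of_pos hpi0]
  have hz_lo : Real.exp (-4) ≤ ‖z‖ := by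
    rw [hz_norm]
    have h1 : Real.exp (-4) ≤ Real.exp (-ξ.re) := Real.exp_le_exp.mpr (by linarith)
    have h2 := Real.exp_pos (-ξ.re)
    nlinarith
  have hz0 : 0 < ‖z‖ := lt_of_lt_of_le (Real.exp_pos _) hz_lo
  have hlz : |Real.log ‖z‖| ≤ 6 := by
    have h1 : Real.log ‖z‖ = Real.log (2 * Real.pi) + -ξ.re := by
      rw [hz_norm, Real.log_mul (by positivity) (Real.exp_pos _).ne', Real.log_exp]
    have h2 : 0 ≤ Real.log (2 * Real.pi) := Real.log_nonneg (by linarith)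
    have h3 : Real.log (2 * Real.pi) ≤ 6 := by
      have := Real.log_le_sub_one_of_pos (show 0 < 2 * Real.pi by positivity)
      linarith
    rw [h1, abs_le]
    constructor <;> linarith
  have hgz : ‖gm z‖ ≤ D := by
    refine (gm_le z).trans ?_
    rw [div_le_iff₀ hz0]
    have h1 : 1 ≤ Real.exp 4 * ‖z‖ := by
      have h2 : Real.exp 4 * Real.exp (-4) = 1 := by rw [← Real.exp_add]; norm_num
      calc (1 : ℝ) = Real.exp 4 * Real.exp (-4) := h2.symm
        _ ≤ Real.exp 4 * ‖z‖ := mul_le_mul_of_nonneg_left hz_lo (Real.exp_pos 4).le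
    rw [hD, mul_assoc]
    have h3 : 1 + Real.pi + |Real.log ‖z‖| ≤ 1 + Real.pi + 6 := by linarith
    have h4 : (0 : ℝ) ≤ 1 + Real.pi + 6 := by linarith
    nlinarith
  have hlw : |Real.log ‖w‖| ≤ 5 + Real.log X := by
    have h1 : Real.log ‖w‖ = Real.log (4 * Real.pi) - Real.log a := by
      rw [hwn, Real.log_div (by positivity) ha0.ne']
    have h2 : 0 ≤ Real.log (4 * Real.pi) := Real.log_nonneg (by linarith)
    have h3 : Real.log (4 * Real.pi) ≤ 5 := by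
      have h5 : (4 * Real.pi) ≤ Real.exp 5 := by
        have h6 : (2.7182818283 : ℝ) < Real.exp 1 := Real.exp_one_gt_d9
        have h7 : Real.exp 5 = Real.exp 1 ^ 5 := by
          rw [← Real.exp_nat_mul]; norm_num
        have h8 : (2 : ℝ) ^ 5 ≤ Real.exp 1 ^ 5 := pow_le_pow_left₀ (by norm_num) (by linarith) 5
        rw [h7]
        linarith
      calc Real.log (4 * Real.pi) ≤ Real.log (Real.exp 5) := Real.log_le_log (by positivity) h5
        _ = 5 := Real.log_exp 5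
    have h4 : 0 ≤ Real.log a := Real.log_nonneg (by linarith)
    have h5 : Real.log a ≤ Real.log 5 + Real.log X := by
      rw [← Real.log_mul (by norm_num) hX0.ne']
      exact Real.log_le_log ha0 ha5
    have h6 : Real.log 5 ≤ 5 := by
      have := Real.log_le_sub_one_of_pos (show (0 : ℝ) < 5 by norm_num)
      linarith
    rw [h1, abs_le]
    constructor <;> linarith
  have hgw : ‖gm w‖ ≤ 5 * X * (1 + Real.log X) := by
    refine (gm_le w).trans ?_
    rw [div_le_iff₀ hw0, hwn]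
    have h1 : 1 + Real.pi + |Real.log ‖w‖| ≤ 10 * (1 + Real.log X) := by
      nlinarith [hlw]
    rw [hwn] at h1
    have h2 : 2 ≤ X * (4 * Real.pi / a) := by
      rw [mul_div_assoc', le_div_iff₀ ha0]
      nlinarith
    have h3 : 0 ≤ 1 + Real.log X := by linarith
    calc 1 + Real.pi + |Real.log (4 * Real.pi / a)| ≤ 10 * (1 + Real.log X) := h1
      _ = 5 * (1 + Real.log X) * 2 := by ring
      _ ≤ 5 * (1 + Real.log X) * (X * (4 * Real.pi / a)) := mul_le_mul_of_nonneg_left h2 (by positivity)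
      _ = 5 * X * (1 + Real.log X) * (4 * Real.pi / a) := by ring
  have hsum : ‖gm w - gm z + r‖ ≤ (5 + D + C) * (X * (1 + Real.log X)) := by
    have h1 : ‖gm w - gm z + r‖ ≤ ‖gm w‖ + ‖gm z‖ + ‖r‖ :=
      (norm_add_le _ _).trans (by linarith [norm_sub_le (gm w) (gm z)])
    have h2 : 1 ≤ X * (1 + Real.log X) := by nlinarith
    have h3 : D ≤ D * (X * (1 + Real.log X)) := le_mul_of_one_le_right hD0 h2
    have h4 : C ≤ C * (X * (1 + Real.log X)) := le_mul_of_one_le_right hC0 h2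
    calc ‖gm w - gm z + r‖ ≤ ‖gm w‖ + ‖gm z‖ + ‖r‖ := h1
      _ ≤ 5 * X * (1 + Real.log X) + D * (X * (1 + Real.log X)) + C * (X * (1 + Real.log X)) := by linarith
      _ = (5 + D + C) * (X * (1 + Real.log X)) := by ring
  have hexp : ‖(2 * Real.pi * cexp (-ξ / 2) : ℂ)‖ ≤ 8 := by
    rw [norm_mul, norm_mul, Complex.norm_exp, Complex.norm_real]
    have h1 : (-ξ / 2).re = -(ξ.re / 2) := by
      simp [Complex.div_re]
      ring
    have h2 : Real.exp (-(ξ.re / 2)) ≤ 1 := by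
      rw [Real.exp_le_one_iff]; linarith
    have h3 := Real.exp_pos (-(ξ.re / 2))
    rw [h1]
    simp [abs_of_pos hpi0]
    nlinarith
  have hk' : ‖kap' ψ‖ ≤ 4 / X ^ 2 := kap'_le hX
  rw [norm_mul, norm_mul]
  have hS0 : 0 ≤ (5 + D + C) * (X * (1 + Real.log X)) := by positivity
  calc ‖(2 * Real.pi * cexp (-ξ / 2) : ℂ)‖ * ‖kap' ψ‖ * ‖gm w - gm z + r‖
      ≤ 8 * (4 / X ^ 2) * ((5 + D + C) * (X * (1 + Real.log X))) := by
        apply mul_le_mul _ hsum (norm_nonneg _) (by positivity)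
        exact mul_le_mul hexp hk' (norm_nonneg _) (by norm_num)
    _ = 32 * (5 + D + C) * (1 + Real.log X) / X := by
        field_simp
        ring

end Pool.Agent.H15.HB
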