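import Pool.Agent.H15.HB.Q
import Pool.Agent.H15.HB.PW
import Pool.Agent.H15.HB.Hdb

/-!
# HB-13  pieces of the path  (project HB, MP_be4568)

`hor_piece`: `d/dX QQ G t (kap (pt X η)) = e^{-(G+it) kap} Lam(kap) kap'` (`QQ_deriv`, `kap_deriv`), continuous in `X`
(`Lam_cont`); FTC; then `PW`, `|e^{-(G+it) kap}| = e^{-G re kap + t im kap} ≤ e^{11}` (`exponent_le`, `kap_re_ge`), and
`∫_a^b (1 + log X)/X dX ≤ (1 + log T)² · 4` for `1 ≤ a ≤ b ≤ 2T`.
`ver_piece`: the same with `η` as the variable (`d/dη = -i d/dψ`): `‖Lam(kap) kap'‖ ≤ ‖amp‖ ‖Hd‖ + C (1+log X)/X` (`PW`), with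
`amp_le`, `Hd_bound`; `∫_c^d η^{-(1+ε)} dη ≤ c^{-ε}/ε`.
`seg_piece`: the segment from `i/(4T)` to `κ = kap (pt (2T) (2T))`: `0 ≤ re κ ≤ 2/T`, `1/(8T) ≤ im κ ≤ 1/T` (`kap_im_ge`,
`kap_im_le`), so on the segment `1/(8T) ≤ im ξ ≤ 1/T`, `re ξ ≥ 0`, `|e^{-(G+it)ξ}| ≤ e^2`, `‖Lam ξ‖ ≤ C (8T)^{1+ε}`, length `≤ 4/T`
(mean value inequality on the convex set, or `QQ_deriv` along the segment).
`end_piece`: `QQ_bound`, `exponent_le`, `im kap ≥ η/(2(X²+η²)) ≥ 1/T` (here `η T = 4 X²`, `η ≤ X`), `re kap ≥ X/(3(X²+η²)) ≥ 1/(6X)`,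
so `‖QQ‖ ≤ C e^{11} e^{-G/(6X)} T^{1+ε}`.
-/

set_option autoImplicit false

open Complex Filter Topology MeasureTheory Set
open scoped ComplexConjugate

namespace Pool.Agent.H15.HB

theorem pa_re (X η : ℝ) : (pt X η).re = X := by
  simp [pt]

theorem pa_im (X η : ℝ) : (pt X η).im = -η := by
  simp [pt]

theorem pa_ne1 {X : ℝ} (hX : 1 ≤ X) (η : ℝ) : 2 * pt X η - 1 ≠ 0 := by
  intro h
  have := congrArg Complex.re h
  simp [pa_re] at this
  linarith

theorem pa_ne2 {X : ℝ} (hX : 1 ≤ X) (η : ℝ) : 2 * pt X η + 1 ≠ 0 := by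
  intro h
  have := congrArg Complex.re h
  simp [pa_re] at this
  linarith

theorem pa_ne3 {X : ℝ} (hX : 1 ≤ X) (η : ℝ) : 4 * pt X η ^ 2 - 1 ≠ 0 := by
  have h : 4 * pt X η ^ 2 - 1 = (2 * pt X η - 1) * (2 * pt X η + 1) := by ring
  rw [h]
  exact mul_ne_zero (pa_ne1 hX η) (pa_ne2 hX η)

theorem pa_cont : Continuous (fun p : ℝ × ℝ => pt p.1 p.2) := by
  unfold pt
  fun_prop

/-- the exponential factor -/
theorem pa_exp {T G t X η : ℝ} (hG : 1 ≤ G) (ht0 : 0 ≤ t) (ht : t ≤ 2 * T) (hX : 1 ≤ X) (hη : 0 < η)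
    (h : η * T ≤ 4 * X ^ 2) : ‖cexp (-(((G : ℂ) + I * t) * kap (pt X η)))‖ ≤ Real.exp 11 := by
  rw [Complex.norm_exp]
  apply Real.exp_le_exp.2
  have h1 := exponent_le hX hη ht0 ht h
  have h2 : 0 ≤ (kap (pt X η)).re := le_trans (by positivity) (kap_re_ge hX hη)
  have h3 : (-(((G : ℂ) + I * t) * kap (pt X η))).re = t * (kap (pt X η)).im - G * (kap (pt X η)).re := by
    simp [Complex.mul_re, Complex.add_re, Complex.add_im, Complex.mul_im]
  rw [h3]
  nlinarith [mul_nonneg (by linarith : (0:ℝ) ≤ G) h2]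

theorem pa_kap_cont {X : ℝ} (hX : 1 ≤ X) (η : ℝ) : ContinuousAt (fun p : ℝ × ℝ => kap (pt p.1 p.2)) (X, η) := by
  have h1 : ContinuousAt kap (pt X η) := (kap_deriv (X := X) (η := η) hX).continuousAt
  exact ContinuousAt.comp (f := fun p : ℝ × ℝ => pt p.1 p.2) (x := (X, η)) h1 pa_cont.continuousAt

theorem pa_kap_im {X η : ℝ} (hX : 1 ≤ X) (hη : 0 < η) : 0 < (kap (pt X η)).im ∧ (kap (pt X η)).im < Real.pi :=
  ⟨kap_im_pos hX hη, by linarith [kap_im_lt hX hη, Real.pi_pos]⟩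

/-- the derivative integrand -/
noncomputable def pa_D (G t : ℝ) (X η : ℝ) : ℂ :=
  cexp (-(((G : ℂ) + I * t) * kap (pt X η))) * (Lam (kap (pt X η)) * kap' (pt X η))

theorem pa_D_cont (G t : ℝ) {X η : ℝ} (hX : 1 ≤ X) (hη : 0 < η) :
    ContinuousAt (fun p : ℝ × ℝ => pa_D G t p.1 p.2) (X, η) := by
  have hk := pa_kap_cont hX η
  have hL : ContinuousAt Lam (kap (pt X η)) := by
    refine Lam_cont.continuousAt (IsOpen.mem_nhds ?_ (pa_kap_im hX hη))
    exact (isOpen_lt continuous_const Complex.continuous_im).inter (isOpen_lt Complex.continuous_im continuous_const)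
  have hL' : ContinuousAt (fun p : ℝ × ℝ => Lam (kap (pt p.1 p.2))) (X, η) :=
    ContinuousAt.comp (f := fun p : ℝ × ℝ => kap (pt p.1 p.2)) (x := (X, η)) hL hk
  have hk' : ContinuousAt (fun p : ℝ × ℝ => kap' (pt p.1 p.2)) (X, η) := by
    unfold kap'
    refine ContinuousAt.div continuousAt_const ?_ (pa_ne3 hX η)
    exact ((continuous_const.mul (pa_cont.pow 2)).sub continuous_const).continuousAt
  unfold pa_D
  exact ((hk.const_mul _).neg.cexp).mul (hL'.mul hk')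

theorem pa_QQ_hor {G t X η : ℝ} (hG : 1 ≤ G) (hX : 1 ≤ X) (hη : 0 < η) :
    HasDerivAt (fun X : ℝ => QQ G t (kap (pt X η))) (pa_D G t X η) X := by
  have h1 := QQ_deriv (G := G) (by linarith) t (pa_kap_im hX hη).1 (pa_kap_im hX hη).2
  have h2 := kap_deriv (X := X) (η := η) hX
  have h3 : HasDerivAt (fun X : ℝ => pt X η) 1 X := by
    unfold pt
    exact (Complex.ofRealCLM.hasDerivAt (x := X)).sub_const _
  have h4 := HasDerivAt.comp_of_eq (𝕜 := ℝ) (𝕜' := ℂ) X h2 h3 rfl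
  have h5 := HasDerivAt.comp_of_eq (𝕜 := ℝ) (𝕜' := ℂ) X h1 h4 rfl
  refine h5.congr_deriv ?_
  unfold pa_D
  ring

theorem pa_QQ_ver {G t X η : ℝ} (hG : 1 ≤ G) (hX : 1 ≤ X) (hη : 0 < η) :
    HasDerivAt (fun η : ℝ => QQ G t (kap (pt X η))) (pa_D G t X η * (-I)) η := by
  have h1 := QQ_deriv (G := G) (by linarith) t (pa_kap_im hX hη).1 (pa_kap_im hX hη).2
  have h2 := kap_deriv (X := X) (η := η) hX
  have h3 : HasDerivAt (fun η : ℝ => pt X η) (-I) η := by
    unfold pt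
    have := ((Complex.ofRealCLM.hasDerivAt (x := η)).const_mul I).const_sub (X : ℂ)
    simpa using this
  have h4 := HasDerivAt.comp_of_eq (𝕜 := ℝ) (𝕜' := ℂ) η h2 h3 rfl
  have h5 := HasDerivAt.comp_of_eq (𝕜 := ℝ) (𝕜' := ℂ) η h1 h4 rfl
  refine h5.congr_deriv ?_
  unfold pa_D
  ring

theorem pa_slice_X {f : ℝ × ℝ → ℂ} {X η : ℝ} (h : ContinuousAt f (X, η)) : ContinuousAt (fun X => f (X, η)) X :=
  ContinuousAt.comp (f := fun X : ℝ => (X, η)) (x := X) h (by fun_prop)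

theorem pa_slice_η {f : ℝ × ℝ → ℂ} {X η : ℝ} (h : ContinuousAt f (X, η)) : ContinuousAt (fun η => f (X, η)) η :=
  ContinuousAt.comp (f := fun η : ℝ => (X, η)) (x := η) h (by fun_prop)

theorem pa_PH_cont (G t : ℝ) {X η : ℝ} (hX : 1 ≤ X) (hη : 0 < η) :
    ContinuousAt (fun p : ℝ × ℝ => Psi G t p.2 p.1 * Hd (pt p.1 p.2)) (X, η) := by
  have hk := pa_kap_cont hX η
  have hH : ContinuousAt Hd (pt X η) := by
    refine Hd_cont.continuousAt (IsOpen.mem_nhds ?_ ?_)
    · exact isOpen_lt Complex.continuous_im continuous_const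
    · show (pt X η).im < 0
      rw [pa_im]; linarith
  have hH' : ContinuousAt (fun p : ℝ × ℝ => Hd (pt p.1 p.2)) (X, η) :=
    ContinuousAt.comp (f := fun p : ℝ × ℝ => pt p.1 p.2) (x := (X, η)) hH pa_cont.continuousAt
  have ha : ContinuousAt (fun p : ℝ × ℝ => amp (pt p.1 p.2)) (X, η) := by
    unfold amp
    refine ContinuousAt.div ?_ ?_ (pa_ne1 hX η)
    · exact continuousAt_const.mul ((hk.neg.div_const _).cexp)
    · exact ((continuous_const.mul pa_cont).sub continuous_const).continuousAt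
  unfold Psi
  exact (((hk.const_mul _).neg.cexp).mul ha).mul hH'

theorem pa_log_two : Real.log 2 ≤ 1 := by
  have := Real.log_two_lt_d9
  linarith

theorem pa_int_inv {a b T : ℝ} (ha : 1 ≤ a) (hab : a ≤ b) (hb : b ≤ 2 * T) (hT : 1 ≤ T) :
    ∫ x in a..b, x⁻¹ ≤ 1 + Real.log T := by
  rw [integral_inv_of_pos (by linarith) (by linarith)]
  have h1 : b / a ≤ 2 * T := by
    rw [div_le_iff₀ (by linarith)]
    nlinarith
  calc Real.log (b / a) ≤ Real.log (2 * T) := Real.log_le_log (by apply div_pos <;> linarith) h1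
    _ = Real.log 2 + Real.log T := Real.log_mul (by norm_num) (by linarith)
    _ ≤ 1 + Real.log T := by linarith [pa_log_two]

theorem pa_inv_int {a b : ℝ} (ha : 1 ≤ a) (hab : a ≤ b) : IntervalIntegrable (fun x : ℝ => x⁻¹) volume a b := by
  refine intervalIntegral.intervalIntegrable_inv (fun x hx => ?_) continuousOn_id
  rw [uIcc_of_le hab] at hx
  have := hx.1
  show x ≠ 0
  linarith

theorem hor_piece : ∃ C : ℝ, 0 ≤ C ∧ ∀ T G t η a b : ℝ, 1 ≤ T → 1 ≤ G → T ≤ t → t ≤ 2 * T → 0 < η → 1 ≤ a → η ≤ a →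
    a ≤ b → b ≤ 2 * T → η * T ≤ 4 * a ^ 2 →
    ‖QQ G t (kap (pt a η)) - QQ G t (kap (pt b η)) - LamH G t η b a‖ ≤ C * (1 + Real.log T) ^ 2 := by
  obtain ⟨C, hC, hPW⟩ := PW
  refine ⟨2 * (Real.exp 11 * C), by positivity, fun T G t η a b hT hG ht1 ht2 hη ha hηa hab hb hηT => ?_⟩
  have hlT : 0 ≤ Real.log T := Real.log_nonneg hT
  have hsub : ∀ X ∈ uIcc a b, 1 ≤ X ∧ η ≤ X ∧ η * T ≤ 4 * X ^ 2 ∧ X ≤ 2 * T := by
    intro X hX
    rw [uIcc_of_le hab] at hX
    have h1 := hX.1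
    have h2 := hX.2
    refine ⟨by linarith, by linarith, ?_, by linarith⟩
    nlinarith
  have hD : ContinuousOn (fun X : ℝ => pa_D G t X η) (uIcc a b) := fun X hX =>
    (pa_slice_X (f := fun p : ℝ × ℝ => pa_D G t p.1 p.2) (pa_D_cont G t (hsub X hX).1 hη)).continuousWithinAt
  have hP : ContinuousOn (fun X : ℝ => Psi G t η X * Hd (pt X η)) (uIcc a b) := fun X hX =>
    (pa_slice_X (f := fun p : ℝ × ℝ => Psi G t p.2 p.1 * Hd (pt p.1 p.2))
      (pa_PH_cont G t (hsub X hX).1 hη)).continuousWithinAt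
  have h1 : ∫ X in a..b, pa_D G t X η = QQ G t (kap (pt b η)) - QQ G t (kap (pt a η)) :=
    intervalIntegral.integral_eq_sub_of_hasDerivAt (fun X hX => pa_QQ_hor hG (hsub X hX).1 hη) hD.intervalIntegrable
  have h2 : LamH G t η b a = -∫ X in a..b, Psi G t η X * Hd (pt X η) := by
    unfold LamH
    rw [intervalIntegral.integral_symm]
  have h3 : QQ G t (kap (pt a η)) - QQ G t (kap (pt b η)) - LamH G t η b a =
      -∫ X in a..b, (pa_D G t X η - Psi G t η X * Hd (pt X η)) := by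
    rw [intervalIntegral.integral_sub hD.intervalIntegrable hP.intervalIntegrable, h1, h2]
    ring
  rw [h3, norm_neg]
  have hbd : ∀ X ∈ Ioc a b, ‖pa_D G t X η - Psi G t η X * Hd (pt X η)‖ ≤
      Real.exp 11 * C * (2 * (1 + Real.log T)) * X⁻¹ := by
    intro X hX
    obtain ⟨g1, g2, g3, g4⟩ := hsub X (by rw [uIcc_of_le hab]; exact Ioc_subset_Icc_self hX)
    have e1 : pa_D G t X η - Psi G t η X * Hd (pt X η) = cexp (-(((G : ℂ) + I * t) * kap (pt X η))) *
        (Lam (kap (pt X η)) * kap' (pt X η) - amp (pt X η) * Hd (pt X η)) := by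
      unfold pa_D Psi
      ring
    have e2 := pa_exp (T := T) (G := G) (t := t) hG (by linarith) ht2 g1 hη g3
    have e3 := hPW X η g1 hη g2
    have e4 : Real.log X ≤ 1 + Real.log T := by
      calc Real.log X ≤ Real.log (2 * T) := Real.log_le_log (by linarith) g4
        _ = Real.log 2 + Real.log T := Real.log_mul (by norm_num) (by linarith)
        _ ≤ 1 + Real.log T := by linarith [pa_log_two]
    rw [e1, norm_mul]
    have hX0 : 0 < X := by linarith
    calc _ ≤ Real.exp 11 * (C * (1 + Real.log X) / X) := mul_le_mul e2 e3 (norm_nonneg _) (Real.exp_pos _).le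
      _ = Real.exp 11 * C * (1 + Real.log X) * X⁻¹ := by rw [div_eq_mul_inv]; ring
      _ ≤ Real.exp 11 * C * (2 * (1 + Real.log T)) * X⁻¹ := by
          refine mul_le_mul_of_nonneg_right ?_ (by positivity)
          refine mul_le_mul_of_nonneg_left ?_ (by positivity)
          linarith
  have h4 := intervalIntegral.norm_integral_le_of_norm_le (μ := volume) hab
    (Eventually.of_forall hbd)
    ((pa_inv_int ha hab).const_mul (Real.exp 11 * C * (2 * (1 + Real.log T))))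
  refine h4.trans ?_
  rw [intervalIntegral.integral_const_mul]
  calc Real.exp 11 * C * (2 * (1 + Real.log T)) * ∫ x in a..b, x⁻¹
      ≤ Real.exp 11 * C * (2 * (1 + Real.log T)) * (1 + Real.log T) :=
        mul_le_mul_of_nonneg_left (pa_int_inv ha hab hb hT) (by positivity)
    _ = _ := by ring

/-- bound for the integrand in terms of `Hd` -/
theorem pa_D_bound (ε : ℝ) (hε : 0 < ε) : ∃ C : ℝ, 0 ≤ C ∧ ∀ T G t X η : ℝ, 1 ≤ T → 1 ≤ G → T ≤ t →
    t ≤ 2 * T → 1 ≤ X → 0 < η → η ≤ X → η * T ≤ 4 * X ^ 2 →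
    ‖pa_D G t X η‖ ≤ C * (1 + Real.log X + η ^ (-(1 + ε))) / X := by
  obtain ⟨C1, hC1, h1⟩ := PW
  obtain ⟨C2, hC2, h2⟩ := Hd_bound ε hε
  refine ⟨Real.exp 11 * (C1 + 13 * C2), by positivity, fun T G t X η hT hG ht1 ht2 hX hη hηX hηT => ?_⟩
  have hX0 : 0 < X := by linarith
  have hlX : 0 ≤ Real.log X := Real.log_nonneg hX
  have e1 := pa_exp (T := T) (G := G) (t := t) hG (by linarith) ht2 hX hη hηT
  have e2 := h1 X η hX hη hηX
  have e3 := h2 X η hη
  have e4 := amp_le hX hη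
  have hpw : 0 ≤ η ^ (-(1 + ε)) := by positivity
  have e5 : ‖amp (pt X η) * Hd (pt X η)‖ ≤ 13 / X * (C2 * (1 + η ^ (-(1 + ε)))) := by
    rw [norm_mul]
    refine mul_le_mul e4 (e3.trans ?_) (norm_nonneg _) (by positivity)
    have : Real.exp (-(6 * η)) ≤ 1 := Real.exp_le_one_iff.2 (by linarith)
    exact mul_le_of_le_one_right (by positivity) this
  have e6 : ‖Lam (kap (pt X η)) * kap' (pt X η)‖ ≤ C1 * (1 + Real.log X) / X + 13 / X * (C2 * (1 + η ^ (-(1 + ε)))) := by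
    have := norm_add_le (Lam (kap (pt X η)) * kap' (pt X η) - amp (pt X η) * Hd (pt X η)) (amp (pt X η) * Hd (pt X η))
    rw [sub_add_cancel] at this
    linarith
  unfold pa_D
  rw [norm_mul]
  calc _ ≤ Real.exp 11 * (C1 * (1 + Real.log X) / X + 13 / X * (C2 * (1 + η ^ (-(1 + ε))))) :=
        mul_le_mul e1 e6 (norm_nonneg _) (Real.exp_pos _).le
    _ = Real.exp 11 * (C1 * (1 + Real.log X) + 13 * C2 * (1 + η ^ (-(1 + ε)))) / X := by
        field_simp
    _ ≤ Real.exp 11 * ((C1 + 13 * C2) * (1 + Real.log X + η ^ (-(1 + ε)))) / X := by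
        refine div_le_div_of_nonneg_right ?_ hX0.le
        refine mul_le_mul_of_nonneg_left ?_ (Real.exp_pos _).le
        nlinarith [mul_nonneg hC1 hpw, mul_nonneg hC2 hlX]
    _ = _ := by ring

theorem ver_piece (ε : ℝ) (hε : 0 < ε) (hε1 : ε ≤ 1) : ∃ C : ℝ, 0 ≤ C ∧ ∀ T G t X c d : ℝ, 1 ≤ T → 1 ≤ G → T ≤ t →
    t ≤ 2 * T → 1 ≤ X → 0 < c → c ≤ d → d ≤ X → d * T ≤ 4 * X ^ 2 →
    ‖QQ G t (kap (pt X c)) - QQ G t (kap (pt X d))‖ ≤ C * (d * (1 + Real.log X) + c ^ (-ε)) / X := by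
  obtain ⟨C, hC, hb⟩ := pa_D_bound ε hε
  refine ⟨C * (1 + 1 / ε), by positivity, fun T G t X c d hT hG ht1 ht2 hX hc hcd hdX hdT => ?_⟩
  have hX0 : 0 < X := by linarith
  have hlX : 0 ≤ Real.log X := Real.log_nonneg hX
  have hsub : ∀ η ∈ uIcc c d, 0 < η ∧ η ≤ X ∧ η * T ≤ 4 * X ^ 2 := by
    intro η hη
    rw [uIcc_of_le hcd] at hη
    have g1 := hη.1
    have g2 := hη.2
    exact ⟨by linarith, by linarith, by nlinarith⟩
  have hD : ContinuousOn (fun η : ℝ => pa_D G t X η * (-I)) (uIcc c d) := fun η hη =>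
    ((pa_slice_η (f := fun p : ℝ × ℝ => pa_D G t p.1 p.2)
      (pa_D_cont G t hX (hsub η hη).1)).mul continuousAt_const).continuousWithinAt
  have h1 : ∫ η in c..d, pa_D G t X η * (-I) = QQ G t (kap (pt X d)) - QQ G t (kap (pt X c)) :=
    intervalIntegral.integral_eq_sub_of_hasDerivAt (fun η hη => pa_QQ_ver hG hX (hsub η hη).1) hD.intervalIntegrable
  have h0 : (0 : ℝ) ∉ uIcc c d := by
    rw [uIcc_of_le hcd]
    intro h
    linarith [h.1]
  have hI1 : IntervalIntegrable (fun η : ℝ => η ^ (-(1 + ε))) volume c d :=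
    intervalIntegral.intervalIntegrable_rpow (Or.inr h0)
  have hI : IntervalIntegrable (fun η : ℝ => C * (1 + Real.log X + η ^ (-(1 + ε))) / X) volume c d := by
    have := ((intervalIntegrable_const (c := 1 + Real.log X)).add hI1).const_mul (C / X)
    refine this.congr (fun η _ => ?_)
    show C / X * (1 + Real.log X + η ^ (-(1 + ε))) = C * (1 + Real.log X + η ^ (-(1 + ε))) / X
    ring
  have h2 : ∫ η in c..d, C * (1 + Real.log X + η ^ (-(1 + ε))) / X =
      C / X * ((d - c) * (1 + Real.log X) + ∫ η in c..d, η ^ (-(1 + ε))) := by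
    have e : (fun η : ℝ => C * (1 + Real.log X + η ^ (-(1 + ε))) / X) =
        fun η => C / X * ((1 + Real.log X) + η ^ (-(1 + ε))) := by
      funext η; ring
    rw [e, intervalIntegral.integral_const_mul, intervalIntegral.integral_add intervalIntegrable_const hI1,
      intervalIntegral.integral_const, smul_eq_mul]
  have h3 : ∫ η in c..d, η ^ (-(1 + ε)) ≤ c ^ (-ε) / ε := by
    rw [integral_rpow (Or.inr ⟨by linarith, h0⟩)]
    have e : -(1 + ε) + 1 = -ε := by ring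
    rw [e]
    have e1 : (d ^ (-ε) - c ^ (-ε)) / -ε = (c ^ (-ε) - d ^ (-ε)) / ε := by
      rw [div_neg, ← neg_div, neg_sub]
    rw [e1]
    have : 0 ≤ d ^ (-ε) := Real.rpow_nonneg (by linarith) _
    exact div_le_div_of_nonneg_right (by linarith) hε.le
  have h4 := intervalIntegral.norm_integral_le_of_norm_le (μ := volume) (f := fun η => pa_D G t X η * (-I)) hcd
    (Eventually.of_forall fun η hη => by
      have g := hsub η (by rw [uIcc_of_le hcd]; exact Ioc_subset_Icc_self hη)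
      rw [norm_mul, norm_neg, Complex.norm_I, mul_one]
      exact hb T G t X η hT hG ht1 ht2 hX g.1 g.2.1 g.2.2) hI
  rw [h1, norm_sub_rev] at h4
  refine h4.trans ?_
  rw [h2]
  have hcp : 0 ≤ c ^ (-ε) := Real.rpow_nonneg hc.le _
  calc C / X * ((d - c) * (1 + Real.log X) + ∫ η in c..d, η ^ (-(1 + ε)))
      ≤ C / X * (d * (1 + Real.log X) + c ^ (-ε) / ε) := by
        refine mul_le_mul_of_nonneg_left (add_le_add ?_ h3) (by positivity)
        exact mul_le_mul_of_nonneg_right (by linarith) (by linarith)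
    _ ≤ C / X * ((1 + 1 / ε) * (d * (1 + Real.log X) + c ^ (-ε))) := by
        refine mul_le_mul_of_nonneg_left ?_ (by positivity)
        have g1 : 0 ≤ 1 / ε := by positivity
        have g2 : 0 ≤ d * (1 + Real.log X) := mul_nonneg (by linarith) (by linarith)
        have g3 : c ^ (-ε) / ε = 1 / ε * c ^ (-ε) := by ring
        rw [g3]
        nlinarith [mul_nonneg g1 g2]
    _ = _ := by ring

theorem pa_kap_T {T : ℝ} (hT : 1 ≤ T) : 0 ≤ (kap (pt (2 * T) (2 * T))).re ∧ (kap (pt (2 * T) (2 * T))).re ≤ 2 / T ∧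
    1 / (8 * T) ≤ (kap (pt (2 * T) (2 * T))).im ∧ (kap (pt (2 * T) (2 * T))).im ≤ 1 / T := by
  have hX : 1 ≤ 2 * T := by linarith
  have hη : 0 < 2 * T := by linarith
  have hT0 : 0 < T := by linarith
  refine ⟨le_trans (by positivity) (kap_re_ge hX hη), ?_, ?_, ?_⟩
  · have := kap_re_le hX hη
    refine this.trans (le_of_eq ?_)
    field_simp
    norm_num
  · have := kap_im_ge hX hη le_rfl
    refine le_trans (le_of_eq ?_) this
    field_simp
    ring
  · have := kap_im_le hX hη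
    refine this.trans ?_
    rw [div_le_div_iff₀ (by nlinarith) hT0]
    nlinarith

theorem seg_piece (ε : ℝ) (hε : 0 < ε) (hε1 : ε ≤ 1) : ∃ C : ℝ, 0 ≤ C ∧ ∀ T G t : ℝ, 1 ≤ T → 1 ≤ G → T ≤ t →
    t ≤ 2 * T → ‖QQ G t (kap (pt (2 * T) (2 * T))) - QQ G t (I / (4 * T))‖ ≤ C * T ^ ε := by
  obtain ⟨C, hC, hb⟩ := Lam_bound ε hε
  refine ⟨Real.exp 2 * C * 64 * 4, by positivity, fun T G t hT hG ht1 ht2 => ?_⟩
  have hT0 : 0 < T := by linarith
  obtain ⟨k1, k2, k3, k4⟩ := pa_kap_T hT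
  set κ := kap (pt (2 * T) (2 * T)) with hκ
  set S : Set ℂ := {z : ℂ | 0 ≤ z.re} ∩ ({z : ℂ | 1 / (8 * T) ≤ z.im} ∩ {z : ℂ | z.im ≤ 1 / T}) with hS
  have hconv : Convex ℝ S :=
    (convex_halfSpace_re_ge 0).inter ((convex_halfSpace_im_ge _).inter (convex_halfSpace_im_le _))
  have hT1 : 1 / T ≤ 1 := by rw [div_le_one hT0]; exact hT
  have hpi := Real.pi_gt_three
  have hκS : κ ∈ S := ⟨k1, k3, k4⟩
  have hi : (I / (4 * T) : ℂ) = ((1 / (4 * T) : ℝ) : ℂ) * I := by
    push_cast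
    ring
  have hiS : (I / (4 * T) : ℂ) ∈ S := by
    rw [hi]
    refine ⟨?_, ?_, ?_⟩
    · show 0 ≤ (((1 / (4 * T) : ℝ) : ℂ) * I).re
      simp
    · show 1 / (8 * T) ≤ (((1 / (4 * T) : ℝ) : ℂ) * I).im
      simp only [Complex.mul_im, Complex.ofReal_re, Complex.I_im, mul_one, Complex.ofReal_im, Complex.I_re, mul_zero,
        add_zero]
      exact one_div_le_one_div_of_le (by positivity) (by linarith)
    · show (((1 / (4 * T) : ℝ) : ℂ) * I).im ≤ 1 / T
      simp only [Complex.mul_im, Complex.ofReal_re, Complex.I_im, mul_one, Complex.ofReal_im, Complex.I_re, mul_zero,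
        add_zero]
      exact one_div_le_one_div_of_le (by positivity) (by linarith)
  have hder : ∀ z ∈ S, HasDerivWithinAt (QQ G t) (cexp (-(((G : ℂ) + I * t) * z)) * Lam z) S z := by
    intro z hz
    have g1 : 1 / (8 * T) ≤ z.im := hz.2.1
    have g2 : z.im ≤ 1 / T := hz.2.2
    have g3 : 0 < 1 / (8 * T) := by positivity
    exact (QQ_deriv (by linarith) t (by linarith) (by linarith)).hasDerivWithinAt
  have hbd : ∀ z ∈ S, ‖cexp (-(((G : ℂ) + I * t) * z)) * Lam z‖ ≤ Real.exp 2 * (C * (64 * (T * T ^ ε))) := by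
    intro z hz
    have g0 : 0 ≤ z.re := hz.1
    have g1 : 1 / (8 * T) ≤ z.im := hz.2.1
    have g2 : z.im ≤ 1 / T := hz.2.2
    have g3 : 0 < 1 / (8 * T) := by positivity
    rw [norm_mul]
    refine mul_le_mul ?_ ?_ (norm_nonneg _) (Real.exp_pos _).le
    · rw [Complex.norm_exp]
      apply Real.exp_le_exp.2
      have h3 : (-(((G : ℂ) + I * t) * z)).re = t * z.im - G * z.re := by
        simp [Complex.mul_re, Complex.add_re, Complex.add_im, Complex.mul_im]
      rw [h3]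
      have h4 : t * z.im ≤ 2 := by
        calc t * z.im ≤ (2 * T) * (1 / T) := mul_le_mul ht2 g2 (by linarith) (by linarith)
          _ = 2 := by field_simp
      nlinarith [mul_nonneg (by linarith : (0:ℝ) ≤ G) g0]
    · have h5 := hb z (by linarith) (by linarith)
      refine h5.trans (mul_le_mul_of_nonneg_left ?_ hC)
      have h6 : z.im ^ (-(1 + ε)) ≤ (1 / (8 * T)) ^ (-(1 + ε)) :=
        Real.rpow_le_rpow_of_nonpos g3 g1 (by linarith)
      refine h6.trans ?_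
      rw [one_div, Real.inv_rpow (by positivity), Real.rpow_neg (by positivity), inv_inv, Real.mul_rpow (by norm_num) hT0.le,
        Real.rpow_add hT0, Real.rpow_one]
      refine mul_le_mul_of_nonneg_right ?_ (by positivity)
      calc (8 : ℝ) ^ (1 + ε) ≤ 8 ^ (2 : ℝ) := Real.rpow_le_rpow_of_exponent_le (by norm_num) (by linarith)
        _ = 64 := by norm_num
  have key := hconv.norm_image_sub_le_of_norm_hasDerivWithin_le hder hbd hiS hκS
  refine key.trans ?_
  have hlen : ‖κ - I / (4 * T)‖ ≤ 4 / T := by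
    refine (Complex.norm_le_abs_re_add_abs_im _).trans ?_
    rw [hi]
    have e1 : |(κ - ((1 / (4 * T) : ℝ) : ℂ) * I).re| ≤ 2 / T := by
      simp only [Complex.sub_re, Complex.mul_re, Complex.ofReal_re, Complex.I_re, mul_zero, Complex.ofReal_im,
        Complex.I_im, mul_one, sub_zero]
      rw [abs_of_nonneg k1]
      exact k2
    have e2 : |(κ - ((1 / (4 * T) : ℝ) : ℂ) * I).im| ≤ 2 / T := by
      simp only [Complex.sub_im, Complex.mul_im, Complex.ofReal_re, Complex.I_re, mul_zero, Complex.ofReal_im,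
        Complex.I_im, mul_one, add_zero]
      have g1 : 0 < 1 / (4 * T) := by positivity
      have g2 : 1 / (4 * T) ≤ 1 / T := one_div_le_one_div_of_le (by positivity) (by linarith)
      have g3 : 0 < 1 / (8 * T) := by positivity
      have g4 : 2 / T = 1 / T + 1 / T := by ring
      rw [abs_le]
      constructor <;> rw [g4] <;> linarith
    have e3 : 4 / T = 2 / T + 2 / T := by ring
    rw [e3]
    exact add_le_add e1 e2
  calc Real.exp 2 * (C * (64 * (T * T ^ ε))) * ‖κ - I / (4 * T)‖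
      ≤ Real.exp 2 * (C * (64 * (T * T ^ ε))) * (4 / T) := mul_le_mul_of_nonneg_left hlen (by positivity)
    _ = _ := by field_simp

theorem end_piece (ε : ℝ) (hε : 0 < ε) (hε1 : ε ≤ 1) : ∃ C : ℝ, 0 ≤ C ∧ ∀ T G t X η : ℝ, 1 ≤ T → 1 ≤ G → T ≤ t →
    t ≤ 2 * T → 1 ≤ X → 0 < η → η ≤ X → η * T = 4 * X ^ 2 →
    ‖QQ G t (kap (pt X η))‖ ≤ C * Real.exp (-(G / (6 * X))) * T ^ (1 + ε) := by
  obtain ⟨C, hC, hb⟩ := QQ_bound ε hε
  refine ⟨C * Real.exp 11, by positivity, fun T G t X η hT hG ht1 ht2 hX hη hηX hηT => ?_⟩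
  have hT0 : 0 < T := by linarith
  have hX0 : 0 < X := by linarith
  have h1 := hb G t (by linarith) (kap (pt X η)) (kap_im_pos hX hη) (kap_im_lt hX hη).le
  have h2 := exponent_le (t := t) (T := T) hX hη (by linarith) ht2 hηT.le
  have h3 : 1 / (6 * X) ≤ (kap (pt X η)).re := by
    refine le_trans ?_ (kap_re_ge hX hη)
    rw [div_le_div_iff₀ (by positivity) (by positivity)]
    nlinarith
  have h4 : 1 / T ≤ (kap (pt X η)).im := by
    refine le_trans ?_ (kap_im_ge hX hη hηX)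
    rw [div_le_div_iff₀ hT0 (by positivity)]
    nlinarith
  have h5 : (kap (pt X η)).im ^ (-(1 + ε)) ≤ T ^ (1 + ε) := by
    have h6 : (kap (pt X η)).im ^ (-(1 + ε)) ≤ (1 / T) ^ (-(1 + ε)) :=
      Real.rpow_le_rpow_of_nonpos (by positivity) h4 (by linarith)
    refine h6.trans (le_of_eq ?_)
    rw [one_div, Real.inv_rpow hT0.le, Real.rpow_neg hT0.le, inv_inv]
  have h7 : Real.exp (t * (kap (pt X η)).im - G * (kap (pt X η)).re) ≤ Real.exp 11 * Real.exp (-(G / (6 * X))) := by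
    rw [← Real.exp_add]
    apply Real.exp_le_exp.2
    have h8 : G * (1 / (6 * X)) ≤ G * (kap (pt X η)).re := mul_le_mul_of_nonneg_left h3 (by linarith)
    have h9 : G / (6 * X) = G * (1 / (6 * X)) := by ring
    rw [h9]
    linarith
  refine h1.trans ?_
  have him : 0 ≤ (kap (pt X η)).im ^ (-(1 + ε)) := Real.rpow_nonneg (kap_im_pos hX hη).le _
  calc C * Real.exp (t * (kap (pt X η)).im - G * (kap (pt X η)).re) * (kap (pt X η)).im ^ (-(1 + ε)) / G
      ≤ C * Real.exp (t * (kap (pt X η)).im - G * (kap (pt X η)).re) * (kap (pt X η)).im ^ (-(1 + ε)) :=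
        div_le_self (by positivity) hG
    _ ≤ C * (Real.exp 11 * Real.exp (-(G / (6 * X)))) * T ^ (1 + ε) := by gcongr
    _ = _ := by ring

/-- the horizontal line at height `η ≥ 1` carries little -/
theorem LamH_small : ∃ C : ℝ, 0 ≤ C ∧ ∀ T G t η a b : ℝ, 1 ≤ T → 1 ≤ G → T ≤ t → t ≤ 2 * T → 1 ≤ η → 1 ≤ a → η ≤ a →
    a ≤ b → b ≤ 2 * T → η * T ≤ 4 * a ^ 2 →
    ‖LamH G t η b a‖ ≤ C * (1 + Real.log T) := by
  obtain ⟨C, hC, hb⟩ := Hd_bound 1 one_pos
  refine ⟨Real.exp 11 * 13 * (C * 2), by positivity, fun T G t η a b hT hG ht1 ht2 hη1 ha hηa hab hbT hηT => ?_⟩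
  have hη : 0 < η := by linarith
  have h2 : LamH G t η b a = -∫ X in a..b, Psi G t η X * Hd (pt X η) := by
    unfold LamH
    rw [intervalIntegral.integral_symm]
  rw [h2, norm_neg]
  have hbd : ∀ X ∈ Ioc a b, ‖Psi G t η X * Hd (pt X η)‖ ≤ Real.exp 11 * 13 * (C * 2) * X⁻¹ := by
    intro X hX
    have g1 : 1 ≤ X := by linarith [hX.1]
    have hX0 : 0 < X := by linarith
    have g3 : η * T ≤ 4 * X ^ 2 := by nlinarith [hX.1]
    have e1 := pa_exp (T := T) (G := G) (t := t) hG (by linarith) ht2 g1 hη g3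
    have e2 := amp_le g1 hη
    have e3 : ‖Hd (pt X η)‖ ≤ C * 2 := by
      refine (hb X η hη).trans ?_
      have g4 : η ^ (-(1 + 1) : ℝ) ≤ 1 := Real.rpow_le_one_of_one_le_of_nonpos hη1 (by norm_num)
      have g5 : Real.exp (-(6 * η)) ≤ 1 := Real.exp_le_one_iff.2 (by linarith)
      have g6 : 0 ≤ η ^ (-(1 + 1) : ℝ) := Real.rpow_nonneg hη.le _
      calc C * (1 + η ^ (-(1 + 1) : ℝ)) * Real.exp (-(6 * η)) ≤ C * (1 + η ^ (-(1 + 1) : ℝ)) :=
            mul_le_of_le_one_right (by positivity) g5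
        _ ≤ C * 2 := mul_le_mul_of_nonneg_left (by linarith) hC
    unfold Psi
    rw [norm_mul, norm_mul]
    calc _ ≤ Real.exp 11 * (13 / X) * (C * 2) := by gcongr
      _ = _ := by rw [div_eq_mul_inv]; ring
  have h4 := intervalIntegral.norm_integral_le_of_norm_le (μ := volume) hab
    (Eventually.of_forall hbd) ((pa_inv_int ha hab).const_mul (Real.exp 11 * 13 * (C * 2)))
  refine h4.trans ?_
  rw [intervalIntegral.integral_const_mul]
  exact mul_le_mul_of_nonneg_left (pa_int_inv ha hab hbT hT) (by positivity)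

end Pool.Agent.H15.HB
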