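import Pool.Agent.H15.HB.Wt

/-!
# HB-08  the functions `Lam` and `QQ`  (project HB, MP_be4568)

`‖cexp (I u ξ)‖ = e^{-u im ξ}`, `‖cexp (-(G + I (t-u)) ξ)‖ = e^{-G re ξ + (t-u) im ξ}`, `‖G + I (t-u)‖ ≥ G`.
Bounds: `wt_exp`.  Derivative: `hasDerivAt_integral_of_dominated_loc_of_deriv_le` (on a small disc `im ξ` stays in a compact
subset of `(0, π)`; dominate by `z2 u e^{-c|u|}`, `wt_norm_pos`, `wt_norm_neg`, `z2_exp`); continuity of `Lam` in the same way.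
Note `e^{-(G + I(t-u)) ξ} = e^{-(G + I t) ξ} e^{I u ξ}`.
-/

set_option autoImplicit false

open Complex Filter Topology MeasureTheory Set
open scoped ComplexConjugate

namespace Pool.Agent.H15.HB

namespace Qk

theorem wt_cont : Continuous wt := by
  have hc2 := z2_cont
  unfold wt
  refine Continuous.div (by fun_prop) (by fun_prop) (fun u h0 => ?_)
  have := (Wtk.norm_den u).1
  rw [h0] at this
  norm_num at this

theorem wt_bd {c y : ℝ} (u : ℝ) (hy : c ≤ y) (hy2 : y ≤ Real.pi - c) :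
    ‖wt u‖ * Real.exp (-(u * y)) ≤ z2 u * Real.exp (-(c * |u|)) := by
  rcases le_total 0 u with hu | hu
  · rw [abs_of_nonneg hu]
    refine mul_le_mul (Wtk.norm_wt_le u) (Real.exp_le_exp.2 ?_) (Real.exp_pos _).le (Wtk.z2_nonneg u)
    nlinarith
  · refine (mul_le_mul_of_nonneg_right (wt_norm_neg hu) (Real.exp_pos _).le).trans ?_
    rw [mul_assoc, ← Real.exp_add]
    refine mul_le_mul_of_nonneg_left (Real.exp_le_exp.2 ?_) (Wtk.z2_nonneg u)
    rw [abs_of_nonpos hu]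
    nlinarith

theorem norm_e1 (u : ℝ) (ξ : ℂ) : ‖cexp (I * u * ξ)‖ = Real.exp (-(u * ξ.im)) := by
  rw [Complex.norm_exp]
  congr 1
  simp

theorem norm_e2 (G t u : ℝ) (ξ : ℂ) : ‖cexp (-(((G : ℂ) + I * (t - u)) * ξ))‖ =
    Real.exp (-(u * ξ.im)) * Real.exp (t * ξ.im - G * ξ.re) := by
  rw [Complex.norm_exp, ← Real.exp_add]
  congr 1
  simp
  ring

theorem norm_gi (G : ℝ) (hG : 0 < G) (t u : ℝ) : G ≤ ‖(G : ℂ) + I * (t - u)‖ := by
  have h := Complex.abs_re_le_norm ((G : ℂ) + I * (t - u))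
  have e1 : ((G : ℂ) + I * (t - u)).re = G := by simp
  rw [e1, abs_of_pos hG] at h
  exact h

theorem gi_ne (G : ℝ) (hG : 0 < G) (t u : ℝ) : (G : ℂ) + I * (t - u) ≠ 0 := by
  have h := norm_gi G hG t u
  intro h0
  rw [h0, norm_zero] at h
  linarith

/-- a small ball around a point of the strip -/
theorem ball_ok {ξ₀ : ℂ} (h0 : 0 < ξ₀.im) (h1 : ξ₀.im < Real.pi) : ∃ c : ℝ, 0 < c ∧ c ≤ 1 ∧
    ∀ ξ ∈ Metric.ball ξ₀ c, c ≤ ξ.im ∧ ξ.im ≤ Real.pi - c ∧ |ξ.re| ≤ |ξ₀.re| + 1 := by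
  refine ⟨min 1 (min (ξ₀.im / 2) ((Real.pi - ξ₀.im) / 2)), ?_, min_le_left _ _, ?_⟩
  · refine lt_min one_pos (lt_min (by linarith) (by linarith))
  intro ξ hξ
  obtain ⟨c, hc⟩ : ∃ c : ℝ, c = min 1 (min (ξ₀.im / 2) ((Real.pi - ξ₀.im) / 2)) := ⟨_, rfl⟩
  rw [← hc] at hξ ⊢
  have c1 : c ≤ 1 := by rw [hc]; exact min_le_left _ _
  have c2 : c ≤ ξ₀.im / 2 := by rw [hc]; exact (min_le_right _ _).trans (min_le_left _ _)
  have c3 : c ≤ (Real.pi - ξ₀.im) / 2 := by rw [hc]; exact (min_le_right _ _).trans (min_le_right _ _)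
  rw [Metric.mem_ball, dist_eq_norm] at hξ
  have hi := Complex.abs_im_le_norm (ξ - ξ₀)
  have hr := Complex.abs_re_le_norm (ξ - ξ₀)
  rw [Complex.sub_im] at hi
  rw [Complex.sub_re] at hr
  have hi2 := abs_le.1 (hi.trans hξ.le)
  refine ⟨by linarith [hi2.1], by linarith [hi2.2], ?_⟩
  have h3 := abs_sub_abs_le_abs_sub ξ.re ξ₀.re
  linarith

end Qk

open Qk

theorem Lam_cont : ContinuousOn Lam {ξ : ℂ | 0 < ξ.im ∧ ξ.im < Real.pi} := by
  rintro ξ₀ ⟨h0, h1⟩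
  refine ContinuousAt.continuousWithinAt ?_
  obtain ⟨c, hc, -, hball⟩ := ball_ok h0 h1
  have hw := wt_cont
  refine continuousAt_of_dominated (bound := fun u => z2 u * Real.exp (-(c * |u|))) ?_ ?_ (z2_exp c hc) ?_
  · refine Eventually.of_forall fun ξ => ?_
    exact Continuous.aestronglyMeasurable (by fun_prop)
  · filter_upwards [Metric.ball_mem_nhds ξ₀ hc] with ξ hξ
    refine Eventually.of_forall fun u => ?_
    rw [norm_mul, norm_e1]
    exact wt_bd u (hball ξ hξ).1 (hball ξ hξ).2.1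
  · refine Eventually.of_forall fun u => ?_
    exact Continuous.continuousAt (by fun_prop)

theorem Lam_bound (ε : ℝ) (hε : 0 < ε) : ∃ C : ℝ, 0 ≤ C ∧ ∀ ξ : ℂ, 0 < ξ.im → ξ.im ≤ Real.pi / 2 →
    ‖Lam ξ‖ ≤ C * ξ.im ^ (-(1 + ε)) := by
  obtain ⟨C, hC, h⟩ := wt_exp ε hε
  refine ⟨C, hC, fun ξ h0 h1 => ?_⟩
  refine le_trans ?_ (h ξ.im h0 h1).2
  refine (norm_integral_le_integral_norm _).trans (le_of_eq ?_)
  refine integral_congr_ae (Eventually.of_forall fun u => ?_)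
  show ‖wt u * cexp (I * u * ξ)‖ = _
  rw [norm_mul, norm_e1]

theorem QQ_deriv {G : ℝ} (hG : 0 < G) (t : ℝ) {ξ : ℂ} (h0 : 0 < ξ.im) (h1 : ξ.im < Real.pi) :
    HasDerivAt (QQ G t) (cexp (-(((G : ℂ) + I * t) * ξ)) * Lam ξ) ξ := by
  obtain ⟨c, hc, hc1, hball⟩ := ball_ok h0 h1
  have hw := wt_cont
  obtain ⟨K, hK⟩ : ∃ K : ℝ, K = Real.exp (|t| * Real.pi + G * (|ξ.re| + 1)) := ⟨_, rfl⟩
  have hKb : ∀ x ∈ Metric.ball ξ c, Real.exp (t * x.im - G * x.re) ≤ K := by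
    intro x hx
    obtain ⟨b1, b2, b3⟩ := hball x hx
    rw [hK]
    refine Real.exp_le_exp.2 ?_
    have h2 : t * x.im ≤ |t| * Real.pi := by
      have h3 : t * x.im ≤ |t| * x.im := mul_le_mul_of_nonneg_right (le_abs_self t) (hc.le.trans b1)
      have h4 : |t| * x.im ≤ |t| * Real.pi := mul_le_mul_of_nonneg_left (by linarith) (abs_nonneg t)
      linarith
    have h3 : -(G * x.re) ≤ G * (|ξ.re| + 1) := by
      have h4 : -(G * x.re) = G * (-x.re) := by ring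
      rw [h4]
      exact mul_le_mul_of_nonneg_left ((neg_le_abs _).trans b3) hG.le
    linarith
  have hF'b : ∀ u : ℝ, ∀ x ∈ Metric.ball ξ c, ‖-(wt u * cexp (-(((G : ℂ) + I * (t - u)) * x)))‖ ≤
      K * (z2 u * Real.exp (-(c * |u|))) := by
    intro u x hx
    rw [norm_neg, norm_mul, norm_e2, ← mul_assoc, mul_comm K]
    exact mul_le_mul (wt_bd u (hball x hx).1 (hball x hx).2.1) (hKb x hx) (Real.exp_pos _).le
      (mul_nonneg (Wtk.z2_nonneg u) (Real.exp_pos _).le)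
  have hcF : ∀ x : ℂ, Continuous (fun u : ℝ => wt u * cexp (-(((G : ℂ) + I * (t - u)) * x)) / ((G : ℂ) + I * (t - u))) := by
    intro x
    exact Continuous.div (by fun_prop) (by fun_prop) (fun u => gi_ne G hG t u)
  have hint : Integrable (fun u : ℝ => wt u * cexp (-(((G : ℂ) + I * (t - u)) * ξ)) / ((G : ℂ) + I * (t - u))) := by
    refine ((z2_exp c hc).const_mul (K / G)).mono' (hcF ξ).aestronglyMeasurable (Eventually.of_forall fun u => ?_)
    have h2 := hF'b u ξ (Metric.mem_ball_self hc)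
    rw [norm_neg] at h2
    rw [norm_div]
    calc _ ≤ K * (z2 u * Real.exp (-(c * |u|))) / G :=
          div_le_div₀ ((norm_nonneg _).trans h2) h2 hG (norm_gi G hG t u)
      _ = _ := by ring
  have key := hasDerivAt_integral_of_dominated_loc_of_deriv_le (μ := volume) (𝕜 := ℂ)
    (F := fun (x : ℂ) (u : ℝ) => wt u * cexp (-(((G : ℂ) + I * (t - u)) * x)) / ((G : ℂ) + I * (t - u)))
    (F' := fun (x : ℂ) (u : ℝ) => -(wt u * cexp (-(((G : ℂ) + I * (t - u)) * x))))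
    (bound := fun u => K * (z2 u * Real.exp (-(c * |u|))))
    (Metric.ball_mem_nhds ξ hc)
    (Eventually.of_forall fun x => (hcF x).aestronglyMeasurable) hint
    (Continuous.aestronglyMeasurable (by fun_prop))
    (Eventually.of_forall fun u x hx => hF'b u x hx)
    ((z2_exp c hc).const_mul K)
    (Eventually.of_forall fun u x _ => by
      have hne := gi_ne G hG t u
      have h2 : HasDerivAt (fun x : ℂ => -(((G : ℂ) + I * (t - u)) * x)) (-(((G : ℂ) + I * (t - u)) * 1)) x :=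
        ((hasDerivAt_id x).const_mul _).neg
      have h3 := (((h2.cexp).const_mul (wt u)).div_const ((G : ℂ) + I * (t - u)))
      refine h3.congr_deriv ?_
      rw [div_eq_iff hne]
      ring)
  have h5 := key.2.neg
  have h6 : -∫ u : ℝ, -(wt u * cexp (-(((G : ℂ) + I * (t - u)) * ξ))) = cexp (-(((G : ℂ) + I * t) * ξ)) * Lam ξ := by
    rw [integral_neg, neg_neg, Lam, ← integral_const_mul]
    refine integral_congr_ae (Eventually.of_forall fun u => ?_)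
    show wt u * cexp (-(((G : ℂ) + I * (t - u)) * ξ)) = cexp (-(((G : ℂ) + I * t) * ξ)) * (wt u * cexp (I * u * ξ))
    rw [mul_left_comm, ← Complex.exp_add]
    congr 2
    ring
  rw [h6] at h5
  exact h5

theorem QQ_bound (ε : ℝ) (hε : 0 < ε) : ∃ C : ℝ, 0 ≤ C ∧ ∀ G t : ℝ, 0 < G → ∀ ξ : ℂ, 0 < ξ.im → ξ.im ≤ Real.pi / 2 →
    ‖QQ G t ξ‖ ≤ C * Real.exp (t * ξ.im - G * ξ.re) * ξ.im ^ (-(1 + ε)) / G := by
  obtain ⟨C, hC, h⟩ := wt_exp ε hε
  refine ⟨C, hC, fun G t hG ξ h0 h1 => ?_⟩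
  obtain ⟨hi, hb⟩ := h ξ.im h0 h1
  have hw := wt_cont
  rw [QQ, norm_neg]
  have hpt : ∀ u : ℝ, ‖wt u * cexp (-(((G : ℂ) + I * (t - u)) * ξ)) / ((G : ℂ) + I * (t - u))‖ ≤
      Real.exp (t * ξ.im - G * ξ.re) / G * (‖wt u‖ * Real.exp (-(u * ξ.im))) := by
    intro u
    rw [norm_div, norm_mul, norm_e2]
    calc _ ≤ ‖wt u‖ * (Real.exp (-(u * ξ.im)) * Real.exp (t * ξ.im - G * ξ.re)) / G := by
          refine div_le_div₀ (by positivity) le_rfl hG (norm_gi G hG t u)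
      _ = _ := by ring
  have h2 : ∫ u : ℝ, ‖wt u * cexp (-(((G : ℂ) + I * (t - u)) * ξ)) / ((G : ℂ) + I * (t - u))‖ ≤
      ∫ u : ℝ, Real.exp (t * ξ.im - G * ξ.re) / G * (‖wt u‖ * Real.exp (-(u * ξ.im))) := by
    refine integral_mono_of_nonneg (Eventually.of_forall fun u => norm_nonneg _) (hi.const_mul _)
      (Eventually.of_forall hpt)
  refine (norm_integral_le_integral_norm _).trans (h2.trans ?_)
  rw [integral_const_mul]
  calc _ ≤ Real.exp (t * ξ.im - G * ξ.re) / G * (C * ξ.im ^ (-(1 + ε))) :=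
        mul_le_mul_of_nonneg_left hb (by positivity)
    _ = _ := by ring

end Pool.Agent.H15.HB
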