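import Pool.Agent.H15.HB.LV
import Pool.Agent.H15.HB.LP
import Pool.Agent.H15.SC.PsiL

/-!
# HB-23  the sixth moment  (project HB, MP_be4568)

`e = ε/200` (and `≤ 1/200`).  For `1 ≤ T ≤ T₁`: continuity.  Large `T`: on `{z2 ≤ T^{1/4}}`: `∫ z2³ ≤ T^{1/4} ∫ z2² ≤ C T^{5/4+e}` (`z2_four`).
Pointwise `z2 u ≤ C T^{1/3+4e}` on `[T,2T]` (`SC.psi_L` with `q = 1`, `ψ = 1`, `Z = ζ₁` by uniqueness / analytic continuation, `|ζ₁(1/2+iu)| ≥ |u||ζ|`).
For `k ≥ 0` let `V2 = 2^k T^{1/4}` (`≤ C T^{1/3+4e}`, `O(log T)` values), `S_k = {u ∈ [T,2T] : V2 < z2 u ≤ 2 V2}`, `G = T^{-5e} V2` (in `[T^{1/5}, T^{1/2}]`).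
Cut `[T,2T]` into intervals `I_m` of length `G` (the last one may stick out; use `[T, 2T]`-points only).  For each `m` with `I_m ∩ S_k` nonempty choose
`t_m` in it, `W_m = ∫_{t_m-G}^{t_m+G} z2`.  `LP` (exponent `e`) at `t_m`: `V2 ≤ C T^e (1 + ∫ z2(t_m+v) e^{-v²/4})`; the tail `|v| > G ≥ T^{1/5}` is
`≤ 1` (`z2_mean` or the pointwise bound), so `W_m ≥ T^{-2e} V2 =: W₀ = T^{3e} G`.
`|I_m ∩ S_k| V2 ≤ ∫_{I_m} z2 ≤ W_m`, so `∫_{S_k} z2³ ≤ 8 V2³ |S_k| ≤ 8 V2² ∑_m W_m`.  Dyadic values `W_m ∈ [2^j W₀, 2^{j+1} W₀)` (`O(log T)` values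
of `j`); for each `j` the `t_m` with `m` even, and those with `m` odd, are `G`-separated: `LV` gives a number `≤ 2 C T^{40e}(T/(G W²) + T²/W⁶)`, `W = 2^j W₀`.
So `∑_m W_m ≤ C (log T) T^{40e} (T/(G W₀) + T²/W₀⁵) ≤ C T^{41e} (T T^{7e}/V2² + T² T^{10e}/V2⁵)`, and
`∫_{S_k} z2³ ≤ C T^{51e} (T + T²/V2³) ≤ C T^{51e} (T + T^{5/4})`, as `V2 ≥ T^{1/4}`.  Sum over `k`.
-/

set_option autoImplicit false

open Complex Filter Topology MeasureTheory Set
open scoped ComplexConjugate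

namespace Pool.Agent.H15.HB

theorem six_nonneg (u : ℝ) : 0 ≤ z2 u := by unfold z2; positivity

/-- pointwise bound from `SC.psi_L` -/
theorem z2_point (ε : ℝ) (hε : 0 < ε) : ∃ C : ℝ, 0 ≤ C ∧ ∀ u : ℝ, 1 ≤ |u| → z2 u ≤ C * |u| ^ (1 / 3 + ε) := by
  obtain ⟨Z, hZd, hZs, hZb⟩ := SC.psi_L 1 le_rfl (fun _ => 1) (fun _ => rfl)
  obtain ⟨C, hC0, hC⟩ := hZb (ε / 2) (by positivity)
  have hopen : IsOpen {s : ℂ | 0 < s.re} := isOpen_lt continuous_const Complex.continuous_re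
  have hconv : Convex ℝ {s : ℂ | 0 < s.re} := convex_halfSpace_re_gt 0
  have hpre : IsPreconnected {s : ℂ | 0 < s.re} := hconv.isPreconnected
  have hA1 : AnalyticOnNhd ℂ Z {s : ℂ | 0 < s.re} := hZd.analyticOnNhd hopen
  have hA2 : AnalyticOnNhd ℂ riemannZeta₁ {s : ℂ | 0 < s.re} :=
    differentiable_riemannZeta₁.differentiableOn.analyticOnNhd hopen
  have heq : EqOn Z riemannZeta₁ {s : ℂ | 0 < s.re} := by
    refine hA1.eqOn_of_preconnected_of_eventuallyEq hA2 hpre (z₀ := 2) (by simp) ?_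
    have h2 : {s : ℂ | 1 < s.re} ∈ 𝓝 (2 : ℂ) :=
      (isOpen_lt continuous_const Complex.continuous_re).mem_nhds (by simp)
    filter_upwards [h2] with s hs
    have hs' : 1 < s.re := hs
    have hs1 : s ≠ 1 := by
      intro h
      rw [h] at hs'
      simp at hs'
    rw [hZs s hs']
    have h3 : LSeries (fun _ => ((1 : ℝ) : ℂ)) s = riemannZeta s := by
      have := LSeries_one_eq_riemannZeta hs'
      rw [← this]
      simp
      rfl
    rw [h3, riemannZeta_eq_inv_sub_mul hs1, ← mul_assoc, mul_inv_cancel₀ (sub_ne_zero.2 hs1), one_mul]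
  refine ⟨C ^ 2, by positivity, fun u hu => ?_⟩
  have hu0 : 0 < |u| := by linarith
  have h1 := hC u hu
  have hln : SC.ln (1/2) u = ((1/2 : ℝ) : ℂ) + u * I := rfl
  have hne : SC.ln (1/2) u ≠ 1 := by
    intro h
    have := congrArg Complex.re h
    simp at this
  have hmem : SC.ln (1/2) u ∈ {s : ℂ | 0 < s.re} := by
    show 0 < (SC.ln (1/2) u).re
    rw [SC.ln_re]; norm_num
  have h2 : riemannZeta₁ (SC.ln (1/2) u) = Z (SC.ln (1/2) u) := (heq hmem).symm
  have h3 : |u| ≤ ‖SC.ln (1/2) u - 1‖ := by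
    have := Complex.abs_im_le_norm (SC.ln (1/2) u - 1)
    simpa using this
  have h4 : ‖riemannZeta (SC.ln (1/2) u)‖ * |u| ≤ C * |u| ^ (1 + 1/6 + ε / 2) := by
    calc ‖riemannZeta (SC.ln (1/2) u)‖ * |u| ≤ ‖riemannZeta (SC.ln (1/2) u)‖ * ‖SC.ln (1/2) u - 1‖ := by
          gcongr
      _ = ‖riemannZeta₁ (SC.ln (1/2) u)‖ := by
          rw [riemannZeta_eq_inv_sub_mul hne, norm_mul, norm_inv]
          have : ‖SC.ln (1/2) u - 1‖ ≠ 0 := by
            rw [norm_ne_zero_iff]; exact sub_ne_zero.2 hne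
          field_simp
      _ ≤ _ := by rw [h2, hln]; exact h1
  have h5 : ‖riemannZeta (SC.ln (1/2) u)‖ ≤ C * |u| ^ (1/6 + ε / 2) := by
    have h6 : |u| ^ (1 + 1/6 + ε / 2) = |u| ^ (1/6 + ε / 2) * |u| := by
      rw [show (1 + 1/6 + ε / 2 : ℝ) = (1/6 + ε / 2) + 1 by ring, Real.rpow_add hu0, Real.rpow_one]
    rw [h6, ← mul_assoc] at h4
    exact le_of_mul_le_mul_right h4 hu0
  unfold z2
  calc ‖riemannZeta (SC.ln (1/2) u)‖ ^ 2 ≤ (C * |u| ^ (1/6 + ε / 2)) ^ 2 :=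
        pow_le_pow_left₀ (norm_nonneg _) h5 2
    _ = C ^ 2 * |u| ^ (1 / 3 + ε) := by
        rw [mul_pow, ← Real.rpow_natCast (|u| ^ (1/6 + ε / 2)) 2, ← Real.rpow_mul hu0.le]
        congr 2
        push_cast
        ring

/-- linear bound -/
theorem six_lin : ∃ C : ℝ, 0 ≤ C ∧ ∀ u : ℝ, z2 u ≤ C * (1 + |u|) := by
  obtain ⟨C, hC0, hC⟩ := z2_point (2/3) (by norm_num)
  obtain ⟨B, hB⟩ := (isCompact_Icc (a := (-1 : ℝ)) (b := 1)).bddAbove_image z2_cont.continuousOn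
  have hB' : ∀ u ∈ Icc (-1 : ℝ) 1, z2 u ≤ B := fun u hu => hB ⟨u, hu, rfl⟩
  have hB0 : 0 ≤ B := (six_nonneg 0).trans (hB' 0 (by simp))
  refine ⟨C + B, by positivity, fun u => ?_⟩
  have hu0 := abs_nonneg u
  rcases le_total 1 |u| with h | h
  · have h1 := hC u h
    have h2 : (1 / 3 + 2 / 3 : ℝ) = 1 := by norm_num
    rw [h2, Real.rpow_one] at h1
    nlinarith
  · have h1 := hB' u (by rw [abs_le] at h; exact ⟨h.1, h.2⟩)
    nlinarith

/-- dyadic summation of a distribution function -/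
theorem six_dyad {ι : Type} (w : ι → ℝ) (W₀ A B : ℝ) (h0 : 0 < W₀) (hB : 0 ≤ B) (n : ℕ) :
    ∀ s : Finset ι, (∀ i ∈ s, W₀ ≤ w i) → (∀ i ∈ s, w i < 2 ^ n * W₀) →
    (∀ W : ℝ, W₀ ≤ W → ((s.filter (fun i => W ≤ w i)).card : ℝ) ≤ A / W ^ 2 + B / W ^ 6) →
    ∑ i ∈ s, w i ≤ (A / W₀ + B / W₀ ^ 5) * (4 - 4 / 2 ^ n) := by
  induction n with
  | zero =>
    intro s h1 h2 h3
    have : s = ∅ := by
      rw [Finset.eq_empty_iff_forall_notMem]
      intro i hi
      have := h1 i hi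
      have := h2 i hi
      norm_num at this
      linarith
    rw [this]
    simp
  | succ n ih =>
    intro s h1 h2 h3
    classical
    rw [← Finset.sum_filter_add_sum_filter_not s (fun i => w i < 2 ^ n * W₀)]
    have e1 := ih (s.filter (fun i => w i < 2 ^ n * W₀)) (fun i hi => h1 i (Finset.mem_filter.1 hi).1)
      (fun i hi => (Finset.mem_filter.1 hi).2) (fun W hW => by
        refine le_trans ?_ (h3 W hW)
        exact_mod_cast Finset.card_le_card (fun i hi => by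
          rw [Finset.mem_filter, Finset.mem_filter] at hi
          exact Finset.mem_filter.2 ⟨hi.1.1, hi.2⟩))
    have e2 : ∑ i ∈ s.filter (fun i => ¬ w i < 2 ^ n * W₀), w i ≤
        ((s.filter (fun i => 2 ^ n * W₀ ≤ w i)).card : ℝ) * (2 ^ (n + 1) * W₀) := by
      have h4 : (s.filter (fun i => ¬ w i < 2 ^ n * W₀)) = s.filter (fun i => 2 ^ n * W₀ ≤ w i) := by
        refine Finset.filter_congr (fun i _ => ?_)
        exact not_lt
      rw [h4]
      calc ∑ i ∈ s.filter (fun i => 2 ^ n * W₀ ≤ w i), w i ≤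
          ∑ i ∈ s.filter (fun i => 2 ^ n * W₀ ≤ w i), (2 ^ (n + 1) * W₀) :=
            Finset.sum_le_sum (fun i hi => (h2 i (Finset.mem_filter.1 hi).1).le)
        _ = _ := by rw [Finset.sum_const, nsmul_eq_mul]
    have h2n : (1 : ℝ) ≤ 2 ^ n := one_le_pow₀ (by norm_num)
    have e3 := h3 (2 ^ n * W₀) (by nlinarith)
    have e4 : (A / (2 ^ n * W₀) ^ 2 + B / (2 ^ n * W₀) ^ 6) * (2 ^ (n + 1) * W₀) ≤
        (A / W₀ + B / W₀ ^ 5) * (2 / 2 ^ n) := by
      have h5 : A / (2 ^ n * W₀) ^ 2 * (2 ^ (n + 1) * W₀) = A / W₀ * (2 / 2 ^ n) := by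
        rw [pow_succ]; field_simp; ring
      have h6 : B / (2 ^ n * W₀) ^ 6 * (2 ^ (n + 1) * W₀) = B / W₀ ^ 5 * (2 / 2 ^ n) / (2 ^ n) ^ 4 := by
        rw [pow_succ]; field_simp; ring
      rw [add_mul, add_mul, h5, h6]
      have h7 : B / W₀ ^ 5 * (2 / 2 ^ n) / (2 ^ n) ^ 4 ≤ B / W₀ ^ 5 * (2 / 2 ^ n) :=
        div_le_self (by positivity) (one_le_pow₀ h2n)
      linarith
    have e5 : (0 : ℝ) ≤ 2 ^ (n + 1) * W₀ := by positivity
    have e6 := mul_le_mul_of_nonneg_right e3 e5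
    have e7 : (A / W₀ + B / W₀ ^ 5) * (4 - 4 / 2 ^ n) + (A / W₀ + B / W₀ ^ 5) * (2 / 2 ^ n) =
        (A / W₀ + B / W₀ ^ 5) * (4 - 4 / 2 ^ (n + 1)) := by
      rw [pow_succ]; field_simp; ring
    linarith

theorem six_dyad' {ι : Type} (w : ι → ℝ) (W₀ A B : ℝ) (h0 : 0 < W₀) (hA : 0 ≤ A) (hB : 0 ≤ B)
    (s : Finset ι) (h1 : ∀ i ∈ s, W₀ ≤ w i)
    (h3 : ∀ W : ℝ, W₀ ≤ W → ((s.filter (fun i => W ≤ w i)).card : ℝ) ≤ A / W ^ 2 + B / W ^ 6) :
    ∑ i ∈ s, w i ≤ 4 * (A / W₀ + B / W₀ ^ 5) := by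
  obtain ⟨n, hn⟩ : ∃ n : ℕ, ∀ i ∈ s, w i < 2 ^ n * W₀ := by
    obtain ⟨n, hn⟩ := pow_unbounded_of_one_lt ((∑ i ∈ s, w i) / W₀) (by norm_num : (1 : ℝ) < 2)
    refine ⟨n, fun i hi => ?_⟩
    have h4 : w i ≤ ∑ i ∈ s, w i :=
      Finset.single_le_sum (f := w) (fun j hj => h0.le.trans (h1 j hj)) hi
    rw [div_lt_iff₀ h0] at hn
    linarith
  have h5 := six_dyad w W₀ A B h0 hB n s h1 hn h3
  have h6 : (A / W₀ + B / W₀ ^ 5) * (4 - 4 / 2 ^ n) ≤ (A / W₀ + B / W₀ ^ 5) * 4 := by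
    refine mul_le_mul_of_nonneg_left ?_ (by positivity)
    have : (0 : ℝ) ≤ 4 / 2 ^ n := by positivity
    linarith
  linarith

/-- `e^{-x} ≤ 120/x^5` -/
theorem six_exp {x : ℝ} (hx : 0 < x) : Real.exp (-x) ≤ 120 / x ^ 5 := by
  have h1 := Real.pow_div_factorial_le_exp x hx.le 5
  have h2 : ((Nat.factorial 5 : ℕ) : ℝ) = 120 := by norm_num [Nat.factorial]
  rw [h2] at h1
  rw [Real.exp_neg, ← one_div, div_le_div_iff₀ (Real.exp_pos x) (by positivity)]
  rw [div_le_iff₀ (by norm_num)] at h1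
  linarith

/-- the Gaussian average is dominated by the local integral -/
theorem six_tail : ∃ T₀ : ℝ, 1 ≤ T₀ ∧ ∀ T : ℝ, T₀ ≤ T → ∀ t : ℝ, T ≤ t → t ≤ 2 * T → ∀ G : ℝ,
    T ^ ((1 : ℝ) / 5) ≤ G →
    ∫ v : ℝ, z2 (t + v) * Real.exp (-(v ^ 2 / 4)) ≤ (∫ u in (t - G)..(t + G), z2 u) + 1 := by
  obtain ⟨D, hD0, hD⟩ := six_lin
  have hint : Integrable (fun v : ℝ => Real.exp (-(1/16) * v ^ 2)) := integrable_exp_neg_mul_sq (by norm_num)
  set J : ℝ := ∫ v : ℝ, Real.exp (-(1/16) * v ^ 2) with hJ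
  have hJ0 : 0 ≤ J := integral_nonneg (fun v => (Real.exp_pos _).le)
  refine ⟨max 1 (D * Real.exp 4 * J * (360 * 8 ^ 5)), le_max_left _ _, ?_⟩
  intro T hT t ht1 ht2 G hG
  have hT1 : 1 ≤ T := (le_max_left _ _).trans hT
  have hT2 : D * Real.exp 4 * J * (360 * 8 ^ 5) ≤ T := (le_max_right _ _).trans hT
  have hT0 : 0 < T := by linarith
  have hG1 : 1 ≤ G := (Real.one_le_rpow hT1 (by norm_num)).trans hG
  have hG2 : T ^ ((2 : ℝ) / 5) ≤ G ^ 2 := by
    have : T ^ ((2 : ℝ) / 5) = (T ^ ((1 : ℝ) / 5)) ^ 2 := by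
      rw [← Real.rpow_natCast, ← Real.rpow_mul hT0.le]; norm_num
    rw [this]
    exact pow_le_pow_left₀ (Real.rpow_nonneg hT0.le _) hG 2
  set c : ℝ := D * (1 + 2 * T) * (Real.exp (-(T ^ ((2 : ℝ) / 5) / 8)) * Real.exp 4) with hc
  have hc0 : 0 ≤ c := by rw [hc]; positivity
  have hcJ : c * J ≤ 1 := by
    have hx : 0 < T ^ ((2 : ℝ) / 5) / 8 := by positivity
    have h1 := six_exp hx
    have h2 : (T ^ ((2 : ℝ) / 5) / 8) ^ 5 = T ^ 2 / 8 ^ 5 := by
      rw [div_pow]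
      congr 1
      rw [← Real.rpow_natCast (T ^ ((2 : ℝ) / 5)) 5, ← Real.rpow_mul hT0.le, ← Real.rpow_natCast]
      norm_num
    rw [h2] at h1
    have h3 : (1 + 2 * T) * Real.exp (-(T ^ ((2 : ℝ) / 5) / 8)) ≤ 360 * 8 ^ 5 / T := by
      calc (1 + 2 * T) * Real.exp (-(T ^ ((2 : ℝ) / 5) / 8)) ≤ (3 * T) * (120 / (T ^ 2 / 8 ^ 5)) := by
            gcongr
            linarith
        _ = 360 * 8 ^ 5 / T := by field_simp; norm_num
    calc c * J = (D * Real.exp 4 * J) * ((1 + 2 * T) * Real.exp (-(T ^ ((2 : ℝ) / 5) / 8))) := by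
          rw [hc]; ring
      _ ≤ (D * Real.exp 4 * J) * (360 * 8 ^ 5 / T) := by gcongr
      _ ≤ 1 := by
          rw [← mul_div_assoc, div_le_one hT0]
          exact hT2
  have hcont : Continuous (fun v : ℝ => z2 (t + v)) := z2_cont.comp (continuous_const.add continuous_id)
  have hG0 : -G ≤ G := by linarith
  have hloc : ∫ v in Icc (-G) G, z2 (t + v) = ∫ u in (t - G)..(t + G), z2 u := by
    rw [integral_Icc_eq_integral_Ioc, ← intervalIntegral.integral_of_le hG0,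
      intervalIntegral.integral_comp_add_left (fun u => z2 u) t]
    congr 1
  have hi1 : Integrable ((Icc (-G) G).indicator (fun v => z2 (t + v))) := by
    rw [integrable_indicator_iff measurableSet_Icc]
    exact hcont.continuousOn.integrableOn_Icc
  have hi2 : Integrable (fun v : ℝ => c * Real.exp (-(1/16) * v ^ 2)) := hint.const_mul c
  have hmono : ∫ v : ℝ, z2 (t + v) * Real.exp (-(v ^ 2 / 4)) ≤
      ∫ v : ℝ, ((Icc (-G) G).indicator (fun v => z2 (t + v)) v + c * Real.exp (-(1/16) * v ^ 2)) := by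
    refine integral_mono_of_nonneg (Eventually.of_forall fun v => ?_) (hi1.add hi2)
      (Eventually.of_forall fun v => ?_)
    · exact mul_nonneg (six_nonneg _) (Real.exp_pos _).le
    · show z2 (t + v) * Real.exp (-(v ^ 2 / 4)) ≤
        (Icc (-G) G).indicator (fun v => z2 (t + v)) v + c * Real.exp (-(1/16) * v ^ 2)
      by_cases hv : v ∈ Icc (-G) G
      · rw [indicator_of_mem hv]
        have h1 : Real.exp (-(v ^ 2 / 4)) ≤ 1 := Real.exp_le_one_iff.2 (by nlinarith [sq_nonneg v])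
        have h2 := six_nonneg (t + v)
        have h3 : 0 ≤ c * Real.exp (-(1/16) * v ^ 2) := by positivity
        nlinarith
      · rw [indicator_of_notMem hv, zero_add]
        have hv1 : G ≤ |v| := by
          by_contra hcon
          push Not at hcon
          apply hv
          rw [abs_lt] at hcon
          exact ⟨hcon.1.le, hcon.2.le⟩
        have hv2 : G ^ 2 ≤ v ^ 2 := by
          rw [← sq_abs v]
          exact pow_le_pow_left₀ (by linarith) hv1 2
        have hv0 := abs_nonneg v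
        have h1 : z2 (t + v) ≤ D * (1 + 2 * T) * (1 + |v|) := by
          refine (hD _).trans ?_
          have h2 : |t + v| ≤ 2 * T + |v| := by
            refine (abs_add_le _ _).trans ?_
            rw [abs_of_nonneg (by linarith : 0 ≤ t)]
            linarith
          rw [mul_assoc]
          refine mul_le_mul_of_nonneg_left ?_ hD0
          nlinarith [mul_nonneg hT0.le hv0]
        have h2 : 1 + |v| ≤ Real.exp (4 + v ^ 2 / 16) := by
          have h3 := Real.add_one_le_exp (4 + v ^ 2 / 16)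
          have h4 : |v| ≤ 4 + v ^ 2 / 16 := by
            nlinarith [sq_nonneg (|v| - 8), sq_abs v]
          linarith
        calc z2 (t + v) * Real.exp (-(v ^ 2 / 4)) ≤
            (D * (1 + 2 * T) * Real.exp (4 + v ^ 2 / 16)) * Real.exp (-(v ^ 2 / 4)) := by
              refine mul_le_mul_of_nonneg_right ?_ (Real.exp_pos _).le
              refine h1.trans ?_
              gcongr
          _ = D * (1 + 2 * T) * Real.exp ((4 + v ^ 2 / 16) + (-(v ^ 2 / 4))) := by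
              rw [mul_assoc, ← Real.exp_add]
          _ ≤ D * (1 + 2 * T) * Real.exp (-(T ^ ((2 : ℝ) / 5) / 8) + 4 + -(1/16) * v ^ 2) := by
              have h5 : (4 + v ^ 2 / 16) + (-(v ^ 2 / 4)) ≤ -(T ^ ((2 : ℝ) / 5) / 8) + 4 + -(1/16) * v ^ 2 := by
                nlinarith
              gcongr
          _ = c * Real.exp (-(1/16) * v ^ 2) := by
              rw [Real.exp_add, Real.exp_add, hc]; ring
  rw [integral_add hi1 hi2, integral_indicator measurableSet_Icc, hloc, integral_const_mul] at hmono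
  linarith

/-- the local mean is large near a large value -/
theorem six_local (e : ℝ) (he : 0 < e) (he1 : e ≤ 1 / 200) : ∃ T₀ : ℝ, 1 ≤ T₀ ∧ ∀ T : ℝ, T₀ ≤ T →
    ∀ t : ℝ, T ≤ t → t ≤ 2 * T → ∀ G V : ℝ, T ^ ((1 : ℝ) / 5) ≤ G → T ^ ((1 : ℝ) / 4) ≤ V → V < z2 t →
    V / (T ^ e) ^ 2 ≤ ∫ u in (t - G)..(t + G), z2 u := by
  obtain ⟨C, hC0, hC⟩ := LP e he (by linarith)
  obtain ⟨T₁, hT₁, htail⟩ := six_tail
  refine ⟨max (max T₁ 2) ((8 * C + 1) ^ (1 / e)), ?_, ?_⟩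
  · exact (by norm_num : (1 : ℝ) ≤ 2).trans ((le_max_right _ _).trans (le_max_left _ _))
  intro T hT t ht1 ht2 G V hG hV hVt
  have hT1 : T₁ ≤ T := ((le_max_left _ _).trans (le_max_left _ _)).trans hT
  have hT2 : 2 ≤ T := ((le_max_right _ _).trans (le_max_left _ _)).trans hT
  have hT3 : (8 * C + 1) ^ (1 / e) ≤ T := (le_max_right _ _).trans hT
  have hT0 : 0 < T := by linarith
  have hX : 8 * C + 1 ≤ T ^ e := by
    have h1 : ((8 * C + 1) ^ (1 / e)) ^ e ≤ T ^ e := Real.rpow_le_rpow (by positivity) hT3 he.le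
    rwa [← Real.rpow_mul (by positivity), one_div_mul_cancel he.ne', Real.rpow_one] at h1
  set X : ℝ := T ^ e with hXdef
  have hX1 : 1 ≤ X := by linarith
  have h1 := hC t (by rw [abs_of_nonneg (by linarith)]; linarith)
  have h2 := htail T hT1 t ht1 ht2 G hG
  set W : ℝ := ∫ u in (t - G)..(t + G), z2 u with hW
  have hG1 : 1 ≤ G := (Real.one_le_rpow (by linarith) (by norm_num)).trans hG
  have hW0 : 0 ≤ W := intervalIntegral.integral_nonneg (by linarith) (fun u _ => six_nonneg u)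
  have h3 : |t| ^ e ≤ 2 * X := by
    rw [abs_of_nonneg (by linarith)]
    calc t ^ e ≤ (2 * T) ^ e := Real.rpow_le_rpow (by linarith) ht2 he.le
      _ = 2 ^ e * X := Real.mul_rpow (by norm_num) hT0.le
      _ ≤ 2 * X := by
          have : (2 : ℝ) ^ e ≤ 2 ^ (1 : ℝ) := Real.rpow_le_rpow_of_exponent_le (by norm_num) (by linarith)
          rw [Real.rpow_one] at this
          nlinarith
  have h4 : V ≤ C * (2 * X) * (2 + W) := by
    have h5 : z2 t ≤ C * |t| ^ e * (2 + W) := h1.trans (by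
      refine mul_le_mul_of_nonneg_left (by linarith) (by positivity))
    have h6 : C * |t| ^ e * (2 + W) ≤ C * (2 * X) * (2 + W) := by gcongr
    linarith
  -- absorb
  have h7 : X ^ 2 ≤ V := by
    refine le_trans ?_ hV
    rw [hXdef, ← Real.rpow_natCast (T ^ e) 2, ← Real.rpow_mul hT0.le]
    exact Real.rpow_le_rpow_of_exponent_le (by linarith) (by push_cast; linarith)
  rw [div_le_iff₀ (by positivity)]
  have h8 : 8 * C * X ≤ X ^ 2 := by nlinarith
  -- V ≤ 4 C X + 2 C X W ≤ V/2 + X² W / 4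
  nlinarith [mul_nonneg hW0 (by nlinarith : (0 : ℝ) ≤ X ^ 2 - 8 * C * X)]

/-- the level set -/
def six_lset (T V : ℝ) : Set ℝ := {u : ℝ | u ∈ Ioc T (2 * T) ∧ V < z2 u ∧ z2 u ≤ 2 * V}

theorem six_lset_meas (T V : ℝ) : MeasurableSet (six_lset T V) := by
  have h1 : MeasurableSet {u : ℝ | V < z2 u} := (isOpen_lt continuous_const z2_cont).measurableSet
  have h2 : MeasurableSet {u : ℝ | z2 u ≤ 2 * V} := (isClosed_le z2_cont continuous_const).measurableSet
  exact measurableSet_Ioc.inter (h1.inter h2)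

/-- counting bound for a family of separated points -/
theorem six_count (e : ℝ) (he : 0 < e) (he1 : e ≤ 1 / 200) : ∃ C T₁ : ℝ, 0 ≤ C ∧ 1 ≤ T₁ ∧ ∀ T : ℝ, T₁ ≤ T →
    ∀ G W : ℝ, T ^ ((1 : ℝ) / 5) ≤ G → G ≤ T ^ ((1 : ℝ) / 2) → (T ^ e) ^ 3 * G ≤ W →
    ∀ (s : Finset ℕ) (tt : ℕ → ℝ), (∀ m ∈ s, T ≤ tt m ∧ tt m ≤ 2 * T) →
    (∀ m ∈ s, T + m * G ≤ tt m ∧ tt m ≤ T + (m + 1) * G) →
    (∀ m ∈ s, W ≤ ∫ u in (tt m - G)..(tt m + G), z2 u) →
    (s.card : ℝ) ≤ C * (T ^ e) ^ 40 * (T / (G * W ^ 2) + T ^ 2 / W ^ 6) := by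
  obtain ⟨C, T₁, hC0, hT₁, hLV⟩ := LV e he he1
  refine ⟨2 * C, T₁, by positivity, hT₁, ?_⟩
  intro T hT G W hG1 hG2 hW s tt h1 h2 h3
  have hT0 : 0 < T := by linarith
  have hG0 : 0 < G := (Real.rpow_pos_of_pos hT0 _).trans_le hG1
  have hX : ∀ n : ℕ, T ^ ((n : ℝ) * e) = (T ^ e) ^ n := by
    intro n
    rw [← Real.rpow_natCast (T ^ e) n, ← Real.rpow_mul hT0.le, mul_comm]
  have hpar : ∀ r : ℕ, ((s.filter (fun m => m % 2 = r)).card : ℝ) ≤
      C * (T ^ e) ^ 40 * (T / (G * W ^ 2) + T ^ 2 / W ^ 6) := by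
    intro r
    have hsep : ∀ m ∈ s.filter (fun m => m % 2 = r), ∀ m' ∈ s.filter (fun m => m % 2 = r), m < m' →
        G ≤ tt m' - tt m := by
      intro m hm m' hm' hlt
      rw [Finset.mem_filter] at hm hm'
      have e1 : m + 2 ≤ m' := by omega
      have e2 : (m : ℝ) + 2 ≤ m' := by exact_mod_cast e1
      have e3 := (h2 m hm.1).2
      have e4 := (h2 m' hm'.1).1
      nlinarith
    have hsep' : ∀ m ∈ s.filter (fun m => m % 2 = r), ∀ m' ∈ s.filter (fun m => m % 2 = r), m ≠ m' →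
        G ≤ |tt m - tt m'| := by
      intro m hm m' hm' hne
      rcases lt_or_gt_of_ne hne with h | h
      · have := hsep m hm m' hm' h
        rw [abs_sub_comm]
        exact this.trans (le_abs_self _)
      · have := hsep m' hm' m hm h
        exact this.trans (le_abs_self _)
    have hinj : Set.InjOn tt (s.filter (fun m => m % 2 = r) : Finset ℕ) := by
      intro m hm m' hm' heq
      by_contra hne
      have := hsep' m hm m' hm' hne
      rw [heq, sub_self, abs_zero] at this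
      linarith
    have hcard : (((s.filter (fun m => m % 2 = r)).image tt).card : ℝ) = ((s.filter (fun m => m % 2 = r)).card : ℝ) := by
      rw [Finset.card_image_of_injOn hinj]
    rw [← hcard, ← hX 40]
    push_cast
    refine hLV T hT G W hG1 hG2 ?_ _ ?_ ?_ ?_
    · have := hX 3
      push_cast at this
      rw [this]
      exact hW
    · intro x hx
      rw [Finset.mem_image] at hx
      obtain ⟨m, hm, rfl⟩ := hx
      exact h1 m (Finset.mem_filter.1 hm).1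
    · intro x hx x' hx' hne
      rw [Finset.mem_image] at hx hx'
      obtain ⟨m, hm, rfl⟩ := hx
      obtain ⟨m', hm', rfl⟩ := hx'
      exact hsep' m hm m' hm' (fun h => hne (by rw [h]))
    · intro x hx
      rw [Finset.mem_image] at hx
      obtain ⟨m, hm, rfl⟩ := hx
      exact h3 m (Finset.mem_filter.1 hm).1
  have hsplit : s.card = (s.filter (fun m => m % 2 = 0)).card + (s.filter (fun m => m % 2 = 1)).card := by
    rw [← Finset.card_filter_add_card_filter_not (s := s) (fun m => m % 2 = 0)]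
    congr 2
    refine Finset.filter_congr (fun m _ => ?_)
    omega
  rw [hsplit]
  push_cast
  have := hpar 0
  have := hpar 1
  linarith

/-- contribution of one level -/
theorem six_key (e : ℝ) (he : 0 < e) (he1 : e ≤ 1 / 200) : ∃ C T₀ : ℝ, 0 ≤ C ∧ 1 ≤ T₀ ∧ ∀ T : ℝ, T₀ ≤ T →
    ∀ V : ℝ, T ^ ((1 : ℝ) / 4) ≤ V →
    ∫ u in six_lset T V, z2 u ^ 3 ≤ C * ((T ^ e) ^ 50 * (T ^ ((1 : ℝ) / 4)) ^ 5) := by
  obtain ⟨C, T₁, hC0, hT₁, hcount⟩ := six_count e he he1
  obtain ⟨T₂, hT₂, hlocal⟩ := six_local e he he1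
  obtain ⟨CP, hCP0, hCP⟩ := z2_point (1/12) (by norm_num)
  refine ⟨32 * C, max (max T₁ T₂) ((2 * CP) ^ (12 : ℝ)), by positivity,
    hT₁.trans ((le_max_left _ _).trans (le_max_left _ _)), ?_⟩
  intro T hT V hV
  have hT1 : T₁ ≤ T := ((le_max_left _ _).trans (le_max_left _ _)).trans hT
  have hT2 : T₂ ≤ T := ((le_max_right _ _).trans (le_max_left _ _)).trans hT
  have hT3 : (2 * CP) ^ (12 : ℝ) ≤ T := (le_max_right _ _).trans hT
  have hT0 : 0 < T := by linarith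
  have hT01 : 1 ≤ T := hT₁.trans hT1
  set X : ℝ := T ^ e with hXdef
  set Y : ℝ := T ^ ((1 : ℝ) / 4) with hYdef
  have hX1 : 1 ≤ X := Real.one_le_rpow hT01 he.le
  have hY1 : 1 ≤ Y := Real.one_le_rpow hT01 (by norm_num)
  have hTY : T = Y ^ 4 := by
    rw [hYdef, ← Real.rpow_natCast, ← Real.rpow_mul hT0.le]; norm_num
  have hV1 : 1 ≤ V := hY1.trans hV
  have hV0 : 0 < V := by linarith
  rcases (six_lset T V).eq_empty_or_nonempty with hemp | ⟨u0, hu0⟩
  · rw [hemp]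
    simp only [Measure.restrict_empty, integral_zero_measure]
    positivity
  -- `V ≤ T^{1/2}`
  have hVT : V ≤ T ^ ((1 : ℝ) / 2) := by
    obtain ⟨hu1, hu2, hu3⟩ := hu0
    have hu0' : 0 < u0 := by linarith [hu1.1]
    have h1 := hCP u0 (by rw [abs_of_pos hu0']; linarith [hu1.1])
    rw [abs_of_pos hu0', show (1/3 + 1/12 : ℝ) = 5/12 by norm_num] at h1
    have h2 : u0 ^ (5/12 : ℝ) ≤ 2 * T ^ (5/12 : ℝ) := by
      calc u0 ^ (5/12 : ℝ) ≤ (2 * T) ^ (5/12 : ℝ) := Real.rpow_le_rpow hu0'.le hu1.2 (by norm_num)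
        _ = 2 ^ (5/12 : ℝ) * T ^ (5/12 : ℝ) := Real.mul_rpow (by norm_num) hT0.le
        _ ≤ 2 * T ^ (5/12 : ℝ) := by
            have : (2 : ℝ) ^ (5/12 : ℝ) ≤ 2 ^ (1 : ℝ) :=
              Real.rpow_le_rpow_of_exponent_le (by norm_num) (by norm_num)
            rw [Real.rpow_one] at this
            gcongr
    have h3 : 2 * CP ≤ T ^ (1/12 : ℝ) := by
      have h4 : ((2 * CP) ^ (12 : ℝ)) ^ (1/12 : ℝ) ≤ T ^ (1/12 : ℝ) :=
        Real.rpow_le_rpow (by positivity) hT3 (by norm_num)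
      rwa [← Real.rpow_mul (by positivity), show (12 : ℝ) * (1/12) = 1 by norm_num, Real.rpow_one] at h4
    have h5 : T ^ ((1 : ℝ) / 2) = T ^ (1/12 : ℝ) * T ^ (5/12 : ℝ) := by
      rw [← Real.rpow_add hT0]; norm_num
    calc V ≤ CP * u0 ^ (5/12 : ℝ) := hu2.le.trans h1
      _ ≤ CP * (2 * T ^ (5/12 : ℝ)) := by gcongr
      _ = (2 * CP) * T ^ (5/12 : ℝ) := by ring
      _ ≤ T ^ (1/12 : ℝ) * T ^ (5/12 : ℝ) := by gcongr
      _ = _ := h5.symm
  set G : ℝ := V / X ^ 5 with hGdef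
  have hG0 : 0 < G := by positivity
  have hXn : ∀ n : ℕ, X ^ n = T ^ ((n : ℝ) * e) := by
    intro n
    rw [hXdef, ← Real.rpow_natCast (T ^ e) n, ← Real.rpow_mul hT0.le, mul_comm]
  have hG1 : T ^ ((1 : ℝ) / 5) ≤ G := by
    rw [hGdef, le_div_iff₀ (by positivity), hXn 5, ← Real.rpow_add hT0]
    refine le_trans ?_ hV
    refine Real.rpow_le_rpow_of_exponent_le hT01 ?_
    push_cast
    linarith
  have hG2 : G ≤ T ^ ((1 : ℝ) / 2) := by
    refine le_trans ?_ hVT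
    exact div_le_self hV0.le (one_le_pow₀ hX1)
  -- the cover
  set M : ℕ := ⌈T / G⌉₊ with hM
  have hMG : T ≤ M * G := by
    have := Nat.le_ceil (T / G)
    rw [div_le_iff₀ hG0] at this
    exact this
  set f : ℝ → ℝ := (six_lset T V).indicator (fun u => z2 u ^ 3) with hf
  have hcont3 : Continuous (fun u => z2 u ^ 3) := z2_cont.pow 3
  have hfint : ∀ a b : ℝ, IntervalIntegrable f volume a b := by
    intro a b
    rw [intervalIntegrable_iff]
    have h1 : IntegrableOn (fun u => z2 u ^ 3) (uIoc a b) volume :=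
      (intervalIntegrable_iff.1 (hcont3.intervalIntegrable a b))
    exact h1.indicator (six_lset_meas T V)
  have hf0 : ∀ u, 0 ≤ f u := fun u => indicator_nonneg (fun u _ => pow_nonneg (six_nonneg u) 3) u
  have hIf : ∫ u in six_lset T V, z2 u ^ 3 = ∫ u in T..(T + M * G), f u := by
    rw [intervalIntegral.integral_of_le (by linarith), hf, setIntegral_indicator (six_lset_meas T V)]
    congr 2
    rw [Set.inter_eq_self_of_subset_right]
    intro u hu
    exact ⟨hu.1.1, by linarith [hu.1.2]⟩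
  have hsum : ∫ u in T..(T + M * G), f u =
      ∑ m ∈ Finset.range M, ∫ u in (T + m * G)..(T + (m + 1 : ℕ) * G), f u := by
    rw [intervalIntegral.sum_integral_adjacent_intervals (a := fun k : ℕ => T + (k : ℝ) * G)
      (fun k _ => hfint _ _)]
    simp
  classical
  set I : ℕ → Set ℝ := fun m => six_lset T V ∩ Ioc (T + m * G) (T + (m + 1 : ℕ) * G) with hI
  set tt : ℕ → ℝ := fun m => if h : (I m).Nonempty then h.some else 0 with htt
  have htt' : ∀ m, (I m).Nonempty → tt m ∈ I m := by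
    intro m hm
    simp only [htt, dif_pos hm]
    exact hm.some_mem
  set s : Finset ℕ := (Finset.range M).filter (fun m => (I m).Nonempty) with hs
  set w : ℕ → ℝ := fun m => ∫ u in (tt m - G)..(tt m + G), z2 u with hw
  have hpiece : ∀ m, (I m).Nonempty → ∫ u in (T + m * G)..(T + (m + 1 : ℕ) * G), f u ≤ 4 * V ^ 2 * w m := by
    intro m hm
    have ht := htt' m hm
    have hab : T + (m : ℝ) * G ≤ T + (m + 1 : ℕ) * G := by push_cast; nlinarith
    have h1 : ∫ u in (T + m * G)..(T + (m + 1 : ℕ) * G), f u ≤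
        ∫ u in (T + m * G)..(T + (m + 1 : ℕ) * G), 4 * V ^ 2 * z2 u := by
      refine intervalIntegral.integral_mono_on hab (hfint _ _)
        ((z2_cont.const_smul (4 * V ^ 2)).intervalIntegrable _ _) ?_
      intro u _
      by_cases hu : u ∈ six_lset T V
      · rw [hf, indicator_of_mem hu]
        have h2 := six_nonneg u
        have h3 : z2 u ^ 2 ≤ (2 * V) ^ 2 := pow_le_pow_left₀ h2 hu.2.2 2
        nlinarith
      · rw [hf, indicator_of_notMem hu]
        have h2 := six_nonneg u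
        positivity
    rw [intervalIntegral.integral_const_mul] at h1
    refine h1.trans (mul_le_mul_of_nonneg_left ?_ (by positivity))
    refine intervalIntegral.integral_mono_interval ?_ hab ?_ (Eventually.of_forall fun u => six_nonneg u)
      (z2_cont.intervalIntegrable _ _)
    · have := ht.2.2
      push_cast at this
      linarith
    · have := ht.2.1
      push_cast
      linarith
  have hzero : ∀ m, ¬ (I m).Nonempty → ∫ u in (T + m * G)..(T + (m + 1 : ℕ) * G), f u = 0 := by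
    intro m hm
    have hab : T + (m : ℝ) * G ≤ T + (m + 1 : ℕ) * G := by push_cast; nlinarith
    rw [intervalIntegral.integral_of_le hab, hf, setIntegral_indicator (six_lset_meas T V)]
    have : Ioc (T + (m : ℝ) * G) (T + (m + 1 : ℕ) * G) ∩ six_lset T V = ∅ := by
      rw [Set.inter_comm]
      exact Set.not_nonempty_iff_eq_empty.1 hm
    rw [this]
    simp
  have hle : ∫ u in six_lset T V, z2 u ^ 3 ≤ 4 * V ^ 2 * ∑ m ∈ s, w m := by
    rw [hIf, hsum, ← Finset.sum_filter_add_sum_filter_not (Finset.range M) (fun m => (I m).Nonempty)]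
    have h1 : ∑ m ∈ (Finset.range M).filter (fun m => ¬ (I m).Nonempty),
        ∫ u in (T + m * G)..(T + (m + 1 : ℕ) * G), f u = 0 :=
      Finset.sum_eq_zero (fun m hm => hzero m (Finset.mem_filter.1 hm).2)
    rw [h1, add_zero, Finset.mul_sum]
    exact Finset.sum_le_sum (fun m hm => hpiece m (Finset.mem_filter.1 hm).2)
  have hdy := six_dyad' w (V / X ^ 2) (C * X ^ 40 * (T / G)) (C * X ^ 40 * T ^ 2) (by positivity)
    (by positivity) (by positivity) s (fun m hm => by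
      have ht := htt' m (Finset.mem_filter.1 hm).2
      exact hlocal T hT2 (tt m) ht.1.1.1.le ht.1.1.2 G V hG1 hV ht.1.2.1) (fun W hW => by
      have h1 := hcount T hT1 G W hG1 hG2 (by
          refine le_trans (le_of_eq ?_) hW
          rw [← hXdef, hGdef]; field_simp) (s.filter (fun m => W ≤ w m)) tt (fun m hm => by
          have ht := htt' m (Finset.mem_filter.1 (Finset.mem_filter.1 hm).1).2
          exact ⟨ht.1.1.1.le, ht.1.1.2⟩) (fun m hm => by
          have ht := htt' m (Finset.mem_filter.1 (Finset.mem_filter.1 hm).1).2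
          have h2 := ht.2.2
          push_cast at h2
          exact ⟨ht.2.1.le, h2⟩) (fun m hm => (Finset.mem_filter.1 hm).2)
      refine h1.trans (le_of_eq ?_)
      rw [← hXdef, mul_add]
      have hW0 : W ≠ 0 := by
        have : 0 < V / X ^ 2 := by positivity
        linarith
      field_simp)
  refine hle.trans ?_
  calc 4 * V ^ 2 * ∑ m ∈ s, w m ≤
      4 * V ^ 2 * (4 * (C * X ^ 40 * (T / G) / (V / X ^ 2) + C * X ^ 40 * T ^ 2 / (V / X ^ 2) ^ 5)) := by gcongr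
    _ = 16 * C * (X ^ 47 * T + X ^ 50 * (T ^ 2 / V ^ 3)) := by
        rw [hGdef]
        field_simp
        ring
    _ ≤ 16 * C * (X ^ 50 * Y ^ 5 + X ^ 50 * Y ^ 5) := by
        have h1 : X ^ 47 * T ≤ X ^ 50 * Y ^ 5 := by
          have h2 : X ^ 47 ≤ X ^ 50 := pow_le_pow_right₀ hX1 (by norm_num)
          have h3 : T ≤ Y ^ 5 := by
            rw [hTY]
            exact pow_le_pow_right₀ hY1 (by norm_num)
          gcongr
        have h2 : T ^ 2 / V ^ 3 ≤ Y ^ 5 := by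
          rw [div_le_iff₀ (by positivity), hTY]
          have h3 : Y ^ 3 ≤ V ^ 3 := pow_le_pow_left₀ (by linarith) hV 3
          calc (Y ^ 4) ^ 2 = Y ^ 5 * Y ^ 3 := by ring
            _ ≤ Y ^ 5 * V ^ 3 := by gcongr
        gcongr
    _ = 32 * C * (X ^ 50 * Y ^ 5) := by ring

theorem six_set (T R : ℝ) : {u : ℝ | u ∈ Ioc T (2 * T) ∧ z2 u ≤ 2 * R} =
    {u : ℝ | u ∈ Ioc T (2 * T) ∧ z2 u ≤ R} ∪ six_lset T R := by
  ext u
  constructor
  · rintro ⟨h1, h2⟩
    rcases le_or_gt (z2 u) R with h | h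
    · exact Or.inl ⟨h1, h⟩
    · exact Or.inr ⟨h1, h, h2⟩
  · rintro (⟨h1, h2⟩ | ⟨h1, h2, h3⟩)
    · refine ⟨h1, ?_⟩
      have := six_nonneg u
      linarith
    · exact ⟨h1, h3⟩

theorem six (ε : ℝ) (hε : 0 < ε) (hε1 : ε ≤ 1) : ∃ C : ℝ, 0 ≤ C ∧ ∀ T : ℝ, 1 ≤ T →
    ∫ u in T..(2 * T), z2 u ^ 3 ≤ C * T ^ (5 / 4 + ε) := by
  set e : ℝ := ε / 200 with hedef
  have he : 0 < e := by positivity
  have he1 : e ≤ 1 / 200 := by rw [hedef]; linarith
  obtain ⟨C, T₀, hC0, hT₀, hkey⟩ := six_key e he he1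
  obtain ⟨C₄, hC₄, hfour⟩ := z2_four e he
  obtain ⟨CP, hCP0, hCP⟩ := z2_point (1/12) (by norm_num)
  set T₁ : ℝ := max T₀ ((2 * CP) ^ (12 : ℝ)) with hT₁
  have hcont3 : Continuous (fun u => z2 u ^ 3) := z2_cont.pow 3
  set D : ℝ := ∫ u in (1 : ℝ)..(2 * T₁), z2 u ^ 3 with hD
  have hT₁1 : 1 ≤ T₁ := hT₀.trans (le_max_left _ _)
  have hD0 : 0 ≤ D := intervalIntegral.integral_nonneg (by linarith) (fun u _ => pow_nonneg (six_nonneg u) 3)
  refine ⟨D + 4 * C₄ + (2 + 1 / (2 * e)) * C, by positivity, ?_⟩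
  intro T hT1
  have hT0 : 0 < T := by linarith
  have hpow1 : 1 ≤ T ^ (5 / 4 + ε) := Real.one_le_rpow hT1 (by linarith)
  have hK : 0 ≤ (2 + 1 / (2 * e)) * C := by positivity
  rcases le_or_gt T T₁ with hle | hgt
  · have h1 : ∫ u in T..(2 * T), z2 u ^ 3 ≤ D :=
      intervalIntegral.integral_mono_interval hT1 (by linarith) (by linarith)
        (Eventually.of_forall fun u => pow_nonneg (six_nonneg u) 3) (hcont3.intervalIntegrable _ _)
    calc ∫ u in T..(2 * T), z2 u ^ 3 ≤ D * 1 := by linarith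
      _ ≤ (D + 4 * C₄ + (2 + 1 / (2 * e)) * C) * T ^ (5 / 4 + ε) := by
          refine mul_le_mul (by linarith) hpow1 zero_le_one (by positivity)
  have hT₀T : T₀ ≤ T := (le_max_left _ _).trans hgt.le
  have hT3 : (2 * CP) ^ (12 : ℝ) ≤ T := (le_max_right _ _).trans hgt.le
  set X : ℝ := T ^ e with hXdef
  set Y : ℝ := T ^ ((1 : ℝ) / 4) with hYdef
  have hX1 : 1 ≤ X := Real.one_le_rpow hT1 he.le
  have hY1 : 1 ≤ Y := Real.one_le_rpow hT1 (by norm_num)
  have hTY : T = Y ^ 4 := by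
    rw [hYdef, ← Real.rpow_natCast, ← Real.rpow_mul hT0.le]; norm_num
  have hsq : ∀ u ∈ Ioc T (2 * T), z2 u ≤ Y * Y := by
    intro u0 hu1
    have hu0' : 0 < u0 := by linarith [hu1.1]
    have h1 := hCP u0 (by rw [abs_of_pos hu0']; linarith [hu1.1])
    rw [abs_of_pos hu0', show (1/3 + 1/12 : ℝ) = 5/12 by norm_num] at h1
    have h2 : u0 ^ (5/12 : ℝ) ≤ 2 * T ^ (5/12 : ℝ) := by
      calc u0 ^ (5/12 : ℝ) ≤ (2 * T) ^ (5/12 : ℝ) := Real.rpow_le_rpow hu0'.le hu1.2 (by norm_num)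
        _ = 2 ^ (5/12 : ℝ) * T ^ (5/12 : ℝ) := Real.mul_rpow (by norm_num) hT0.le
        _ ≤ 2 * T ^ (5/12 : ℝ) := by
            have : (2 : ℝ) ^ (5/12 : ℝ) ≤ 2 ^ (1 : ℝ) :=
              Real.rpow_le_rpow_of_exponent_le (by norm_num) (by norm_num)
            rw [Real.rpow_one] at this
            gcongr
    have h3 : 2 * CP ≤ T ^ (1/12 : ℝ) := by
      have h4 : ((2 * CP) ^ (12 : ℝ)) ^ (1/12 : ℝ) ≤ T ^ (1/12 : ℝ) :=
        Real.rpow_le_rpow (by positivity) hT3 (by norm_num)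
      rwa [← Real.rpow_mul (by positivity), show (12 : ℝ) * (1/12) = 1 by norm_num, Real.rpow_one] at h4
    have h5 : Y * Y = T ^ (1/12 : ℝ) * T ^ (5/12 : ℝ) := by
      rw [hYdef, ← Real.rpow_add hT0, ← Real.rpow_add hT0]; norm_num
    calc z2 u0 ≤ CP * u0 ^ (5/12 : ℝ) := h1
      _ ≤ CP * (2 * T ^ (5/12 : ℝ)) := by gcongr
      _ = (2 * CP) * T ^ (5/12 : ℝ) := by ring
      _ ≤ T ^ (1/12 : ℝ) * T ^ (5/12 : ℝ) := by gcongr
      _ = _ := h5.symm
  have hint3 : IntegrableOn (fun u => z2 u ^ 3) (Ioc T (2 * T)) :=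
    (hcont3.continuousOn.integrableOn_Icc (a := T) (b := 2 * T)).mono_set Ioc_subset_Icc_self
  have hint2 : IntegrableOn (fun u => z2 u ^ 2) (Ioc T (2 * T)) :=
    ((z2_cont.pow 2).continuousOn.integrableOn_Icc (a := T) (b := 2 * T)).mono_set Ioc_subset_Icc_self
  -- the induction over the levels
  have hind : ∀ n : ℕ, ∫ u in {u : ℝ | u ∈ Ioc T (2 * T) ∧ z2 u ≤ 2 ^ n * Y}, z2 u ^ 3 ≤
      4 * C₄ * (X * Y ^ 5) + n * (C * (X ^ 50 * Y ^ 5)) := by
    intro n
    induction n with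
    | zero =>
      have hS : MeasurableSet {u : ℝ | u ∈ Ioc T (2 * T) ∧ z2 u ≤ 2 ^ 0 * Y} :=
        measurableSet_Ioc.inter (isClosed_le z2_cont continuous_const).measurableSet
      have hsub : {u : ℝ | u ∈ Ioc T (2 * T) ∧ z2 u ≤ 2 ^ 0 * Y} ⊆ Ioc T (2 * T) := fun u hu => hu.1
      have h1 : ∫ u in {u : ℝ | u ∈ Ioc T (2 * T) ∧ z2 u ≤ 2 ^ 0 * Y}, z2 u ^ 3 ≤
          ∫ u in {u : ℝ | u ∈ Ioc T (2 * T) ∧ z2 u ≤ 2 ^ 0 * Y}, Y * z2 u ^ 2 := by
        refine setIntegral_mono_on (hint3.mono_set hsub) ((hint2.mono_set hsub).const_mul Y) hS ?_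
        intro u hu
        have h2 := six_nonneg u
        have h3 : z2 u ≤ Y := by have := hu.2; simpa using this
        calc z2 u ^ 3 = z2 u * z2 u ^ 2 := by ring
          _ ≤ Y * z2 u ^ 2 := by gcongr
      have h2 : ∫ u in {u : ℝ | u ∈ Ioc T (2 * T) ∧ z2 u ≤ 2 ^ 0 * Y}, z2 u ^ 2 ≤
          ∫ u in (-(2 * T))..(2 * T), z2 u ^ 2 := by
        rw [intervalIntegral.integral_of_le (by linarith)]
        refine setIntegral_mono_set ?_ (Eventually.of_forall fun u => sq_nonneg _) ?_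
        · exact ((z2_cont.pow 2).continuousOn.integrableOn_Icc (a := -(2 * T)) (b := 2 * T)).mono_set
            Ioc_subset_Icc_self
        · refine Eventually.of_forall fun u hu => ?_
          exact ⟨by linarith [hu.1.1], hu.1.2⟩
      have h3 := hfour (2 * T) (by linarith)
      have h4 : (2 * T) ^ (1 + e) ≤ 4 * (X * Y ^ 4) := by
        rw [Real.mul_rpow (by norm_num) hT0.le, Real.rpow_add hT0, Real.rpow_one, ← hTY, mul_comm X T]
        have h5 : (2 : ℝ) ^ (1 + e) ≤ 2 ^ (2 : ℝ) :=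
          Real.rpow_le_rpow_of_exponent_le (by norm_num) (by linarith)
        have h6 : (2 : ℝ) ^ (2 : ℝ) = 4 := by norm_num
        rw [h6] at h5
        have h7 : 0 ≤ T * X := by positivity
        exact mul_le_mul_of_nonneg_right h5 h7
      rw [integral_const_mul] at h1
      simp only [Nat.cast_zero, zero_mul, add_zero]
      calc _ ≤ Y * ∫ u in {u : ℝ | u ∈ Ioc T (2 * T) ∧ z2 u ≤ 2 ^ 0 * Y}, z2 u ^ 2 := h1
        _ ≤ Y * (C₄ * (4 * (X * Y ^ 4))) := by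
            refine mul_le_mul_of_nonneg_left ?_ (by linarith)
            exact h2.trans (h3.trans (mul_le_mul_of_nonneg_left h4 hC₄))
        _ = 4 * C₄ * (X * Y ^ 5) := by ring
    | succ n ih =>
      have h1 : {u : ℝ | u ∈ Ioc T (2 * T) ∧ z2 u ≤ 2 ^ (n + 1) * Y} =
          {u : ℝ | u ∈ Ioc T (2 * T) ∧ z2 u ≤ 2 ^ n * Y} ∪ six_lset T (2 ^ n * Y) := by
        rw [← six_set T (2 ^ n * Y)]
        congr 1
        ext u
        rw [pow_succ, show (2 : ℝ) ^ n * 2 * Y = 2 * (2 ^ n * Y) by ring]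
      have hsub1 : {u : ℝ | u ∈ Ioc T (2 * T) ∧ z2 u ≤ 2 ^ n * Y} ⊆ Ioc T (2 * T) := fun u hu => hu.1
      have hsub2 : six_lset T (2 ^ n * Y) ⊆ Ioc T (2 * T) := fun u hu => hu.1
      have hdisj : Disjoint {u : ℝ | u ∈ Ioc T (2 * T) ∧ z2 u ≤ 2 ^ n * Y} (six_lset T (2 ^ n * Y)) := by
        rw [Set.disjoint_left]
        intro u hu hu'
        have h3 := hu.2
        have h4 := hu'.2.1
        linarith
      rw [h1, setIntegral_union hdisj (six_lset_meas _ _) (hint3.mono_set hsub1) (hint3.mono_set hsub2)]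
      have h2 := hkey T hT₀T (2 ^ n * Y) (by
        have : (1 : ℝ) ≤ 2 ^ n := one_le_pow₀ (by norm_num)
        nlinarith)
      push_cast
      linarith
  set N : ℕ := ⌈2 * Real.log Y⌉₊ with hN
  have hlogY : 0 ≤ Real.log Y := Real.log_nonneg hY1
  have hNY : Y ≤ 2 ^ N := by
    have h1 : 2 * Real.log Y ≤ N := Nat.le_ceil _
    have h2 : (1 / 2 : ℝ) ≤ Real.log 2 := by linarith [Real.log_two_gt_d9]
    have h3 : Real.log Y ≤ N * Real.log 2 := by nlinarith
    calc Y = Real.exp (Real.log Y) := (Real.exp_log (by linarith)).symm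
      _ ≤ Real.exp (N * Real.log 2) := Real.exp_le_exp.2 h3
      _ = 2 ^ N := by
          rw [← Real.log_pow, Real.exp_log (by positivity)]
  have hNX : (N : ℝ) ≤ (2 + 1 / (2 * e)) * X := by
    have h1 : (N : ℝ) ≤ 2 * Real.log Y + 1 := (Nat.ceil_lt_add_one (by positivity)).le
    have h2 : Real.log Y = Real.log X / (4 * e) := by
      rw [hYdef, hXdef, Real.log_rpow hT0, Real.log_rpow hT0]
      field_simp
    have h3 : Real.log X ≤ X := (Real.log_le_sub_one_of_pos (by linarith)).trans (by linarith)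
    have h4 : 2 * Real.log Y ≤ 1 / (2 * e) * X := by
      rw [h2]
      calc 2 * (Real.log X / (4 * e)) = 1 / (2 * e) * Real.log X := by field_simp; ring
        _ ≤ 1 / (2 * e) * X := by gcongr
    linarith
  have hset : {u : ℝ | u ∈ Ioc T (2 * T) ∧ z2 u ≤ 2 ^ N * Y} = Ioc T (2 * T) := by
    ext u
    refine ⟨fun h => h.1, fun h => ⟨h, (hsq u h).trans ?_⟩⟩
    gcongr
  have hfin := hind N
  rw [hset, ← intervalIntegral.integral_of_le (by linarith)] at hfin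
  have hXY : X ^ 51 * Y ^ 5 ≤ T ^ (5 / 4 + ε) := by
    rw [hXdef, hYdef, ← Real.rpow_natCast (T ^ e) 51, ← Real.rpow_mul hT0.le,
      ← Real.rpow_natCast (T ^ ((1 : ℝ) / 4)) 5, ← Real.rpow_mul hT0.le, ← Real.rpow_add hT0]
    refine Real.rpow_le_rpow_of_exponent_le hT1 ?_
    rw [hedef]
    push_cast
    linarith
  have hXX : X * Y ^ 5 ≤ X ^ 51 * Y ^ 5 := by
    have : X ≤ X ^ 51 := le_self_pow₀ hX1 (by norm_num)
    gcongr
  calc ∫ u in T..(2 * T), z2 u ^ 3 ≤ 4 * C₄ * (X * Y ^ 5) + N * (C * (X ^ 50 * Y ^ 5)) := hfin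
    _ ≤ 4 * C₄ * (X ^ 51 * Y ^ 5) + ((2 + 1 / (2 * e)) * X) * (C * (X ^ 50 * Y ^ 5)) := by gcongr
    _ = (4 * C₄ + (2 + 1 / (2 * e)) * C) * (X ^ 51 * Y ^ 5) := by ring
    _ ≤ (4 * C₄ + (2 + 1 / (2 * e)) * C) * T ^ (5 / 4 + ε) := by gcongr
    _ ≤ (D + 4 * C₄ + (2 + 1 / (2 * e)) * C) * T ^ (5 / 4 + ε) := by
        refine mul_le_mul_of_nonneg_right (by linarith) (by linarith)

end Pool.Agent.H15.HB
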