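import Pool.Agent.H15.HB.Defs
import Pool.Agent.H15.SC.MSfin
import Pool.Agent.H15.SC.ZetaInst

/-!
# HB-07  moments of `z2` and of the weight  (project HB, MP_be4568)

`z2_four`: `SC.mom_two (SC.zetaD_isSel 2)`: `(zetaD 2).F (1/2+it) = ζ(1/2+it)²` (`riemannZeta₁ s ^ 2 / (s-1)^2`).
`z2_mean`: `z2 ≤ 1 + z2²`.  `z2_cont`: `ζ` is continuous away from `1`.
`wt_exp`: `|wt u| ≤ z2 u` for `u ≥ 0` (`|1 + i e^{-πu}| ≥ 1`), `|wt u| ≤ z2 u e^{-π|u|}` for `u ≤ 0`; with `e^{-uy}`, `0 < y ≤ π/2`, use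
dyadic blocks (or integration by parts) and `z2_mean`: `∫_0^∞ z2 u e^{-uy} ≤ C y^{-(1+ε)}`, `∫_{-∞}^0 ≤ ∫ z2 e^{-π|u|/2} ≤ C`.
`z2_exp`: `z2 u e^{-c|u|}` is integrable for every `c > 0`.
-/

set_option autoImplicit false

open Complex Filter Topology MeasureTheory Set
open scoped ComplexConjugate

namespace Pool.Agent.H15.HB

namespace Wtk

theorem z2_eq (u : ℝ) : ‖(SC.zetaD 2).F (SC.ln (1/2) u)‖ = z2 u := by
  have h1 : SC.ln (1/2) u ≠ 1 := by
    intro h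
    have := congrArg Complex.re h
    simp at this
  have h2 : (SC.zetaD 2).F (SC.ln (1/2) u) = riemannZeta (SC.ln (1/2) u) ^ 2 := by
    show riemannZeta₁ (SC.ln (1/2) u) ^ 2 / (SC.ln (1/2) u - 1) ^ 2 = _
    rw [riemannZeta_eq_inv_sub_mul h1, mul_pow, inv_pow]
    ring
  rw [h2, norm_pow, z2]

theorem isSel : SC.IsSel (SC.zetaD 2) 2 := by
  have := SC.zetaD_isSel 2
  exact_mod_cast this

theorem z2_nonneg (u : ℝ) : 0 ≤ z2 u := by
  unfold z2; positivity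

/-- exponential against the dyadic weight of `SC.dyadic_moment` -/
theorem exp_le {y : ℝ} (hy : 0 < y) (hy2 : y ≤ 2) (t : ℝ) : Real.exp (-(y * |t|)) ≤
    (2 / y) ^ 2 * (1 / (1 + t ^ 2) * min 1 ((1 + |t|) ^ 2 / (2 / y) ^ 2)) := by
  have hR : 1 ≤ 2 / y := by rwa [le_div_iff₀ hy, one_mul]
  obtain ⟨R, hRd⟩ : ∃ R : ℝ, R = 2 / y := ⟨_, rfl⟩
  have hR1 : 1 ≤ R := by rw [hRd]; exact hR
  have hR0 : 0 < R := by linarith
  have hyR : y = 2 / R := by rw [hRd]; field_simp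
  rw [← hRd]
  have ht := abs_nonneg t
  have ht2 : |t| ^ 2 = t ^ 2 := sq_abs t
  have h1 : Real.exp (-(y * |t|)) ≤ R ^ 2 / (1 + t ^ 2) := by
    have hx : 0 ≤ y * |t| := by positivity
    have h2 := Real.quadratic_le_exp_of_nonneg hx
    rw [Real.exp_neg, inv_le_comm₀ (Real.exp_pos _) (by positivity), inv_div]
    refine le_trans ?_ h2
    rw [hyR, div_le_iff₀ (by positivity)]
    have h3 : (1 + 2 / R * |t| + (2 / R * |t|) ^ 2 / 2) * R ^ 2 = R ^ 2 + 2 * R * |t| + 2 * t ^ 2 := by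
      rw [← ht2]
      field_simp
      try ring
    rw [h3]
    nlinarith [mul_nonneg hR0.le ht, sq_nonneg t]
  have h2 : Real.exp (-(y * |t|)) ≤ (1 + |t|) ^ 2 / (1 + t ^ 2) := by
    have h3 : Real.exp (-(y * |t|)) ≤ 1 := Real.exp_le_one_iff.2 (by
      have : 0 ≤ y * |t| := by positivity
      linarith)
    refine h3.trans ?_
    rw [le_div_iff₀ (by positivity)]
    nlinarith
  rcases min_choice (1 : ℝ) ((1 + |t|) ^ 2 / R ^ 2) with h | h
  · rw [h]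
    calc _ ≤ _ := h1
      _ = _ := by ring
  · rw [h]
    calc _ ≤ _ := h2
      _ = _ := by field_simp

theorem exp_mom (g : ℝ → ℝ) (hg : Continuous g) (hg0 : ∀ u, 0 ≤ g u) (a C : ℝ) (ha : 0 < a) (ha2 : a < 2)
    (hC : 0 ≤ C) (h : ∀ U : ℝ, 1 ≤ U → ∫ u in (-U)..U, g u ≤ C * U ^ a) :
    ∃ K : ℝ, 0 ≤ K ∧ ∀ y : ℝ, 0 < y → y ≤ 2 → Integrable (fun u : ℝ => g u * Real.exp (-(y * |u|))) ∧
      ∫ u : ℝ, g u * Real.exp (-(y * |u|)) ≤ K * y ^ (-a) := by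
  obtain ⟨C', hC', hd⟩ := SC.dyadic_moment g hg hg0 a C ha ha2 hC h
  refine ⟨C' * 2 ^ a, by positivity, fun y hy hy2 => ?_⟩
  have hR : 1 ≤ 2 / y := by rwa [le_div_iff₀ hy, one_mul]
  obtain ⟨hi, hb⟩ := hd (2 / y) hR
  have hpt : ∀ u : ℝ, g u * Real.exp (-(y * |u|)) ≤
      (2 / y) ^ 2 * (g u / (1 + u ^ 2) * min 1 ((1 + |u|) ^ 2 / (2 / y) ^ 2)) := by
    intro u
    refine (mul_le_mul_of_nonneg_left (exp_le hy hy2 u) (hg0 u)).trans (le_of_eq ?_)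
    ring
  have hint : Integrable (fun u : ℝ => g u * Real.exp (-(y * |u|))) := by
    refine (hi.const_mul ((2 / y) ^ 2)).mono' (by fun_prop) (Eventually.of_forall fun u => ?_)
    rw [Real.norm_of_nonneg (mul_nonneg (hg0 u) (Real.exp_pos _).le)]
    exact hpt u
  refine ⟨hint, ?_⟩
  have h1 := integral_mono hint (hi.const_mul ((2 / y) ^ 2)) hpt
  rw [integral_const_mul] at h1
  refine h1.trans ((mul_le_mul_of_nonneg_left hb (by positivity)).trans (le_of_eq ?_))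
  have h2 : (2 / y) ^ (a - 2) = (2 / y) ^ a / (2 / y) ^ 2 := by
    rw [Real.rpow_sub (by positivity)]
    norm_num
  rw [h2, Real.div_rpow (by norm_num) hy.le, Real.rpow_neg hy.le]
  field_simp

theorem norm_den (u : ℝ) : 1 ≤ ‖1 + I * ((Real.exp (-(Real.pi * u)) : ℝ) : ℂ)‖ ∧
    Real.exp (-(Real.pi * u)) ≤ ‖1 + I * ((Real.exp (-(Real.pi * u)) : ℝ) : ℂ)‖ := by
  have h1 := Complex.abs_re_le_norm (1 + I * ((Real.exp (-(Real.pi * u)) : ℝ) : ℂ))
  have h2 := Complex.abs_im_le_norm (1 + I * ((Real.exp (-(Real.pi * u)) : ℝ) : ℂ))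
  have e1 : (1 + I * ((Real.exp (-(Real.pi * u)) : ℝ) : ℂ)).re = 1 := by simp [-Complex.ofReal_exp]
  have e2 : (1 + I * ((Real.exp (-(Real.pi * u)) : ℝ) : ℂ)).im = Real.exp (-(Real.pi * u)) := by
    simp [-Complex.ofReal_exp]
  rw [e1, abs_one] at h1
  rw [e2, abs_of_pos (Real.exp_pos _)] at h2
  exact ⟨h1, h2⟩

theorem norm_wt (u : ℝ) : ‖wt u‖ = z2 u / ‖1 + I * ((Real.exp (-(Real.pi * u)) : ℝ) : ℂ)‖ := by
  rw [wt, norm_div, Complex.norm_real, Real.norm_of_nonneg (z2_nonneg u)]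

theorem norm_wt_le (u : ℝ) : ‖wt u‖ ≤ z2 u := by
  rw [norm_wt]
  exact div_le_self (z2_nonneg u) (norm_den u).1

end Wtk

open Wtk

theorem z2_cont : Continuous z2 := by
  have h := (SC.F_half_cont isSel).norm
  exact h.congr z2_eq

theorem z2_four (ε : ℝ) (hε : 0 < ε) : ∃ C : ℝ, 0 ≤ C ∧ ∀ U : ℝ, 1 ≤ U →
    ∫ u in (-U)..U, z2 u ^ 2 ≤ C * U ^ (1 + ε) := by
  obtain ⟨C, hC, h⟩ := SC.mom_two isSel ε hε
  refine ⟨C, hC, fun U hU => ?_⟩
  have := h U hU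
  simp_rw [z2_eq] at this
  exact this

theorem z2_mean (ε : ℝ) (hε : 0 < ε) : ∃ C : ℝ, 0 ≤ C ∧ ∀ U : ℝ, 1 ≤ U →
    ∫ u in (-U)..U, z2 u ≤ C * U ^ (1 + ε) := by
  obtain ⟨C, hC, h⟩ := z2_four ε hε
  refine ⟨2 + C, by positivity, fun U hU => ?_⟩
  have hc := z2_cont
  have h1 : ∫ u in (-U)..U, z2 u ≤ ∫ u in (-U)..U, (1 + z2 u ^ 2) := by
    refine intervalIntegral.integral_mono_on (by linarith) (hc.intervalIntegrable _ _)
      (Continuous.intervalIntegrable (by fun_prop) _ _) (fun u _ => ?_)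
    nlinarith [sq_nonneg (z2 u - 1), z2_nonneg u]
  have h2 : ∫ u in (-U)..U, (1 + z2 u ^ 2) = 2 * U + ∫ u in (-U)..U, z2 u ^ 2 := by
    rw [intervalIntegral.integral_add (by simp) (Continuous.intervalIntegrable (by fun_prop) _ _)]
    congr 1
    simp
    ring
  have h3 : U ≤ U ^ (1 + ε) := by
    calc U = U ^ (1 : ℝ) := (Real.rpow_one U).symm
      _ ≤ _ := Real.rpow_le_rpow_of_exponent_le hU (by linarith)
  have h4 := h U hU
  rw [h2] at h1
  linarith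

theorem z2_exp (c : ℝ) (hc : 0 < c) : Integrable (fun u : ℝ => z2 u * Real.exp (-(c * |u|))) := by
  obtain ⟨C, hC, h⟩ := z2_mean (1/2) (by norm_num)
  obtain ⟨K, hK, hk⟩ := exp_mom z2 z2_cont z2_nonneg (1 + 1/2) C (by norm_num) (by norm_num) hC h
  have h1 := (hk (min c 2) (by positivity) (min_le_right _ _)).1
  have hc2 := z2_cont
  refine h1.mono' (by fun_prop) (Eventually.of_forall fun u => ?_)
  rw [Real.norm_of_nonneg (mul_nonneg (z2_nonneg u) (Real.exp_pos _).le)]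
  refine mul_le_mul_of_nonneg_left (Real.exp_le_exp.2 ?_) (z2_nonneg u)
  have := mul_le_mul_of_nonneg_right (min_le_left c 2) (abs_nonneg u)
  linarith

theorem wt_norm_pos {u : ℝ} (hu : 0 ≤ u) : ‖wt u‖ ≤ z2 u := norm_wt_le u

theorem wt_norm_neg {u : ℝ} (hu : u ≤ 0) : ‖wt u‖ ≤ z2 u * Real.exp (-(Real.pi * |u|)) := by
  have h := (norm_den u).2
  rw [norm_wt, abs_of_nonpos hu, div_le_iff₀ (lt_of_lt_of_le (Real.exp_pos _) h), mul_assoc]
  refine le_mul_of_one_le_right (z2_nonneg u) ?_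
  calc (1 : ℝ) = Real.exp (-(Real.pi * -u)) * Real.exp (-(Real.pi * u)) := by
        rw [← Real.exp_add]
        simp
    _ ≤ _ := mul_le_mul_of_nonneg_left h (Real.exp_pos _).le

theorem wt_exp (ε : ℝ) (hε : 0 < ε) : ∃ C : ℝ, 0 ≤ C ∧ ∀ y : ℝ, 0 < y → y ≤ Real.pi / 2 →
    Integrable (fun u : ℝ => ‖wt u‖ * Real.exp (-(u * y))) ∧
      ∫ u : ℝ, ‖wt u‖ * Real.exp (-(u * y)) ≤ C * y ^ (-(1 + ε)) := by
  obtain ⟨e, he, he1, heε⟩ : ∃ e : ℝ, 0 < e ∧ e < 1 ∧ e ≤ ε :=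
    ⟨min ε (1/2), by positivity, lt_of_le_of_lt (min_le_right _ _) (by norm_num), min_le_left _ _⟩
  obtain ⟨C, hC, h⟩ := z2_mean e he
  obtain ⟨K, hK, hk⟩ := exp_mom z2 z2_cont z2_nonneg (1 + e) C (by linarith) (by linarith) hC h
  refine ⟨K * 2 ^ (ε - e), by positivity, fun y hy hy2 => ?_⟩
  have hpi : Real.pi / 2 ≤ 2 := by linarith [Real.pi_le_four]
  obtain ⟨hi, hb⟩ := hk y hy (hy2.trans hpi)
  have hpt : ∀ u : ℝ, ‖wt u‖ * Real.exp (-(u * y)) ≤ z2 u * Real.exp (-(y * |u|)) := by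
    intro u
    rcases le_total 0 u with hu | hu
    · rw [abs_of_nonneg hu, mul_comm u y]
      exact mul_le_mul_of_nonneg_right (norm_wt_le u) (Real.exp_pos _).le
    · refine (mul_le_mul_of_nonneg_right (wt_norm_neg hu) (Real.exp_pos _).le).trans ?_
      rw [mul_assoc, ← Real.exp_add]
      refine mul_le_mul_of_nonneg_left (Real.exp_le_exp.2 ?_) (z2_nonneg u)
      rw [abs_of_nonpos hu]
      nlinarith
  have hc2 := z2_cont
  have hwc : Continuous wt := by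
    unfold wt
    refine Continuous.div (by fun_prop) (by fun_prop) (fun u h0 => ?_)
    have := (norm_den u).1
    rw [h0] at this
    norm_num at this
  have hint : Integrable (fun u : ℝ => ‖wt u‖ * Real.exp (-(u * y))) := by
    refine hi.mono' (by fun_prop) (Eventually.of_forall fun u => ?_)
    rw [Real.norm_of_nonneg (mul_nonneg (norm_nonneg _) (Real.exp_pos _).le)]
    exact hpt u
  refine ⟨hint, (integral_mono hint hi hpt).trans (hb.trans ?_)⟩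
  rw [mul_assoc]
  refine mul_le_mul_of_nonneg_left ?_ hK
  have h1 : y ^ (-(1 + e)) = y ^ (ε - e) * y ^ (-(1 + ε)) := by
    rw [← Real.rpow_add hy]
    congr 1
    ring
  rw [h1]
  refine mul_le_mul_of_nonneg_right ?_ (Real.rpow_nonneg hy.le _)
  exact Real.rpow_le_rpow hy.le (hy2.trans hpi) (by linarith)

end Pool.Agent.H15.HB
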